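import Pool.Agent.FF.AssemE
import Pool.Agent.FD.AssemD

/-! # From one curve of a dense family to curves of every large genus, characteristic two -/

set_option autoImplicit false

namespace Pool.Agent.FF

open Filter

/-- families of words contain linear codes -/
theorem BlkFN.toBlkN {N κ v : ℕ} (h : BlkFN N κ v) : BlkN N κ v := by
  intro ι _ _ hι W _ _ φ hW
  have := Fintype.ofFinite W
  obtain ⟨a, b, hab, hd⟩ := h ι hι W (fun w => φ w) (by rwa [← Nat.card_eq_fintype_card])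
  refine ⟨b - a, sub_ne_zero.2 hab.symm, ?_⟩
  rw [map_sub, sub_eq_neg_add]
  rwa [hammingDist_eq_hammingNorm] at hd

theorem BlkF.toBlk {B κ : ℕ} {u : ℝ} (h : BlkF B κ u) : Blk B κ u := by
  intro η hη
  obtain ⟨n₀, hn₀⟩ := h η hη
  refine ⟨n₀, fun n hn => ?_⟩
  obtain ⟨v, hv, h1⟩ := hn₀ n hn
  exact ⟨v, hv, h1.toBlkN⟩

/-- One curve of size `m`, characteristic two. -/
def CurveE (k : Type) [Field k] (A : ℕ) (p : ℝ × ℝ × ℝ) (m : ℝ) : Prop :=
  ∃ (K : Type) (_ : Field K) (_ : Algebra k K) (_ : CharP K 2)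
    (g n : ℕ) (T : Finset (DV K)), IsFF k K ∧ Cv k K g ∧ (g : ℝ) ≤ p.1 * m ∧
      Ob K n ∧ (n : ℝ) ≤ p.2.1 * m ∧ (∀ P ∈ T, P.Rat k) ∧
      p.2.2 * m ≤ T.card ∧
      ∀ r : ℕ, (A : ℝ) * (Real.logb 2 m + 1) ≤ r → ∃ Q : DV K, Q.deg (Nat.card k) = r

variable {k : Type} [Field k] [Finite k]

/-- **The curves of the families for one curve**, characteristic two. -/
theorem curveE_one {e : ℕ} {p : ℝ × ℝ × ℝ} (he : 1 ≤ e) (hp1 : 0 ≤ p.1) (hp2 : 0 ≤ p.2.1)
    (hp3 : 0 ≤ p.2.2) {B κb : ℕ} {u : ℝ} (hκB : κb < B) (hu : 0 ≤ u) (hblk : Blk B κb u)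
    (hk : Nat.card k = 2 ^ e) (A : ℕ) (C : ℝ) {ε : ℝ} (hε : 0 < ε) :
    ∃ m0 : ℝ, ∀ m : ℝ, m0 ≤ m → CurveE k A p m →
      ∀ G : ℕ, (p.2.1 + (κb : ℝ) / B * p.2.2 + ε) * m ≤ ((G : ℝ) - 2 * p.1 * m) * e →
        (G : ℝ) ≤ C * m →
        EC k G (_root_.FF.phiE e p (2 * u / ((B : ℝ) - κb)) m G - ε * m) := by
  classical
  obtain ⟨h, κ, ν⟩ := p
  simp only at hp1 hp2 hp3 ⊢
  have hlog : Nat.log 2 (Nat.card k) = e := by
    rw [hk, Nat.log_pow (by norm_num)]
  -- the constants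
  set lam : ℝ := (e : ℝ) with hlam
  have hlam2 : 1 ≤ lam := by
    rw [hlam]
    exact_mod_cast he
  have hlam0 : 0 < lam := by linarith
  obtain ⟨b', hb'0⟩ : ∃ b' : ℝ, 0 ≤ b' := ⟨0, le_rfl⟩
  have hB1 : (1 : ℝ) ≤ B := by
    have : 1 ≤ B := by omega
    exact_mod_cast this
  have hBκ : (1 : ℝ) ≤ (B : ℝ) - κb := by
    have : ((κb + 1 : ℕ) : ℝ) ≤ B := by exact_mod_cast hκB
    push_cast at this
    linarith
  have hκb0 : (0 : ℝ) ≤ κb := Nat.cast_nonneg _
  -- the loss per block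
  obtain ⟨η, hη0, hη⟩ : ∃ η : ℝ, 0 < η ∧ 8 * η * ν ≤ ε := by
    refine ⟨ε / (8 * (ν + 1)), by positivity, ?_⟩
    rw [mul_div_assoc', div_mul_eq_mul_div, div_le_iff₀ (by positivity)]
    have h1 : 8 * ε * ν = ε * (8 * ν) := by ring
    have h2 : ε * (8 * (ν + 1)) = ε * (8 * ν) + 8 * ε := by ring
    rw [h1, h2]
    linarith
  obtain ⟨n₀, hn₀⟩ := hblk η hη0
  set c0 : ℝ := 2 * b' * lam + b' + 2 with hc0
  have hc00 : 0 ≤ c0 := by positivity
  obtain ⟨m1, hm1'⟩ := linD (A * lam) (A * lam + (5 + 2 * b') * lam) ε hε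
  obtain ⟨m2, hm2⟩ := linD 0 (c0 + B * (n₀ + 2) + b' + 1) ε hε
  obtain ⟨m4, hm4⟩ := linD 0 (2 * (c0 + b' + 2)) ε hε
  obtain ⟨m3, hm3⟩ := linD 0 (2 * b' + 2 + 2 * (u + η) * (c0 + n₀ + 2)) (ε / 4)
    (by linarith)
  refine ⟨max 1 (max m4 (max m1 (max m2 m3))), fun m hm Hm G hG1 hGC => ?_⟩
  have hm1 : 1 ≤ m := (le_max_left _ _).trans hm
  have hmm := (le_max_right _ _).trans hm
  have e4 := hm4 m ((le_max_left _ _).trans hmm)
  have hmm1 := (le_max_right _ _).trans hmm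
  have e1 := hm1' m ((le_max_left _ _).trans hmm1)
  have hmm2 := (le_max_right _ _).trans hmm1
  have e2 := hm2 m ((le_max_left _ _).trans hmm2)
  have e3 := hm3 m ((le_max_right _ _).trans hmm2)
  rw [zero_mul, zero_add] at e2 e3 e4
  have hm0 : 0 < m := by linarith
  set l : ℝ := Real.logb 2 m with hl
  have hl0 : 0 ≤ l := Real.logb_nonneg one_lt_two hm1
  have hεm : 0 < ε * m := by positivity
  have hκm : 0 ≤ κ * m := by positivity
  have hhm : 0 ≤ h * m := by positivity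
  have hνm : 0 ≤ ν * m := by positivity
  have hrat : 0 ≤ (κb / B : ℝ) * ν := by positivity
  have hratm : 0 ≤ (κb / B : ℝ) * ν * m := by positivity
  -- the room
  set X : ℝ := ((G : ℝ) - 2 * h * m) * lam - κ * m with hX
  have hXlow : (κb / B : ℝ) * ν * m + ε * m ≤ X := by
    rw [hX]
    have h1 : (κ + κb / B * ν + ε) * m = κ * m + κb / B * ν * m + ε * m := by ring
    linarith
  unfold _root_.FF.phiE
  simp only
  -- the field
  obtain ⟨K, iF, iA, iC, g, n, T, hFF, hCv, hg, hOb, hn, hT, hTc, hQ⟩ := Hm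
  simp only at hg hn hTc hQ
  have hgR : (g : ℝ) ≤ b' + h * m := by linarith
  have hnR : (n : ℝ) ≤ b' + κ * m := by linarith
  -- the degree of the place
  have hr5 : (A * (l + 1) + (5 + 2 * b')) * lam ≤ ((G : ℝ) - 2 * h * m) * lam := by
    calc (A * (l + 1) + (5 + 2 * b')) * lam =
          A * lam * l + (A * lam + (5 + 2 * b') * lam) := by ring
      _ ≤ ε * m := e1
      _ ≤ (κ + κb / B * ν + ε) * m := by
        have h0 : 0 ≤ (κb / B : ℝ) * ν * m := by positivity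
        have h1 : (κ + (κb / B : ℝ) * ν + ε) * m = κ * m + (κb / B : ℝ) * ν * m + ε * m := by ring
        rw [h1]
        linarith
      _ ≤ _ := hG1
  have hr5' : (A * (l + 1) + (5 + 2 * b')) ≤ (G : ℝ) - 2 * h * m :=
    le_of_mul_le_mul_right hr5 hlam0
  have hGg : 2 * g + 2 ≤ G := by
    have h0 : (0 : ℝ) ≤ A * (l + 1) := by positivity
    have : (2 : ℝ) * g + 2 ≤ G := by
      have h1 : 2 * h * m = 2 * (h * m) := by ring
      rw [h1] at hr5'
      linarith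
    exact_mod_cast this
  obtain ⟨r, hr⟩ : ∃ r : ℕ, 2 * g + r = G + 1 := ⟨G + 1 - 2 * g, by omega⟩
  have hrR : (2 : ℝ) * g + r = G + 1 := by exact_mod_cast hr
  have hr3 : 3 ≤ r := by omega
  have hrA : (A : ℝ) * (l + 1) ≤ r := by
    have h1 : 2 * h * m = 2 * (h * m) := by ring
    rw [h1] at hr5'
    linarith
  obtain ⟨Q, hQr⟩ := hQ r hrA
  -- a subset of the rational places
  obtain ⟨τ, hτ1, hτ2, hτ3⟩ : ∃ τ : ℕ, τ ≤ T.card ∧ (τ : ℝ) ≤ ν * m ∧
      ν * m - b' - 1 ≤ τ := by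
    refine ⟨min T.card ⌊ν * m⌋₊, min_le_left _ _, ?_, ?_⟩
    · have h1 : ((min T.card ⌊ν * m⌋₊ : ℕ) : ℝ) ≤ (⌊ν * m⌋₊ : ℝ) := by
        exact_mod_cast min_le_right _ _
      exact h1.trans (Nat.floor_le (by positivity))
    · rw [Nat.cast_min, le_min_iff]
      constructor
      · linarith
      · have := Nat.lt_floor_add_one (ν * m)
        linarith
  obtain ⟨T₀, hT₀, hT₀c⟩ := Finset.exists_subset_card_eq hτ1
  have hQT : Q ∉ T₀ := by
    intro h
    have h1 := (hT Q (hT₀ h)).deg_eq_one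
    omega
  -- the room, in the field
  have hroom : X - c0 + 2 ≤ lam * r - n := by
    have h1 : lam * r = ((G : ℝ) + 1 - 2 * g) * lam := by
      have : (r : ℝ) = G + 1 - 2 * g := by linarith
      rw [this]; ring
    rw [h1, hX, hc0]
    have h3 : (G : ℝ) - 2 * h * m - 2 * b' ≤ (G : ℝ) + 1 - 2 * g := by linarith
    have h4 := mul_le_mul_of_nonneg_right h3 hlam0.le
    have h5 : ((G : ℝ) - 2 * h * m - 2 * b') * lam = ((G : ℝ) - 2 * h * m) * lam - 2 * b' * lam := by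
      ring
    rw [h5] at h4
    linarith
  have hG : 2 * g + Q.deg (Nat.card k) - 1 = G := by rw [hQr]; omega
  rcases le_or_gt (ν * m) X with hle | hlt
  · -- all points split
    obtain ⟨s, hs1, hs2, hs3⟩ : ∃ s : ℕ, s ≤ τ ∧ (s : ℝ) + n + 1 ≤ lam * r ∧
        ν * m - c0 - b' - 2 ≤ s := by
      have h0 : 0 ≤ lam * r - n - 1 := by linarith
      refine ⟨min τ ⌊lam * r - n - 1⌋₊, min_le_left _ _, ?_, ?_⟩
      · have h1 : ((min τ ⌊lam * r - n - 1⌋₊ : ℕ) : ℝ) ≤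
            (⌊lam * r - n - 1⌋₊ : ℝ) := by exact_mod_cast min_le_right _ _
        have h3 := h1.trans (Nat.floor_le h0)
        linarith
      · rw [Nat.cast_min, le_min_iff]
        constructor
        · linarith
        · have := Nat.lt_floor_add_one (lam * r - n - 1)
          linarith
    have hs4 : n + s + 1 ≤ e * r := by
      have : (n : ℝ) + s + 1 ≤ e * r := by
        rw [← hlam]
        linarith
      exact_mod_cast this
    obtain ⟨N, hN, hcount⟩ := hasCurve_blk hFF hCv hOb Q T₀ hQT (fun P hP => hT P (hT₀ hP))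
      (s := s) blkFN_zero.toBlkN (by rw [hT₀c]; omega) (by
        rw [hlog, hQr]
        exact hs4)
    rw [hG] at hN
    refine ⟨N, ?_, hN⟩
    have h5 : 2 * s ≤ N := by
      rw [hT₀c] at hcount
      omega
    have h5' : 2 * (s : ℝ) ≤ N := by exact_mod_cast h5
    have h6 := min_le_right (2 * ν * m - 2 * u / ((B : ℝ) - κb) *
      (ν * m - (((G : ℝ) - 2 * h * m) * lam - κ * m))) (2 * ν * m)
    linarith
  -- the number of blocks
  set y : ℝ := (ν * m - X + c0) / ((B : ℝ) - κb) with hy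
  have hy0 : 0 ≤ y := by
    rw [hy]
    have : 0 ≤ ν * m - X + c0 := by linarith
    have : 0 < (B : ℝ) - κb := by linarith
    positivity
  have hyB : ((B : ℝ) - κb) * y = ν * m - X + c0 := by
    rw [hy]
    have : (B : ℝ) - κb ≠ 0 := by linarith
    field_simp
  obtain ⟨w, hw1, hw2, hw3⟩ : ∃ w : ℕ, n₀ + 1 ≤ w ∧ y ≤ w ∧ (w : ℝ) ≤ y + n₀ + 2 := by
    refine ⟨⌈y⌉₊ + n₀ + 1, by omega, ?_, ?_⟩
    · push_cast
      have := Nat.le_ceil y
      have h0 : (0 : ℝ) ≤ n₀ := Nat.cast_nonneg _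
      linarith
    · push_cast
      have := Nat.ceil_lt_add_one hy0
      linarith
  -- the blocks fit
  have hBX : (κb : ℝ) * (ν * m) + B * (ε * m) ≤ B * X := by
    have h1 := mul_le_mul_of_nonneg_left hXlow (by linarith : (0 : ℝ) ≤ B)
    have h2 : (B : ℝ) * ((κb / B : ℝ) * ν * m + ε * m) = κb * (ν * m) + B * (ε * m) := by
      field_simp
    rwa [h2] at h1
  have hn₀0 : (0 : ℝ) ≤ n₀ := Nat.cast_nonneg _
  have hfit : (B : ℝ) * w ≤ τ := by
    have h1 : (B : ℝ) * w ≤ B * (y + n₀ + 2) := mul_le_mul_of_nonneg_left hw3 (by linarith)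
    have h2 : (B : ℝ) * (y + n₀ + 2) ≤ ν * m - b' - 1 := by
      have h3 : ((B : ℝ) - κb) * (B * (y + n₀ + 2)) ≤ ((B : ℝ) - κb) * (ν * m - b' - 1) := by
        have h4 : ((B : ℝ) - κb) * (B * (y + n₀ + 2)) =
            B * (ν * m - X + c0) + ((B : ℝ) - κb) * (B * (n₀ + 2)) := by
          rw [← hyB]; ring
        rw [h4]
        have h5 : ((B : ℝ) - κb) * (B * (n₀ + 2) + b' + 1) ≤ B * (B * (n₀ + 2) + b' + 1) :=
          mul_le_mul_of_nonneg_right (by linarith) (by positivity)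
        have h6 : (B : ℝ) * (c0 + (B * (n₀ + 2) + b' + 1)) ≤ B * (ε * m) :=
          mul_le_mul_of_nonneg_left (by linarith) (by linarith)
        have h7 : ((B : ℝ) - κb) * (ν * m - b' - 1) =
            B * (ν * m) - κb * (ν * m) - ((B : ℝ) - κb) * (b' + 1) := by ring
        have h8 : ((B : ℝ) - κb) * (B * (n₀ + 2) + b' + 1) =
            ((B : ℝ) - κb) * (B * (n₀ + 2)) + ((B : ℝ) - κb) * (b' + 1) := by ring
        have h9 : (B : ℝ) * (ν * m - X + c0) = B * (ν * m) - B * X + B * c0 := by ring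
        have h10 : (B : ℝ) * (c0 + (B * (n₀ + 2) + b' + 1)) =
            B * c0 + B * (B * (n₀ + 2) + b' + 1) := by ring
        rw [h7, h9]
        rw [h8] at h5
        rw [h10] at h6
        linarith
      exact le_of_mul_le_mul_left h3 (by linarith)
    linarith
  have hfitN : B * w ≤ τ := by exact_mod_cast hfit
  obtain ⟨s, hs⟩ : ∃ s : ℕ, s + B * w = τ := ⟨τ - B * w, by omega⟩
  have hsR : (s : ℝ) + B * w = τ := by exact_mod_cast hs
  have hbig : n + s + κb * w ≤ e * r := by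
    have h1 : (n : ℝ) + s + κb * w ≤ lam * r := by
      have h2 : ((B : ℝ) - κb) * y ≤ ((B : ℝ) - κb) * w :=
        mul_le_mul_of_nonneg_left hw2 (by linarith)
      have h3 : (s : ℝ) + κb * w = τ - ((B : ℝ) - κb) * w := by rw [← hsR]; ring
      linarith
    have : (n : ℝ) + s + κb * w ≤ e * r := h1
    exact_mod_cast this
  obtain ⟨v, hv, hblkN⟩ := hn₀ w (by omega)
  obtain ⟨N, hN, hcount⟩ := hasCurve_blk hFF hCv hOb Q T₀ hQT (fun P hP => hT P (hT₀ hP)) hblkN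
    (by rw [hT₀c, hs]) (by
      rw [hlog, hQr]
      exact hbig)
  rw [hG] at hN
  refine ⟨N, ?_, hN⟩
  -- the count in the reals
  have hw0 : (0 : ℝ) ≤ w := Nat.cast_nonneg _
  have hcR : 2 * (τ : ℝ) ≤ N + 2 * ((u + η) * w) := by
    have h1 : T₀.card - (s + B * w) = 0 := by rw [hT₀c]; omega
    rw [h1, zero_add, hT₀c] at hcount
    have h2 : ((2 * τ : ℕ) : ℝ) ≤ ((N + 2 * v : ℕ) : ℝ) := by exact_mod_cast hcount
    push_cast at h2
    linarith
  set β : ℝ := 2 * u / ((B : ℝ) - κb) with hβ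
  have hbeta : β * ((B : ℝ) - κb) = 2 * u := by
    rw [hβ]
    have : (B : ℝ) - κb ≠ 0 := by linarith
    field_simp
  have hβ0 : 0 ≤ β := by
    rw [hβ]
    have : 0 < (B : ℝ) - κb := by linarith
    positivity
  have hLy : 2 * u * y = β * (ν * m - X) + β * c0 := by
    rw [← hbeta]
    calc β * ((B : ℝ) - κb) * y = β * (((B : ℝ) - κb) * y) := by ring
      _ = _ := by rw [hyB]; ring
  have hβle : β ≤ 2 * u := by
    rw [← hbeta]
    exact le_mul_of_one_le_right hβ0 hBκ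
  have hX0 : 0 ≤ X := by
    have : 0 ≤ (κb / B : ℝ) * ν * m := by positivity
    linarith
  have hyle : y ≤ ν * m + c0 := by
    have h1 : y ≤ ((B : ℝ) - κb) * y := le_mul_of_one_le_left hy0 hBκ
    rw [hyB] at h1
    linarith
  have hp1' : 2 * u * w ≤ β * (ν * m - X) + 2 * u * (c0 + n₀ + 2) := by
    have h1 : 2 * u * w ≤ 2 * u * (y + n₀ + 2) := mul_le_mul_of_nonneg_left hw3 (by linarith)
    have h2 : β * c0 ≤ 2 * u * c0 := mul_le_mul_of_nonneg_right hβle hc00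
    have h3 : 2 * u * (y + n₀ + 2) = 2 * u * y + 2 * u * (n₀ + 2) := by ring
    rw [h3, hLy] at h1
    linarith
  have hp2' : 2 * η * w ≤ ε / 4 * m + 2 * η * (c0 + n₀ + 2) := by
    have h1 : 2 * η * w ≤ 2 * η * (ν * m + c0 + n₀ + 2) :=
      mul_le_mul_of_nonneg_left (by linarith) (by linarith)
    have h2 : 2 * η * (ν * m) ≤ ε / 4 * m := by
      calc 2 * η * (ν * m) = 8 * η * ν / 4 * m := by ring
        _ ≤ _ := mul_le_mul_of_nonneg_right (by linarith) hm0.le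
    linarith
  have hmin := min_le_left (2 * ν * m - β *
      (ν * m - (((G : ℝ) - 2 * h * m) * lam - κ * m))) (2 * ν * m)
  rw [← hX] at hmin ⊢
  have h9 : 2 * (u + η) * (c0 + n₀ + 2) = 2 * u * (c0 + n₀ + 2) + 2 * η * (c0 + n₀ + 2) := by ring
  have h10 : ε / 4 * m + ε / 4 * m ≤ ε * m := by
    have h12 : ε / 4 * m + ε / 4 * m = ε * m / 2 := by ring
    rw [h12]
    linarith
  have h11 : 2 * ((u + η) * w) = 2 * u * w + 2 * η * w := by ring
  linarith

end Pool.Agent.FF
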