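import Pool.Agent.FF.WApp
import Pool.Agent.FF.Over
import Pool.Agent.FF.RatCv
import Pool.Agent.FF.RRD
import Pool.Agent.FO.Defs

/-! # Drinfeld modular curves: definitions (page H/e9b03e_T4) -/

set_option autoImplicit false

namespace Pool.Agent.FF

/-! ### Extensions -/

section ext

variable {K E : Type*} [Field K] [Field E] [Algebra K E]

/-- `w` lies over `v` with ramification index `e` -/
def OverE (w : DV E) (v : DV K) (e : ℕ) : Prop :=
  0 < e ∧ ∀ a : K, w.ord (algebraMap K E a) = e * v.ord a

/-- `a` is integral at all places over `v` -/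
def IntO (v : DV K) (a : E) : Prop := ∀ w : DV E, Over w v → w.G 0 a

/-- the place `w` transported by the automorphism `s`: `(w.act s)(x) = w (s⁻¹ x)` -/
def DV.act (w : DV E) (s : E ≃ₐ[K] E) : DV E where
  ord x := w.ord (s.symm x)
  ord_zero := by rw [map_zero, w.ord_zero]
  ord_mul a b ha hb := by
    rw [map_mul]
    exact w.ord_mul _ _ (by simpa using ha) (by simpa using hb)
  ord_add a b ha hb hab := by
    rw [map_add]
    refine w.ord_add _ _ (by simpa using ha) (by simpa using hb) ?_
    rw [← map_add]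
    exact (map_ne_zero s.symm).2 hab
  exists_one := by
    obtain ⟨t, ht, h1⟩ := w.exists_one
    exact ⟨s t, by simpa using ht, by simpa using h1⟩

end ext

/-! ### The Drinfeld module `φ_T(x) = x + g x ^ r - x ^ (r ^ 2)` -/

section drinfeld

variable (F : Type*) {H : Type*} [Field F] [Finite F] [Field H] [Algebra F H]

/-- the additivity of `x ↦ x ^ r ^ n`, `r` the number of elements of `F` -/
theorem add_pow_card (n : ℕ) (x y : H) :
    (x + y) ^ Nat.card F ^ n = x ^ Nat.card F ^ n + y ^ Nat.card F ^ n := by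
  have := Fintype.ofFinite F
  obtain ⟨p, hp⟩ := CharP.exists F
  obtain ⟨m, hpp, hc⟩ := FiniteField.card F p
  have : Fact p.Prime := ⟨hpp⟩
  have : CharP H p := charP_of_injective_algebraMap (algebraMap F H).injective p
  rw [Nat.card_eq_fintype_card, hc, ← pow_mul]
  exact add_pow_char_pow (R := H) (p := p) ..

theorem map_pow_card (n : ℕ) (c : F) : (algebraMap F H c) ^ Nat.card F ^ n = algebraMap F H c := by
  have := Fintype.ofFinite F
  rw [← map_pow, Nat.card_eq_fintype_card, FiniteField.pow_card_pow]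

/-- `φ_T` -/
noncomputable def phT (g : H) : H →ₗ[F] H where
  toFun x := x + g * x ^ Nat.card F - x ^ Nat.card F ^ 2
  map_add' x y := by
    have h1 := add_pow_card F 1 x y
    rw [pow_one] at h1
    rw [h1, add_pow_card F 2 x y]
    ring
  map_smul' c x := by
    have h1 := map_pow_card F (H := H) 1 c
    rw [pow_one] at h1
    simp only [Algebra.smul_def, mul_pow, RingHom.id_apply, h1, map_pow_card F (H := H) 2 c]
    ring

theorem phT_apply (g x : H) : phT F g x = x + g * x ^ Nat.card F - x ^ Nat.card F ^ 2 := rfl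

/-- `φ_N` -/
noncomputable def phN (g : H) (N : Polynomial F) : H →ₗ[F] H := Polynomial.aeval (phT F g) N

/-- the `N`-torsion in `H` -/
noncomputable def VN (g : H) (N : Polynomial F) : Submodule F H := LinearMap.ker (phN F g N)

/-- a line of the `M`-torsion: a `φ_T`-stable subspace with `r ^ deg M` elements -/
structure IsLine (g : H) (M : Polynomial F) (L : Submodule F H) : Prop where
  le : L ≤ VN F g M
  st : ∀ x ∈ L, phT F g x ∈ L
  card : Nat.card L = Nat.card F ^ M.natDegree

/-- the torsion elements with `b(x) ≤ β r ^ (- t)`, `b(x) = 1 / (r - 1) - ord x / e`, `e = - ord g`,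
`β = (r + 1) / (r (r - 1))` -/
def InU (g : H) (Q : DV H) (t : ℕ) (x : H) : Prop :=
  x = 0 ∨ (Nat.card F : ℤ) ^ (t + 1) * (- Q.ord g - ((Nat.card F : ℤ) - 1) * Q.ord x) ≤
    ((Nat.card F : ℤ) + 1) * (- Q.ord g)

/-- the torsion elements with `b(x) ≤ 0` -/
def InV0 (g : H) (Q : DV H) (x : H) : Prop :=
  x = 0 ∨ - Q.ord g ≤ ((Nat.card F : ℤ) - 1) * Q.ord x

/-- `V_0`, the elements of the `N`-torsion with `b = 0` (`ord g < 0`) -/
noncomputable def V0 (g : H) (Q : DV H) (N : Polynomial F) : Submodule F H where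
  carrier := {x | x ∈ VN F g N ∧ Q.G 0 x ∧ InV0 F g Q x}
  zero_mem' := ⟨zero_mem _, DV.G_zero _, Or.inl rfl⟩
  add_mem' := by
    rintro x y ⟨hx, hx0, hx1⟩ ⟨hy, hy0, hy1⟩
    refine ⟨add_mem hx hy, hx0.add hy0, ?_⟩
    by_cases h0 : x = 0
    · simpa [h0] using hy1
    by_cases h1 : y = 0
    · simpa [h1] using hx1
    by_cases h2 : x + y = 0
    · exact Or.inl h2
    have h3 := Q.ord_add x y h0 h1 h2
    have h4 := hx1.resolve_left h0
    have h5 := hy1.resolve_left h1
    have h6 : (0 : ℤ) ≤ (Nat.card F : ℤ) - 1 := by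
      have : 1 < Nat.card F := Finite.one_lt_card
      omega
    right
    rcases min_le_iff.1 h3 with h | h
    · exact h4.trans (mul_le_mul_of_nonneg_left h h6)
    · exact h5.trans (mul_le_mul_of_nonneg_left h h6)
  smul_mem' := by
    rintro c x ⟨hx, hx0, hx1⟩
    by_cases hc : c = 0
    · simp only [hc, zero_smul]
      exact ⟨zero_mem _, DV.G_zero _, Or.inl rfl⟩
    by_cases h0 : x = 0
    · simp only [h0, smul_zero]
      exact ⟨zero_mem _, DV.G_zero _, Or.inl rfl⟩
    have hc' : algebraMap F H c ≠ 0 := by rwa [Ne, map_eq_zero]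
    have h1 : Q.ord (algebraMap F H c) = 0 := RRD.ord_algebraMap Q hc
    have h2 : Q.ord (c • x) = Q.ord x := by
      rw [Algebra.smul_def, Q.ord_mul _ _ hc' h0, h1, zero_add]
    have h3 : c • x ≠ 0 := smul_ne_zero hc h0
    refine ⟨Submodule.smul_mem _ c hx, Or.inr (by rw [h2]; exact hx0.le h0), Or.inr ?_⟩
    rw [h2]
    exact hx1.resolve_left h0

/-- the product of the nonzero elements of a subspace -/
noncomputable def cL (L : Submodule F H) : H := ∏ᶠ (v : H) (_ : v ∈ L ∧ v ≠ 0), v

end drinfeld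

/-- `g` in a field over `k(g)` -/
noncomputable abbrev gX (k H : Type*) [Field k] [Field H] [Algebra (RatFunc k) H] : H :=
  algebraMap (RatFunc k) H RatFunc.X

/-- The setting: `F ⊂ k`, `|k| = |F| ^ 2`, `H` Galois over `k(g)`, generated by the `N`-torsion,
which is full. -/
structure DrS (F k H : Type*) [Field F] [Finite F] [Field k] [Finite k] [Field H] [Algebra F k]
    [Algebra F H] [Algebra (RatFunc k) H] (N : Polynomial F) : Prop where
  card : Nat.card k = Nat.card F ^ 2
  tower : ∀ c : F, algebraMap F H c = algebraMap (RatFunc k) H (RatFunc.C (algebraMap F k c))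
  monic : N.Monic
  one : N.eval 1 ≠ 0
  fin : FiniteDimensional (RatFunc k) H
  gal : IsGalois (RatFunc k) H
  cardV : Nat.card (VN F (gX k H) N) = Nat.card F ^ (2 * N.natDegree)
  gen : IntermediateField.adjoin (RatFunc k) (VN F (gX k H) N : Set H) = ⊤

end Pool.Agent.FF
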