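import Pool.Agent.FF.DegR
import Pool.Agent.FF.TmRes

/-! Bombieri's bound in characteristic `p`, twisted by an automorphism which need not fix the
rational place. -/

set_option autoImplicit false

namespace Pool.Agent.FF

theorem LR_G {F : Type*} [Field F] {R : DV F} {n : ℕ} {a : F} (ha : a ∈ LR R n) (P : DV F)
    [Decidable (R = P)] : P.G (-(if R = P then (n : ℤ) else 0)) a := by
  split_ifs with h
  · rw [← h]
    exact ha.1
  · rw [neg_zero]
    exact ha.2 P fun h' => h h'.symm

/-- Two rational places `R`, `R'`, and `τ` with `τ (L (n R)) ⊆ L (n R')`. -/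
theorem bombS_aux {p : ℕ} [Fact p.Prime] {k F : Type*} [Field k] [Finite k] [Field F]
    [Algebra k F] [CharP F p] {g : ℕ} (hcv : Cv k F g) {R R' : DV F} (hR : R.Rat k)
    (hR' : R'.Rat k) (τ : F →+* F) (hτ : ∀ n, ∀ x ∈ LR R n, τ x ∈ LR R' n) {e s e' s' : ℕ}
    (hs : s = p ^ e) (hs' : s' = p ^ e') (hss : s' ≤ s) (hg : (g + 1) * (g + 2) ≤ s)
    (S : Finset (DV F))
    (hS : ∀ v ∈ S, v ≠ R ∧ v ≠ R' ∧ ∀ n, ∀ x ∈ LR R n, v.G 1 (x ^ (s * s') - τ x)) :
    ∑ v ∈ S, deg k v + 1 ≤ s * s' + (2 * g + 1) * s := by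
  classical
  have h : RRone k (deg k) R g := hcv.rrone hR
  have h' : RRone k (deg k) R' g := hcv.rrone hR'
  have hp0 : 0 < p := (Fact.out : p.Prime).pos
  have hs1 : 1 ≤ s := by rw [hs]; exact Nat.one_le_pow _ _ hp0
  have hs1' : 1 ≤ s' := by rw [hs']; exact Nat.one_le_pow _ _ hp0
  obtain ⟨m, rfl⟩ : ∃ m, s = m + 1 := ⟨s - 1, by omega⟩
  set s := m + 1 with hsm
  set n := s' + 2 * g with hn
  have hcard1 : 1 < Nat.card k := Finite.one_lt_card
  -- the functions `u i`
  have hu : ∀ i : TT R' m, ∃ u : F, u ∈ LR R' i ∧ u ≠ 0 ∧ R'.ord u = -(i : ℕ) := fun i =>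
    (Finset.mem_filter.1 i.2).2
  choose u hu1 hu2 hu3 using hu
  have him : ∀ i : TT R' m, (i : ℕ) ≤ m := fun i => by
    have := Finset.mem_range.1 (Finset.mem_filter.1 i.2).1
    omega
  obtain ⟨hfn, -⟩ := LR_finite_card h.rat h.const n
  obtain ⟨hfN, hcN⟩ := LR_finite_card h'.rat h'.const (s' * m + n)
  have : Finite (LR R n) := hfn
  have : Finite (LR R' (s' * m + n)) := hfN
  -- the map `ψ`
  have hψ : ∀ z : TT R' m → LR R n, ∑ i, u i ^ s' * τ (z i : F) ∈ LR R' (s' * m + n) := fun z =>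
    LR_sum _ _ fun i _ => LR_mono (LR_mul (LR_pow (hu1 i) s') (hτ _ _ (z i).2)) (by
      have := him i
      have := Nat.mul_le_mul_left s' this
      omega)
  let ψ : (TT R' m → LR R n) → LR R' (s' * m + n) := fun z => ⟨_, hψ z⟩
  have hlt : Nat.card (LR R' (s' * m + n)) < Nat.card (TT R' m → LR R n) := by
    have h1 : Nat.card (TT R' m → LR R n) = Nat.card (LR R n) ^ (TT R' m).card := by
      rw [Nat.card_fun, Nat.card_eq_fintype_card (α := TT R' m), Fintype.card_coe]
    have h2 : Nat.card k ^ (n + 1 - g) ≤ Nat.card (LR R n) := by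
      have h3 := h.lower n
      have h4 : n + 1 = g + (n + 1 - g) := by omega
      rw [h4, pow_add] at h3
      exact Nat.le_of_mul_le_mul_left h3 (by positivity)
    have h3 : m + 1 - g ≤ (TT R' m).card := by
      have := h'.le_TT m
      omega
    have h4 : (s' * m + n) + 1 < (n + 1 - g) * (m + 1 - g) := by
      have e1 : n + 1 - g = s' + g + 1 := by omega
      have e0 : (g + 1) * (g + 2) = g * g + 3 * g + 2 := by ring
      have e9 : g ≤ s := by
        rw [e0] at hg
        have := Nat.zero_le (g * g)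
        omega
      obtain ⟨c, hc⟩ : ∃ c, s = g + c := ⟨s - g, by omega⟩
      have e2 : m + 1 - g = c := by omega
      rw [e1, e2]
      have e3 : s' * m + s' = s' * s := by rw [hsm]; ring
      have e4 : s' * m + n + 1 = s' * s + 2 * g + 1 := by omega
      rw [e4, hc]
      have e5 : g * s' ≤ g * s := Nat.mul_le_mul_left _ hss
      have e6 : g * s = g * g + g * c := by rw [hc]; ring
      have e7 : s' * (g + c) = g * s' + s' * c := by ring
      have e8 : (s' + g + 1) * c = s' * c + g * c + c := by ring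
      omega
    calc Nat.card (LR R' (s' * m + n)) ≤ Nat.card k ^ (TT R' (s' * m + n)).card := hcN
      _ ≤ Nat.card k ^ (s' * m + n + 1) := Nat.pow_le_pow_right (by omega) (TT_card_le _ _)
      _ < Nat.card k ^ ((n + 1 - g) * (m + 1 - g)) := Nat.pow_lt_pow_right hcard1 h4
      _ = (Nat.card k ^ (n + 1 - g)) ^ (m + 1 - g) := by rw [pow_mul]
      _ ≤ (Nat.card (LR R n)) ^ (m + 1 - g) := Nat.pow_le_pow_left h2 _
      _ ≤ (Nat.card (LR R n)) ^ (TT R' m).card := by
        refine Nat.pow_le_pow_right ?_ h3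
        exact lt_of_lt_of_le (by positivity) h2
      _ = _ := h1.symm
  have hnotinj : ¬ Function.Injective ψ := fun hinj =>
    absurd (Nat.card_le_card_of_injective ψ hinj) (by omega)
  simp only [Function.Injective, not_forall] at hnotinj
  obtain ⟨z1, z2, hz, hne⟩ := hnotinj
  -- the difference
  let z : TT R' m → F := fun i => (z1 i : F) - z2 i
  have hzL : ∀ i, z i ∈ LR R n := fun i => LR_sub (z1 i).2 (z2 i).2
  have hz0 : ∑ i, u i ^ s' * τ (z i) = 0 := by
    have := congrArg Subtype.val hz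
    simp only [ψ] at this
    simp only [z, map_sub, mul_sub, Finset.sum_sub_distrib]
    rw [this, sub_self]
  have hzne : ∃ i, z i ≠ 0 := by
    by_contra hall
    push Not at hall
    exact hne (funext fun i => Subtype.ext (sub_eq_zero.1 (hall i)))
  -- the function `x`
  set x : F := ∑ i, u i * z i ^ s with hx
  have hx0 : x ≠ 0 := by
    have h1 : x = ∑ i ∈ Finset.univ.filter (fun i => z i ≠ 0), u i * z i ^ s := by
      rw [hx, Finset.sum_filter]
      refine Finset.sum_congr rfl fun i _ => ?_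
      by_cases hi : z i = 0
      · rw [if_neg (by simpa using hi), hi, zero_pow (by omega), mul_zero]
      · rw [if_pos hi]
    rw [h1]
    refine sum_ne_zero_of_ord (P := R') _ _ ?_ ?_ ?_
    · obtain ⟨i, hi⟩ := hzne
      exact ⟨i, by simpa using hi⟩
    · intro i hi
      exact mul_ne_zero (hu2 i) (pow_ne_zero _ (Finset.mem_filter.1 hi).2)
    · intro i hi j hj hij heq
      have hi0 := (Finset.mem_filter.1 hi).2
      have hj0 := (Finset.mem_filter.1 hj).2
      rw [R'.ord_mul _ _ (hu2 i) (pow_ne_zero _ hi0), R'.ord_mul _ _ (hu2 j) (pow_ne_zero _ hj0),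
        R'.ord_pow hi0, R'.ord_pow hj0, hu3, hu3] at heq
      have h2 : ((i : ℕ) : ℤ) - (j : ℕ) = s * (R'.ord (z i) - R'.ord (z j)) := by linarith
      have h3 : ((i : ℕ) : ℤ) - (j : ℕ) = 0 := by
        have hdvd : (s : ℤ) ∣ ((i : ℕ) : ℤ) - (j : ℕ) := ⟨_, h2⟩
        have hi' := him i
        have hj' := him j
        refine Int.eq_zero_of_abs_lt_dvd hdvd ?_
        rw [abs_lt]
        constructor <;> omega
      exact hij (Subtype.ext (by omega))
  -- it vanishes at all places of `S`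
  have hzero : ∀ P ∈ S, P.G 1 x := by
    intro P hP
    obtain ⟨hPR, hPR', hc⟩ := hS P hP
    have h1 : P.G 1 (∑ i, (u i ^ s' * z i ^ (s * s') - u i ^ s' * τ (z i))) := by
      refine G_sum _ _ fun i _ => ?_
      rw [← mul_sub]
      have h2 := ((hu1 i).2 P hPR').pow s'
      exact (h2.mul (hc n (z i) (hzL i))).mono (by simp)
    rw [Finset.sum_sub_distrib, hz0, sub_zero] at h1
    have h3 : x ^ s' = ∑ i, u i ^ s' * z i ^ (s * s') := by
      rw [hx, hs', sum_pow_char_pow, ← hs']
      refine Finset.sum_congr rfl fun i _ => ?_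
      rw [mul_pow, ← pow_mul]
    rw [← h3] at h1
    by_contra hcon
    have hlt := (DV.not_G hx0).1 hcon
    have h4 := h1.le (pow_ne_zero _ hx0)
    rw [P.ord_pow hx0] at h4
    have h5 : P.ord x ≤ 0 := by omega
    have : (s' : ℤ) * P.ord x ≤ 0 := mul_nonpos_of_nonneg_of_nonpos (by positivity) h5
    omega
  -- its poles
  set D : DV F →₀ ℤ := Finsupp.single R' (m : ℤ) + Finsupp.single R ((s * n : ℕ) : ℤ) with hD
  have hDP : ∀ P, D P = (if R' = P then (m : ℤ) else 0) +
      (if R = P then ((s * n : ℕ) : ℤ) else 0) := fun P => by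
    rw [hD, Finsupp.add_apply, Finsupp.single_apply, Finsupp.single_apply]
  have hxD : x ∈ RRD.LInt (-D : DV F → ℤ) := by
    intro P
    refine G_sum _ _ fun i _ => ?_
    have h1 := LR_G (LR_mono (hu1 i) (him i)) P
    have h2 := LR_G (LR_pow (hzL i) s) P
    refine (h1.mul h2).mono (le_of_eq ?_)
    rw [Pi.neg_apply, hDP]
    ring
  have hfinal := RRD.sum_deg_zeros_le hcv hx0 hxD S fun P hP => by
    rw [hDP, if_neg (fun h0 => (hS P hP).2.1 h0.symm), if_neg (fun h0 => (hS P hP).1 h0.symm),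
      add_zero, sub_zero]
    exact hzero P hP
  rw [hD, RRD.degZ_add, RRD.degZ_single, RRD.degZ_single] at hfinal
  have d1 : RRD.deg k R = 1 := hR.deg_eq_one
  have d2 : RRD.deg k R' = 1 := hR'.deg_eq_one
  rw [d1, d2, Nat.cast_one, mul_one, mul_one] at hfinal
  have h6 : ((∑ v ∈ S, RRD.deg k v : ℕ) : ℤ) ≤ ((m + s * n : ℕ) : ℤ) := by
    push_cast
    push_cast at hfinal
    exact hfinal
  have h7 : m + s * n + 1 = s * s' + (2 * g + 1) * s := by
    rw [hn]
    have : s * (s' + 2 * g) = s * s' + 2 * g * s := by ring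
    have : (2 * g + 1) * s = 2 * g * s + s := by ring
    omega
  have h8 : ∑ v ∈ S, RRD.deg k v ≤ m + s * n := by exact_mod_cast h6
  have h9 : ∑ v ∈ S, deg k v ≤ m + s * n := h8
  omega

/-- **Bombieri's bound, twisted by an automorphism `σ` over `k`.** `s`, `s'` are powers of the
characteristic `p`, `s' ≤ s`, `s ≥ (g + 1) (g + 2)`: the places `v` with `σ a ≡ a ^ (s s')` modulo `v`
for all `a` integral at `v` have total degree at most `s s' + (2 g + 1) s`. -/
theorem bombS {p : ℕ} [Fact p.Prime] {k F : Type*} [Field k] [Finite k] [Field F]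
    [Algebra k F] [CharP F p] {g : ℕ} (hcv : Cv k F g) {R : DV F} (hR : R.Rat k)
    (σ : F ≃+* F) (hσ : ∀ c : k, σ (algebraMap k F c) = algebraMap k F c) {e s e' s' : ℕ}
    (hs : s = p ^ e) (hs' : s' = p ^ e') (hss : s' ≤ s) (hg : (g + 1) * (g + 2) ≤ s)
    (S : Finset (DV F)) (hS : ∀ v ∈ S, ∀ a, v.G 0 a → v.G 1 (σ a - a ^ (s * s'))) :
    ∑ v ∈ S, deg k v ≤ s * s' + (2 * g + 1) * s := by
  classical
  have hp0 : 0 < p := (Fact.out : p.Prime).pos
  have hs1 : 1 ≤ s := by rw [hs]; exact Nat.one_le_pow _ _ hp0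
  have hs1' : 1 ≤ s' := by rw [hs']; exact Nat.one_le_pow _ _ hp0
  set R' : DV F := R.comp σ.symm with hR'
  have hR'r : R'.Rat k := by
    intro a ha
    obtain ⟨c, hc⟩ := hR (σ.symm a) ((DV.comp_G R σ.symm 0 a).1 ha)
    refine ⟨c, (DV.comp_G R σ.symm 1 _).2 ?_⟩
    have h1 : σ.symm (algebraMap k F c) = algebraMap k F c := by
      rw [RingEquiv.symm_apply_eq, hσ]
    rw [map_sub, h1]
    exact hc
  -- the places of `S` are fixed by `σ`
  have hfix : ∀ v ∈ S, v = v.comp σ := by
    intro v hv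
    refine DV.eq_of_integral_imp fun a ha => (DV.comp_G v σ 0 a).2 ?_
    have h1 := hS v hv a ha
    have h2 : v.G 0 (a ^ (s * s')) := by simpa using ha.pow (s * s')
    have h3 := (h1.mono (show (0 : ℤ) ≤ 1 by norm_num)).add h2
    rwa [sub_add_cancel] at h3
  have hτ : ∀ n, ∀ x ∈ LR R n, (σ : F →+* F) x ∈ LR R' n := by
    intro n x hx
    refine ⟨(DV.comp_G R σ.symm _ _).2 ?_, fun v hv => ?_⟩
    · simpa using hx.1
    · have h1 : v.comp σ ≠ R := by
        intro h0
        apply hv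
        ext a
        · rw [hR', ← h0, DV.comp_ord, DV.comp_ord, RingEquiv.apply_symm_apply]
      exact (DV.comp_G v σ 0 x).1 (hx.2 _ h1)
  have key := bombS_aux hcv hR hR'r (σ : F →+* F) hτ hs hs' hss hg (S.erase R) (by
    intro v hv
    obtain ⟨hvR, hvS⟩ := Finset.mem_erase.1 hv
    refine ⟨hvR, fun h0 => hvR ?_, fun n x hx => ?_⟩
    · have h1 := hfix v hvS
      rw [h1]
      ext a
      rw [DV.comp_ord, h0, hR', DV.comp_ord, RingEquiv.symm_apply_apply]
    · have h1 := (hS v hvS x (hx.2 v hvR)).neg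
      rwa [neg_sub] at h1)
  have h1 : ∑ v ∈ S, deg k v ≤ ∑ v ∈ S.erase R, deg k v + 1 := by
    by_cases hRS : R ∈ S
    · rw [← Finset.sum_erase_add S _ hRS]
      have : deg k R = 1 := hR.deg_eq_one
      omega
    · rw [Finset.erase_eq_of_notMem hRS]
      omega
  exact h1.trans key

end Pool.Agent.FF
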