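import Pool.Agent.FD.CvEA

/-! # Places of a finite extension lie over places, and have finite residue fields -/

set_option autoImplicit false

open Finset Polynomial

namespace Pool.Agent.FF

variable {K E : Type*} [Field K] [Field E] [Algebra K E]

/-- every place of an algebraic extension lies over a place -/
theorem exists_over_of_algebraic [Algebra.IsAlgebraic K E] (w : DV E) : ∃ v : DV K, Over w v := by
  let S : AddSubgroup ℤ :=
    { carrier := {n | ∃ a : K, a ≠ 0 ∧ w.ord (algebraMap K E a) = n}
      zero_mem' := ⟨1, one_ne_zero, by rw [map_one, w.ord_one]⟩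
      add_mem' := by
        rintro m n ⟨a, ha, h1⟩ ⟨b, hb, h2⟩
        exact ⟨a * b, mul_ne_zero ha hb, by
          rw [map_mul, w.ord_mul _ _ (map_ne_zero' ha) (map_ne_zero' hb), h1, h2]⟩
      neg_mem' := by
        rintro m ⟨a, ha, h1⟩
        exact ⟨a⁻¹, inv_ne_zero ha, by rw [map_inv₀, w.ord_inv (map_ne_zero' ha), h1]⟩ }
  have hS : ∀ a : K, a ≠ 0 → w.ord (algebraMap K E a) ∈ S := fun a ha => ⟨a, ha, rfl⟩
  obtain ⟨g, hg⟩ := Int.subgroup_cyclic S
  -- the group is not trivial
  have hg0 : g ≠ 0 := by
    intro h0
    obtain ⟨t, ht, ht1⟩ := w.exists_one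
    have hall : ∀ a : K, w.G 0 (algebraMap K E a) := by
      intro a
      by_cases ha : a = 0
      · rw [ha, map_zero]
        exact DV.G_zero _
      · have h1 := hS a ha
        rw [hg, h0, AddSubgroup.mem_closure_singleton] at h1
        obtain ⟨n, hn⟩ := h1
        exact DV.G_of_le (by rw [← hn]; simp)
    have hint : IsIntegral K t⁻¹ := Algebra.IsIntegral.isIntegral _
    have h2 : w.G 0 t⁻¹ := by
      refine w.G_zero_of_monic ((minpoly.monic hint).map (algebraMap K E)) (fun i => ?_) (a := t⁻¹) ?_
      · rw [coeff_map]
        exact hall _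
      · rw [eval_map_algebraMap, minpoly.aeval]
    have h3 := h2.le (inv_ne_zero ht)
    rw [w.ord_inv ht, ht1] at h3
    omega
  set e : ℤ := |g| with he
  have he0 : 0 < e := abs_pos.2 hg0
  have hdvd : ∀ a : K, a ≠ 0 → e ∣ w.ord (algebraMap K E a) := by
    intro a ha
    have h1 := hS a ha
    rw [hg, AddSubgroup.mem_closure_singleton] at h1
    obtain ⟨n, hn⟩ := h1
    rw [he, abs_dvd, ← hn]
    exact ⟨n, by rw [smul_eq_mul, mul_comm]⟩
  have hex : ∃ a : K, a ≠ 0 ∧ w.ord (algebraMap K E a) = e := by
    have h1 : g ∈ S := by
      rw [hg]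
      exact AddSubgroup.mem_closure_singleton_self g
    rcases abs_choice g with h | h
    · rw [he, h]
      exact h1
    · rw [he, h]
      exact S.neg_mem h1
  refine ⟨{ ord := fun a => w.ord (algebraMap K E a) / e
            ord_zero := by rw [map_zero, w.ord_zero, Int.zero_ediv]
            ord_mul := ?_
            ord_add := ?_
            exists_one := ?_ }, e, he0, ?_⟩
  · intro a b ha hb
    rw [map_mul, w.ord_mul _ _ (map_ne_zero' ha) (map_ne_zero' hb), Int.add_ediv_of_dvd_left (hdvd a ha)]
  · intro a b ha hb hab
    have h1 := w.ord_add (algebraMap K E a) (algebraMap K E b) (map_ne_zero' ha) (map_ne_zero' hb)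
      (by rw [← map_add]; exact map_ne_zero' hab)
    rw [← map_add] at h1
    rcases min_le_iff.1 h1 with h2 | h2
    · exact (min_le_left _ _).trans (Int.ediv_le_ediv he0 h2)
    · exact (min_le_right _ _).trans (Int.ediv_le_ediv he0 h2)
  · obtain ⟨a, ha, h⟩ := hex
    exact ⟨a, ha, by rw [h, Int.ediv_self he0.ne']⟩
  · intro a ha
    show w.ord (algebraMap K E a) = e * (w.ord (algebraMap K E a) / e)
    rw [Int.mul_ediv_cancel' (hdvd a ha)]

/-- residually independent integral elements are independent -/
theorem linearIndependent_of_res {w : DV E} {v : DV K} (hw : Over w v) {ι : Type*} [Fintype ι]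
    (x : ι → E) (hx : ∀ i, w.G 0 (x i))
    (hres : ∀ c : ι → K, (∀ i, v.G 0 (c i)) → w.G 1 (∑ i, algebraMap K E (c i) * x i) →
      ∀ i, v.G 1 (c i)) : LinearIndependent K x := by
  classical
  rw [Fintype.linearIndependent_iff]
  intro c hc
  by_contra hno
  push Not at hno
  obtain ⟨i₁, hi₁⟩ := hno
  have hne : (univ.filter fun i : ι => c i ≠ 0).Nonempty := ⟨i₁, by simp [hi₁]⟩
  obtain ⟨i₀, hi₀, hmin⟩ := Finset.exists_min_image _ (fun i : ι => v.ord (c i)) hne
  rw [mem_filter] at hi₀
  have hc0 := hi₀.2
  have hG : ∀ i, v.G 0 (c i / c i₀) := by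
    intro i
    by_cases h0 : c i = 0
    · rw [h0, zero_div]
      exact DV.G_zero 0
    · apply DV.G_of_le
      rw [v.ord_div h0 hc0]
      have := hmin i (by simp [h0])
      omega
  have hsum : ∑ i, algebraMap K E (c i / c i₀) * x i = 0 := by
    have h1 : ∑ i, algebraMap K E (c i / c i₀) * x i =
        (algebraMap K E (c i₀))⁻¹ * ∑ i, c i • x i := by
      rw [mul_sum]
      refine sum_congr rfl fun i _ => ?_
      rw [map_div₀, Algebra.smul_def]
      ring
    rw [h1, hc, mul_zero]
  have h2 := hres (fun i => c i / c i₀) hG (by rw [hsum]; exact DV.G_zero _) i₀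
  rw [div_self hc0] at h2
  have h3 := h2.le one_ne_zero
  rw [v.ord_one] at h3
  omega

/-- residue fields of finite extensions are finite -/
theorem card_Res_ne_zero_of_over [FiniteDimensional K E] {w : DV E} {v : DV K} (hw : Over w v)
    (hv : Nat.card v.Res ≠ 0) : Nat.card w.Res ≠ 0 := by
  classical
  intro hinf
  have hnf : ¬ Finite w.Res := by
    intro h
    exact (Nat.card_pos (α := w.Res)).ne' hinf
  have hvf : Finite v.Res := Nat.finite_of_card_ne_zero hv
  -- representatives of the residues
  have hrep : ∀ c : K, v.G 0 c → ∃ r : v.Res, v.G 1 (c - ((Quotient.out r : v.grp 0) : K)) := by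
    intro c hc
    refine ⟨QuotientAddGroup.mk ⟨c, hc⟩, ?_⟩
    have h1 : (QuotientAddGroup.mk (Quotient.out (QuotientAddGroup.mk ⟨c, hc⟩ : v.Res)) : v.Res) =
        QuotientAddGroup.mk ⟨c, hc⟩ := Quotient.out_eq _
    rw [QuotientAddGroup.eq, AddSubgroup.mem_addSubgroupOf] at h1
    have h2 : v.G 1 (-((Quotient.out (QuotientAddGroup.mk ⟨c, hc⟩ : v.Res) : v.grp 0) : K) + c) := h1
    rwa [neg_add_eq_sub] at h2
  -- a residually independent sequence
  have hstep : ∀ m : ℕ, ∃ x : Fin m → E, (∀ i, w.G 0 (x i)) ∧
      ∀ c : Fin m → K, (∀ i, v.G 0 (c i)) → w.G 1 (∑ i, algebraMap K E (c i) * x i) →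
        ∀ i, v.G 1 (c i) := by
    intro m
    induction m with
    | zero => exact ⟨Fin.elim0, fun i => i.elim0, fun _ _ _ i => i.elim0⟩
    | succ m ih =>
      obtain ⟨x, hx, hind⟩ := ih
      -- an element outside the span
      obtain ⟨y, hy, hyn⟩ : ∃ y : E, w.G 0 y ∧ ∀ c : Fin m → K, (∀ i, v.G 0 (c i)) →
          ¬ w.G 1 (y - ∑ i, algebraMap K E (c i) * x i) := by
        by_contra hcon
        push Not at hcon
        apply hnf
        have hsm : ∀ r : Fin m → v.Res, w.G 0 (∑ i, algebraMap K E ((Quotient.out (r i) : v.grp 0) : K) * x i) := by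
          intro r
          have h8 : ∀ s : Finset (Fin m), w.G 0 (∑ i ∈ s, algebraMap K E ((Quotient.out (r i) : v.grp 0) : K) * x i) := by
            intro s
            induction s using Finset.induction_on with
            | empty => simpa using DV.G_zero (v := w) 0
            | insert i s hi ih =>
              rw [sum_insert hi]
              refine DV.G.add ?_ ih
              have := ((hw.G_zero_iff _).2 (Quotient.out (r i) : v.grp 0).2).mul (hx i)
              rwa [zero_add] at this
          exact h8 _
        refine Finite.of_surjective (fun r : Fin m → v.Res =>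
          (QuotientAddGroup.mk ⟨_, hsm r⟩ : w.Res)) ?_
        intro z
        obtain ⟨⟨y, hy⟩, rfl⟩ := QuotientAddGroup.mk_surjective z
        obtain ⟨c, hc, h1⟩ := hcon y hy
        choose r hr using fun i => hrep (c i) (hc i)
        refine ⟨r, ?_⟩
        rw [QuotientAddGroup.eq, AddSubgroup.mem_addSubgroupOf]
        show w.G 1 (-(∑ i, algebraMap K E ((Quotient.out (r i) : v.grp 0) : K) * x i) + y)
        have h2 : -(∑ i, algebraMap K E ((Quotient.out (r i) : v.grp 0) : K) * x i) + y =
            (y - ∑ i, algebraMap K E (c i) * x i) +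
              ∑ i, algebraMap K E (c i - ((Quotient.out (r i) : v.grp 0) : K)) * x i := by
          simp only [map_sub, sub_mul, Finset.sum_sub_distrib]
          ring
        rw [h2]
        refine h1.add ?_
        have h8 : ∀ s : Finset (Fin m), w.G 1 (∑ i ∈ s, algebraMap K E (c i - ((Quotient.out (r i) : v.grp 0) : K)) * x i) := by
          intro s
          induction s using Finset.induction_on with
          | empty => simpa using DV.G_zero (v := w) 1
          | insert i s hi ih =>
            rw [sum_insert hi]
            refine DV.G.add ?_ ih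
            have := ((hw.G_one_iff _).2 (hr i)).mul (hx i)
            rwa [add_zero] at this
        exact h8 _
      refine ⟨Fin.snoc x y, ?_, ?_⟩
      · intro i
        refine Fin.lastCases ?_ (fun j => ?_) i
        · rw [Fin.snoc_last]
          exact hy
        · rw [Fin.snoc_castSucc]
          exact hx j
      · intro c hc h1
        rw [Fin.sum_univ_castSucc, Fin.snoc_last] at h1
        simp only [Fin.snoc_castSucc] at h1
        have hlast : v.G 1 (c (Fin.last m)) := by
          by_contra hcon
          have hcl0 := DV.ne_zero_of_not_G hcon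
          have hord : v.ord (c (Fin.last m)) = 0 := by
            have h2 := (hc (Fin.last m)).le hcl0
            have h3 := (DV.not_G hcl0).1 hcon
            omega
          refine hyn (fun i => -(c i.castSucc / c (Fin.last m))) (fun i => ?_) ?_
          · apply DV.G.neg
            by_cases h0 : c i.castSucc = 0
            · rw [h0, zero_div]
              exact DV.G_zero _
            · apply DV.G_of_le
              rw [v.ord_div h0 hcl0, hord]
              have := (hc i.castSucc).le h0
              omega
          · have hE0 : algebraMap K E (c (Fin.last m)) ≠ 0 := map_ne_zero' hcl0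
            have h2 : y - ∑ i, algebraMap K E (-(c i.castSucc / c (Fin.last m))) * x i =
                algebraMap K E (c (Fin.last m))⁻¹ * (∑ i, algebraMap K E (c i.castSucc) * x i +
                  algebraMap K E (c (Fin.last m)) * y) := by
              rw [mul_add, ← mul_assoc, map_inv₀, inv_mul_cancel₀ hE0, one_mul, mul_sum]
              simp only [map_neg, map_div₀, neg_mul, Finset.sum_neg_distrib, sub_neg_eq_add]
              rw [add_comm]
              congr 1
              refine sum_congr rfl fun i _ => ?_
              rw [div_eq_mul_inv]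
              ring
            rw [h2]
            have h3 : w.G 0 (algebraMap K E (c (Fin.last m))⁻¹) := by
              rw [hw.G_zero_iff]
              apply DV.G_of_le
              rw [v.ord_inv hcl0, hord]
              norm_num
            have := h3.mul h1
            rwa [zero_add] at this
        intro i
        refine Fin.lastCases hlast (fun j => ?_) i
        refine hind (fun i => c i.castSucc) (fun i => hc _) ?_ j
        have h2 : w.G 1 (algebraMap K E (c (Fin.last m)) * y) := by
          have := ((hw.G_one_iff _).2 hlast).mul hy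
          rwa [add_zero] at this
        have h3 := h1.sub h2
        rwa [add_sub_cancel_right] at h3
  obtain ⟨x, hx, hind⟩ := hstep (Module.finrank K E + 1)
  have hli := linearIndependent_of_res hw x hx hind
  have := hli.fintype_card_le_finrank
  rw [Fintype.card_fin] at this
  omega

end Pool.Agent.FF
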