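import Pool.Agent.FD.Ext
import Pool.Agent.FD.Ov
import Pool.Agent.FF.Kl1

/-! # X3: finite separable extensions of `k(g)` are curves (96) -/

set_option autoImplicit false

open Polynomial

namespace Pool.Agent.FF

/-- elements algebraic over the finite field `k` are constants as soon as there is a rational place -/
theorem const_of_rat {k E : Type*} [Field k] [Finite k] [Field E] [Algebra k E] {R : DV E}
    (hR : R.Rat k) (a : E) (ha : IsAlgebraic k a) : ∃ c : k, a = algebraMap k E c := by
  have hint : ∀ b : E, IsAlgebraic k b → R.G 0 b := by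
    intro b hb
    have hbi : IsIntegral k b := hb.isIntegral
    refine R.G_zero_of_monic ((minpoly.monic hbi).map (algebraMap k E)) (fun i => ?_) (a := b) ?_
    · rw [coeff_map]
      exact RRD.G_algebraMap R _
    · rw [eval_map_algebraMap, minpoly.aeval]
  obtain ⟨c, hc⟩ := hR a (hint a ha)
  refine ⟨c, ?_⟩
  by_contra hne
  have h0 : a - algebraMap k E c ≠ 0 := sub_ne_zero.2 hne
  have h1 : IsAlgebraic k (a - algebraMap k E c) := ha.sub (isAlgebraic_algebraMap c)
  have h2 := (hint _ h1.inv).le (inv_ne_zero h0)
  have h3 := hc.le h0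
  rw [R.ord_inv h0] at h2
  omega

theorem exists_cv {k E : Type*} [Field k] [Finite k] [Field E] [Algebra k E]
    [Algebra (RatFunc k) E] [IsScalarTower k (RatFunc k) E] [FiniteDimensional (RatFunc k) E]
    [Algebra.IsSeparable (RatFunc k) E] {R : DV E} (hR : R.Rat k) :
    IsFF k E ∧ ∃ G : ℕ, Cv k E G := by
  obtain ⟨G, hG⟩ := cvE_of (k := k) (E := E) (fun a ha => const_of_rat hR a ha)
    (fun w => exists_over_of_algebraic w)
    (fun w => by
      obtain ⟨v, hv⟩ := exists_over_of_algebraic (K := RatFunc k) w
      refine card_Res_ne_zero_of_over hv ?_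
      obtain ⟨d, -, h⟩ := Rat.card_res v
      rw [h]
      exact pow_ne_zero _ (Nat.card_pos (α := k)).ne')
    (fun v a ha i => IntO.coeff (E := E) (v := v) (a := a) ha i)
  exact ⟨(Rat.isFF k).ofFinite inferInstance hG, G, hG⟩

end Pool.Agent.FF
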