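import Pool.Agent.FD.Ext
import Pool.Agent.FF.ErDef

/-! # X2: places of a Galois extension, Frobenius (12) -/

set_option autoImplicit false

namespace Pool.Agent.FF

namespace GalAux

section

variable {K H : Type*} [Field K] [Field H] [Algebra K H]

theorem act_G (w : DV H) (s : H ≃ₐ[K] H) (n : ℤ) (x : H) :
    (w.act s).G n x ↔ w.G n (s.symm x) := by
  unfold DV.G
  rw [map_eq_zero_iff s.symm s.symm.injective]
  rfl

theorem G_one_or {w : DV H} {a b : H} (h : w.G 1 (a * b)) : w.G 1 a ∨ w.G 1 b := by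
  by_contra hno
  rw [not_or] at hno
  have ha := DV.ne_zero_of_not_G hno.1
  have hb := DV.ne_zero_of_not_G hno.2
  have h1 := (DV.not_G ha).1 hno.1
  have h2 := (DV.not_G hb).1 hno.2
  have h3 := h.le (mul_ne_zero ha hb)
  rw [w.ord_mul _ _ ha hb] at h3
  omega

theorem not_G_one_one (w : DV H) : ¬ w.G 1 (1 : H) := by
  intro h
  have := h.le one_ne_zero
  rw [w.ord_one] at this
  omega

theorem G_one_of_pow {w : DV H} {a : H} {n : ℕ} (h : w.G 1 (a ^ n)) : w.G 1 a := by
  induction n with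
  | zero =>
    rw [pow_zero] at h
    exact absurd h (not_G_one_one w)
  | succ n ih =>
    rw [pow_succ] at h
    rcases G_one_or h with h1 | h1
    · exact ih h1
    · exact h1

theorem G_zero_pow {w : DV H} {a : H} (h : w.G 0 a) (n : ℕ) : w.G 0 (a ^ n) := by
  have := h.pow n
  rwa [mul_zero] at this

theorem G_one_pow {w : DV H} {a : H} (h : w.G 1 a) {n : ℕ} (hn : n ≠ 0) : w.G 1 (a ^ n) :=
  (h.pow n).mono (by
    have : 1 ≤ n := Nat.one_le_iff_ne_zero.2 hn
    rw [mul_one]
    exact_mod_cast this)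

theorem G_zero_mul {w : DV H} {a b : H} (ha : w.G 0 a) (hb : w.G 0 b) : w.G 0 (a * b) := by
  have := ha.mul hb
  rwa [add_zero] at this

theorem G_one_mul_l {w : DV H} {a b : H} (ha : w.G 1 a) (hb : w.G 0 b) : w.G 1 (a * b) := by
  have := ha.mul hb
  rwa [add_zero] at this

theorem G_one_mul_r {w : DV H} {a b : H} (ha : w.G 0 a) (hb : w.G 1 b) : w.G 1 (a * b) := by
  have := ha.mul hb
  rwa [zero_add] at this

theorem G_one_mul {w : DV H} {a b c d : H} (ha : w.G 0 a) (hd : w.G 0 d) (h1 : w.G 1 (a - c))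
    (h2 : w.G 1 (b - d)) : w.G 1 (a * b - c * d) := by
  have e : a * b - c * d = a * (b - d) + (a - c) * d := by ring
  rw [e]
  exact (G_one_mul_r ha h2).add (G_one_mul_l h1 hd)

theorem G_one_pow_sub {w : DV H} {a b : H} (ha : w.G 0 a) (hb : w.G 0 b) (h : w.G 1 (a - b))
    (n : ℕ) : w.G 1 (a ^ n - b ^ n) := by
  induction n with
  | zero => simpa using DV.G_zero (v := w) 1
  | succ n ih =>
    rw [pow_succ, pow_succ]
    exact G_one_mul (G_zero_pow ha n) hb ih h

theorem G_one_sub_symm {w : DV H} {a b : H} (h : w.G 1 (a - b)) : w.G 1 (b - a) := by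
  have := h.neg
  rwa [neg_sub] at this

theorem G_zero_of_sub {w : DV H} {a b : H} (hb : w.G 0 b) (h : w.G 1 (a - b)) : w.G 0 a := by
  have := (h.mono (by norm_num : (0 : ℤ) ≤ 1)).add hb
  rwa [sub_add_cancel] at this

theorem over_trans {E : Type*} [Field E] [Algebra K E] [Algebra E H] [IsScalarTower K E H]
    {w : DV H} {u : DV E} {v : DV K} (h : Over w u) (h' : Over u v) : Over w v := by
  obtain ⟨e, he, h⟩ := h
  obtain ⟨f, hf, h'⟩ := h'
  refine ⟨e * f, mul_pos he hf, fun a ha => ?_⟩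
  rw [IsScalarTower.algebraMap_apply K E H, h _ (map_ne_zero' ha), h' a ha, mul_assoc]

/-- A generator of the group of residues. -/
theorem exists_gen (w : DV H) (hw : w.resCard ≠ 0) :
    ∃ g : H, w.G 0 g ∧ ¬ w.G 1 g ∧ ∀ a : H, w.G 0 a → w.G 1 a ∨ ∃ i : ℕ, w.G 1 (a - g ^ i) := by
  have := w.mx_maximal
  let _ : Field (w.ring ⧸ w.mx) := Ideal.Quotient.field w.mx
  have hfin : Finite (w.ring ⧸ w.mx) := Nat.finite_of_card_ne_zero (by rwa [w.card_quot])
  obtain ⟨u, hu⟩ := IsCyclic.exists_monoid_generator (α := (w.ring ⧸ w.mx)ˣ)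
  obtain ⟨⟨g, hg⟩, hgu⟩ := Ideal.Quotient.mk_surjective (u : w.ring ⧸ w.mx)
  refine ⟨g, hg, fun h1 => ?_, fun a ha => ?_⟩
  · have h2 : Ideal.Quotient.mk w.mx ⟨g, hg⟩ = 0 := Ideal.Quotient.eq_zero_iff_mem.2 h1
    rw [h2] at hgu
    exact u.ne_zero hgu.symm
  · by_cases h0 : Ideal.Quotient.mk w.mx ⟨a, ha⟩ = 0
    · exact Or.inl (Ideal.Quotient.eq_zero_iff_mem.1 h0)
    · right
      obtain ⟨i, hi⟩ := hu (Units.mk0 _ h0)
      refine ⟨i, ?_⟩
      have h1 : (u : w.ring ⧸ w.mx) ^ i = Ideal.Quotient.mk w.mx ⟨a, ha⟩ := by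
        have := congrArg (fun z : (w.ring ⧸ w.mx)ˣ => (z : w.ring ⧸ w.mx)) hi
        simpa using this
      rw [← hgu, ← map_pow] at h1
      have h2 := (Ideal.Quotient.eq).1 h1.symm
      exact h2

/-- the `q`-th power is additive modulo `w`, `q` the number of residues of the place below -/
theorem add_pow_res {w : DV H} {v : DV K} (h : Over w v) (hv : v.resCard ≠ 0) {x y : H}
    (hx : w.G 0 x) (hy : w.G 0 y) :
    w.G 1 ((x + y) ^ v.resCard - (x ^ v.resCard + y ^ v.resCard)) := by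
  have := v.mx_maximal
  let _ : Field (v.ring ⧸ v.mx) := Ideal.Quotient.field v.mx
  have hfin : Finite (v.ring ⧸ v.mx) := Nat.finite_of_card_ne_zero (by rwa [v.card_quot])
  have := Fintype.ofFinite (v.ring ⧸ v.mx)
  obtain ⟨p, hp⟩ := CharP.exists (v.ring ⧸ v.mx)
  obtain ⟨m, hpp, hc⟩ := FiniteField.card (v.ring ⧸ v.mx) p
  rw [← Nat.card_eq_fintype_card, v.card_quot] at hc
  have h1 : v.G 1 ((p : K)) := by
    have h2 : ((p : v.ring ⧸ v.mx)) = 0 := CharP.cast_eq_zero _ p
    have h3 : Ideal.Quotient.mk v.mx (p : v.ring) = 0 := by rw [map_natCast]; exact h2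
    have h4 : v.G 1 (((p : v.ring) : K)) := Ideal.Quotient.eq_zero_iff_mem.1 h3
    rwa [Subring.coe_natCast] at h4
  have h2 : w.G 1 ((p : H)) := by
    have h3 := (h.G_one_iff (p : K)).2 h1
    rwa [map_natCast] at h3
  have := w.mx_maximal
  let _ : Field (w.ring ⧸ w.mx) := Ideal.Quotient.field w.mx
  have : Fact p.Prime := ⟨hpp⟩
  have : CharP (w.ring ⧸ w.mx) p := by
    rw [CharP.charP_iff_prime_eq_zero hpp]
    have h4 : Ideal.Quotient.mk w.mx (p : w.ring) = 0 := by
      refine Ideal.Quotient.eq_zero_iff_mem.2 ?_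
      show w.G 1 (((p : w.ring) : H))
      rwa [Subring.coe_natCast]
    rwa [map_natCast] at h4
  have h3 := add_pow_char_pow (R := w.ring ⧸ w.mx) (p := p) (n := m) (x := Ideal.Quotient.mk w.mx ⟨x, hx⟩)
    (y := Ideal.Quotient.mk w.mx ⟨y, hy⟩)
  rw [← hc, ← map_add, ← map_pow, ← map_pow, ← map_pow, ← map_add] at h3
  exact (Ideal.Quotient.eq).1 h3

theorem sum_pow_res {w : DV H} {v : DV K} (h : Over w v) (hv : v.resCard ≠ 0) {ι : Type*}
    (s : Finset ι) (f : ι → H) (hf : ∀ i ∈ s, w.G 0 (f i)) :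
    w.G 0 (∑ i ∈ s, f i) ∧ w.G 1 ((∑ i ∈ s, f i) ^ v.resCard - ∑ i ∈ s, f i ^ v.resCard) := by
  classical
  induction s using Finset.induction_on with
  | empty =>
    simp only [Finset.sum_empty]
    rw [zero_pow hv, sub_zero]
    exact ⟨DV.G_zero 0, DV.G_zero 1⟩
  | insert a s ha ih =>
    obtain ⟨h1, h2⟩ := ih fun i hi => hf i (Finset.mem_insert_of_mem hi)
    have h3 := hf a (Finset.mem_insert_self a s)
    rw [Finset.sum_insert ha, Finset.sum_insert ha]
    refine ⟨h3.add h1, ?_⟩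
    have h4 := (add_pow_res h hv h3 h1).add h2
    have e : (f a + ∑ i ∈ s, f i) ^ v.resCard - (f a ^ v.resCard + ∑ i ∈ s, f i ^ v.resCard) =
        (f a + ∑ i ∈ s, f i) ^ v.resCard - (f a ^ v.resCard + (∑ i ∈ s, f i) ^ v.resCard) +
        ((∑ i ∈ s, f i) ^ v.resCard - ∑ i ∈ s, f i ^ v.resCard) := by ring
    rw [e]
    exact h4

/-- `P(a)^q` and `P(a^q)` are congruent modulo `w`. -/
theorem aeval_pow_res {w : DV H} {v : DV K} (h : Over w v) (hv : v.resCard ≠ 0)
    (P : Polynomial K) (hP : ∀ i, v.G 0 (P.coeff i)) {a : H} (ha : w.G 0 a) :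
    w.G 1 ((Polynomial.aeval a P) ^ v.resCard - Polynomial.aeval (a ^ v.resCard) P) := by
  have e : ∀ x : H, Polynomial.aeval x P =
      ∑ i ∈ Finset.range (P.natDegree + 1), algebraMap K H (P.coeff i) * x ^ i := by
    intro x
    rw [Polynomial.aeval_eq_sum_range]
    exact Finset.sum_congr rfl fun i _ => by rw [Algebra.smul_def]
  have hc : ∀ i, w.G 0 (algebraMap K H (P.coeff i)) := fun i => (h.G_zero_iff _).2 (hP i)
  have h1 := (sum_pow_res h hv (Finset.range (P.natDegree + 1))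
    (fun i => algebraMap K H (P.coeff i) * a ^ i) fun i _ => G_zero_mul (hc i) (G_zero_pow ha i)).2
  have h2 : w.G 1 (∑ i ∈ Finset.range (P.natDegree + 1), (algebraMap K H (P.coeff i) * a ^ i) ^ v.resCard -
      ∑ i ∈ Finset.range (P.natDegree + 1), algebraMap K H (P.coeff i) * (a ^ v.resCard) ^ i) := by
    rw [← Finset.sum_sub_distrib]
    have h3 : ∀ s : Finset ℕ, w.G 1 (∑ i ∈ s, ((algebraMap K H (P.coeff i) * a ^ i) ^ v.resCard -
        algebraMap K H (P.coeff i) * (a ^ v.resCard) ^ i)) := by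
      intro s
      induction s using Finset.induction_on with
      | empty => simpa using DV.G_zero (v := w) 1
      | insert j s hj ih =>
        rw [Finset.sum_insert hj]
        refine DV.G.add ?_ ih
        have h4 := (h.G_one_iff _).2 (v.pow_resCard hv (hP j))
        rw [map_sub, map_pow] at h4
        have e1 : (algebraMap K H (P.coeff j) * a ^ j) ^ v.resCard -
            algebraMap K H (P.coeff j) * (a ^ v.resCard) ^ j =
            ((algebraMap K H (P.coeff j)) ^ v.resCard - algebraMap K H (P.coeff j)) * (a ^ v.resCard) ^ j := by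
          rw [mul_pow, ← pow_mul, ← pow_mul, mul_comm j]
          ring
        rw [e1]
        exact G_one_mul_l h4 (G_zero_pow (G_zero_pow ha _) _)
    exact h3 _
  rw [e, e]
  have h3 := h1.add h2
  rwa [sub_add_sub_cancel] at h3

theorem exists_of_prod {w : DV H} (S : Multiset H) (h : w.G 1 S.prod) : ∃ r ∈ S, w.G 1 r := by
  induction S using Multiset.induction_on with
  | empty =>
    rw [Multiset.prod_zero] at h
    exact absurd h (not_G_one_one w)
  | cons a S ih =>
    rw [Multiset.prod_cons] at h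
    rcases G_one_or h with h1 | h1
    · exact ⟨a, Multiset.mem_cons_self a S, h1⟩
    · obtain ⟨r, hr, h2⟩ := ih h1
      exact ⟨r, Multiset.mem_cons_of_mem hr, h2⟩

end

end GalAux

open GalAux

section

variable {K H : Type*} [Field K] [Field H] [Algebra K H]

theorem Over.act {w : DV H} {v : DV K} (h : Over w v) (s : H ≃ₐ[K] H) : Over (w.act s) v := by
  obtain ⟨e, he, h⟩ := h
  refine ⟨e, he, fun a ha => ?_⟩
  show w.ord (s.symm (algebraMap K H a)) = e * v.ord a
  rw [AlgEquiv.commutes]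
  exact h a ha

theorem OverE.act {w : DV H} {v : DV K} {e : ℕ} (h : OverE w v e) (s : H ≃ₐ[K] H) :
    OverE (w.act s) v e := by
  refine ⟨h.1, fun a => ?_⟩
  show w.ord (s.symm (algebraMap K H a)) = e * v.ord a
  rw [AlgEquiv.commutes]
  exact h.2 a

theorem exists_act_eq [FiniteDimensional K H] [IsGalois K H] {w w' : DV H} {v : DV K}
    (h : Over w v) (h' : Over w' v) : ∃ s : H ≃ₐ[K] H, w' = w.act s := by
  classical
  by_contra hno
  push Not at hno
  obtain ⟨A, hA⟩ : ∃ A : Finset (DV H), A = Finset.univ.image fun s : H ≃ₐ[K] H => w.act s := ⟨_, rfl⟩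
  obtain ⟨A', hA'⟩ : ∃ A' : Finset (DV H), A' = Finset.univ.image fun s : H ≃ₐ[K] H => w'.act s :=
    ⟨_, rfl⟩
  have hdis : ∀ s t : H ≃ₐ[K] H, w.act s ≠ w'.act t := by
    intro s t hst
    refine hno (s.trans t.symm) (DV.eq_of_integral_imp fun a ha => ?_)
    rw [act_G]
    show w.G 0 (s.symm (t a))
    rw [← act_G, hst, act_G, AlgEquiv.symm_apply_apply]
    exact ha
  obtain ⟨x, hx⟩ := DV.weak_approx (A ∪ A') (fun u => if u ∈ A then 0 else 1) 1
  have hx1 : ∀ s : H ≃ₐ[K] H, w.G 1 (s x) := by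
    intro s
    have hm : w.act s.symm ∈ A := by
      rw [hA]
      exact Finset.mem_image_of_mem _ (Finset.mem_univ _)
    have h1 := hx _ (Finset.mem_union_left _ hm)
    rw [if_pos hm, sub_zero, act_G, AlgEquiv.symm_symm] at h1
    exact_mod_cast h1
  have hx2 : ∀ s : H ≃ₐ[K] H, w'.G 1 (s x - 1) := by
    intro s
    have hm : w'.act s.symm ∈ A' := by
      rw [hA']
      exact Finset.mem_image_of_mem _ (Finset.mem_univ _)
    have hm' : w'.act s.symm ∉ A := by
      rw [hA, Finset.mem_image]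
      rintro ⟨t, -, ht⟩
      exact hdis _ _ ht
    have h1 := hx _ (Finset.mem_union_right _ hm)
    rw [if_neg hm', act_G, AlgEquiv.symm_symm, map_sub, map_one] at h1
    exact_mod_cast h1
  have h1 : ∀ S : Finset (H ≃ₐ[K] H), w.G 0 (∏ s ∈ S, s x) := by
    intro S
    induction S using Finset.induction_on with
    | empty =>
      rw [Finset.prod_empty]
      exact DV.G_one
    | insert s S hs ih =>
      rw [Finset.prod_insert hs]
      exact G_zero_mul ((hx1 s).mono (by norm_num)) ih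
  have h2 : w.G 1 (∏ s : H ≃ₐ[K] H, s x) := by
    rw [← Finset.mul_prod_erase _ _ (Finset.mem_univ (1 : H ≃ₐ[K] H))]
    exact G_one_mul_l (hx1 1) (h1 _)
  have h3 : ∀ S : Finset (H ≃ₐ[K] H), w'.G 1 (∏ s ∈ S, s x - 1) := by
    intro S
    induction S using Finset.induction_on with
    | empty =>
      rw [Finset.prod_empty, sub_self]
      exact DV.G_zero 1
    | insert s S hs ih =>
      rw [Finset.prod_insert hs]
      have h4 := G_one_mul (G_zero_of_sub DV.G_one (hx2 s)) DV.G_one (hx2 s) ih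
      rwa [one_mul] at h4
  rw [← Algebra.norm_eq_prod_automorphisms] at h2
  have h4 := (h'.G_one_iff _).2 ((h.G_one_iff _).1 h2)
  rw [Algebra.norm_eq_prod_automorphisms] at h4
  have h5 := h4.sub (h3 Finset.univ)
  rw [sub_sub_cancel] at h5
  exact not_G_one_one w' h5

theorem exists_frob [FiniteDimensional K H] [IsGalois K H] {w : DV H} {v : DV K} (h : Over w v)
    (hv : v.resCard ≠ 0) : ∃ s : H ≃ₐ[K] H, ∀ a, w.G 0 a → w.G 1 (s a - a ^ v.resCard) := by
  classical
  obtain ⟨T, e, f, -, hT, hTf, -⟩ := sum_ef (E := H) v hv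
  have hw : w.resCard ≠ 0 := by
    rw [(hTf w ((hT w).2 h)).2.2]
    exact pow_ne_zero _ hv
  obtain ⟨g, hg0, hg1, hg⟩ := exists_gen w hw
  obtain ⟨α, hα⟩ := DV.weak_approx T (fun u => if u = w then g else 0) 1
  have hαw : w.G 1 (α - g) := by
    have h1 := hα w ((hT w).2 h)
    rw [if_pos rfl] at h1
    exact_mod_cast h1
  have hαu : ∀ u : DV H, Over u v → u ≠ w → u.G 1 α := by
    intro u hu hne
    have h1 := hα u ((hT u).2 hu)
    rw [if_neg hne, sub_zero] at h1
    exact_mod_cast h1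
  have hα0 : w.G 0 α := G_zero_of_sub hg0 hαw
  have hα1 : ¬ w.G 1 α := fun h1 => hg1 (by
    have := h1.sub hαw
    rwa [sub_sub_cancel] at this)
  have hαI : IntO v α := by
    intro u hu
    by_cases hne : u = w
    · rw [hne]
      exact hα0
    · exact (hαu u hu hne).mono (by norm_num)
  -- a conjugate congruent to the power
  obtain ⟨r, hr, hr1⟩ : ∃ r ∈ (minpoly K α).aroots H, w.G 1 (α ^ v.resCard - r) := by
    have h1 := aeval_pow_res h hv (minpoly K α) (fun i => hαI.coeff i) hα0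
    rw [minpoly.aeval, zero_pow hv, zero_sub] at h1
    have h2 := h1.neg
    rw [neg_neg, Polynomial.Splits.aeval_eq_prod_aroots_of_monic (Normal.splits inferInstance α)
      (minpoly.monic (Algebra.IsIntegral.isIntegral α))] at h2
    obtain ⟨y, hy, hy1⟩ := exists_of_prod _ h2
    obtain ⟨r, hr, rfl⟩ := Multiset.mem_map.1 hy
    exact ⟨r, hr, hy1⟩
  obtain ⟨s, hs⟩ : ∃ s : H ≃ₐ[K] H, r = s α := by
    have h1 := (isConjRoot_iff_mem_minpoly_aroots (Algebra.IsIntegral.isIntegral (R := K) α)).2 hr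
    obtain ⟨s, hs⟩ := (isConjRoot_iff_exists_algEquiv).1 h1
    exact ⟨s.symm, by rw [← hs]; exact (s.symm_apply_apply r).symm⟩
  have hact : w.act s.symm = w := by
    by_contra hne
    have h1 := hαu _ (h.act s.symm) hne
    rw [act_G, AlgEquiv.symm_symm, ← hs] at h1
    have h2 := hr1.add h1
    rw [sub_add_cancel] at h2
    exact hα1 (G_one_of_pow h2)
  have hG : ∀ (n : ℤ) (a : H), w.G n a → w.G n (s a) := by
    intro n a ha
    rw [← hact, act_G, AlgEquiv.symm_symm] at ha
    exact ha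
  have hsg : w.G 1 (s g - g ^ v.resCard) := by
    have h1 : w.G 1 (s g - s α) := by
      rw [← map_sub]
      exact hG 1 _ (G_one_sub_symm hαw)
    have h2 : w.G 1 (s α - α ^ v.resCard) := by
      rw [← hs]
      exact G_one_sub_symm hr1
    have h3 := G_one_pow_sub hα0 hg0 hαw v.resCard
    have h4 := (h1.add h2).add h3
    rwa [sub_add_sub_cancel, sub_add_sub_cancel] at h4
  refine ⟨s, fun a ha => ?_⟩
  rcases hg a ha with h1 | ⟨i, h1⟩
  · exact (hG 1 a h1).sub (G_one_pow h1 hv)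
  · have h2 : w.G 1 (s a - s (g ^ i)) := by
      rw [← map_sub]
      exact hG 1 _ h1
    have h3 : w.G 1 (s (g ^ i) - (g ^ v.resCard) ^ i) := by
      rw [map_pow]
      exact G_one_pow_sub (hG 0 g hg0) (G_zero_pow hg0 _) hsg i
    have h4 : w.G 1 ((g ^ v.resCard) ^ i - a ^ v.resCard) := by
      rw [← pow_mul, mul_comm, pow_mul]
      exact G_one_sub_symm (G_one_pow_sub ha (G_zero_pow hg0 i) h1 _)
    have h5 := (h2.add h3).add h4
    rwa [sub_add_sub_cancel, sub_add_sub_cancel] at h5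

variable {E : Type*} [Field E] [Algebra K E] [Algebra E H] [IsScalarTower K E H]

/-- every place of `E` has a place of `H` above -/
theorem exists_aboveH [FiniteDimensional K H] (P : DV E) : ∃ Q : DV H, Over Q P := by
  have : FiniteDimensional E H := FiniteDimensional.right K E H
  exact exists_above P

theorem intO_iff [FiniteDimensional K H] [IsGalois K H] {Q : DV H} {v : DV K} (h : Over Q v)
    (b : E) : IntO v b ↔ ∀ τ : E →ₐ[K] H, Q.G 0 (τ b) := by
  constructor
  · intro hb τ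
    let _ : Algebra E H := τ.toRingHom.toAlgebra
    have : IsScalarTower K E H := IsScalarTower.of_algebraMap_eq fun x => (τ.commutes x).symm
    have : FiniteDimensional E H := FiniteDimensional.right K E H
    obtain ⟨w, hw⟩ := exists_below (K := E) Q
    have : FiniteDimensional K E := FiniteDimensional.left K E H
    obtain ⟨v', hv'⟩ := exists_below (K := K) w
    have h1 : v' = v := (over_trans hw hv').unique h
    rw [h1] at hv'
    exact (hw.G_zero_iff b).2 (hb w hv')
  · intro hτ w hw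
    obtain ⟨Q', hQ'⟩ := exists_aboveH (K := K) (H := H) w
    obtain ⟨s, hs⟩ := exists_act_eq h (over_trans hQ' hw)
    rw [← hQ'.G_zero_iff, hs, act_G]
    exact hτ ((s.symm : H →ₐ[K] H).comp (IsScalarTower.toAlgHom K E H))

end

end Pool.Agent.FF
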