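import Pool.Agent.FD.BomS
import Pool.Agent.FD.Gal
import Pool.Agent.FD.CvE
import Pool.Agent.FF.RatWt

/-! # B2: places of large degree in a subfield of a Galois extension of `k(g)` (77) -/

set_option autoImplicit false

namespace Pool.Agent.FF

section inertia

variable {K H : Type*} [Field K] [Field H] [Algebra K H]

/-- An automorphism acting trivially on the residue field at an unramified place is the identity. -/
theorem inert_eq_one {p : ℕ} [Fact p.Prime] [CharP H p] {Q : DV H} {v : DV K} (ho : OverE Q v 1)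
    {N f : ℕ} (hN : N = p ^ f) (hN2 : 2 ≤ N) (hQ : ∀ a, Q.G 0 a → Q.G 1 (a ^ N - a))
    (ρ : H ≃ₐ[K] H) (hρ : ∀ a, Q.G 0 a → Q.G 1 (ρ a - a)) : ρ = 1 := by
  obtain ⟨t, ht, ht1⟩ := v.exists_one
  have hT0 : algebraMap K H t ≠ 0 := map_ne_zero' ht
  have hT : Q.ord (algebraMap K H t) = 1 := by
    rw [ho.2, ht1]
    norm_num
  have key : ∀ n : ℕ, ∀ a, Q.G 0 a → Q.G (n + 1) (ρ a - a) := by
    intro n
    induction n with
    | zero =>
      intro a ha
      simpa using hρ a ha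
    | succ n ih =>
      intro a ha
      have h1 : Q.G 1 (a - a ^ N) := by
        have := (hQ a ha).neg
        rwa [neg_sub] at this
      set b : H := (a - a ^ N) * (algebraMap K H t)⁻¹ with hb
      have hb0 : Q.G 0 b := by
        have h2 : Q.G (-1) (algebraMap K H t)⁻¹ := DV.G_of_le (by rw [Q.ord_inv hT0, hT])
        have := h1.mul h2
        simpa using this
      have h2 : a = a ^ N + algebraMap K H t * b := by
        rw [hb, mul_comm (a - a ^ N), ← mul_assoc, mul_inv_cancel₀ hT0, one_mul]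
        ring
      have h3 : ρ a = ρ a ^ N + algebraMap K H t * ρ b := by
        conv_lhs => rw [h2]
        rw [map_add, map_mul, map_pow, ρ.commutes]
      have h4 : ρ a - a = (ρ a - a) ^ N + algebraMap K H t * (ρ b - b) := by
        have h5 : (ρ a - a) ^ N = ρ a ^ N - a ^ N := by
          rw [hN]
          exact sub_pow_char_pow ..
        rw [h5]
        have h6 : ρ a - a = (ρ a ^ N + algebraMap K H t * ρ b) -
            (a ^ N + algebraMap K H t * b) := by
          rw [← h3, ← h2]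
        rw [h6]
        ring
      rw [h4]
      refine DV.G.add ?_ ?_
      · refine ((ih a ha).pow N).mono ?_
        have h5 : (2 : ℤ) ≤ N := by exact_mod_cast hN2
        push_cast
        nlinarith
      · have h5 : Q.G 1 (algebraMap K H t) := DV.G_of_le hT.ge
        refine (h5.mul (ih b hb0)).mono ?_
        push_cast
        omega
  have hfix : ∀ a, Q.G 0 a → ρ a = a := by
    intro a ha
    by_contra hne
    have h0 : ρ a - a ≠ 0 := sub_ne_zero.2 hne
    have h1 := (key (Q.ord (ρ a - a)).toNat a ha).le h0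
    have h2 := Int.self_le_toNat (Q.ord (ρ a - a))
    omega
  ext x
  by_cases hx : Q.G 0 x
  · exact hfix x hx
  · have hx0 := DV.ne_zero_of_not_G hx
    have h1 := (DV.not_G hx0).1 hx
    have h2 : Q.G 0 x⁻¹ := DV.G_of_le (by rw [Q.ord_inv hx0]; omega)
    have h3 := hfix _ h2
    rw [map_inv₀] at h3
    exact inv_injective h3

theorem G_pow_sub_pow {Q : DV H} {b c : H} (hb : Q.G 0 b) (hc : Q.G 0 c) (h : Q.G 1 (b - c))
    (r : ℕ) : Q.G 1 (b ^ r - c ^ r) := by
  induction r with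
  | zero => simpa using DV.G_zero 1
  | succ r ih =>
    have h1 : b ^ (r + 1) - c ^ (r + 1) = b ^ r * (b - c) + c * (b ^ r - c ^ r) := by ring
    rw [h1]
    have h2 : Q.G 0 (b ^ r) := by simpa using hb.pow r
    have h3 := h2.mul h
    have h4 := hc.mul ih
    rw [zero_add] at h3 h4
    exact h3.add h4

theorem frob_G {Q : DV H} {r : ℕ} {σ : H ≃ₐ[K] H}
    (hσ : ∀ a, Q.G 0 a → Q.G 1 (σ a - a ^ r)) (a : H) (ha : Q.G 0 a) : Q.G 0 (σ a) := by
  have h1 : Q.G 0 (a ^ r) := by simpa using ha.pow r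
  have h2 := ((hσ a ha).mono (by norm_num : (0 : ℤ) ≤ 1)).add h1
  rwa [sub_add_cancel] at h2

theorem frob_G_pow {Q : DV H} {r : ℕ} {σ : H ≃ₐ[K] H}
    (hσ : ∀ a, Q.G 0 a → Q.G 1 (σ a - a ^ r)) (j : ℕ) (a : H) (ha : Q.G 0 a) :
    Q.G 0 ((σ ^ j) a) := by
  induction j with
  | zero => simpa using ha
  | succ j ih =>
    rw [pow_succ', AlgEquiv.mul_apply]
    exact frob_G hσ _ ih

theorem frob_pow {Q : DV H} {r : ℕ} {σ : H ≃ₐ[K] H}
    (hσ : ∀ a, Q.G 0 a → Q.G 1 (σ a - a ^ r)) (j : ℕ) (a : H) (ha : Q.G 0 a) :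
    Q.G 1 ((σ ^ j) a - a ^ r ^ j) := by
  induction j with
  | zero => simpa using DV.G_zero 1
  | succ j ih =>
    rw [pow_succ', AlgEquiv.mul_apply]
    have h1 := hσ _ (frob_G_pow hσ j a ha)
    have h2 : Q.G 0 (a ^ r ^ j) := by simpa using ha.pow (r ^ j)
    have h3 := G_pow_sub_pow (frob_G_pow hσ j a ha) h2 ih r
    have h4 := h1.add h3
    have h5 : σ ((σ ^ j) a) - (σ ^ j) a ^ r + ((σ ^ j) a ^ r - (a ^ r ^ j) ^ r) =
        σ ((σ ^ j) a) - a ^ r ^ (j + 1) := by
      rw [← pow_mul a, ← pow_succ]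
      ring
    rwa [h5] at h4

/-- At an unramified place there is at most one Frobenius. -/
theorem frob_unique [Finite (H ≃ₐ[K] H)] {p : ℕ} [Fact p.Prime] [CharP H p] {Q : DV H} {v : DV K}
    (ho : OverE Q v 1) {N f : ℕ} (hN : N = p ^ f) (hN2 : 2 ≤ N)
    (hQ : ∀ a, Q.G 0 a → Q.G 1 (a ^ N - a)) {r : ℕ} {σ τ : H ≃ₐ[K] H}
    (hσ : ∀ a, Q.G 0 a → Q.G 1 (σ a - a ^ r)) (hτ : ∀ a, Q.G 0 a → Q.G 1 (τ a - a ^ r)) :
    σ = τ := by
  have h1 : ∀ a, Q.G 0 a → Q.G 0 (τ⁻¹ a) := by
    intro a ha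
    have h2 : τ⁻¹ = τ ^ (Nat.card (H ≃ₐ[K] H) - 1) := by
      have h3 : τ ^ (Nat.card (H ≃ₐ[K] H) - 1) * τ = 1 := by
        rw [← pow_succ, Nat.sub_add_cancel Nat.card_pos, pow_card_eq_one']
      exact (eq_inv_of_mul_eq_one_left h3).symm
    rw [h2]
    exact frob_G_pow hτ _ a ha
  have h2 : σ * τ⁻¹ = 1 := by
    refine inert_eq_one ho hN hN2 hQ _ fun a ha => ?_
    have h3 := (hσ _ (h1 a ha)).sub (hτ _ (h1 a ha))
    have h4 : τ (τ⁻¹ a) = a := by
      rw [← AlgEquiv.mul_apply, mul_inv_cancel]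
      rfl
    rw [h4] at h3
    have h5 : σ (τ⁻¹ a) - τ⁻¹ a ^ r - (a - τ⁻¹ a ^ r) = (σ * τ⁻¹) a - a := by
      rw [AlgEquiv.mul_apply]
      ring
    rwa [h5] at h3
  exact mul_inv_eq_one.1 h2

theorem OverE.e_unique {Q : DV H} {v : DV K} {e e' : ℕ} (h : OverE Q v e) (h' : OverE Q v e') :
    e = e' := by
  obtain ⟨t, _, ht1⟩ := v.exists_one
  have h1 := h.2 t
  rw [h'.2 t, ht1] at h1
  omega

end inertia

/-- the degree in an extension -/
theorem deg_of_resCard {k F F' : Type*} [Field k] [Finite k] [Field F] [Field F'] [Algebra k F]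
    {v : DV F} {w : DV F'} (hv : v.resCard ≠ 0) {f : ℕ} (h : w.resCard = v.resCard ^ f) :
    deg k w = f * deg k v := by
  unfold deg
  rw [h]
  have h1 := resCard_eq_pow k v hv
  conv_lhs => rw [h1]
  rw [← pow_mul, Nat.log_pow (one_lt_card k), mul_comm]
  rfl

/-- `H₁` Galois over `k(g)` with a rational place, unramified outside infinity, `E` a subfield:
many places of degree dividing `m` in `E` -/
theorem cheb {p : ℕ} [Fact p.Prime] {k E H : Type*} [Field k] [Finite k] [CharP k p] [Field E]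
    [Field H] [Algebra k E] [Algebra k H] [Algebra (RatFunc k) E] [Algebra (RatFunc k) H]
    [Algebra E H] [IsScalarTower k (RatFunc k) E] [IsScalarTower k (RatFunc k) H]
    [IsScalarTower (RatFunc k) E H] [FiniteDimensional (RatFunc k) H] [IsGalois (RatFunc k) H]
    {G : ℕ} (C : Cv k H G) {R : DV H} (hR : R.Rat k)
    (hu : ∀ (Q : DV H) (v : DV (RatFunc k)), Over Q v → v ≠ Rat.inf k → OverE Q v 1)
    {m s e : ℕ} (hm : 1 ≤ m) (hs : s = p ^ e) (hsq : s ^ 2 = Nat.card k ^ m)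
    (hG : (G + 1) * (G + 2) ≤ s) :
    Wt k E m s (Module.finrank (RatFunc k) H * (2 * G + 3)) := by
  classical
  have hcH : CharP H p := charP_of_injective_algebraMap (algebraMap k H).injective p
  have : FiniteDimensional E H := FiniteDimensional.right (RatFunc k) E H
  have : FiniteDimensional (RatFunc k) E := FiniteDimensional.left (RatFunc k) E H
  have hgE : IsGalois E H := IsGalois.tower_top_of_isGalois (RatFunc k) E H
  set n := Module.finrank (RatFunc k) H with hn
  have hPres : ∀ P : DV E, P.resCard ≠ 0 := by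
    intro P
    obtain ⟨v, hv⟩ := exists_over_of_algebraic (K := RatFunc k) P
    have := card_Res_ne_zero_of_over hv (by rw [DV.card_Res]; exact Rat.resCard_ne v)
    rwa [DV.card_Res] at this
  have hQres : ∀ Q : DV H, Q.resCard ≠ 0 := by
    intro Q
    obtain ⟨v, hv⟩ := exists_over_of_algebraic (K := RatFunc k) Q
    have := card_Res_ne_zero_of_over hv (by rw [DV.card_Res]; exact Rat.resCard_ne v)
    rwa [DV.card_Res] at this
  obtain ⟨A₀, hA₀, hsum₀⟩ := Rat.wt' (K := k) hm hsq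
  have hT := fun v : DV (RatFunc k) => sum_ef (K := RatFunc k) (E := H) v (Rat.resCard_ne v)
  choose T eT fT hTn hTm hTo hTs using hT
  have hU := fun P : DV E => sum_ef (K := E) (E := H) P (hPres P)
  choose U eU fU hUn hUm hUo hUs using hU
  have hPex := fun Q : DV H => exists_overE (K := E) (E := H) Q
  choose P eP hP using hPex
  set QQ : Finset (DV H) := A₀.biUnion T with hQQ
  have hmemQ : ∀ Q ∈ QQ, ∃ v ∈ A₀, Over Q v ∧ OverE Q v 1 := by
    intro Q hQ
    obtain ⟨v, hv, hQv⟩ := Finset.mem_biUnion.1 hQ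
    have h1 := (hTm v Q).1 hQv
    exact ⟨v, hv, h1, hu Q v h1 (hA₀ v hv).2⟩
  -- step 1
  have hdegT : ∀ v ∈ A₀, ∑ Q ∈ T v, deg k Q = n * deg k v := by
    intro v hv
    have h1 : ∀ Q ∈ T v, deg k Q = eT v Q * fT v Q * deg k v := by
      intro Q hQ
      obtain ⟨h2, -, h3⟩ := hTo v Q hQ
      have h4 : eT v Q = 1 := h2.e_unique (hu Q v ((hTm v Q).1 hQ) (hA₀ v hv).2)
      rw [h4, one_mul]
      exact deg_of_resCard (Rat.resCard_ne v) h3
    rw [Finset.sum_congr rfl h1, ← Finset.sum_mul, hTs v]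
  have htot : n * s ^ 2 ≤ ∑ Q ∈ QQ, deg k Q := by
    rw [hQQ, Finset.sum_biUnion]
    · rw [Finset.sum_congr rfl hdegT, ← Finset.mul_sum]
      exact Nat.mul_le_mul_left _ hsum₀
    · intro v _ v' _ hvv'
      rw [Function.onFun, Finset.disjoint_left]
      intro Q h1 h2
      exact hvv' (((hTm v Q).1 h1).unique ((hTm v' Q).1 h2))
  -- the pairs
  let gd : DV H → (H ≃ₐ[RatFunc k] H) → Prop := fun Q σ =>
    ∀ a, Q.G 0 a → Q.G 1 (σ a - a ^ (s * s))
  have hss : s * s = Nat.card k ^ m := by rw [← sq, hsq]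
  have hgd : ∀ Q ∈ QQ, ∃ σ, gd Q σ := by
    intro Q hQ
    obtain ⟨v, hv, hQv, -⟩ := hmemQ Q hQ
    obtain ⟨σ, hσ⟩ := exists_frob hQv (Rat.resCard_ne v)
    obtain ⟨j, hj⟩ := dvd_of_Er (Rat.resCard_ne v) (hA₀ v hv).1
    refine ⟨σ ^ j, fun a ha => ?_⟩
    have h1 := frob_pow hσ j a ha
    have h2 : v.resCard ^ j = s * s := by
      rw [resCard_eq_pow k v (Rat.resCard_ne v), ← pow_mul, ← hj, hss]
    rwa [h2] at h1
  set S : (H ≃ₐ[RatFunc k] H) → ℕ := fun σ => ∑ Q ∈ QQ.filter (fun Q => gd Q σ), deg k Q with hS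
  have hcardG : Fintype.card (H ≃ₐ[RatFunc k] H) = n := by
    rw [← Nat.card_eq_fintype_card]
    exact IsGalois.card_aut_eq_finrank _ _
  have hall : n * s ^ 2 ≤ ∑ σ, S σ := by
    refine htot.trans ?_
    simp only [hS, Finset.sum_filter]
    rw [Finset.sum_comm]
    refine Finset.sum_le_sum fun Q hQ => ?_
    obtain ⟨σ, hσ⟩ := hgd Q hQ
    calc deg k Q = if gd Q σ then deg k Q else 0 := by rw [if_pos hσ]
      _ ≤ _ := Finset.single_le_sum (f := fun σ => if gd Q σ then deg k Q else 0)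
          (fun _ _ => Nat.zero_le _) (Finset.mem_univ σ)
  set B : ℕ := s * s + (2 * G + 1) * s with hB
  have hSB : ∀ σ, S σ ≤ B := by
    intro σ
    refine bombS C hR σ.toRingEquiv (fun c => ?_) hs hs le_rfl hG _ fun Q hQ a ha => ?_
    · rw [IsScalarTower.algebraMap_apply k (RatFunc k) H]
      exact σ.commutes _
    · exact (Finset.mem_filter.1 hQ).2 a ha
  have hone : ∀ τ, n * s ^ 2 ≤ S τ + (n - 1) * B := by
    intro τ
    refine hall.trans ?_
    rw [← Finset.add_sum_erase _ _ (Finset.mem_univ τ)]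
    refine Nat.add_le_add_left ?_ _
    calc ∑ σ ∈ Finset.univ.erase τ, S σ ≤ ∑ _σ ∈ Finset.univ.erase τ, B :=
          Finset.sum_le_sum fun σ _ => hSB σ
      _ = (n - 1) * B := by
          rw [Finset.sum_const, Finset.card_erase_of_mem (Finset.mem_univ τ), Finset.card_univ,
            hcardG, smul_eq_mul]
  -- the automorphisms over `E`
  let r : (H ≃ₐ[E] H) → (H ≃ₐ[RatFunc k] H) := fun τ => τ.restrictScalars (RatFunc k)
  have hrinj : Function.Injective r := AlgEquiv.restrictScalars_injective (RatFunc k)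
  set Sg : Finset (DV H) := QQ.filter (fun Q => ∃ τ, gd Q (r τ)) with hSg
  have hcardD : Fintype.card (H ≃ₐ[E] H) = Module.finrank E H := by
    rw [← Nat.card_eq_fintype_card]
    exact IsGalois.card_aut_eq_finrank _ _
  have hfk := Fintype.ofFinite k
  obtain ⟨f₀, -, hck⟩ := FiniteField.card k p
  rw [← Nat.card_eq_fintype_card] at hck
  have huniq : ∀ Q ∈ QQ, ∀ τ τ' : H ≃ₐ[E] H, gd Q (r τ) → gd Q (r τ') → τ = τ' := by
    intro Q hQ τ τ' h1 h2
    obtain ⟨v, -, -, ho⟩ := hmemQ Q hQ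
    have hN : Q.resCard = p ^ ((f₀ : ℕ) * deg k Q) := by
      rw [resCard_eq_pow k Q (hQres Q), hck, ← pow_mul]
    have hN2 : 2 ≤ Q.resCard := by
      have h3 := hQres Q
      have h4 := Q.resCard_ne_one
      omega
    exact hrinj (frob_unique ho hN hN2 (fun a ha => Q.pow_resCard (hQres Q) ha) h1 h2)
  have hD : ∑ τ : H ≃ₐ[E] H, S (r τ) ≤ ∑ Q ∈ Sg, deg k Q := by
    simp only [hS, Finset.sum_filter, hSg]
    rw [Finset.sum_comm]
    refine Finset.sum_le_sum fun Q hQ => ?_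
    by_cases hex : ∃ τ, gd Q (r τ)
    · obtain ⟨τ₀, hτ₀⟩ := hex
      rw [if_pos ⟨τ₀, hτ₀⟩, Finset.sum_eq_single τ₀]
      · split_ifs <;> omega
      · intro τ _ hne
        rw [if_neg]
        exact fun h => hne (huniq Q hQ τ τ₀ h hτ₀)
      · intro h
        exact absurd (Finset.mem_univ _) h
    · rw [if_neg hex]
      refine (Finset.sum_eq_zero fun τ _ => ?_).le
      rw [if_neg]
      exact fun h => hex ⟨τ, h⟩
  set A : Finset (DV E) := Sg.image P with hA
  have hEr : ∀ w ∈ A, Er k w m := by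
    intro w hw
    obtain ⟨Q, hQ, rfl⟩ := Finset.mem_image.1 hw
    obtain ⟨τ, hτ⟩ := (Finset.mem_filter.1 hQ).2
    intro a ha
    have ho := (hP Q).over
    have h1 := hτ (algebraMap E H a) ((ho.G_zero_iff a).2 ha)
    have h2 : (r τ) (algebraMap E H a) = algebraMap E H a := τ.commutes a
    rw [h2, ← map_pow, ← map_sub, ho.G_one_iff, hss] at h1
    have h3 := h1.neg
    rwa [neg_sub] at h3
  have hsumA : ∑ Q ∈ Sg, deg k Q ≤ Module.finrank E H * ∑ w ∈ A, deg k w := by
    calc ∑ Q ∈ Sg, deg k Q ≤ ∑ Q ∈ A.biUnion U, deg k Q := by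
          refine Finset.sum_le_sum_of_subset fun Q hQ => ?_
          exact Finset.mem_biUnion.2 ⟨P Q, Finset.mem_image_of_mem _ hQ,
            (hUm (P Q) Q).2 (hP Q).over⟩
      _ = ∑ w ∈ A, ∑ Q ∈ U w, deg k Q := by
          refine Finset.sum_biUnion ?_
          intro v _ v' _ hvv'
          rw [Function.onFun, Finset.disjoint_left]
          intro Q h1 h2
          exact hvv' (((hUm v Q).1 h1).unique ((hUm v' Q).1 h2))
      _ ≤ ∑ w ∈ A, Module.finrank E H * deg k w := by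
          refine Finset.sum_le_sum fun w _ => ?_
          rw [← hUs w, Finset.sum_mul]
          refine Finset.sum_le_sum fun Q hQ => ?_
          obtain ⟨h2, -, h3⟩ := hUo w Q hQ
          rw [deg_of_resCard (hPres w) h3]
          refine Nat.mul_le_mul_right _ ?_
          exact Nat.le_mul_of_pos_left _ h2.1
      _ = _ := by rw [Finset.mul_sum]
  refine ⟨A, hEr, ?_⟩
  have hdpos : 0 < Module.finrank E H := Module.finrank_pos
  have hnpos : 1 ≤ n := Module.finrank_pos
  have h1 : Module.finrank E H * (n * s ^ 2) ≤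
      Module.finrank E H * (∑ w ∈ A, deg k w + (n - 1) * B) := by
    calc Module.finrank E H * (n * s ^ 2)
        = ∑ _τ : H ≃ₐ[E] H, n * s ^ 2 := by
          rw [Finset.sum_const, Finset.card_univ, hcardD, smul_eq_mul]
      _ ≤ ∑ τ : H ≃ₐ[E] H, (S (r τ) + (n - 1) * B) := Finset.sum_le_sum fun τ _ => hone (r τ)
      _ = ∑ τ : H ≃ₐ[E] H, S (r τ) + Module.finrank E H * ((n - 1) * B) := by
          rw [Finset.sum_add_distrib, Finset.sum_const, Finset.card_univ, hcardD, smul_eq_mul]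
      _ ≤ _ := by
          rw [mul_add (Module.finrank E H) (∑ w ∈ A, deg k w)]
          exact Nat.add_le_add_right (hD.trans hsumA) _
  have h2 := Nat.le_of_mul_le_mul_left h1 hdpos
  obtain ⟨n', hn'⟩ : ∃ n', n = n' + 1 := ⟨n - 1, by omega⟩
  have h3 : n - 1 = n' := by omega
  rw [h3, hB, hn'] at h2
  rw [hn']
  have e1 : (n' + 1) * s ^ 2 = n' * (s * s) + s ^ 2 := by ring
  have e2 : n' * (s * s + (2 * G + 1) * s) = n' * (s * s) + n' * ((2 * G + 1) * s) := by ring
  have e3 : (n' + 1) * (2 * G + 3) * s = n' * ((2 * G + 1) * s) + (n' * 2 * s + (2 * G + 3) * s) := by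
    ring
  omega

end Pool.Agent.FF
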