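import Pool.Agent.FD.CuspC

/-! # D3: degree and cusps of the field of a line tuple (36, 49) -/

set_option autoImplicit false

namespace Pool.Agent.FF

section

variable {F k H : Type} [Field F] [Finite F] [Field k] [Finite k] [Field H] [Algebra F k]
  [Algebra F H] [Algebra k H] [Algebra (RatFunc k) H] [IsScalarTower k (RatFunc k) H]

variable {s : ℕ} {M : Fin s → Polynomial F}

omit [Finite F] [Finite k] [Algebra F k] [Algebra k H] [IsScalarTower k (RatFunc k) H] in
/-- `c(L_J)` lies in the field of the tuple -/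
theorem cL_mem (L : Fin s → Submodule F H) (hfin : ∀ i, Finite (L i)) (J : Finset (Fin s)) :
    cL F (⨆ i ∈ J, L i) ∈ EL k L := cL_mem' L J

/-- the degree -/
theorem finrank_EL (h : DrS F k H (∏ i, M i)) {L : Fin s → Submodule F H} (hL : LT (gX k H) M L)
    {R : DV (EL k L)} (hR : R.Rat k) : Module.finrank (RatFunc k) (EL k L) = psiM M :=
  (cusp_main h hL hR).1

/-- all line tuples are conjugate -/
theorem exists_actL (h : DrS F k H (∏ i, M i)) {L L' : Fin s → Submodule F H}
    (hL : LT (gX k H) M L) (hL' : LT (gX k H) M L') {R : DV (EL k L)} (hR : R.Rat k) :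
    ∃ σ : H ≃ₐ[RatFunc k] H, actL σ L L' := exists_act_of h hL hL' (finrank_EL h hL hR)

/-- a place of `E` over infinity: index `r ^ D_I`, degree one -/
theorem cusp_ef (h : DrS F k H (∏ i, M i)) {L : Fin s → Submodule F H} (hL : LT (gX k H) M L)
    {R : DV (EL k L)} (hR : R.Rat k) {P : DV (EL k L)} (hP : Over P (Rat.inf k)) {Q : DV H}
    (hQ : Over Q P) :
    OverE P (Rat.inf k) (Nat.card F ^ dgM M (typ F (gX k H) Q M L)) ∧ P.Rat k := by
  obtain ⟨h1, h2⟩ := (cusp_main h hL hR).2.1 P Q hP hQ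
  exact ⟨h1, (rational_iff k P).1 h2⟩

/-- one place of each type -/
theorem cusp_unique (h : DrS F k H (∏ i, M i)) {L : Fin s → Submodule F H}
    (hL : LT (gX k H) M L) {R : DV (EL k L)} (hR : R.Rat k) {P P' : DV (EL k L)}
    (hP : Over P (Rat.inf k)) (hP' : Over P' (Rat.inf k)) {Q Q' : DV H} (hQ : Over Q P)
    (hQ' : Over Q' P') (ht : typ F (gX k H) Q M L = typ F (gX k H) Q' M L) : P = P' :=
  (cusp_main h hL hR).2.2.1 P P' Q Q' hP hP' hQ hQ' ht

/-- the type does not depend on the place above -/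
theorem typ_eq (h : DrS F k H (∏ i, M i)) {L : Fin s → Submodule F H}
    (hL : LT (gX k H) M L) {P : DV (EL k L)} (hP : Over P (Rat.inf k)) {Q Q' : DV H}
    (hQ : Over Q P) (hQ' : Over Q' P) : typ F (gX k H) Q M L = typ F (gX k H) Q' M L :=
  typ_eq' h hQ hQ'

/-- all types occur -/
theorem exists_cusp (h : DrS F k H (∏ i, M i)) {L : Fin s → Submodule F H}
    (hL : LT (gX k H) M L) {R : DV (EL k L)} (hR : R.Rat k) (I : Finset (Fin s)) :
    ∃ (P : DV (EL k L)) (Q : DV H), Over P (Rat.inf k) ∧ Over Q P ∧ typ F (gX k H) Q M L = I :=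
  (cusp_main h hL hR).2.2.2 I

end

end Pool.Agent.FF
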