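import Pool.Agent.FD.CuspDefs

/-! # D3: action of the Galois group on line tuples (49) -/

set_option autoImplicit false

namespace Pool.Agent.FF

section

variable {F k H : Type} [Field F] [Finite F] [Field k] [Finite k] [Field H] [Algebra F k]
  [Algebra F H] [Algebra k H] [Algebra (RatFunc k) H] [IsScalarTower k (RatFunc k) H]

variable {s : ℕ}

omit [Finite F] [Finite k] [Algebra F k] [Algebra k H] [IsScalarTower k (RatFunc k) H] in
theorem actL.symm {σ : H ≃ₐ[RatFunc k] H} {L L' : Fin s → Submodule F H} (h : actL σ L L') :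
    actL σ⁻¹ L' L := by
  intro i x
  rw [h i (σ⁻¹ x)]
  have : σ (σ⁻¹ x) = x := by
    rw [← AlgEquiv.mul_apply, mul_inv_cancel]
    rfl
  rw [this]

omit [Finite F] [Finite k] [Algebra F k] [Algebra k H] [IsScalarTower k (RatFunc k) H] in
theorem actL.mem_iSup_of {σ : H ≃ₐ[RatFunc k] H} {L L' : Fin s → Submodule F H} (h : actL σ L L')
    (J : Finset (Fin s)) {x : H} (hx : x ∈ ⨆ i ∈ J, L i) : σ x ∈ ⨆ i ∈ J, L' i := by
  rw [Submodule.mem_iSup_finset_iff_exists_sum] at hx ⊢
  obtain ⟨μ, rfl⟩ := hx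
  exact ⟨fun i => ⟨σ (μ i), (h i _).1 (μ i).2⟩, by rw [map_sum]⟩

omit [Finite F] [Finite k] [Algebra F k] [Algebra k H] [IsScalarTower k (RatFunc k) H] in
theorem actL.mem_iSup {σ : H ≃ₐ[RatFunc k] H} {L L' : Fin s → Submodule F H} (h : actL σ L L')
    (J : Finset (Fin s)) (x : H) : x ∈ ⨆ i ∈ J, L i ↔ σ x ∈ ⨆ i ∈ J, L' i := by
  refine ⟨h.mem_iSup_of J, fun hx => ?_⟩
  have h1 := h.symm.mem_iSup_of J hx
  have : σ⁻¹ (σ x) = x := by
    rw [← AlgEquiv.mul_apply, inv_mul_cancel]
    rfl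
  rwa [this] at h1

omit [Finite F] [Finite k] [Algebra F k] [Algebra k H] [IsScalarTower k (RatFunc k) H] in
theorem actL.map_cL {σ : H ≃ₐ[RatFunc k] H} {L L' : Fin s → Submodule F H} (h : actL σ L L')
    (J : Finset (Fin s)) : σ (cL F (⨆ i ∈ J, L i)) = cL F (⨆ i ∈ J, L' i) := by
  unfold cL
  have h1 := MulEquivClass.map_finprod σ (fun v : H => ∏ᶠ (_ : v ∈ (⨆ i ∈ J, L i) ∧ v ≠ 0), v)
  rw [h1]
  refine Eq.trans ?_ (finprod_comp_equiv σ.toEquiv
    (f := fun v : H => ∏ᶠ (_ : v ∈ (⨆ i ∈ J, L' i) ∧ v ≠ 0), v))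
  refine finprod_congr fun v => ?_
  rw [MulEquivClass.map_finprod σ]
  refine finprod_congr_Prop ?_ fun _ => rfl
  have h2 : σ.toEquiv v = σ v := rfl
  rw [h.mem_iSup J v, h2, Ne, Ne, EmbeddingLike.map_eq_zero_iff]

omit [Finite F] [Finite k] [Algebra F k] [Algebra k H] [IsScalarTower k (RatFunc k) H] in
/-- `c(L_J)` lies in the field of the tuple -/
theorem cL_mem' (L : Fin s → Submodule F H) (J : Finset (Fin s)) :
    cL F (⨆ i ∈ J, L i) ∈ EL k L := by
  rw [IntermediateField.mem_fixedField_iff]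
  intro σ hσ
  exact actL.map_cL (L' := L) (σ := σ) (fun i x => hσ i x) J

/-! ### The action on lines -/

/-- an automorphism as an `F`-linear map -/
noncomputable def sigF (ht : ∀ c : F, algebraMap F H c = algebraMap (RatFunc k) H
    (RatFunc.C (algebraMap F k c))) (σ : H ≃ₐ[RatFunc k] H) : H →ₗ[F] H where
  toFun := σ
  map_add' := map_add σ
  map_smul' c x := by
    simp only [Algebra.smul_def, map_mul, ht c, RingHom.id_apply, AlgEquiv.commutes]

omit [Finite F] [Finite k] [Algebra k H] [IsScalarTower k (RatFunc k) H] in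
theorem sigF_apply (ht : ∀ c : F, algebraMap F H c = algebraMap (RatFunc k) H
    (RatFunc.C (algebraMap F k c))) (σ : H ≃ₐ[RatFunc k] H) (x : H) : sigF ht σ x = σ x := rfl

omit [Finite k] [Algebra F k] [Algebra k H] [IsScalarTower k (RatFunc k) H] in
theorem sig_phT (σ : H ≃ₐ[RatFunc k] H) (x : H) :
    σ (phT F (gX k H) x) = phT F (gX k H) (σ x) := by
  rw [phT_apply, phT_apply, map_sub, map_add, map_mul, map_pow, map_pow, AlgEquiv.commutes]

omit [Finite k] [Algebra k H] [IsScalarTower k (RatFunc k) H] in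
theorem sig_phN (ht : ∀ c : F, algebraMap F H c = algebraMap (RatFunc k) H
    (RatFunc.C (algebraMap F k c))) (σ : H ≃ₐ[RatFunc k] H) (N : Polynomial F) (x : H) :
    σ (phN F (gX k H) N x) = phN F (gX k H) N (σ x) := by
  unfold phN
  induction N using Polynomial.induction_on' generalizing x with
  | add p q hp hq =>
    rw [map_add, LinearMap.add_apply, LinearMap.add_apply, map_add, hp, hq]
  | monomial n a =>
    rw [Polynomial.aeval_monomial, Module.End.mul_apply, Module.End.mul_apply,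
      Module.algebraMap_end_apply, Module.algebraMap_end_apply, Algebra.smul_def,
      Algebra.smul_def, map_mul]
    congr 1
    · rw [ht a, AlgEquiv.commutes]
    · induction n generalizing x with
      | zero => rfl
      | succ n ih => rw [pow_succ, Module.End.mul_apply, Module.End.mul_apply, ih, sig_phT]

omit [Finite k] [Algebra k H] [IsScalarTower k (RatFunc k) H] in
theorem mem_VN_map (ht : ∀ c : F, algebraMap F H c = algebraMap (RatFunc k) H
    (RatFunc.C (algebraMap F k c))) (σ : H ≃ₐ[RatFunc k] H) (N : Polynomial F) (x : H) :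
    σ x ∈ VN F (gX k H) N ↔ x ∈ VN F (gX k H) N := by
  unfold VN
  rw [LinearMap.mem_ker, LinearMap.mem_ker, ← sig_phN ht, map_eq_zero_iff σ σ.injective]

omit [Finite k] [Algebra k H] [IsScalarTower k (RatFunc k) H] in
theorem IsLine.mapS (ht : ∀ c : F, algebraMap F H c = algebraMap (RatFunc k) H
    (RatFunc.C (algebraMap F k c))) (σ : H ≃ₐ[RatFunc k] H) {M : Polynomial F}
    {L : Submodule F H} (h : IsLine F (gX k H) M L) :
    IsLine F (gX k H) M (L.map (sigF ht σ)) where
  le := by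
    rintro _ ⟨x, hx, rfl⟩
    exact (mem_VN_map ht σ M x).2 (h.le hx)
  st := by
    rintro _ ⟨x, hx, rfl⟩
    exact ⟨phT F (gX k H) x, h.st x hx, sig_phT σ x⟩
  card := by
    rw [← h.card]
    exact (Nat.card_congr (Submodule.equivMapOfInjective (sigF ht σ) σ.injective L).toEquiv).symm

omit [Finite F] [Finite k] [Algebra k H] [IsScalarTower k (RatFunc k) H] in
theorem actL_map (ht : ∀ c : F, algebraMap F H c = algebraMap (RatFunc k) H
    (RatFunc.C (algebraMap F k c))) (σ : H ≃ₐ[RatFunc k] H) (L : Fin s → Submodule F H) :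
    actL σ L (fun i => (L i).map (sigF ht σ)) := by
  intro i x
  constructor
  · exact fun hx => ⟨x, hx, rfl⟩
  · rintro ⟨y, hy, h⟩
    have : y = x := σ.injective h
    rwa [← this]

omit [Finite F] [Finite k] [Algebra F k] [Algebra k H] [IsScalarTower k (RatFunc k) H] in
theorem actL.unique {σ : H ≃ₐ[RatFunc k] H} {L L' L'' : Fin s → Submodule F H} (h : actL σ L L')
    (h' : actL σ L L'') : L' = L'' := by
  funext i
  ext x
  obtain ⟨y, rfl⟩ := σ.surjective x
  rw [← h i y, ← h' i y]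

/-! ### Types -/

omit [Finite k] [Algebra k H] [IsScalarTower k (RatFunc k) H] in
theorem mem_V0_act (ht : ∀ c : F, algebraMap F H c = algebraMap (RatFunc k) H
    (RatFunc.C (algebraMap F k c))) (σ : H ≃ₐ[RatFunc k] H) (Q : DV H) (N : Polynomial F) (x : H) :
    σ x ∈ V0 F (gX k H) (Q.act σ) N ↔ x ∈ V0 F (gX k H) Q N := by
  have h1 : (Q.act σ).ord (σ x) = Q.ord x := by
    show Q.ord (σ.symm (σ x)) = _
    rw [AlgEquiv.symm_apply_apply]
  have h2 : (Q.act σ).ord (gX k H) = Q.ord (gX k H) := by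
    show Q.ord (σ.symm (algebraMap _ _ _)) = _
    rw [AlgEquiv.commutes]
  show (σ x ∈ VN F (gX k H) N ∧ (σ x = 0 ∨ 0 ≤ (Q.act σ).ord (σ x)) ∧
    (σ x = 0 ∨ - (Q.act σ).ord (gX k H) ≤ ((Nat.card F : ℤ) - 1) * (Q.act σ).ord (σ x))) ↔
    (x ∈ VN F (gX k H) N ∧ (x = 0 ∨ 0 ≤ Q.ord x) ∧
    (x = 0 ∨ - Q.ord (gX k H) ≤ ((Nat.card F : ℤ) - 1) * Q.ord x))
  rw [h1, h2, mem_VN_map ht, map_eq_zero_iff σ σ.injective]

omit [Finite k] [Algebra k H] [IsScalarTower k (RatFunc k) H] in
theorem typ_act (ht : ∀ c : F, algebraMap F H c = algebraMap (RatFunc k) H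
    (RatFunc.C (algebraMap F k c))) {σ : H ≃ₐ[RatFunc k] H} {L L' : Fin s → Submodule F H}
    (h : actL σ L L') (Q : DV H) (M : Fin s → Polynomial F) :
    typ F (gX k H) (Q.act σ) M L' = typ F (gX k H) Q M L := by
  classical
  have key : ∀ i, L' i = V0 F (gX k H) (Q.act σ) (M i) ↔ L i = V0 F (gX k H) Q (M i) := by
    intro i
    constructor
    · intro hi
      ext x
      rw [h i x, hi, mem_V0_act ht]
    · intro hi
      ext y
      obtain ⟨x, rfl⟩ := σ.surjective y
      rw [← h i x, hi, mem_V0_act ht]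
  unfold typ
  refine Finset.filter_congr fun i _ => ?_
  rw [Ne, Ne, key i]

omit [Finite k] [Algebra k H] [IsScalarTower k (RatFunc k) H] in
/-- the image tuple -/
theorem LT.exists_img (ht : ∀ c : F, algebraMap F H c = algebraMap (RatFunc k) H
    (RatFunc.C (algebraMap F k c))) (σ : H ≃ₐ[RatFunc k] H) {M : Fin s → Polynomial F}
    {L : Fin s → Submodule F H} (hL : LT (gX k H) M L) :
    ∃ L' : Fin s → Submodule F H, LT (gX k H) M L' ∧ actL σ L L' :=
  ⟨fun i => (L i).map (sigF ht σ), ⟨hL.monic, hL.irr, hL.one, hL.inj, hL.full,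
    fun i => (hL.line i).mapS ht σ⟩, actL_map ht σ L⟩

omit [Finite F] [Finite k] [Algebra F k] [Algebra k H] [IsScalarTower k (RatFunc k) H] in
theorem mem_stL_of_actL {σ : H ≃ₐ[RatFunc k] H} {L : Fin s → Submodule F H} (h : actL σ L L) :
    σ ∈ stL k L := fun i x => h i x

omit [Finite F] [Finite k] [Algebra F k] [Algebra k H] [IsScalarTower k (RatFunc k) H] in
theorem actL.mul {σ τ : H ≃ₐ[RatFunc k] H} {L L' L'' : Fin s → Submodule F H} (h : actL σ L L')
    (h' : actL τ L' L'') : actL (τ * σ) L L'' := fun i x => (h i x).trans (h' i _)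

end

end Pool.Agent.FF
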