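import Mathlib

/-! # D3: the interpolation (36) -/

set_option autoImplicit false

namespace Pool.Agent.FF

open Classical in
theorem cusps_key {α : Type*} (T : Finset α) {s : ℕ} (d : Fin s → ℕ) (r : ℕ) (hr : 2 ≤ r)
    (hd : ∀ i, 0 < d i) (w : α → ℚ) (ty : α → Finset (Fin s))
    (h : ∀ J : Finset (Fin s), ∑ P ∈ T, w P *
      ((r : ℚ) ^ (∑ i ∈ J \ ty P, d i) / (r : ℚ) ^ (∑ i ∈ J ∩ ty P, d i)) = ∑ P ∈ T, w P)
    (I : Finset (Fin s)) :
    (∑ P ∈ T with ty P = I, w P) * ∏ i, ((r : ℚ) ^ d i + 1) =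
      (∑ P ∈ T, w P) * (r : ℚ) ^ (∑ i ∈ I, d i) := by
  set q : Fin s → ℚ := fun i => (r : ℚ) ^ d i with hq
  have hq1 : ∀ i, 1 < q i := fun i =>
    one_lt_pow₀ (by exact_mod_cast (by omega : 1 < r)) (hd i).ne'
  have hq0 : ∀ i, q i ≠ 0 := fun i => (zero_lt_one.trans (hq1 i)).ne'
  have hqq : ∀ i, q i ^ 2 - 1 ≠ 0 := fun i => by
    have := hq1 i
    have h2 : 1 < q i ^ 2 := one_lt_pow₀ this (by norm_num)
    linarith
  set ε : Fin s → α → ℚ := fun i P => if i ∈ ty P then (q i)⁻¹ else q i with hε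
  have hprod : ∀ (J : Finset (Fin s)) (P : α), ∏ i ∈ J, ε i P =
      (r : ℚ) ^ (∑ i ∈ J \ ty P, d i) / (r : ℚ) ^ (∑ i ∈ J ∩ ty P, d i) := by
    intro J P
    rw [hε]
    simp only
    rw [Finset.prod_ite, Finset.filter_mem_eq_inter, Finset.prod_inv_distrib,
      show (J.filter fun i => i ∉ ty P) = J \ ty P by ext i; simp, hq]
    simp only
    rw [Finset.prod_pow_eq_pow_sum, Finset.prod_pow_eq_pow_sum, div_eq_mul_inv, mul_comm]
  set a : Fin s → ℚ := fun i => if i ∈ I then -q i / (q i ^ 2 - 1) else q i / (q i ^ 2 - 1) with ha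
  set b : Fin s → ℚ := fun i => if i ∈ I then q i ^ 2 / (q i ^ 2 - 1) else -1 / (q i ^ 2 - 1)
    with hb
  have hg : ∀ i P, ε i P * a i + b i = if (i ∈ ty P ↔ i ∈ I) then 1 else 0 := by
    intro i P
    have h1 := hq0 i
    have h2 := hqq i
    simp only [hε, ha, hb]
    by_cases h3 : i ∈ ty P <;> by_cases h4 : i ∈ I <;>
      simp only [h3, h4, if_true, if_false, iff_self, iff_true, iff_false,
        not_true] <;> field_simp <;> ring
  have hG : ∀ P, ∏ i, (ε i P * a i + b i) = if ty P = I then 1 else 0 := by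
    intro P
    rw [Finset.prod_congr rfl fun i _ => hg i P]
    by_cases h1 : ty P = I
    · rw [if_pos h1]
      exact Finset.prod_eq_one fun i _ => by rw [h1, if_pos Iff.rfl]
    · rw [if_neg h1]
      obtain ⟨i, hi⟩ : ∃ i, ¬ (i ∈ ty P ↔ i ∈ I) := by
        by_contra hcon
        push Not at hcon
        exact h1 (Finset.ext hcon)
      exact Finset.prod_eq_zero (Finset.mem_univ i) (if_neg hi)
  have hab : ∀ i, a i + b i = (if i ∈ I then q i else 1) / (q i + 1) := by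
    intro i
    have h1 := hq0 i
    have h2 := hqq i
    have h3 : q i + 1 ≠ 0 := by have := hq1 i; linarith
    simp only [ha, hb]
    by_cases h4 : i ∈ I
    · simp only [h4, if_true]
      field_simp
      ring
    · simp only [h4, if_false]
      field_simp
      ring
  have hsum : ∑ P ∈ T, w P * ∏ i, (ε i P * a i + b i) = (∑ P ∈ T, w P) * ∏ i, (a i + b i) := by
    have e1 : ∀ P ∈ T, w P * ∏ i, (ε i P * a i + b i) =
        ∑ J ∈ (Finset.univ : Finset (Fin s)).powerset,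
          ((∏ i ∈ J, a i) * ∏ i ∈ Finset.univ \ J, b i) * (w P * ∏ i ∈ J, ε i P) := by
      intro P _
      rw [Finset.prod_add, Finset.mul_sum]
      refine Finset.sum_congr rfl fun J _ => ?_
      rw [Finset.prod_mul_distrib]
      ring
    rw [Finset.sum_congr rfl e1, Finset.sum_comm]
    have e2 : ∀ J ∈ (Finset.univ : Finset (Fin s)).powerset, ∑ P ∈ T,
        ((∏ i ∈ J, a i) * ∏ i ∈ Finset.univ \ J, b i) * (w P * ∏ i ∈ J, ε i P) =
        ((∏ i ∈ J, a i) * ∏ i ∈ Finset.univ \ J, b i) * ∑ P ∈ T, w P := by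
      intro J _
      rw [← Finset.mul_sum]
      congr 1
      rw [← h J]
      exact Finset.sum_congr rfl fun P _ => by rw [hprod]
    rw [Finset.sum_congr rfl e2, ← Finset.sum_mul, Finset.prod_add, mul_comm]
  have e3 : ∑ P ∈ T, w P * ∏ i, (ε i P * a i + b i) = ∑ P ∈ T with ty P = I, w P := by
    rw [Finset.sum_filter]
    refine Finset.sum_congr rfl fun P _ => ?_
    rw [hG]
    split_ifs <;> simp
  have e4 : ∏ i, (a i + b i) = (r : ℚ) ^ (∑ i ∈ I, d i) / ∏ i, (q i + 1) := by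
    rw [Finset.prod_congr rfl fun i _ => hab i, Finset.prod_div_distrib, Finset.prod_ite_mem,
      Finset.univ_inter, hq]
    simp only
    rw [Finset.prod_pow_eq_pow_sum]
  have e5 : ∏ i, (q i + 1) ≠ 0 := Finset.prod_ne_zero_iff.2 fun i _ => by
    have := hq1 i; linarith
  show _ * ∏ i, (q i + 1) = _
  rw [← e3, hsum, e4]
  field_simp

/-- D3: from the product formulas to the cusps. -/
theorem cusps_pure {α : Type*} (T : Finset α) {s : ℕ} (d : Fin s → ℕ) (r : ℕ) (hr : 2 ≤ r)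
    (hd : ∀ i, 0 < d i) (e f : α → ℕ) (he : ∀ P ∈ T, 0 < e P) (hf : ∀ P ∈ T, 0 < f P)
    (hT : T.Nonempty) (ty : α → Finset (Fin s)) (hdvd : ∀ P ∈ T, r ^ (∑ i ∈ ty P, d i) ∣ e P)
    (h : ∀ J : Finset (Fin s), ∑ P ∈ T, ((e P * f P : ℕ) : ℚ) *
      ((r : ℚ) ^ (∑ i ∈ J \ ty P, d i) / (r : ℚ) ^ (∑ i ∈ J ∩ ty P, d i)) =
      ∑ P ∈ T, ((e P * f P : ℕ) : ℚ))
    (hle : ∑ P ∈ T, e P * f P ≤ ∏ i, (r ^ d i + 1)) :
    ∑ P ∈ T, e P * f P = ∏ i, (r ^ d i + 1) ∧
    (∀ P ∈ T, e P = r ^ (∑ i ∈ ty P, d i) ∧ f P = 1) ∧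
    (∀ I : Finset (Fin s), ∃ P ∈ T, ty P = I) ∧
    (∀ P ∈ T, ∀ P' ∈ T, ty P = ty P' → P = P') := by
  classical
  have hr0 : 0 < r := by omega
  -- the sums over the types in `ℕ`
  have key : ∀ I : Finset (Fin s), (∑ P ∈ T with ty P = I, e P * f P) * ∏ i, (r ^ d i + 1) =
      (∑ P ∈ T, e P * f P) * r ^ (∑ i ∈ I, d i) := by
    intro I
    have h1 := cusps_key T d r hr hd (fun P => ((e P * f P : ℕ) : ℚ)) ty h I
    have h2 : (((∑ P ∈ T with ty P = I, e P * f P) * ∏ i, (r ^ d i + 1) : ℕ) : ℚ) =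
        (((∑ P ∈ T, e P * f P) * r ^ (∑ i ∈ I, d i) : ℕ) : ℚ) := by
      push_cast at h1 ⊢
      exact h1
    exact_mod_cast h2
  set m := ∑ P ∈ T, e P * f P with hm
  set ψ := ∏ i, (r ^ d i + 1) with hψ
  have hψ0 : 0 < ψ := Finset.prod_pos fun i _ => by positivity
  have hm0 : 0 < m := Finset.sum_pos (fun P hP => Nat.mul_pos (he P hP) (hf P hP)) hT
  have hmψ : m = ψ := by
    have h1 := key ∅
    rw [Finset.sum_empty, pow_zero, mul_one] at h1
    refine le_antisymm hle ?_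
    rw [← h1]
    refine Nat.le_mul_of_pos_left ψ (Nat.pos_of_ne_zero fun h0 => ?_)
    rw [h0, zero_mul] at h1
    omega
  have key' : ∀ I : Finset (Fin s), ∑ P ∈ T with ty P = I, e P * f P = r ^ (∑ i ∈ I, d i) := by
    intro I
    have h1 := key I
    rw [hmψ, mul_comm] at h1
    exact Nat.eq_of_mul_eq_mul_left hψ0 h1
  have hlow : ∀ P ∈ T, r ^ (∑ i ∈ ty P, d i) ≤ e P := fun P hP => Nat.le_of_dvd (he P hP) (hdvd P hP)
  have hmem : ∀ P ∈ T, P ∈ T.filter (fun P' => ty P' = ty P) := fun P hP =>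
    Finset.mem_filter.2 ⟨hP, rfl⟩
  have hterm : ∀ P ∈ T, e P * f P ≤ r ^ (∑ i ∈ ty P, d i) := by
    intro P hP
    rw [← key' (ty P)]
    exact Finset.single_le_sum (f := fun P => e P * f P) (fun _ _ => Nat.zero_le _) (hmem P hP)
  have hef : ∀ P ∈ T, e P = r ^ (∑ i ∈ ty P, d i) ∧ f P = 1 := by
    intro P hP
    have h1 := hlow P hP
    have h2 := hterm P hP
    have h3 : e P ≤ e P * f P := Nat.le_mul_of_pos_right _ (hf P hP)
    have h4 : e P = r ^ (∑ i ∈ ty P, d i) := by omega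
    refine ⟨h4, ?_⟩
    have h5 : e P * f P = e P * 1 := by omega
    exact Nat.eq_of_mul_eq_mul_left (he P hP) h5
  refine ⟨hmψ, hef, fun I => ?_, fun P hP P' hP' hty => ?_⟩
  · by_contra hcon
    push Not at hcon
    have h1 := key' I
    rw [Finset.sum_eq_zero] at h1
    · exact absurd h1.symm (pow_pos hr0 _).ne'
    · intro P hP
      rw [Finset.mem_filter] at hP
      exact absurd hP.2 (hcon P hP.1)
  · by_contra hne
    have h1 := key' (ty P)
    have h2 : ({P, P'} : Finset α) ⊆ T.filter (fun P'' => ty P'' = ty P) := by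
      intro x hx
      rw [Finset.mem_insert, Finset.mem_singleton] at hx
      rcases hx with rfl | rfl
      · exact hmem _ hP
      · exact Finset.mem_filter.2 ⟨hP', hty.symm⟩
    have h3 := Finset.sum_le_sum_of_subset (f := fun P => e P * f P) h2
    rw [Finset.sum_pair hne, h1, (hef P hP).1, (hef P hP).2, mul_one] at h3
    have h4 : 0 < e P' * f P' := Nat.mul_pos (he P' hP') (hf P' hP')
    omega

end Pool.Agent.FF
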