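import Pool.Agent.FD.Inf

/-! # D2: `V_0` is a line; the products `c(L)` -/

set_option autoImplicit false

namespace Pool.Agent.FF

namespace LnD

section

variable {F : Type*} {H : Type*} [Field F] [Finite F] [Field H] [Algebra F H]

theorem V0_line {g : H} {Q : DV H} (hg : Q.ord g < 0) {M : Polynomial F} (hM : M.Monic)
    (h1 : M.eval 1 ≠ 0) (hV : Nat.card (VN F g M) = Nat.card F ^ (2 * M.natDegree)) :
    IsLine F g M (V0 F g Q M) where
  le _ hx := hx.1
  st _ hx := V0_st hg hx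
  card := card_V0 hg hM h1 hV

omit [Finite F] in
/-- `c(L)` as a finite product -/
theorem cL_eq {L : Submodule F H} (hf : {v : H | v ∈ L ∧ v ≠ 0}.Finite) :
    cL F L = ∏ v ∈ hf.toFinset, v :=
  finprod_mem_eq_finite_toFinset_prod _ hf

omit [Finite F] in
theorem finite_set {L : Submodule F H} (hL : Finite L) : {v : H | v ∈ L ∧ v ≠ 0}.Finite :=
  Set.Finite.subset (Set.toFinite (L : Set H)) fun _ hv => hv.1

omit [Finite F] in
theorem cL_ne_zero {L : Submodule F H} (hL : Finite L) : cL F L ≠ 0 := by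
  rw [cL_eq (finite_set hL), Finset.prod_ne_zero_iff]
  intro v hv
  exact ((finite_set hL).mem_toFinset.1 hv).2

omit [Finite F] [Algebra F H] [Field F] in
theorem ord_prod (Q : DV H) (T : Finset H) (h : ∀ v ∈ T, v ≠ 0 ∧ Q.ord v = 0) :
    Q.ord (∏ v ∈ T, v) = 0 := by
  classical
  induction T using Finset.induction_on with
  | empty => simpa using Q.ord_one
  | insert a T ha ih =>
    have h1 := h a (Finset.mem_insert_self a T)
    have h2 : ∀ v ∈ T, v ≠ 0 ∧ Q.ord v = 0 := fun v hv => h v (Finset.mem_insert_of_mem hv)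
    have h3 : ∏ v ∈ T, v ≠ 0 := Finset.prod_ne_zero_iff.2 fun v hv => (h2 v hv).1
    rw [Finset.prod_insert ha, Q.ord_mul _ _ h1.1 h3, h1.2, ih h2, add_zero]

theorem VN_mono (g : H) {M N : Polynomial F} (h : M ∣ N) : VN F g M ≤ VN F g N := by
  obtain ⟨M', rfl⟩ := h
  intro x hx
  rw [VN, LinearMap.mem_ker] at hx ⊢
  rw [mul_comm, phN_mul, hx, map_zero]

theorem sup_le_VN {g : H} {s : ℕ} {M : Fin s → Polynomial F} {L : Fin s → Submodule F H}
    (h : ∀ i, L i ≤ VN F g (M i)) (J : Finset (Fin s)) :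
    ⨆ i ∈ J, L i ≤ VN F g (∏ i ∈ J, M i) :=
  iSup₂_le fun i hi => (h i).trans (VN_mono g (Finset.dvd_prod_of_mem M hi))

/-- at the places where `g` is integral the `c(L_J)` are units -/
theorem cL_unit {g : H} {s : ℕ} {M : Fin s → Polynomial F} {L : Fin s → Submodule F H}
    (h1 : ∀ i, (M i).eval 1 ≠ 0) (h : ∀ i, L i ≤ VN F g (M i)) {Q : DV H} (hg : Q.G 0 g)
    (J : Finset (Fin s)) : Q.ord (cL F (⨆ i ∈ J, L i)) = 0 := by
  have he : (∏ i ∈ J, M i).eval 1 ≠ 0 := by
    rw [Polynomial.eval_prod, Finset.prod_ne_zero_iff]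
    exact fun i _ => h1 i
  have hN : (∏ i ∈ J, M i) ≠ 0 := fun h0 => he (by rw [h0, Polynomial.eval_zero])
  have hle := sup_le_VN h J
  have hf1 := finite_VN g hN
  have hL : Finite (⨆ i ∈ J, L i : Submodule F H) :=
    Finite.Set.subset (VN F g (∏ i ∈ J, M i) : Set H) hle
  rw [cL_eq (finite_set hL)]
  apply ord_prod
  intro v hv
  have h2 := (finite_set hL).mem_toFinset.1 hv
  exact ⟨h2.2, VN_unit hg he (hle h2.1) h2.2⟩

end

end LnD

end Pool.Agent.FF
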