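import Pool.Agent.FD.LinesB

/-! # The valuations on a sum of lines (42) -/

set_option autoImplicit false

namespace Pool.Agent.FF

open Polynomial

section

variable {F : Type*} {H : Type*} [Field F] [Finite F] [Field H] [Algebra F H]

open Classical in
/-- `e - (r - 1) ord x`, and `0` at `0` -/
noncomputable def LnF.c (F : Type*) {H : Type*} [Field H] (g : H) (Q : DV H) (x : H) : ℤ :=
  if x = 0 then 0 else - Q.ord g - ((Nat.card F : ℤ) - 1) * Q.ord x

variable {g : H} {Q : DV H}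

omit [Field F] [Finite F] [Algebra F H] in
theorem LnF.c_zero : LnF.c F g Q 0 = 0 := if_pos rfl

omit [Field F] [Finite F] [Algebra F H] in
theorem LnF.c_ne {x : H} (h : x ≠ 0) :
    LnF.c F g Q x = - Q.ord g - ((Nat.card F : ℤ) - 1) * Q.ord x := if_neg h

omit [Algebra F H] in
theorem LnF.r_pos : (1 : ℤ) < (Nat.card F : ℤ) := by
  have h : 1 < Nat.card F := Finite.one_lt_card
  exact_mod_cast h

omit [Field F] [Finite F] [Algebra F H] in
theorem LnF.inU (hg : Q.ord g < 0) {t : ℕ} {x : H} : InU F g Q t x ↔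
    (Nat.card F : ℤ) ^ (t + 1) * LnF.c F g Q x ≤ ((Nat.card F : ℤ) + 1) * (- Q.ord g) := by
  by_cases h0 : x = 0
  · rw [h0, LnF.c_zero, mul_zero]
    refine ⟨fun _ => ?_, fun _ => Or.inl rfl⟩
    exact mul_nonneg (by positivity) (by omega)
  · rw [LnF.c_ne h0]
    exact ⟨fun h => h.resolve_left h0, Or.inr⟩

theorem LnF.c_V0 (hg : Q.ord g < 0) {N : F[X]} (hN : N.Monic) (h1 : N.eval 1 ≠ 0) {y : H}
    (hy : y ∈ V0 F g Q N) : LnF.c F g Q y = 0 := by
  by_cases h0 : y = 0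
  · rw [h0, LnF.c_zero]
  · rw [LnF.c_ne h0, inf_V0 hg hN h1 hy h0]
    ring

theorem LnF.c_add (hg : Q.ord g < 0) {N : F[X]} (hN : N.Monic) (h1 : N.eval 1 ≠ 0) {x y : H}
    (hx : x = 0 ∨ 0 < LnF.c F g Q x) (hy : y ∈ V0 F g Q N) :
    LnF.c F g Q (x + y) = LnF.c F g Q x := by
  by_cases h0 : x = 0
  · rw [h0, zero_add, LnF.c_V0 hg hN h1 hy, LnF.c_zero]
  have hx' := hx.resolve_left h0
  have hr := LnF.r_pos (F := F)
  rw [LnF.c_ne h0] at hx'
  have h2 : Q.G (Q.ord x + 1) y := by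
    by_cases hy0 : y = 0
    · exact Or.inl hy0
    · right
      have h3 := inf_V0 hg hN h1 hy hy0
      by_contra hcon
      push Not at hcon
      have : Q.ord y ≤ Q.ord x := by omega
      nlinarith
  obtain ⟨h3, h4⟩ := Q.ord_add_of_lt h0 h2
  rw [LnF.c_ne h3, LnF.c_ne h0, h4]

variable {s : ℕ} {M : Fin s → F[X]} {L : Fin s → Submodule F H}

theorem LnF.c_val (h : LT g M L) (hg : Q.ord g < 0) {K : Finset (Fin s)}
    (hK : K ⊆ typ F g Q M L) {x : H} (hx : x ∈ ⨆ i ∈ K, L i) (h0 : x ≠ 0) :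
    ∃ t < dgM M K, (Nat.card F : ℤ) ^ (t + 1) * LnF.c F g Q x =
      ((Nat.card F : ℤ) + 1) * (- Q.ord g) := by
  have hm := LnB.monic_NJ h.monic K
  have hx' := LnB.sup_le (fun i => (h.line i).le) K hx
  have hx0 : x ∉ V0 F g Q (LnB.NJ M K) := fun hcon =>
    h0 (Submodule.disjoint_def.1 (LnB.typ_disj h hg hK) _ hx hcon)
  obtain ⟨t, ht, h2⟩ := inf_val hg hm (LnB.eval_NJ h.one K) hx' hx0
  rw [LnB.deg_NJ h.monic] at ht
  exact ⟨t, ht, by rw [LnF.c_ne h0, h2]⟩

theorem LnF.c_pos (h : LT g M L) (hg : Q.ord g < 0) {K : Finset (Fin s)}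
    (hK : K ⊆ typ F g Q M L) {x : H} (hx : x ∈ ⨆ i ∈ K, L i) (h0 : x ≠ 0) :
    0 < LnF.c F g Q x := by
  obtain ⟨t, _, h1⟩ := LnF.c_val h hg hK hx h0
  have hr := LnF.r_pos (F := F)
  have h2 : 0 < ((Nat.card F : ℤ) + 1) * (- Q.ord g) := mul_pos (by omega) (by omega)
  rw [← h1] at h2
  by_contra hcon
  have h3 : (Nat.card F : ℤ) ^ (t + 1) * LnF.c F g Q x ≤ 0 :=
    mul_nonpos_of_nonneg_of_nonpos (by positivity) (not_lt.1 hcon)
  omega

theorem LnF.c_pos' (h : LT g M L) (hg : Q.ord g < 0) {K : Finset (Fin s)}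
    (hK : K ⊆ typ F g Q M L) {x : H} (hx : x ∈ ⨆ i ∈ K, L i) :
    x = 0 ∨ 0 < LnF.c F g Q x := by
  by_cases h0 : x = 0
  · exact Or.inl h0
  · exact Or.inr (LnF.c_pos h hg hK hx h0)

/-- the filtration on a sum of lines -/
theorem LnF.card_A (h : LT g M L) (hg : Q.ord g < 0) {K : Finset (Fin s)}
    (hK : K ⊆ typ F g Q M L) {t : ℕ} (ht : t ≤ dgM M K) :
    Nat.card {x : H // x ∈ (⨆ i ∈ K, L i) ∧ InU F g Q t x} = Nat.card F ^ (dgM M K - t) := by
  have hm := LnB.monic_NJ h.monic K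
  have hd := LnB.deg_NJ h.monic K
  have h1 := LnB.eval_NJ h.one K
  have hf := (LnB.full h K).2
  have hc := card_V0 hg hm h1 hf
  have hU := card_U hg hm h1 hf (t := t) (by rw [hd]; exact ht)
  have hdis := LnB.typ_disj h hg hK
  let ev : {x : H // x ∈ (⨆ i ∈ K, L i) ∧ InU F g Q t x} × (V0 F g Q (LnB.NJ M K)) →
      {x : H // x ∈ VN F g (LnB.NJ M K) ∧ InU F g Q t x} := fun p =>
    ⟨p.1.1 + p.2.1, by
      rw [← LnB.typ_sup h hg hK]
      exact Submodule.add_mem_sup p.1.2.1 p.2.2, by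
      have h2 := p.1.2.2
      rw [LnF.inU hg] at h2 ⊢
      rw [LnF.c_add hg hm h1 (LnF.c_pos' h hg hK p.1.2.1) p.2.2]
      exact h2⟩
  have hev : Function.Bijective ev := by
    constructor
    · rintro ⟨⟨a, ha, ha2⟩, ⟨b, hb⟩⟩ ⟨⟨a', ha', ha2'⟩, ⟨b', hb'⟩⟩ he
      obtain ⟨h2, h3⟩ := LnB.uniq hdis ha ha' hb hb' (congrArg Subtype.val he)
      exact Prod.ext (Subtype.ext h2) (Subtype.ext h3)
    · rintro ⟨x, hx, hx2⟩
      have hx' := hx
      rw [← LnB.typ_sup h hg hK] at hx'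
      obtain ⟨a, ha, b, hb, rfl⟩ := Submodule.mem_sup.1 hx'
      refine ⟨⟨⟨a, ha, ?_⟩, ⟨b, hb⟩⟩, rfl⟩
      rw [LnF.inU hg] at hx2 ⊢
      rwa [LnF.c_add hg hm h1 (LnF.c_pos' h hg hK ha) hb] at hx2
  have h2 := Nat.card_congr (Equiv.ofBijective ev hev)
  rw [Nat.card_prod, hc, hU, hd] at h2
  have h3 : Nat.card F ^ (2 * dgM M K - t) = Nat.card F ^ (dgM M K - t) * Nat.card F ^ dgM M K := by
    rw [← pow_add]
    congr 1
    omega
  rw [h3] at h2
  exact Nat.eq_of_mul_eq_mul_right (pow_pos Nat.card_pos _) h2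

theorem LnF.sum_A (h : LT g M L) (hg : Q.ord g < 0) {K : Finset (Fin s)}
    (hK : K ⊆ typ F g Q M L) {a : Finset H} (ha : ∀ x, x ∈ a ↔ x ∈ ⨆ i ∈ K, L i) :
    (Nat.card F : ℤ) ^ dgM M K * ∑ x ∈ a, LnF.c F g Q x =
      (- Q.ord g) * ((Nat.card F : ℤ) ^ (2 * dgM M K) - 1) := by
  classical
  have hr := LnF.r_pos (F := F)
  set r : ℤ := (Nat.card F : ℤ) with hrdef
  set D := dgM M K with hD
  set e : ℤ := - Q.ord g with he
  have he0 : 0 < e := by omega
  have hcard : ∀ t ≤ D, ((a.filter fun x => r ^ (t + 1) * LnF.c F g Q x ≤ (r + 1) * e).card : ℤ) =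
      r ^ (D - t) := by
    intro t ht
    have h1 := LnF.card_A h hg hK ht
    rw [Nat.subtype_card (a.filter fun x => r ^ (t + 1) * LnF.c F g Q x ≤ (r + 1) * e)] at h1
    · rw [h1]
      push_cast
      rfl
    · intro x
      rw [Finset.mem_filter, ha, LnF.inU hg]
  have key : ∀ n ≤ D, r ^ D * ∑ x ∈ a.filter (fun x => r ^ (D - n + 1) * LnF.c F g Q x ≤
      (r + 1) * e), LnF.c F g Q x = e * (r ^ (2 * n) - 1) := by
    intro n
    induction n with
    | zero =>
      intro _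
      rw [Nat.sub_zero, mul_zero, pow_zero, sub_self, mul_zero]
      have h1 := hcard D le_rfl
      rw [Nat.sub_self, pow_zero] at h1
      have h2 : ((a.filter fun x => r ^ (D + 1) * LnF.c F g Q x ≤ (r + 1) * e).card) = 1 := by
        exact_mod_cast h1
      obtain ⟨x0, hx0⟩ := Finset.card_eq_one.1 h2
      have h3 : (0 : H) ∈ a.filter fun x => r ^ (D + 1) * LnF.c F g Q x ≤ (r + 1) * e := by
        rw [Finset.mem_filter, ha, LnF.c_zero, mul_zero]
        exact ⟨zero_mem _, by positivity⟩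
      rw [hx0, Finset.mem_singleton] at h3
      rw [hx0, Finset.sum_singleton, ← h3, LnF.c_zero, mul_zero]
    | succ n ih =>
      intro hn
      have ih' := ih (by omega)
      set t := D - (n + 1) with ht
      have ht1 : D - n = t + 1 := by omega
      rw [ht1] at ih'
      set A := a.filter fun x => r ^ (t + 1) * LnF.c F g Q x ≤ (r + 1) * e with hA
      set B := a.filter fun x => r ^ (t + 1 + 1) * LnF.c F g Q x ≤ (r + 1) * e with hB
      have hcn : ∀ x ∈ a, 0 ≤ LnF.c F g Q x := by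
        intro x hx
        rcases LnF.c_pos' h hg hK ((ha x).1 hx) with h0 | h0
        · rw [h0, LnF.c_zero]
        · exact h0.le
      have hBA : B ⊆ A := by
        intro x hx
        rw [hB, Finset.mem_filter] at hx
        rw [hA, Finset.mem_filter]
        refine ⟨hx.1, le_trans ?_ hx.2⟩
        rw [pow_succ r (t + 1)]
        have h1 := hcn x hx.1
        have h2 : 0 ≤ r ^ (t + 1) * LnF.c F g Q x := mul_nonneg (by positivity) h1
        nlinarith
      have h1 : ∀ x ∈ A \ B, r ^ (t + 1) * LnF.c F g Q x = (r + 1) * e := by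
        intro x hx
        rw [Finset.mem_sdiff, hA, hB, Finset.mem_filter, Finset.mem_filter] at hx
        obtain ⟨⟨hxa, h2⟩, h3⟩ := hx
        have h3' : (r + 1) * e < r ^ (t + 1 + 1) * LnF.c F g Q x := by
          by_contra hcon
          exact h3 ⟨hxa, not_lt.1 hcon⟩
        have hx0 : x ≠ 0 := by
          rintro rfl
          rw [LnF.c_zero, mul_zero] at h3'
          have : 0 < (r + 1) * e := by positivity
          omega
        obtain ⟨t', _, h4⟩ := LnF.c_val h hg hK ((ha x).1 hxa) hx0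
        have hcp := LnF.c_pos h hg hK ((ha x).1 hxa) hx0
        change r ^ (t' + 1) * LnF.c F g Q x = (r + 1) * e at h4
        have h5 : r ^ (t + 1) ≤ r ^ (t' + 1) := by
          rw [← h4] at h2
          exact le_of_mul_le_mul_right h2 hcp
        have h6 : r ^ (t' + 1) < r ^ (t + 1 + 1) := by
          rw [← h4] at h3'
          exact lt_of_mul_lt_mul_right h3' hcp.le
        have h7 : t + 1 ≤ t' + 1 := (pow_le_pow_iff_right₀ hr).1 h5
        have h8 : t' + 1 < t + 1 + 1 := (pow_lt_pow_iff_right₀ hr).1 h6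
        have h9 : t' = t := by omega
        rw [← h9]
        exact h4
      have h2 : r ^ (t + 1) * ∑ x ∈ A \ B, LnF.c F g Q x =
          (r ^ (n + 1) - r ^ n) * ((r + 1) * e) := by
        rw [Finset.mul_sum, Finset.sum_congr rfl h1, Finset.sum_const, nsmul_eq_mul]
        congr 1
        rw [Finset.card_sdiff_of_subset hBA, Nat.cast_sub (Finset.card_le_card hBA)]
        rw [hcard t (by omega), hcard (t + 1) (by omega)]
        have h3 : D - t = n + 1 := by omega
        have h4 : D - (t + 1) = n := by omega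
        rw [h3, h4]
      rw [← Finset.sum_sdiff hBA, mul_add, ih']
      have h3 : r ^ D = r ^ n * r ^ (t + 1) := by
        rw [← pow_add]
        congr 1
        omega
      rw [h3, mul_assoc, h2, two_mul, two_mul, pow_add, pow_add, pow_add, pow_one]
      ring
  have h1 := key D le_rfl
  rw [Nat.sub_self] at h1
  have h2 : a.filter (fun x => r ^ (0 + 1) * LnF.c F g Q x ≤ (r + 1) * e) = a := by
    apply Finset.filter_true_of_mem
    intro x hx
    by_cases hx0 : x = 0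
    · rw [hx0, LnF.c_zero, mul_zero]
      positivity
    · obtain ⟨t', _, h4⟩ := LnF.c_val h hg hK ((ha x).1 hx) hx0
      have hcp := LnF.c_pos h hg hK ((ha x).1 hx) hx0
      change r ^ (t' + 1) * LnF.c F g Q x = (r + 1) * e at h4
      rw [← h4]
      apply mul_le_mul_of_nonneg_right _ hcp.le
      exact pow_le_pow_right₀ hr.le (by omega)
  rw [h2] at h1
  exact h1

/-- the order of the product of the nonzero elements -/
theorem LnF.ord_cL {W : Submodule F H} {w : Finset H} (hw : ∀ x, x ∈ w ↔ x ∈ W) :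
    Q.ord (cL F W) = ∑ x ∈ w, Q.ord x := by
  classical
  have hfin : {v : H | v ∈ W ∧ v ≠ 0}.Finite :=
    w.finite_toSet.subset fun v hv => Finset.mem_coe.2 ((hw v).2 hv.1)
  have h1 : cL F W = ∏ v ∈ hfin.toFinset, v := finprod_mem_eq_finite_toFinset_prod _ hfin
  have h2 : ∀ (u : Finset H), (∀ v ∈ u, v ≠ 0) → Q.ord (∏ v ∈ u, v) = ∑ v ∈ u, Q.ord v := by
    intro u
    induction u using Finset.induction_on with
    | empty => intro _; simp [Q.ord_one]
    | insert a u ha ih =>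
      intro hu
      have h3 := ih fun v hv => hu v (Finset.mem_insert_of_mem hv)
      rw [Finset.prod_insert ha, Finset.sum_insert ha, Q.ord_mul _ _
        (hu a (Finset.mem_insert_self _ _))
        (Finset.prod_ne_zero_iff.2 fun v hv => hu v (Finset.mem_insert_of_mem hv)), h3]
  rw [h1, h2 _ fun v hv => ((hfin.mem_toFinset).1 hv).2]
  apply Finset.sum_subset
  · intro v hv
    exact (hw v).2 ((hfin.mem_toFinset).1 hv).1
  · intro v hv hv'
    by_cases h0 : v = 0
    · rw [h0, Q.ord_zero]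
    · exact absurd ((hfin.mem_toFinset).2 ⟨(hw v).1 hv, h0⟩) hv'

theorem LnF.cL_ord (h : LT g M L) (hg : Q.ord g < 0) (J : Finset (Fin s)) :
    (Nat.card F : ℤ) ^ dgM M (J ∩ typ F g Q M L) *
        (((Nat.card F : ℤ) - 1) * Q.ord (cL F (⨆ i ∈ J, L i))) =
      (- Q.ord g) * ((Nat.card F : ℤ) ^ dgM M (J \ typ F g Q M L) -
        (Nat.card F : ℤ) ^ dgM M (J ∩ typ F g Q M L)) := by
  classical
  set T := typ F g Q M L with hT
  have hK : J ∩ T ⊆ typ F g Q M L := Finset.inter_subset_right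
  have hX : (⨆ i ∈ J, L i) = (⨆ i ∈ J ∩ T, L i) ⊔ (⨆ i ∈ J \ T, L i) := by
    rw [← Finset.iSup_union, Finset.union_comm, Finset.sdiff_union_inter]
  have hY : (⨆ i ∈ J \ T, L i) = V0 F g Q (LnB.NJ M (J \ T)) := by
    rw [← LnB.V0_sup h hg]
    refine iSup_congr fun i => iSup_congr fun hi => ?_
    by_contra hcon
    exact (Finset.mem_sdiff.1 hi).2 (LnB.mem_typ.2 hcon)
  have hdis : Disjoint (⨆ i ∈ J ∩ T, L i) (⨆ i ∈ J \ T, L i) :=
    LnB.sup_disj h (fun i => (h.line i).le) (fun i => (h.line i).le)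
      (Finset.disjoint_sdiff_inter J T).symm
  have hfA : ((⨆ i ∈ J ∩ T, L i : Submodule F H) : Set H).Finite := LnB.fin h _
  have hfY : ((⨆ i ∈ J \ T, L i : Submodule F H) : Set H).Finite := LnB.fin h _
  have hfX : ((⨆ i ∈ J, L i : Submodule F H) : Set H).Finite := LnB.fin h _
  set a := hfA.toFinset with ha
  set y := hfY.toFinset with hy
  set x := hfX.toFinset with hx
  have ha' : ∀ v, v ∈ a ↔ v ∈ ⨆ i ∈ J ∩ T, L i := fun v => hfA.mem_toFinset
  have hy' : ∀ v, v ∈ y ↔ v ∈ ⨆ i ∈ J \ T, L i := fun v => hfY.mem_toFinset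
  have hx' : ∀ v, v ∈ x ↔ v ∈ ⨆ i ∈ J, L i := fun v => hfX.mem_toFinset
  have hcy : (y.card : ℤ) = (Nat.card F : ℤ) ^ dgM M (J \ T) := by
    have h1 := LnB.card h (J \ T)
    rw [Nat.subtype_card y hy'] at h1
    exact_mod_cast h1
  have hca : (a.card : ℤ) = (Nat.card F : ℤ) ^ dgM M (J ∩ T) := by
    have h1 := LnB.card h (J ∩ T)
    rw [Nat.subtype_card a ha'] at h1
    exact_mod_cast h1
  have hcx : (x.card : ℤ) = (Nat.card F : ℤ) ^ dgM M (J ∩ T) *
      (Nat.card F : ℤ) ^ dgM M (J \ T) := by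
    have h1 := LnB.card_sup hdis
    rw [← hX, Nat.subtype_card x hx', Nat.subtype_card a ha', Nat.subtype_card y hy'] at h1
    rw [← hca, ← hcy]
    exact_mod_cast h1
  -- the sum of `c` over the whole space
  have hsum : ∑ v ∈ x, LnF.c F g Q v = (Nat.card F : ℤ) ^ dgM M (J \ T) *
      ∑ v ∈ a, LnF.c F g Q v := by
    have h1 : ∑ v ∈ x, LnF.c F g Q v = ∑ p ∈ a ×ˢ y, LnF.c F g Q (p.1 + p.2) := by
      symm
      refine Finset.sum_bij (fun p _ => p.1 + p.2) ?_ ?_ ?_ ?_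
      · rintro ⟨u, v⟩ hp
        rw [Finset.mem_product] at hp
        rw [hx', hX]
        exact Submodule.add_mem_sup ((ha' _).1 hp.1) ((hy' _).1 hp.2)
      · rintro ⟨u, v⟩ hp ⟨u', v'⟩ hp' he
        rw [Finset.mem_product] at hp hp'
        obtain ⟨h2, h3⟩ := LnB.uniq hdis ((ha' _).1 hp.1) ((ha' _).1 hp'.1) ((hy' _).1 hp.2)
          ((hy' _).1 hp'.2) he
        exact Prod.ext h2 h3
      · intro w hw
        rw [hx', hX] at hw
        obtain ⟨u, hu, v, hv, rfl⟩ := Submodule.mem_sup.1 hw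
        exact ⟨(u, v), Finset.mem_product.2 ⟨(ha' _).2 hu, (hy' _).2 hv⟩, rfl⟩
      · intro _ _
        rfl
    rw [h1, Finset.sum_product, Finset.mul_sum]
    refine Finset.sum_congr rfl fun u hu => ?_
    rw [← hcy, ← nsmul_eq_mul, ← Finset.sum_const]
    refine Finset.sum_congr rfl fun v hv => ?_
    refine LnF.c_add hg (LnB.monic_NJ h.monic (J \ T)) (LnB.eval_NJ h.one (J \ T))
      (LnF.c_pos' h hg hK ((ha' _).1 hu)) ?_
    rw [← hY]
    exact (hy' _).1 hv
  have hA := LnF.sum_A h hg hK ha'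
  -- the sum of `c` in terms of the orders
  have h0x : (0 : H) ∈ x := (hx' 0).2 (zero_mem _)
  have hord : ∑ v ∈ x, LnF.c F g Q v = ((x.card : ℤ) - 1) * (- Q.ord g) -
      ((Nat.card F : ℤ) - 1) * ∑ v ∈ x, Q.ord v := by
    rw [← Finset.add_sum_erase x _ h0x, ← Finset.add_sum_erase x (fun v => Q.ord v) h0x,
      LnF.c_zero, Q.ord_zero, zero_add, zero_add, Finset.mul_sum]
    rw [Finset.sum_congr rfl fun v hv => LnF.c_ne (F := F) (g := g) (Q := Q)
      (Finset.ne_of_mem_erase hv), Finset.sum_sub_distrib, Finset.sum_const, nsmul_eq_mul,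
      Finset.card_erase_of_mem h0x, Nat.cast_sub (Finset.card_pos.2 ⟨0, h0x⟩)]
    push_cast
    ring
  rw [LnF.ord_cL hx']
  have h2 : ((Nat.card F : ℤ) - 1) * ∑ v ∈ x, Q.ord v = ((x.card : ℤ) - 1) * (- Q.ord g) -
      (Nat.card F : ℤ) ^ dgM M (J \ T) * ∑ v ∈ a, LnF.c F g Q v := by
    rw [← hsum, hord]
    ring
  rw [h2, hcx, mul_sub, ← mul_assoc, mul_comm ((Nat.card F : ℤ) ^ dgM M (J ∩ T))
    ((Nat.card F : ℤ) ^ dgM M (J \ T) * _), mul_assoc ((Nat.card F : ℤ) ^ dgM M (J \ T)),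
    mul_comm (∑ v ∈ a, LnF.c F g Q v), hA, two_mul, pow_add]
  ring

end

end Pool.Agent.FF
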