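import Pool.Agent.FD.LinesF
import Pool.Agent.FD.LinesE

/-! # Two tuples of the same type (42) -/

set_option autoImplicit false

namespace Pool.Agent.FF

open Polynomial

section

variable {F : Type*} {H : Type*} [Field F] [Finite F] [Field H] [Algebra F H]
variable {g : H} {Q : DV H} {s : ℕ} {M : Fin s → F[X]} {L L' : Fin s → Submodule F H}

theorem LnF.ord_smul {x : H} {c : F} (hc : c ≠ 0) (hx : x ≠ 0) : Q.ord (c • x) = Q.ord x := by
  have hc' : algebraMap F H c ≠ 0 := by rwa [Ne, map_eq_zero]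
  rw [Algebra.smul_def, Q.ord_mul _ _ hc' hx, RRD.ord_algebraMap Q hc, zero_add]

theorem LnF.c_smul {x : H} {c : F} (hc : c ≠ 0) : LnF.c F g Q (c • x) = LnF.c F g Q x := by
  by_cases hx : x = 0
  · rw [hx, smul_zero]
  · rw [LnF.c_ne (smul_ne_zero hc hx), LnF.c_ne hx, LnF.ord_smul hc hx]

theorem LnF.c_smul' {x : H} {c : F} (hx : 0 ≤ LnF.c F g Q x) :
    LnF.c F g Q (c • x) ≤ LnF.c F g Q x := by
  by_cases hc : c = 0
  · rw [hc, zero_smul, LnF.c_zero]
    exact hx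
  · rw [LnF.c_smul hc]

/-- the shortest elements -/
theorem LnF.exists_min (h : LT g M L) (hg : Q.ord g < 0) {K : Finset (Fin s)}
    (hK : K ⊆ typ F g Q M L) (hD : 0 < dgM M K) :
    ∃ x0 ∈ ⨆ i ∈ K, L i, x0 ≠ 0 ∧
      (Nat.card F : ℤ) ^ dgM M K * LnF.c F g Q x0 = ((Nat.card F : ℤ) + 1) * (- Q.ord g) ∧
      ∀ v ∈ ⨆ i ∈ K, L i, v ∉ Submodule.span F {x0} → LnF.c F g Q x0 < LnF.c F g Q v := by
  classical
  have hr := LnF.r_pos (F := F)
  set D := dgM M K with hDdef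
  have he0 : 0 < ((Nat.card F : ℤ) + 1) * (- Q.ord g) := mul_pos (by omega) (by omega)
  have hcard := LnF.card_A h hg hK (t := D - 1) (by omega)
  have h1 : dgM M K - (D - 1) = 1 := by omega
  rw [h1, pow_one] at hcard
  have hfin : ({x : H | x ∈ (⨆ i ∈ K, L i) ∧ InU F g Q (D - 1) x} : Set H).Finite := by
    have h2 : Finite {x : H // x ∈ (⨆ i ∈ K, L i) ∧ InU F g Q (D - 1) x} := by
      apply Nat.finite_of_card_ne_zero
      rw [hcard]
      exact Nat.card_pos.ne'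
    exact h2
  have hnc : ({x : H | x ∈ (⨆ i ∈ K, L i) ∧ InU F g Q (D - 1) x} : Set H).ncard =
      Nat.card F := hcard
  -- an element which is not zero
  obtain ⟨x0, hx0, hx00⟩ : ∃ x0 ∈ ({x : H | x ∈ (⨆ i ∈ K, L i) ∧ InU F g Q (D - 1) x} : Set H),
      x0 ≠ 0 := by
    apply Set.exists_ne_of_one_lt_ncard
    rw [hnc]
    exact Finite.one_lt_card
  have hval : ∀ x ∈ (⨆ i ∈ K, L i), x ≠ 0 → InU F g Q (D - 1) x →
      (Nat.card F : ℤ) ^ D * LnF.c F g Q x = ((Nat.card F : ℤ) + 1) * (- Q.ord g) := by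
    intro x hx hx0 hxU
    rw [LnF.inU hg] at hxU
    obtain ⟨t, ht, h2⟩ := LnF.c_val h hg hK hx hx0
    have hcp := LnF.c_pos h hg hK hx hx0
    have h3 : D - 1 + 1 = D := by omega
    rw [h3, ← h2] at hxU
    have h4 : (Nat.card F : ℤ) ^ D ≤ (Nat.card F : ℤ) ^ (t + 1) :=
      le_of_mul_le_mul_right hxU hcp
    have h5 : D ≤ t + 1 := (pow_le_pow_iff_right₀ hr).1 h4
    have h6 : t + 1 = D := by omega
    rw [← h2, h6]
  have hmin := hval x0 hx0.1 hx00 hx0.2
  have hcp0 := LnF.c_pos h hg hK hx0.1 hx00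
  refine ⟨x0, hx0.1, hx00, hmin, ?_⟩
  -- the line of `x0` is the whole of `A_(D-1)`
  have hspan : (Submodule.span F {x0} : Set H) =
      {x : H | x ∈ (⨆ i ∈ K, L i) ∧ InU F g Q (D - 1) x} := by
    apply Set.eq_of_subset_of_ncard_le _ _ hfin
    · intro x hx
      obtain ⟨c, rfl⟩ := Submodule.mem_span_singleton.1 hx
      refine ⟨Submodule.smul_mem _ c hx0.1, ?_⟩
      have h2 := hx0.2
      rw [LnF.inU hg] at h2 ⊢
      refine le_trans ?_ h2
      exact mul_le_mul_of_nonneg_left (LnF.c_smul' hcp0.le) (by positivity)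
    · rw [hnc]
      have h2 : Function.Injective fun c : F => c • x0 := smul_left_injective F hx00
      have h3 : (Submodule.span F {x0} : Set H) = Set.range fun c : F => c • x0 := by
        ext x
        exact Submodule.mem_span_singleton
      rw [h3, ← Set.image_univ, Set.ncard_image_of_injective _ h2, Set.ncard_univ]
  intro v hv hvs
  have hv0 : v ≠ 0 := by
    rintro rfl
    exact hvs (zero_mem _)
  obtain ⟨t, ht, h2⟩ := LnF.c_val h hg hK hv hv0
  have hcp := LnF.c_pos h hg hK hv hv0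
  have hnU : ¬ InU F g Q (D - 1) v := by
    intro hcon
    apply hvs
    change v ∈ (Submodule.span F {x0} : Set H)
    rw [hspan]
    exact ⟨hv, hcon⟩
  rw [LnF.inU hg, not_le] at hnU
  have h3 : D - 1 + 1 = D := by omega
  rw [h3, ← hmin] at hnU
  exact lt_of_mul_lt_mul_left hnU (by positivity)

theorem LnF.cL_conj (h : LT g M L) (h' : LT g M L') (hg : Q.ord g < 0)
    (ht : typ F g Q M L' = typ F g Q M L) (hne : L' ≠ L) :
    (cL F (⨆ i ∈ typ F g Q M L, L' i) / cL F (⨆ i ∈ typ F g Q M L, L i)) ^ (Nat.card F - 1) - 1 ≠ 0 ∧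
    (Nat.card F : ℤ) ^ dgM M (typ F g Q M L) * (((Nat.card F : ℤ) - 1) *
      Q.ord ((cL F (⨆ i ∈ typ F g Q M L, L' i) / cL F (⨆ i ∈ typ F g Q M L, L i)) ^
        (Nat.card F - 1) - 1)) = ((Nat.card F : ℤ) + 1) * (- Q.ord g) := by
  classical
  set K := typ F g Q M L with hKdef
  have hK : K ⊆ typ F g Q M L := fun _ hi => hi
  have hK' : K ⊆ typ F g Q M L' := by rw [ht]
  have hr := LnF.r_pos (F := F)
  have hmo := LnB.monic_NJ h.monic K
  have h1 := LnB.eval_NJ h.one K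
  have hdeg := LnB.deg_NJ h.monic K
  -- an index where the tuples differ
  obtain ⟨i0, hi0⟩ : ∃ i, L' i ≠ L i := by
    by_contra hcon
    push Not at hcon
    exact hne (funext hcon)
  have hi0K : i0 ∈ K := by
    by_contra hcon
    have h2 : L i0 = V0 F g Q (M i0) := by
      by_contra h3
      exact hcon (LnB.mem_typ.2 h3)
    have h3 : L' i0 = V0 F g Q (M i0) := by
      by_contra h4
      apply hcon
      rw [← ht]
      exact LnB.mem_typ.2 h4
    exact hi0 (h3.trans h2.symm)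
  have hD : dgM M K = (M i0).natDegree + dgM M (K.erase i0) := by
    rw [← LnB.dgM_insert (Finset.notMem_erase i0 K), Finset.insert_erase hi0K]
  have hd0 : 0 < (M i0).natDegree := (h.irr i0).natDegree_pos
  obtain ⟨x0, hx0, hx00, hmin, hother⟩ := LnF.exists_min h hg hK (by omega)
  -- the map `h`
  have hex : ∀ x : H, x ∈ (⨆ i ∈ K, L i) → ∃ z ∈ V0 F g Q (LnB.NJ M K), x + z ∈ ⨆ i ∈ K, L' i := by
    intro x hx
    have h2 := LnB.sup_le (fun i => (h.line i).le) K hx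
    rw [← LnB.typ_sup h' hg hK'] at h2
    obtain ⟨y, hy, z, hz, he⟩ := Submodule.mem_sup.1 h2
    refine ⟨-z, neg_mem hz, ?_⟩
    rw [← he, add_neg_cancel_right]
    exact hy
  have hex2 : ∀ x : H, ∃ z : H, x ∈ (⨆ i ∈ K, L i) →
      z ∈ V0 F g Q (LnB.NJ M K) ∧ x + z ∈ ⨆ i ∈ K, L' i := by
    intro x
    by_cases hx : x ∈ (⨆ i ∈ K, L i)
    · obtain ⟨z, hz, hz'⟩ := hex x hx
      exact ⟨z, fun _ => ⟨hz, hz'⟩⟩
    · exact ⟨0, fun hx' => absurd hx' hx⟩
  choose η hη using hex2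
  have hdis := LnB.typ_disj h hg hK
  have hdis' := LnB.typ_disj h' hg hK'
  have huni : ∀ x ∈ (⨆ i ∈ K, L i), ∀ z ∈ V0 F g Q (LnB.NJ M K), x + z ∈ (⨆ i ∈ K, L' i) →
      η x = z := by
    intro x hx z hz hxz
    obtain ⟨h2, h3⟩ := hη x hx
    have h4 : x + η x + -η x = x + z + -z := by ring
    obtain ⟨_, h5⟩ := LnB.uniq hdis' h3 hxz (neg_mem h2) (neg_mem hz) h4
    exact neg_injective h5
  have hbij : Set.BijOn (fun v => v + η v) ((⨆ i ∈ K, L i : Submodule F H) : Set H)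
      ((⨆ i ∈ K, L' i : Submodule F H) : Set H) := by
    refine ⟨fun v hv => (hη v hv).2, ?_, ?_⟩
    · intro v hv w hw he
      exact (LnB.uniq hdis hv hw (hη v hv).1 (hη w hw).1 he).1
    · intro w hw
      have h2 := LnB.sup_le (fun i => (h'.line i).le) K hw
      rw [← LnB.typ_sup h hg hK] at h2
      obtain ⟨v, hv, z, hz, he⟩ := Submodule.mem_sup.1 h2
      refine ⟨v, hv, ?_⟩
      change v + η v = w
      rw [huni v hv z hz (by rw [he]; exact hw), he]
  have hsm : ∀ a : F, η (a • x0) = a • η x0 := by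
    intro a
    obtain ⟨h2, h3⟩ := hη x0 hx0
    refine huni _ (Submodule.smul_mem _ a hx0) _ (Submodule.smul_mem _ a h2) ?_
    rw [← smul_add]
    exact Submodule.smul_mem _ a h3
  -- `η x0 ≠ 0`
  have hη0 : η x0 ≠ 0 := by
    intro hcon
    have h2 := (hη x0 hx0).2
    rw [hcon, add_zero] at h2
    have h3 := LnB.inter h h' K (K.erase i0) (fun i hi he => Finset.mem_erase.2
      ⟨fun h4 => hi0 (h4 ▸ he.symm), hi⟩) hx0 h2
    have hKe : K.erase i0 ⊆ typ F g Q M L := fun i hi => Finset.mem_of_mem_erase hi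
    obtain ⟨t, ht', h4⟩ := LnF.c_val h hg hKe h3 hx00
    have hcp := LnF.c_pos h hg hK hx0 hx00
    rw [← hmin] at h4
    have h5 : (Nat.card F : ℤ) ^ (t + 1) < (Nat.card F : ℤ) ^ dgM M K :=
      (pow_lt_pow_iff_right₀ hr).2 (by omega)
    have h6 := mul_right_cancel₀ hcp.ne' h4
    omega
  have hc0 := LnF.c_pos h hg hK hx0 hx00
  have hV : ∀ v ∈ (⨆ i ∈ K, L i), η v ≠ 0 →
      ((Nat.card F : ℤ) - 1) * Q.ord (η v) = - Q.ord g := fun v hv hv0 =>
    inf_V0 hg hmo h1 (hη v hv).1 hv0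
  have hθ1 : ((Nat.card F : ℤ) - 1) * (Q.ord (η x0) - Q.ord x0) = LnF.c F g Q x0 := by
    rw [mul_sub, hV x0 hx0 hη0, LnF.c_ne hx00]
  have hθ0 : 0 < Q.ord (η x0) - Q.ord x0 := by
    by_contra hcon
    have h2 : ((Nat.card F : ℤ) - 1) * (Q.ord (η x0) - Q.ord x0) ≤ 0 :=
      mul_nonpos_of_nonneg_of_nonpos (by omega) (not_lt.1 hcon)
    omega
  have hcore := LnE.core Q (LnB.fin h K) η hbij hx0 hx00 hsm hη0 hθ0 (by ring) (by
    intro v hv hvs
    by_cases hv0 : η v = 0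
    · exact Or.inl hv0
    · right
      have h2 := hother v hv hvs
      have hvne : v ≠ 0 := by
        rintro rfl
        exact hvs (zero_mem _)
      have h3 : ((Nat.card F : ℤ) - 1) * (Q.ord (η v) - Q.ord v) = LnF.c F g Q v := by
        rw [mul_sub, hV v hv hv0, LnF.c_ne hvne]
      rw [← h3, ← hθ1] at h2
      have h4 : Q.ord (η x0) - Q.ord x0 < Q.ord (η v) - Q.ord v :=
        lt_of_mul_lt_mul_left h2 (by omega)
      omega)
  refine ⟨hcore.1, ?_⟩
  rw [hcore.2, hθ1, hmin]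

end

end Pool.Agent.FF
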