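import Pool.Agent.FD.LinesA
import Pool.Agent.FD.LinesD
import Pool.Agent.FD.LinesF
import Pool.Agent.FD.LinesG

/-! # D2: lines and the valuations of their products (42) -/

set_option autoImplicit false

namespace Pool.Agent.FF

section

variable {F : Type*} {H : Type*} [Field F] [Finite F] [Field H] [Algebra F H]

theorem V0_line {g : H} {Q : DV H} (hg : Q.ord g < 0) {M : Polynomial F} (hM : M.Monic)
    (h1 : M.eval 1 ≠ 0) (hV : Nat.card (VN F g M) = Nat.card F ^ (2 * M.natDegree)) :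
    IsLine F g M (V0 F g Q M) := LnD.V0_line hg hM h1 hV

/-- there are `r ^ d + 1` lines -/
theorem card_line {g : H} {M : Polynomial F} (hM : M.Monic) (hi : Irreducible M)
    (hV : Nat.card (VN F g M) = Nat.card F ^ (2 * M.natDegree)) :
    Nat.card {L : Submodule F H // IsLine F g M L} = Nat.card F ^ M.natDegree + 1 := by
  rw [← LnA.card_lines (phT F g) hM hi hV]
  exact Nat.card_congr (Equiv.subtypeEquivRight fun L =>
    ⟨fun h => ⟨h.le, h.st, h.card⟩, fun h => ⟨h.1, h.2.1, h.2.2⟩⟩)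

theorem cL_ne_zero {L : Submodule F H} (hL : Finite L) : cL F L ≠ 0 := LnD.cL_ne_zero hL

/-- `(r - 1) a(c(L_J)) = ∏ ε_j - 1` -/
theorem cL_ord {g : H} {s : ℕ} {M : Fin s → Polynomial F} {L : Fin s → Submodule F H}
    (h : LT g M L) {Q : DV H} (hg : Q.ord g < 0) (J : Finset (Fin s)) :
    (Nat.card F : ℤ) ^ dgM M (J ∩ typ F g Q M L) *
        (((Nat.card F : ℤ) - 1) * Q.ord (cL F (⨆ i ∈ J, L i))) =
      (- Q.ord g) * ((Nat.card F : ℤ) ^ dgM M (J \ typ F g Q M L) -
        (Nat.card F : ℤ) ^ dgM M (J ∩ typ F g Q M L)) := LnF.cL_ord h hg J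

/-- two different tuples of the same type `I`: the order of `(c' / c) ^ (r - 1) - 1` -/
theorem cL_conj {g : H} {s : ℕ} {M : Fin s → Polynomial F} {L L' : Fin s → Submodule F H}
    (h : LT g M L) (h' : LT g M L') {Q : DV H} (hg : Q.ord g < 0)
    (ht : typ F g Q M L' = typ F g Q M L) (hne : L' ≠ L) :
    (cL F (⨆ i ∈ typ F g Q M L, L' i) / cL F (⨆ i ∈ typ F g Q M L, L i)) ^ (Nat.card F - 1) - 1 ≠ 0 ∧
    (Nat.card F : ℤ) ^ dgM M (typ F g Q M L) * (((Nat.card F : ℤ) - 1) *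
      Q.ord ((cL F (⨆ i ∈ typ F g Q M L, L' i) / cL F (⨆ i ∈ typ F g Q M L, L i)) ^
        (Nat.card F - 1) - 1)) = ((Nat.card F : ℤ) + 1) * (- Q.ord g) :=
  LnF.cL_conj h h' hg ht hne

/-- at the places where `g` is integral the `c(L_J)` are units -/
theorem cL_unit {g : H} {s : ℕ} {M : Fin s → Polynomial F} {L : Fin s → Submodule F H}
    (h : LT g M L) {Q : DV H} (hg : Q.G 0 g) (J : Finset (Fin s)) :
    Q.ord (cL F (⨆ i ∈ J, L i)) = 0 := LnD.cL_unit h.one (fun i => (h.line i).le) hg J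

end

end Pool.Agent.FF
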