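import Pool.Agent.FD.CuspA
import Pool.Agent.FD.CuspI
import Pool.Agent.FD.Lines
import Pool.Agent.FD.CvE
import Pool.Agent.FD.Gal

/-! # D3: degree and cusps (49) -/

set_option autoImplicit false

namespace Pool.Agent.FF

section

variable {F k H : Type} [Field F] [Finite F] [Field k] [Finite k] [Field H] [Algebra F k]
  [Algebra F H] [Algebra k H] [Algebra (RatFunc k) H] [IsScalarTower k (RatFunc k) H]

variable {s : ℕ} {M : Fin s → Polynomial F}

theorem card_tuples {g : H} (hm : ∀ i, (M i).Monic) (hi : ∀ i, Irreducible (M i))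
    (hf : ∀ i, Nat.card (VN F g (M i)) = Nat.card F ^ (2 * (M i).natDegree)) :
    Nat.card {L : Fin s → Submodule F H // ∀ i, IsLine F g (M i) (L i)} = psiM M := by
  have e : {L : Fin s → Submodule F H // ∀ i, IsLine F g (M i) (L i)} ≃
      ∀ i, {L : Submodule F H // IsLine F g (M i) L} :=
    Equiv.subtypePiEquivPi (β := fun _ : Fin s => Submodule F H)
      (p := fun i L => IsLine F g (M i) L)
  rw [Nat.card_congr e, Nat.card_pi]
  exact Finset.prod_congr rfl fun i _ => card_line (hm i) (hi i) (hf i)

omit [Finite F] in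
theorem psiM_pos (M : Fin s → Polynomial F) : 0 < psiM M :=
  Finset.prod_pos fun _ _ => Nat.succ_pos _

/-- the orbit map -/
noncomputable def orbM (ht : ∀ c : F, algebraMap F H c = algebraMap (RatFunc k) H
    (RatFunc.C (algebraMap F k c))) {L : Fin s → Submodule F H}
    (hL : ∀ i, IsLine F (gX k H) (M i) (L i)) (q : (H ≃ₐ[RatFunc k] H) ⧸ stL k L) :
    {L : Fin s → Submodule F H // ∀ i, IsLine F (gX k H) (M i) (L i)} :=
  ⟨fun i => (L i).map (sigF ht q.out), fun i => (hL i).mapS ht q.out⟩

omit [Finite k] [Algebra k H] [IsScalarTower k (RatFunc k) H] in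
theorem orbM_inj (ht : ∀ c : F, algebraMap F H c = algebraMap (RatFunc k) H
    (RatFunc.C (algebraMap F k c))) {L : Fin s → Submodule F H}
    (hL : ∀ i, IsLine F (gX k H) (M i) (L i)) : Function.Injective (orbM ht hL) := by
  intro q q' hq
  have h0 : (fun i => (L i).map (sigF ht q.out)) = fun i => (L i).map (sigF ht q'.out) :=
    congrArg Subtype.val hq
  have h1 := actL_map ht q.out L
  have h2 := actL_map ht q'.out L
  rw [← h0] at h2
  rw [← QuotientGroup.out_eq' q, ← QuotientGroup.out_eq' q', QuotientGroup.eq]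
  intro i x
  rw [h2 i x]
  exact h1.symm i _

omit [Algebra k H] [IsScalarTower k (RatFunc k) H] in
theorem finrank_eq_index (h : DrS F k H (∏ i, M i)) (L : Fin s → Submodule F H) :
    Module.finrank (RatFunc k) (EL k L) = Nat.card ((H ≃ₐ[RatFunc k] H) ⧸ stL k L) := by
  have hfd : FiniteDimensional (RatFunc k) H := h.fin
  have hgal : IsGalois (RatFunc k) H := h.gal
  rw [IntermediateField.finrank_eq_fixingSubgroup_index, IntermediateField.fixingSubgroup_fixedField]
  rfl

omit [Algebra k H] [IsScalarTower k (RatFunc k) H] in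
theorem finrank_le (h : DrS F k H (∏ i, M i)) {L : Fin s → Submodule F H}
    (hL : LT (gX k H) M L) : Module.finrank (RatFunc k) (EL k L) ≤ psiM M := by
  have hc := card_tuples (g := gX k H) hL.monic hL.irr hL.full
  have hfin : Finite {L : Fin s → Submodule F H // ∀ i, IsLine F (gX k H) (M i) (L i)} := by
    apply Nat.finite_of_card_ne_zero
    rw [hc]
    exact (psiM_pos M).ne'
  rw [finrank_eq_index h, ← hc]
  exact Nat.card_le_card_of_injective _ (orbM_inj h.tower hL.line)

omit [Algebra k H] [IsScalarTower k (RatFunc k) H] in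
theorem exists_act_of (h : DrS F k H (∏ i, M i)) {L L' : Fin s → Submodule F H}
    (hL : LT (gX k H) M L) (hL' : LT (gX k H) M L')
    (hf : Module.finrank (RatFunc k) (EL k L) = psiM M) :
    ∃ σ : H ≃ₐ[RatFunc k] H, actL σ L L' := by
  have hc := card_tuples (g := gX k H) hL.monic hL.irr hL.full
  have hfin : Finite {L : Fin s → Submodule F H // ∀ i, IsLine F (gX k H) (M i) (L i)} := by
    apply Nat.finite_of_card_ne_zero
    rw [hc]
    exact (psiM_pos M).ne'
  have hb := (orbM_inj h.tower hL.line).bijective_of_nat_card_le (by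
    rw [hc, ← hf, finrank_eq_index h])
  obtain ⟨q, hq⟩ := hb.2 ⟨L', hL'.line⟩
  have h0 : (fun i => (L i).map (sigF h.tower q.out)) = L' := congrArg Subtype.val hq
  refine ⟨q.out, ?_⟩
  have h1 := actL_map h.tower q.out L
  rwa [h0] at h1

omit [Algebra k H] [IsScalarTower k (RatFunc k) H] in
/-- the type does not depend on the place above -/
theorem typ_eq' (h : DrS F k H (∏ i, M i)) {L : Fin s → Submodule F H} {P : DV (EL k L)}
    {Q Q' : DV H} (hQ : Over Q P) (hQ' : Over Q' P) :
    typ F (gX k H) Q M L = typ F (gX k H) Q' M L := by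
  have hfd : FiniteDimensional (RatFunc k) H := h.fin
  have hgal : IsGalois (RatFunc k) H := h.gal
  obtain ⟨t, rfl⟩ := exists_act_eq (K := EL k L) hQ hQ'
  have hmem : AlgEquiv.restrictScalars (RatFunc k) t ∈ stL k L := by
    rw [← IntermediateField.fixingSubgroup_fixedField (stL k L),
      IntermediateField.mem_fixingSubgroup_iff]
    intro x hx
    exact t.commutes ⟨x, hx⟩
  have h2 := typ_act h.tower (σ := AlgEquiv.restrictScalars (RatFunc k) t) (L := L) (L' := L)
    (fun i x => hmem i x) Q M
  exact h2.symm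

end

end Pool.Agent.FF
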