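import Pool.Agent.FD.LinesDefs

/-! # D3: definitions (49) -/

set_option autoImplicit false

namespace Pool.Agent.FF

section

variable {F k H : Type} [Field F] [Finite F] [Field k] [Finite k] [Field H] [Algebra F k]
  [Algebra F H] [Algebra k H] [Algebra (RatFunc k) H] [IsScalarTower k (RatFunc k) H]

/-- the image of a tuple -/
def actL {s : ℕ} (σ : H ≃ₐ[RatFunc k] H) (L L' : Fin s → Submodule F H) : Prop :=
  ∀ i x, x ∈ L i ↔ σ x ∈ L' i

/-- the stabiliser of a line tuple -/
def stL (k : Type) [Field k] [Algebra (RatFunc k) H] {s : ℕ} (L : Fin s → Submodule F H) :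
    Subgroup (H ≃ₐ[RatFunc k] H) where
  carrier := {σ | ∀ i x, x ∈ L i ↔ σ x ∈ L i}
  mul_mem' := by
    intro a b ha hb i x
    rw [hb i x, ha i (b x)]
    rfl
  one_mem' := fun _ _ => Iff.rfl
  inv_mem' := by
    intro a ha i x
    rw [ha i (a⁻¹ x)]
    have : a (a⁻¹ x) = x := by
      rw [← AlgEquiv.mul_apply, mul_inv_cancel]
      rfl
    rw [this]

/-- the field of a line tuple -/
noncomputable abbrev EL (k : Type) [Field k] [Algebra (RatFunc k) H] {s : ℕ}
    (L : Fin s → Submodule F H) : IntermediateField (RatFunc k) H :=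
  IntermediateField.fixedField (stL k L)

end

end Pool.Agent.FF
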