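import Pool.Agent.FF.RRD
import Pool.Agent.FF.RatCv
import Pool.Agent.FF.WApp
import Pool.Agent.FF.Over

/-! # Finite extensions of the rational function field are curves -/

set_option autoImplicit false

open Finset Polynomial

namespace Pool.Agent.FF

/-- roots of monic polynomials with integral coefficients are integral -/
theorem DV.G_zero_of_monic {F : Type*} [Field F] (w : DV F) {p : F[X]} (hp : p.Monic)
    (hc : ∀ i, w.G 0 (p.coeff i)) {a : F} (ha : p.eval a = 0) : w.G 0 a := by
  by_contra hn
  have ha0 := DV.ne_zero_of_not_G hn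
  have hlt := (DV.not_G ha0).1 hn
  rw [eval_eq_sum_range, Finset.sum_range_succ, hp.coeff_natDegree, one_mul] at ha
  have h1 : w.G (p.natDegree * w.ord a + 1) (∑ i ∈ range p.natDegree, p.coeff i * a ^ i) := by
    have h2 : ∀ s : Finset ℕ, s ⊆ range p.natDegree →
        w.G (p.natDegree * w.ord a + 1) (∑ i ∈ s, p.coeff i * a ^ i) := by
      intro s
      induction s using Finset.induction_on with
      | empty => intro _; simpa using DV.G_zero (v := w) _
      | insert i s hi ih =>
        intro hs
        rw [Finset.sum_insert hi]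
        refine DV.G.add ?_ (ih fun x hx => hs (mem_insert_of_mem hx))
        have h3 := (hc i).mul ((DV.G_ord (v := w) a).pow i)
        refine h3.mono ?_
        have h4 : i < p.natDegree := mem_range.1 (hs (mem_insert_self _ _))
        have h5 : (i : ℤ) + 1 ≤ p.natDegree := by exact_mod_cast h4
        nlinarith
    exact h2 _ subset_rfl
  have h3 : w.G (p.natDegree * w.ord a + 1) (a ^ p.natDegree) := by
    have h4 : a ^ p.natDegree = -∑ i ∈ range p.natDegree, p.coeff i * a ^ i := by
      linear_combination ha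
    rw [h4]
    exact h1.neg
  have h5 := h3.le (pow_ne_zero _ ha0)
  rw [w.ord_pow ha0] at h5
  omega

/-- relative indices of subspaces over a finite field are powers of its cardinality -/
theorem relIndex_pow_of_smul {k V : Type*} [Field k] [Finite k] [AddCommGroup V] [Module k V]
    (A B : AddSubgroup V) (hA : ∀ (c : k) (x : V), x ∈ A → c • x ∈ A)
    (hB : ∀ (c : k) (x : V), x ∈ B → c • x ∈ B) (h : A.relIndex B ≠ 0) :
    ∃ n : ℕ, A.relIndex B = Nat.card k ^ n := by
  let A' : Submodule k V := { A with smul_mem' := fun c x hx => hA c x hx }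
  let B' : Submodule k V := { B with smul_mem' := fun c x hx => hB c x hx }
  have h1 : A.relIndex B = Nat.card (B' ⧸ A'.submoduleOf B') := rfl
  have hfin : Finite (B' ⧸ A'.submoduleOf B') := Nat.finite_of_card_ne_zero (h1 ▸ h)
  refine ⟨Module.finrank k (B' ⧸ A'.submoduleOf B'), ?_⟩
  rw [h1]
  have : Fintype k := Fintype.ofFinite k
  have : Fintype (B' ⧸ A'.submoduleOf B') := Fintype.ofFinite _
  rw [Nat.card_eq_fintype_card, Nat.card_eq_fintype_card, ← Module.card_eq_pow_finrank]

theorem relIndex_ne_zero_right {G : Type*} [AddCommGroup G] {H K L : AddSubgroup G} (hKL : K ≤ L)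
    (h : H.relIndex L ≠ 0) : H.relIndex K ≠ 0 := by
  have h1 := AddSubgroup.relIndex_addSubgroupOf (H := H) hKL
  have h2 : (H.addSubgroupOf L).relIndex (K.addSubgroupOf L) ∣ (H.addSubgroupOf L).index :=
    AddSubgroup.relIndex_dvd_index_of_normal _ _
  rw [h1] at h2
  intro h0
  rw [h0] at h2
  exact h (zero_dvd_iff.1 h2)

section

variable {E : Type*} [Field E]

/-- finitely many more zeros -/
theorem relIndex_AInt_ne_zero (hres : ∀ w : DV E, Nat.card w.Res ≠ 0) (n : ℕ) :
    ∀ (D : DV E → ℤ) (e : DV E →₀ ℕ), (e.sum fun _ m => m) = n →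
      (RRD.AInt fun w => D w + e w).relIndex (RRD.AInt D) ≠ 0 := by
  classical
  induction n with
  | zero =>
    intro D e he
    have h1 : e = 0 := by
      ext w
      by_contra hw
      have h2 : e w ≤ e.sum fun _ m => m :=
        Finset.single_le_sum (f := fun w => e w) (fun _ _ => Nat.zero_le _) (Finsupp.mem_support_iff.2 hw)
      rw [he] at h2
      exact hw (by simpa using h2)
    subst h1
    have h2 : (fun w => D w + ((0 : DV E →₀ ℕ) w : ℤ)) = D := by
      funext w
      simp
    rw [h2, AddSubgroup.relIndex_self]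
    exact one_ne_zero
  | succ n ih =>
    intro D e he
    obtain ⟨P, hP⟩ : ∃ P, e P ≠ 0 := by
      by_contra hcon
      push Not at hcon
      have : e = 0 := Finsupp.ext hcon
      rw [this, Finsupp.sum_zero_index] at he
      omega
    set e' : DV E →₀ ℕ := e - Finsupp.single P 1 with he'
    have hee : e = e' + Finsupp.single P 1 := by
      rw [he']
      exact (tsub_add_cancel_of_le (by
        rw [Finsupp.single_le_iff]; exact Nat.one_le_iff_ne_zero.2 hP)).symm
    have hsum : (e'.sum fun _ m => m) = n := by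
      rw [hee, Finsupp.sum_add_index' (fun _ => rfl) (fun _ _ _ => rfl),
        Finsupp.sum_single_index rfl] at he
      omega
    have h1 := ih D e' hsum
    have h2 : (fun w => D w + (e w : ℤ)) = Function.update (fun w => D w + (e' w : ℤ)) P
        ((fun w => D w + (e' w : ℤ)) P + 1) := by
      funext w
      by_cases hw : w = P
      · subst hw
        rw [Function.update_self, hee]
        simp
        ring
      · rw [Function.update_of_ne hw, hee]
        simp [Ne.symm hw]
    rw [h2]
    refine AddSubgroup.relIndex_ne_zero_trans ?_ h1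
    rw [RRD.relIndex_AInt_update]
    exact hres P

end

/-- **Finite extensions of `k(x)` with constant field `k` are curves.** -/
theorem cvE_of {k E : Type*} [Field k] [Finite k] [Field E] [Algebra k E] [Algebra (RatFunc k) E]
    [IsScalarTower k (RatFunc k) E] [FiniteDimensional (RatFunc k) E]
    (hc : ∀ a : E, IsAlgebraic k a → ∃ c : k, a = algebraMap k E c)
    (hover : ∀ w : DV E, ∃ v : DV (RatFunc k), Over w v)
    (hres : ∀ w : DV E, Nat.card w.Res ≠ 0)
    (hint : ∀ (v : DV (RatFunc k)) (a : E), (∀ w : DV E, Over w v → w.G 0 a) →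
      ∀ i, v.G 0 ((minpoly (RatFunc k) a).coeff i)) : ∃ G : ℕ, Cv k E G := by
  classical
  have hq : 1 < Nat.card k := Finite.one_lt_card
  -- the constants are integral
  have hck : ∀ (w : DV E) (c : k), w.G 0 (algebraMap k E c) := by
    intro w c
    obtain ⟨v, hv⟩ := hover w
    rw [IsScalarTower.algebraMap_apply k (RatFunc k) E]
    exact (hv.G_zero_iff _).2 (RRD.G_algebraMap v c)
  -- the poles
  have hpoles : ∀ a : E, {w : DV E | ¬ w.G 0 a}.Finite := by
    intro a
    set p := minpoly (RatFunc k) a with hp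
    have hint' : IsIntegral (RatFunc k) a := Algebra.IsIntegral.isIntegral a
    have h1 : (⋃ i ∈ range (p.natDegree + 1), ⋃ v ∈ {v : DV (RatFunc k) | ¬ v.G 0 (p.coeff i)},
        {w : DV E | Over w v}).Finite := by
      refine Set.Finite.biUnion (Finset.finite_toSet _) fun i _ => ?_
      exact Set.Finite.biUnion ((Rat.cv (K := k)).poles _) fun v _ => over_finite' v
    refine h1.subset fun w hw => ?_
    by_contra hcon
    obtain ⟨v, hv⟩ := hover w
    simp only [Set.mem_iUnion, not_exists, Set.mem_ofPred_eq] at hcon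
    have h2 : ∀ i, v.G 0 (p.coeff i) := by
      intro i
      by_contra hi
      by_cases hi' : i ∈ range (p.natDegree + 1)
      · exact hcon i hi' v hi hv
      · rw [mem_range, not_lt] at hi'
        rw [coeff_eq_zero_of_natDegree_lt (by omega)] at hi
        exact hi (DV.G_zero _)
    apply hw
    refine w.G_zero_of_monic ((minpoly.monic hint').map (algebraMap (RatFunc k) E)) (fun i => ?_) (a := a) ?_
    · rw [coeff_map]
      exact (hv.G_zero_iff _).2 (h2 i)
    · rw [eval_map_algebraMap, minpoly.aeval]
  -- the residue fields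
  have hresp : ∀ w : DV E, ∃ d : ℕ, 1 ≤ d ∧ Nat.card w.Res = Nat.card k ^ d := by
    intro w
    have hsm : ∀ (n : ℤ) (c : k) (x : E), x ∈ w.grp n → c • x ∈ w.grp n := by
      intro n c x hx
      rw [Algebra.smul_def]
      have := (hck w c).mul (show w.G n x from hx)
      rwa [zero_add] at this
    obtain ⟨d, hd⟩ := relIndex_pow_of_smul (k := k) (w.grp 1) (w.grp 0) (hsm 1) (hsm 0)
      (by rw [RRD.relIndex_grp_zero]; exact hres w)
    rw [RRD.relIndex_grp_zero] at hd
    refine ⟨d, ?_, hd⟩
    by_contra hd0
    have hd1 : d = 0 := by omega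
    rw [hd1, pow_zero, ← RRD.relIndex_grp_zero, AddSubgroup.relIndex_eq_one] at hd
    have h1 : w.G 1 (1 : E) := hd (show w.G 0 (1 : E) from DV.G_one)
    have h2 := h1.le one_ne_zero
    rw [w.ord_one] at h2
    omega
  -- the decomposition of the adeles
  set b := Module.finBasis (RatFunc k) E with hb
  set n := Module.finrank (RatFunc k) E with hn
  have hDfin : {w : DV E | ∑ i, (w.ord (b i)).natAbs ≠ 0}.Finite := by
    have h1 : (⋃ i, ({w : DV E | ¬ w.G 0 (b i)} ∪ {w : DV E | ¬ w.G 0 (b i)⁻¹})).Finite :=
      Set.finite_iUnion fun i => (hpoles _).union (hpoles _)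
    refine h1.subset fun w hw => ?_
    by_contra hcon
    simp only [Set.mem_iUnion, not_exists, Set.mem_union, Set.mem_ofPred_eq, not_or, not_not] at hcon
    apply hw
    refine Finset.sum_eq_zero fun i _ => ?_
    obtain ⟨h2, h3⟩ := hcon i
    have h4 := h2.le (b.ne_zero i)
    have h5 := h3.le (inv_ne_zero (b.ne_zero i))
    rw [w.ord_inv (b.ne_zero i)] at h5
    omega
  set e : DV E →₀ ℕ := Finsupp.ofSupportFinite (fun w => ∑ i, (w.ord (b i)).natAbs) hDfin with he
  have hbe : ∀ (w : DV E) (i : Fin n), w.G (-(e w : ℤ)) (b i) := by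
    intro w i
    apply DV.G_of_le
    have h1 : (w.ord (b i)).natAbs ≤ e w :=
      Finset.single_le_sum (f := fun i => (w.ord (b i)).natAbs) (fun _ _ => Nat.zero_le _) (mem_univ i)
    omega
  have hdec : ∀ r : DV E → E, r ∈ Adl E → ∃ a : E, ∀ w : DV E, w.G (-(e w : ℤ)) (r w - a) := by
    intro r hr
    have hVr : ((fun w : DV E => (hover w).choose) '' {w : DV E | ¬ w.G 0 (r w)}).Finite :=
      Set.Finite.image _ hr
    set V : Finset (DV (RatFunc k)) := hVr.toFinset with hV
    have hx : ∀ v : DV (RatFunc k), ∃ x : E, ∀ w : DV E, Over w v → w.G 0 (x - r w) := by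
      intro v
      obtain ⟨x, hx⟩ := DV.weak_approx (over_finite' (L := E) v).toFinset r 0
      exact ⟨x, fun w hw => by
        have := hx w (by rw [Set.Finite.mem_toFinset]; exact hw)
        simpa using this⟩
    choose x hx using hx
    have hg : ∀ i : Fin n, ∃ g : RatFunc k, ∀ v : DV (RatFunc k),
        v.G 0 ((if v ∈ V then b.repr (x v) i else 0) - g) := by
      intro i
      refine Rat.genus_zero (fun v => if v ∈ V then b.repr (x v) i else 0) ?_
      refine (Finset.finite_toSet V).subset fun v hv => ?_
      by_contra hcon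
      rw [mem_coe] at hcon
      apply hv
      rw [if_neg hcon]
      exact DV.G_zero _
    choose g hg using hg
    refine ⟨∑ i, g i • b i, fun w => ?_⟩
    obtain ⟨v, hv⟩ := hover w
    have hsum : w.G (-(e w : ℤ)) (∑ i, ((if v ∈ V then b.repr (x v) i else 0) - g i) • b i) := by
      have h8 : ∀ s : Finset (Fin n), w.G (-(e w : ℤ))
          (∑ i ∈ s, ((if v ∈ V then b.repr (x v) i else 0) - g i) • b i) := by
        intro s
        induction s using Finset.induction_on with
        | empty => simpa using DV.G_zero (v := w) _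
        | insert i s hi ih =>
          rw [sum_insert hi]
          refine DV.G.add ?_ ih
          rw [Algebra.smul_def]
          have := ((hv.G_zero_iff _).2 (hg i v)).mul (hbe w i)
          rwa [zero_add] at this
      exact h8 _
    have h0 : w.G (-(e w : ℤ)) (if v ∈ V then r w - x v else r w) := by
      have h1 : w.G 0 (if v ∈ V then r w - x v else r w) := by
        split_ifs with h
        · rw [← neg_sub]
          exact (hx v w hv).neg
        · by_contra hcon
          apply h
          rw [hV, Set.Finite.mem_toFinset]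
          exact ⟨w, hcon, (hover w).choose_spec.unique hv⟩
      exact h1.mono (by omega)
    have hfinal : r w - ∑ i, g i • b i = (if v ∈ V then r w - x v else r w) +
        ∑ i, ((if v ∈ V then b.repr (x v) i else 0) - g i) • b i := by
      split_ifs with h
      · have h1 := b.sum_repr (x v)
        simp only [sub_smul, Finset.sum_sub_distrib]
        rw [h1]
        ring
      · simp only [zero_sub, neg_smul, Finset.sum_neg_distrib]
        ring
    rw [hfinal]
    exact h0.add hsum
  -- finiteness
  have hfinite : (RRD.AInt (0 : DV E → ℤ) ⊔ Prin E).relIndex (Adl E) ≠ 0 := by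
    have h1 := relIndex_AInt_ne_zero hres _ (fun w => -(e w : ℤ)) e rfl
    have h2 : (fun w : DV E => -(e w : ℤ) + (e w : ℤ)) = (0 : DV E → ℤ) := by
      funext w
      simp
    rw [h2] at h1
    have h3 : (RRD.AInt (0 : DV E → ℤ) ⊔ Prin E).relIndex (RRD.AInt fun w => -(e w : ℤ)) ≠ 0 := by
      intro h0
      have h4 := AddSubgroup.relIndex_dvd_of_le_left (RRD.AInt fun w => -(e w : ℤ))
        (le_sup_left : RRD.AInt (0 : DV E → ℤ) ≤ RRD.AInt (0 : DV E → ℤ) ⊔ Prin E)
      rw [h0] at h4
      exact h1 (zero_dvd_iff.1 h4)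
    have h5 : (RRD.AInt (0 : DV E → ℤ) ⊔ Prin E).relIndex
        ((RRD.AInt fun w => -(e w : ℤ)) ⊔ (RRD.AInt (0 : DV E → ℤ) ⊔ Prin E)) ≠ 0 := by
      rw [AddSubgroup.relIndex_sup_right]
      exact h3
    refine relIndex_ne_zero_right ?_ h5
    intro r hr
    obtain ⟨a, ha⟩ := hdec r hr
    have h6 : r = (fun w => r w - a) + fun _ => a := by
      funext w
      simp
    rw [h6]
    refine AddSubgroup.add_mem _ ?_ ?_
    · exact AddSubgroup.mem_sup_left ha
    · exact AddSubgroup.mem_sup_right (AddSubgroup.mem_sup_right ⟨a, fun _ => rfl⟩)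
  have hgen : ∃ G : ℕ, (RRD.AInt (0 : DV E → ℤ) ⊔ Prin E).relIndex (Adl E) = Nat.card k ^ G := by
    refine relIndex_pow_of_smul (k := k) _ _ ?_ ?_ hfinite
    · intro c x hx
      rw [AddSubgroup.mem_sup] at hx ⊢
      obtain ⟨y, hy, z, ⟨a, ha⟩, rfl⟩ := hx
      refine ⟨c • y, fun w => ?_, c • z, ⟨c • a, fun w => ?_⟩, (smul_add c y z).symm⟩
      · rw [Pi.smul_apply, Algebra.smul_def]
        have := (hck w c).mul (hy w)
        simpa using this
      · rw [Pi.smul_apply, ha]
    · intro c x hx
      refine Set.Finite.subset hx fun w hw hcon => hw ?_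
      rw [Pi.smul_apply, Algebra.smul_def]
      have := (hck w c).mul hcon
      rwa [zero_add] at this
  obtain ⟨G, hG⟩ := hgen
  refine ⟨G, hpoles, ?_, ?_, ?_⟩
  · -- the constants
    intro a ha
    apply hc
    have h1 : ∀ i, ∃ c : k, (minpoly (RatFunc k) a).coeff i = algebraMap k (RatFunc k) c :=
      fun i => Rat.const_of_int fun v => hint v a (fun w _ => ha w) i
    have hint' : IsIntegral (RatFunc k) a := Algebra.IsIntegral.isIntegral a
    have hl : minpoly (RatFunc k) a ∈ Polynomial.lifts (algebraMap k (RatFunc k)) := by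
      rw [Polynomial.lifts_iff_coeff_lifts]
      intro i
      obtain ⟨c, hc⟩ := h1 i
      exact ⟨c, hc.symm⟩
    obtain ⟨p, hp, -, hpm⟩ := Polynomial.lifts_and_natDegree_eq_and_monic hl (minpoly.monic hint')
    refine ⟨p, hpm.ne_zero, ?_⟩
    rw [← Polynomial.aeval_map_algebraMap (RatFunc k), hp, minpoly.aeval]
  · intro w
    obtain ⟨d, hd, h⟩ := hresp w
    have h1 : w.deg (Nat.card k) = d := by
      rw [DV.deg, h, Nat.log_pow hq]
    exact ⟨h1 ▸ hd, h1 ▸ h⟩
  · rw [HasGenus, RRD.card_HH_zero]
    exact hG

end Pool.Agent.FF
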