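import Mathlib

/-! # Cyclic submodules of the kernel of an irreducible polynomial in a linear map -/

set_option autoImplicit false

namespace Pool.Agent.FF

open Polynomial

section

variable {F W : Type*} [Field F] [AddCommGroup W] [Module F W] (f : W →ₗ[F] W)

theorem LnA.aeval_mem {L : Submodule F W} (hst : ∀ x ∈ L, f x ∈ L) (P : F[X]) {x : W}
    (hx : x ∈ L) : aeval f P x ∈ L := by
  have hpow : ∀ n : ℕ, (f ^ n) x ∈ L := by
    intro n
    induction n with
    | zero => simpa using hx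
    | succ n ih =>
      rw [pow_succ', Module.End.mul_apply]
      exact hst _ ih
  induction P using Polynomial.induction_on' with
  | add p q hp hq =>
    rw [map_add, LinearMap.add_apply]
    exact L.add_mem hp hq
  | monomial n c =>
    rw [aeval_monomial, Module.End.mul_apply, Module.algebraMap_end_apply]
    exact L.smul_mem c (hpow n)

/-- the cyclic submodule generated by `x` -/
noncomputable def LnA.cyc (x : W) : Submodule F W :=
  LinearMap.range ((LinearMap.applyₗ x).comp (aeval f : F[X] →ₐ[F] _).toLinearMap)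

theorem LnA.mem_cyc {x y : W} : y ∈ LnA.cyc f x ↔ ∃ P : F[X], aeval f P x = y := by
  rw [LnA.cyc, LinearMap.mem_range]
  rfl

theorem LnA.self_mem (x : W) : x ∈ LnA.cyc f x := by
  rw [LnA.mem_cyc]
  exact ⟨1, by rw [map_one]; rfl⟩

theorem LnA.cyc_st {x y : W} (hy : y ∈ LnA.cyc f x) : f y ∈ LnA.cyc f x := by
  rw [LnA.mem_cyc] at hy ⊢
  obtain ⟨P, rfl⟩ := hy
  refine ⟨X * P, ?_⟩
  rw [map_mul, Module.End.mul_apply, aeval_X]

theorem LnA.cyc_le {L : Submodule F W} (hst : ∀ x ∈ L, f x ∈ L) {x : W} (hx : x ∈ L) :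
    LnA.cyc f x ≤ L := by
  intro y hy
  rw [LnA.mem_cyc] at hy
  obtain ⟨P, rfl⟩ := hy
  exact LnA.aeval_mem f hst P hx

theorem LnA.cyc_le_ker {M : F[X]} {x : W} (hx : aeval f M x = 0) :
    LnA.cyc f x ≤ LinearMap.ker (aeval f M) := by
  intro y hy
  rw [LnA.mem_cyc] at hy
  obtain ⟨P, rfl⟩ := hy
  rw [LinearMap.mem_ker, ← Module.End.mul_apply, ← map_mul, mul_comm, map_mul,
    Module.End.mul_apply, hx, map_zero]

theorem LnA.card_cyc [Finite F] {M : F[X]} (hM : M.Monic) (hi : Irreducible M) {x : W}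
    (h0 : x ≠ 0) (hx : aeval f M x = 0) :
    Nat.card (LnA.cyc f x) = Nat.card F ^ M.natDegree := by
  have hx' : ∀ P : F[X], aeval f (M * P) x = 0 := by
    intro P
    rw [mul_comm, map_mul, Module.End.mul_apply, hx, map_zero]
  have hinj : ∀ P : F[X], P.degree < M.natDegree → aeval f P x = 0 → P = 0 := by
    intro P hP h
    by_contra hP0
    have hnd : ¬ M ∣ P := by
      intro hd
      have h1 := degree_le_of_dvd hd hP0
      rw [degree_eq_natDegree hM.ne_zero] at h1
      exact absurd (lt_of_lt_of_le hP h1) (lt_irrefl _)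
    obtain ⟨a, b, hab⟩ := (hi.coprime_iff_not_dvd).2 hnd
    apply h0
    have h1 : aeval f (a * M + b * P) x = x := by rw [hab, map_one]; rfl
    rw [← h1, map_add, LinearMap.add_apply, map_mul, map_mul, Module.End.mul_apply,
      Module.End.mul_apply, hx, h, map_zero, map_zero, add_zero]
  let ev : degreeLT F M.natDegree → LnA.cyc f x := fun P =>
    ⟨aeval f P.1 x, (LnA.mem_cyc f).2 ⟨P.1, rfl⟩⟩
  have hbij : Function.Bijective ev := by
    constructor
    · rintro ⟨P, hP⟩ ⟨P', hP'⟩ h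
      have h1 : aeval f P x = aeval f P' x := congrArg Subtype.val h
      have h2 : P - P' = 0 := by
        refine hinj _ (mem_degreeLT.1 (Submodule.sub_mem _ hP hP')) ?_
        rw [map_sub, LinearMap.sub_apply, h1, sub_self]
      exact Subtype.ext (sub_eq_zero.1 h2)
    · rintro ⟨y, hy⟩
      obtain ⟨P, hP⟩ := (LnA.mem_cyc f).1 hy
      refine ⟨⟨P %ₘ M, mem_degreeLT.2 ?_⟩, Subtype.ext ?_⟩
      · rw [← degree_eq_natDegree hM.ne_zero]
        exact degree_modByMonic_lt _ hM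
      · change aeval f (P %ₘ M) x = y
        have h1 := modByMonic_add_div P M
        rw [← hP]
        conv_rhs => rw [← h1]
        rw [map_add, LinearMap.add_apply, hx', add_zero]
  rw [← Nat.card_congr (Equiv.ofBijective ev hbij),
    Nat.card_congr (degreeLTEquiv F M.natDegree).toEquiv, Nat.card_fun, Nat.card_fin]

/-- the nonzero elements of a finite submodule -/
theorem LnA.card_ne {L : Submodule F W} (hL : Finite L) :
    Nat.card {x : W // x ∈ L ∧ x ≠ 0} = Nat.card L - 1 := by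
  have h1 : {x : W | x ∈ L ∧ x ≠ 0} = (L : Set W) \ {0} := by
    ext x
    simp
  have h2 : Nat.card {x : W // x ∈ L ∧ x ≠ 0} = ({x : W | x ∈ L ∧ x ≠ 0} : Set W).ncard := rfl
  rw [h2, h1, Set.ncard_diff_singleton_of_mem L.zero_mem]
  rfl

theorem LnA.eq_cyc [Finite F] {M : F[X]} (hM : M.Monic) (hi : Irreducible M)
    {L : Submodule F W} (hst : ∀ x ∈ L, f x ∈ L) (hc : Nat.card L = Nat.card F ^ M.natDegree)
    {x : W} (hx : x ∈ L) (h0 : x ≠ 0) (hk : aeval f M x = 0) : LnA.cyc f x = L := by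
  have hL : Finite L := by
    apply Nat.finite_of_card_ne_zero
    rw [hc]
    exact pow_ne_zero _ Nat.card_pos.ne'
  have hL' : (L : Set W).Finite := hL
  apply SetLike.coe_injective
  apply Set.eq_of_subset_of_ncard_le (LnA.cyc_le f hst hx) _ hL'
  change Nat.card L ≤ Nat.card (LnA.cyc f x)
  rw [hc, LnA.card_cyc f hM hi h0 hk]

/-- the number of `f`-stable subspaces with `r ^ d` elements in the kernel of `M(f)` -/
theorem LnA.card_lines [Finite F] {M : F[X]} (hM : M.Monic) (hi : Irreducible M)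
    (hV : Nat.card (LinearMap.ker (aeval f M)) = Nat.card F ^ (2 * M.natDegree)) :
    Nat.card {L : Submodule F W // L ≤ LinearMap.ker (aeval f M) ∧ (∀ x ∈ L, f x ∈ L) ∧
      Nat.card L = Nat.card F ^ M.natDegree} = Nat.card F ^ M.natDegree + 1 := by
  classical
  set d := M.natDegree with hd
  have hd0 : 0 < d := hi.natDegree_pos
  have hr : 1 < Nat.card F := Finite.one_lt_card
  have hrd : 1 < Nat.card F ^ d := Nat.one_lt_pow hd0.ne' hr
  set Λ := {L : Submodule F W // L ≤ LinearMap.ker (aeval f M) ∧ (∀ x ∈ L, f x ∈ L) ∧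
      Nat.card L = Nat.card F ^ d} with hΛ
  have hVf : Finite (LinearMap.ker (aeval f M)) := by
    apply Nat.finite_of_card_ne_zero
    rw [hV]
    exact pow_ne_zero _ Nat.card_pos.ne'
  have hLf : ∀ L : Λ, Finite L.1 := by
    intro L
    apply Nat.finite_of_card_ne_zero
    rw [L.2.2.2]
    exact pow_ne_zero _ Nat.card_pos.ne'
  let S := {x : W // x ∈ LinearMap.ker (aeval f M) ∧ x ≠ 0}
  have hSf : Finite S := by
    have h1 : ({x : W | x ∈ LinearMap.ker (aeval f M) ∧ x ≠ 0} : Set W).Finite :=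
      Set.Finite.subset (s := (LinearMap.ker (aeval f M) : Set W)) hVf fun x hx => hx.1
    exact h1
  let mk : S → Λ := fun x => ⟨LnA.cyc f x.1, LnA.cyc_le_ker f (LinearMap.mem_ker.1 x.2.1),
    fun y hy => LnA.cyc_st f hy, LnA.card_cyc f hM hi x.2.2 (LinearMap.mem_ker.1 x.2.1)⟩
  have hne : ∀ L : Λ, ∃ x ∈ L.1, x ≠ 0 := by
    intro L
    by_contra hcon
    push Not at hcon
    have h1 : L.1 = ⊥ := by
      rw [eq_bot_iff]
      intro x hx
      rw [Submodule.mem_bot]
      exact hcon x hx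
    have h2 := L.2.2.2
    rw [h1] at h2
    rw [← h2] at hrd
    simp at hrd
  have hsur : Function.Surjective mk := by
    intro L
    obtain ⟨x, hx, h0⟩ := hne L
    refine ⟨⟨x, L.2.1 hx, h0⟩, Subtype.ext ?_⟩
    exact LnA.eq_cyc f hM hi L.2.2.1 L.2.2.2 hx h0 (LinearMap.mem_ker.1 (L.2.1 hx))
  have hΛf : Finite Λ := Finite.of_surjective mk hsur
  have := Fintype.ofFinite Λ
  have hfib : ∀ L : Λ, Finite {x : W // x ∈ L.1 ∧ x ≠ 0} := by
    intro L
    have h1 : ({x : W | x ∈ L.1 ∧ x ≠ 0} : Set W).Finite :=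
      Set.Finite.subset (s := (L.1 : Set W)) (hLf L) fun x hx => hx.1
    exact h1
  let ev : (Σ L : Λ, {x : W // x ∈ L.1 ∧ x ≠ 0}) → S :=
    fun p => ⟨p.2.1, p.1.2.1 p.2.2.1, p.2.2.2⟩
  have hev : Function.Bijective ev := by
    constructor
    · rintro ⟨L, x, hx, h0⟩ ⟨L', x', hx', h0'⟩ h
      have h1 : x = x' := congrArg Subtype.val h
      subst h1
      have h2 : L = L' := Subtype.ext
        ((LnA.eq_cyc f hM hi L.2.2.1 L.2.2.2 hx h0 (LinearMap.mem_ker.1 (L.2.1 hx))).symm.trans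
          (LnA.eq_cyc f hM hi L'.2.2.1 L'.2.2.2 hx' h0 (LinearMap.mem_ker.1 (L'.2.1 hx'))))
      subst h2
      rfl
    · rintro ⟨x, hx, h0⟩
      exact ⟨⟨mk ⟨x, hx, h0⟩, ⟨x, LnA.self_mem f x, h0⟩⟩, rfl⟩
  have e := Equiv.ofBijective ev hev
  have h1 := Nat.card_congr e
  rw [Nat.card_sigma] at h1
  have h2 : ∀ L : Λ, Nat.card {x : W // x ∈ L.1 ∧ x ≠ 0} = Nat.card F ^ d - 1 := by
    intro L
    rw [LnA.card_ne (hLf L), L.2.2.2]
  simp only [h2] at h1
  rw [Finset.sum_const, Finset.card_univ, smul_eq_mul, LnA.card_ne hVf, hV,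
    ← Nat.card_eq_fintype_card] at h1
  have h3 : Nat.card F ^ (2 * d) - 1 = (Nat.card F ^ d + 1) * (Nat.card F ^ d - 1) := by
    obtain ⟨a, ha⟩ : ∃ a, Nat.card F ^ d = a + 1 := ⟨Nat.card F ^ d - 1, by omega⟩
    rw [mul_comm 2 d, pow_mul, ha]
    have : (a + 1) ^ 2 = (a + 1 + 1) * a + 1 := by ring
    rw [this]
    simp
  rw [h3] at h1
  exact Nat.eq_of_mul_eq_mul_right (by omega) h1

end

end Pool.Agent.FF
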