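import Pool.Agent.FD.LinesDefs
import Pool.Agent.FD.LinesA

/-! # Sums of lines (42) -/

set_option autoImplicit false

namespace Pool.Agent.FF

open Polynomial

section

variable {F : Type*} {H : Type*} [Field F] [Finite F] [Field H] [Algebra F H]

/-- the product of the `M i` -/
noncomputable def LnB.NJ {s : ℕ} (M : Fin s → F[X]) (J : Finset (Fin s)) : F[X] := ∏ i ∈ J, M i

theorem LnB.deg_NJ {s : ℕ} {M : Fin s → F[X]} (hM : ∀ i, (M i).Monic) (J : Finset (Fin s)) :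
    (LnB.NJ M J).natDegree = dgM M J :=
  natDegree_prod_of_monic _ _ fun i _ => hM i

theorem LnB.monic_NJ {s : ℕ} {M : Fin s → F[X]} (hM : ∀ i, (M i).Monic) (J : Finset (Fin s)) :
    (LnB.NJ M J).Monic :=
  monic_prod_of_monic _ _ fun i _ => hM i

theorem LnB.eval_NJ {s : ℕ} {M : Fin s → F[X]} (h1 : ∀ i, (M i).eval 1 ≠ 0)
    (J : Finset (Fin s)) : (LnB.NJ M J).eval 1 ≠ 0 := by
  rw [LnB.NJ, eval_prod]
  exact Finset.prod_ne_zero_iff.2 fun i _ => h1 i

theorem LnB.VN_mono {g : H} {M N : F[X]} (h : M ∣ N) : VN F g M ≤ VN F g N := by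
  obtain ⟨P, rfl⟩ := h
  intro x hx
  rw [VN, LinearMap.mem_ker] at hx ⊢
  rw [mul_comm, phN_mul, hx, map_zero]

theorem LnB.V0_mono {g : H} {Q : DV H} {M N : F[X]} (h : M ∣ N) : V0 F g Q M ≤ V0 F g Q N :=
  fun _ hx => ⟨LnB.VN_mono h hx.1, hx.2⟩

theorem LnB.disj {g : H} {M N : F[X]} (h : IsCoprime M N) : Disjoint (VN F g M) (VN F g N) :=
  disjoint_ker_aeval_of_isCoprime (phT F g) h

theorem LnB.cop {s : ℕ} {M : Fin s → F[X]} (hm : ∀ i, (M i).Monic) (hi : ∀ i, Irreducible (M i))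
    (hinj : Function.Injective M) {i j : Fin s} (hij : i ≠ j) : IsCoprime (M i) (M j) := by
  rw [(hi i).coprime_iff_not_dvd]
  intro hd
  exact hij (hinj (eq_of_monic_of_associated (hm i) (hm j) ((hi i).associated_of_dvd (hi j) hd)))

theorem LnB.copJ {s : ℕ} {M : Fin s → F[X]} (hm : ∀ i, (M i).Monic) (hi : ∀ i, Irreducible (M i))
    (hinj : Function.Injective M) {J K : Finset (Fin s)} (hJK : Disjoint J K) :
    IsCoprime (LnB.NJ M J) (LnB.NJ M K) :=
  IsCoprime.prod_left fun i hi' => IsCoprime.prod_right fun j hj =>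
    LnB.cop hm hi hinj fun hij => Finset.disjoint_left.1 hJK hi' (hij ▸ hj)

theorem LnB.NJ_dvd {s : ℕ} {M : Fin s → F[X]} {J K : Finset (Fin s)} (hJK : J ⊆ K) :
    LnB.NJ M J ∣ LnB.NJ M K := Finset.prod_dvd_prod_of_subset _ _ _ hJK

theorem LnB.dvd_NJ {s : ℕ} {M : Fin s → F[X]} {J : Finset (Fin s)} {i : Fin s} (hi : i ∈ J) :
    M i ∣ LnB.NJ M J := Finset.dvd_prod_of_mem _ hi

theorem LnB.NJ_insert {s : ℕ} {M : Fin s → F[X]} {J : Finset (Fin s)} {i : Fin s} (hi : i ∉ J) :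
    LnB.NJ M (insert i J) = M i * LnB.NJ M J := Finset.prod_insert hi

theorem LnB.dgM_insert {s : ℕ} {M : Fin s → F[X]} {J : Finset (Fin s)} {i : Fin s} (hi : i ∉ J) :
    dgM M (insert i J) = (M i).natDegree + dgM M J := Finset.sum_insert hi

/-- the decomposition of the elements of a direct sum -/
theorem LnB.uniq {A B : Submodule F H} (hd : Disjoint A B) {a a' b b' : H} (ha : a ∈ A)
    (ha' : a' ∈ A) (hb : b ∈ B) (hb' : b' ∈ B) (h : a + b = a' + b') : a = a' ∧ b = b' := by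
  have h1 : a - a' = b' - b := by linear_combination h
  have h2 : a - a' ∈ B := h1 ▸ B.sub_mem hb' hb
  have h3 : a - a' = 0 := Submodule.disjoint_def.1 hd _ (A.sub_mem ha ha') h2
  have h4 : a = a' := sub_eq_zero.1 h3
  exact ⟨h4, by linear_combination h - h4⟩

theorem LnB.card_sup {A B : Submodule F H} (hd : Disjoint A B) :
    Nat.card ↥(A ⊔ B) = Nat.card A * Nat.card B := by
  rw [← Nat.card_prod]
  symm
  let ev : A × B → ↥(A ⊔ B) := fun p => ⟨p.1.1 + p.2.1,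
    Submodule.add_mem_sup p.1.2 p.2.2⟩
  refine Nat.card_congr (Equiv.ofBijective ev ⟨?_, ?_⟩)
  · rintro ⟨⟨a, ha⟩, ⟨b, hb⟩⟩ ⟨⟨a', ha'⟩, ⟨b', hb'⟩⟩ h
    obtain ⟨h1, h2⟩ := LnB.uniq hd ha ha' hb hb' (congrArg Subtype.val h)
    exact Prod.ext (Subtype.ext h1) (Subtype.ext h2)
  · rintro ⟨x, hx⟩
    obtain ⟨a, ha, b, hb, rfl⟩ := Submodule.mem_sup.1 hx
    exact ⟨⟨⟨a, ha⟩, ⟨b, hb⟩⟩, rfl⟩

theorem LnB.eq_of_card {A B : Submodule F H} (hAB : A ≤ B) (hB : Finite B)
    (hc : Nat.card B ≤ Nat.card A) : A = B := by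
  have hB' : (B : Set H).Finite := hB
  apply SetLike.coe_injective
  exact Set.eq_of_subset_of_ncard_le hAB hc hB'

theorem LnB.line_inter {g : H} {M : F[X]} (hM : M.Monic) (hi : Irreducible M)
    {L L' : Submodule F H} (h : IsLine F g M L) (h' : IsLine F g M L') (hne : L ≠ L') {x : H}
    (hx : x ∈ L) (hx' : x ∈ L') : x = 0 := by
  by_contra h0
  apply hne
  have hk : aeval (phT F g) M x = 0 := LinearMap.mem_ker.1 (h.le hx)
  rw [← LnA.eq_cyc (phT F g) hM hi h.st h.card hx h0 hk]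
  exact LnA.eq_cyc (phT F g) hM hi h'.st h'.card hx' h0 hk

variable {g : H} {s : ℕ} {M : Fin s → F[X]}

theorem LnB.sup_le {V : Fin s → Submodule F H} (hV : ∀ i, V i ≤ VN F g (M i))
    (J : Finset (Fin s)) : (⨆ i ∈ J, V i) ≤ VN F g (LnB.NJ M J) :=
  iSup₂_le fun i hi => (hV i).trans (LnB.VN_mono (LnB.dvd_NJ hi))

theorem LnB.mem_insert {V : Fin s → Submodule F H} {i : Fin s} {J : Finset (Fin s)} {x : H} :
    x ∈ (⨆ j ∈ insert i J, V j) ↔ ∃ a ∈ V i, ∃ b ∈ (⨆ j ∈ J, V j), a + b = x := by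
  rw [Finset.iSup_insert, Submodule.mem_sup]

theorem LnB.mono {V : Fin s → Submodule F H} {J K : Finset (Fin s)} (hJK : J ⊆ K) :
    (⨆ j ∈ J, V j) ≤ (⨆ j ∈ K, V j) :=
  biSup_mono fun _ hj => hJK hj

theorem LnB.sup_disj {L : Fin s → Submodule F H} (h : LT g M L)
    {V : Fin s → Submodule F H} (hV : ∀ i, V i ≤ VN F g (M i)) {V' : Fin s → Submodule F H}
    (hV' : ∀ i, V' i ≤ VN F g (M i)) {J K : Finset (Fin s)} (hJK : Disjoint J K) :
    Disjoint (⨆ i ∈ J, V i) (⨆ i ∈ K, V' i) :=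
  (LnB.disj (LnB.copJ h.monic h.irr h.inj hJK)).mono (LnB.sup_le hV J) (LnB.sup_le hV' K)

theorem LnB.card_fam {L : Fin s → Submodule F H} (h : LT g M L) {V : Fin s → Submodule F H}
    (hV : ∀ i, V i ≤ VN F g (M i)) (J : Finset (Fin s)) :
    Nat.card ↥(⨆ i ∈ J, V i) = ∏ i ∈ J, Nat.card (V i) := by
  classical
  induction J using Finset.induction_on with
  | empty => simp
  | insert i J hi ih =>
    rw [Finset.iSup_insert, Finset.prod_insert hi, ← ih]
    apply LnB.card_sup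
    have h1 := LnB.sup_disj h hV hV (J := {i}) (K := J) (Finset.disjoint_singleton_left.2 hi)
    rwa [Finset.iSup_singleton] at h1

theorem LnB.card {L : Fin s → Submodule F H} (h : LT g M L) (J : Finset (Fin s)) :
    Nat.card ↥(⨆ i ∈ J, L i) = Nat.card F ^ dgM M J := by
  rw [LnB.card_fam h (fun i => (h.line i).le), dgM, ← Finset.prod_pow_eq_pow_sum]
  exact Finset.prod_congr rfl fun i _ => (h.line i).card

theorem LnB.fin {L : Fin s → Submodule F H} (h : LT g M L) (J : Finset (Fin s)) :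
    Finite ↥(⨆ i ∈ J, L i) := by
  apply Nat.finite_of_card_ne_zero
  rw [LnB.card h]
  exact pow_ne_zero _ Nat.card_pos.ne'

theorem LnB.full {L : Fin s → Submodule F H} (h : LT g M L) (J : Finset (Fin s)) :
    (⨆ i ∈ J, VN F g (M i)) = VN F g (LnB.NJ M J) ∧
    Nat.card (VN F g (LnB.NJ M J)) = Nat.card F ^ (2 * (LnB.NJ M J).natDegree) := by
  have hm := LnB.monic_NJ h.monic J
  have hf := finite_VN (F := F) g hm.ne_zero
  have hle := LnB.sup_le (g := g) (V := fun i => VN F g (M i)) (fun i => le_rfl) J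
  have h1 : Nat.card ↥(⨆ i ∈ J, VN F g (M i)) = Nat.card F ^ (2 * (LnB.NJ M J).natDegree) := by
    rw [LnB.card_fam h (fun i => le_rfl), LnB.deg_NJ h.monic, dgM, Finset.mul_sum,
      ← Finset.prod_pow_eq_pow_sum]
    exact Finset.prod_congr rfl fun i _ => h.full i
  have h2 := card_VN_le (F := F) g hm.ne_zero
  have h3 := LnB.eq_of_card hle hf (by rw [h1]; exact h2)
  exact ⟨h3, by rw [← h3, h1]⟩

/-- the intersection of two sums of lines -/
theorem LnB.inter {L L' : Fin s → Submodule F H} (h : LT g M L) (h' : LT g M L')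
    (J : Finset (Fin s)) (K : Finset (Fin s)) (hK : ∀ i ∈ J, L i = L' i → i ∈ K) {x : H}
    (hx : x ∈ ⨆ i ∈ J, L i) (hx' : x ∈ ⨆ i ∈ J, L' i) : x ∈ ⨆ i ∈ K, L i := by
  classical
  induction J using Finset.induction_on generalizing x with
  | empty =>
    have h1 : x = 0 := by simpa using hx
    rw [h1]
    exact zero_mem _
  | insert i J hi ih =>
    obtain ⟨a, ha, b, hb, rfl⟩ := LnB.mem_insert.1 hx
    obtain ⟨a', ha', b', hb', he⟩ := LnB.mem_insert.1 hx'
    have h1 := LnB.sup_disj h (V := fun i => VN F g (M i)) (fun i => le_rfl)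
      (V' := fun i => VN F g (M i)) (fun i => le_rfl) (J := {i}) (K := J)
      (Finset.disjoint_singleton_left.2 hi)
    rw [Finset.iSup_singleton, (LnB.full h J).1] at h1
    obtain ⟨h2, h3⟩ := LnB.uniq h1 ((h.line i).le ha) ((h'.line i).le ha')
      (LnB.sup_le (fun i => (h.line i).le) J hb) (LnB.sup_le (fun i => (h'.line i).le) J hb')
      he.symm
    refine add_mem ?_ (ih (fun j hj => hK j (Finset.mem_insert_of_mem hj)) hb (h3 ▸ hb'))
    by_cases hL : L i = L' i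
    · exact (le_iSup₂_of_le (f := fun i (_ : i ∈ K) => L i) i (hK i (Finset.mem_insert_self _ _) hL)
        le_rfl) ha
    · rw [LnB.line_inter (h.monic i) (h.irr i) (h.line i) (h'.line i) hL ha (h2 ▸ ha')]
      exact zero_mem _

variable {Q : DV H}

theorem LnB.LT_V0 {L : Fin s → Submodule F H} (h : LT g M L) (hg : Q.ord g < 0) :
    LT g M fun i => V0 F g Q (M i) :=
  ⟨h.monic, h.irr, h.one, h.inj, h.full, fun i => ⟨fun _ hx => hx.1, fun _ hx => V0_st hg hx,
    card_V0 hg (h.monic i) (h.one i) (h.full i)⟩⟩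

theorem LnB.V0_sup {L : Fin s → Submodule F H} (h : LT g M L) (hg : Q.ord g < 0)
    (J : Finset (Fin s)) : (⨆ i ∈ J, V0 F g Q (M i)) = V0 F g Q (LnB.NJ M J) := by
  have h0 := LnB.LT_V0 h hg
  have hm := LnB.monic_NJ h.monic J
  have hc := card_V0 hg hm (LnB.eval_NJ h.one J) (LnB.full h J).2
  apply LnB.eq_of_card
  · exact iSup₂_le fun i hi => LnB.V0_mono (LnB.dvd_NJ hi)
  · apply Nat.finite_of_card_ne_zero
    rw [hc]
    exact pow_ne_zero _ Nat.card_pos.ne'
  · rw [hc, LnB.card h0, LnB.deg_NJ h.monic]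

theorem LnB.mem_typ {L : Fin s → Submodule F H} {i : Fin s} :
    i ∈ typ F g Q M L ↔ L i ≠ V0 F g Q (M i) := by
  classical
  simp [typ]

theorem LnB.typ_disj {L : Fin s → Submodule F H} (h : LT g M L) (hg : Q.ord g < 0)
    {K : Finset (Fin s)} (hK : K ⊆ typ F g Q M L) :
    Disjoint (⨆ i ∈ K, L i) (V0 F g Q (LnB.NJ M K)) := by
  rw [Submodule.disjoint_def]
  intro x hx hx'
  rw [← LnB.V0_sup h hg] at hx'
  have h1 := LnB.inter h (LnB.LT_V0 h hg) K ∅
    (fun i hi he => absurd he (LnB.mem_typ.1 (hK hi))) hx hx'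
  simpa using h1

theorem LnB.typ_sup {L : Fin s → Submodule F H} (h : LT g M L) (hg : Q.ord g < 0)
    {K : Finset (Fin s)} (hK : K ⊆ typ F g Q M L) :
    (⨆ i ∈ K, L i) ⊔ V0 F g Q (LnB.NJ M K) = VN F g (LnB.NJ M K) := by
  have hm := LnB.monic_NJ h.monic K
  have hc := card_V0 hg hm (LnB.eval_NJ h.one K) (LnB.full h K).2
  apply LnB.eq_of_card
  · exact _root_.sup_le (LnB.sup_le (fun i => (h.line i).le) K) fun x hx => hx.1
  · exact finite_VN g hm.ne_zero
  · rw [LnB.card_sup (LnB.typ_disj h hg hK), hc, LnB.card h, (LnB.full h K).2,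
      LnB.deg_NJ h.monic, two_mul, pow_add]

end

end Pool.Agent.FF
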