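import Pool.Agent.FD.Zero
import Pool.Agent.FD.LinesB

/-! # D5: the local lemma over infinity (88) -/

set_option autoImplicit false
set_option linter.unusedSectionVars false
set_option linter.unusedVariables false

namespace Pool.Agent.FF

section

variable {F k H : Type} [Field F] [Finite F] [Field k] [Finite k] [Field H] [Algebra F k]
  [Algebra F H] [Algebra k H] [Algebra (RatFunc k) H] [IsScalarTower k (RatFunc k) H]

/-- an automorphism over `k(g)` as a homomorphism over `F` -/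
noncomputable def DGn.fH {N : Polynomial F} (h : DrS F k H N) (σ : H ≃ₐ[RatFunc k] H) :
    H →ₐ[F] H :=
  { (σ : H →+* H) with
    commutes' := fun c => by
      rw [h.tower]
      exact σ.commutes _ }

theorem DGn.fH_apply {N : Polynomial F} (h : DrS F k H N) (σ : H ≃ₐ[RatFunc k] H) (x : H) :
    DGn.fH h σ x = σ x := rfl

/-- the image of a subspace -/
noncomputable def DGn.img {N : Polynomial F} (h : DrS F k H N) (σ : H ≃ₐ[RatFunc k] H)
    (L : Submodule F H) : Submodule F H := L.map (DGn.fH h σ).toLinearMap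

theorem DGn.mem_img {N : Polynomial F} (h : DrS F k H N) (σ : H ≃ₐ[RatFunc k] H)
    (L : Submodule F H) (x : H) : x ∈ L ↔ σ x ∈ DGn.img h σ L := by
  constructor
  · intro hx
    exact ⟨x, hx, rfl⟩
  · rintro ⟨y, hy, hxy⟩
    have : y = x := σ.injective hxy
    rwa [← this]

theorem DGn.gX_fix (σ : H ≃ₐ[RatFunc k] H) : σ (gX k H) = gX k H := σ.commutes _

theorem DGn.mem_VN {N : Polynomial F} (h : DrS F k H N) (σ : H ≃ₐ[RatFunc k] H)
    (N' : Polynomial F) (x : H) : x ∈ VN F (gX k H) N' ↔ σ x ∈ VN F (gX k H) N' := by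
  have h1 := map_phN (DGn.fH h σ) (gX k H) x N'
  rw [DGn.fH_apply, DGn.fH_apply, DGn.fH_apply, DGn.gX_fix] at h1
  show phN F (gX k H) N' x = 0 ↔ phN F (gX k H) N' (σ x) = 0
  rw [← h1]
  exact (map_eq_zero σ).symm

theorem DGn.map_phT {N : Polynomial F} (h : DrS F k H N) (σ : H ≃ₐ[RatFunc k] H) (x : H) :
    σ (phT F (gX k H) x) = phT F (gX k H) (σ x) := by
  rw [phT_apply, phT_apply, map_sub, map_add, map_mul, map_pow, map_pow, DGn.gX_fix]

variable {s : ℕ} {M : Fin s → Polynomial F}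

theorem DGn.LT_img {N : Polynomial F} (h : DrS F k H N) (σ : H ≃ₐ[RatFunc k] H)
    {L : Fin s → Submodule F H} (hL : LT (gX k H) M L) :
    LT (gX k H) M (fun i => DGn.img h σ (L i)) where
  monic := hL.monic
  irr := hL.irr
  one := hL.one
  inj := hL.inj
  full := hL.full
  line i := by
    refine ⟨?_, ?_, ?_⟩
    · rintro _ ⟨y, hy, rfl⟩
      exact (DGn.mem_VN h σ _ y).1 ((hL.line i).le hy)
    · rintro _ ⟨y, hy, rfl⟩
      exact ⟨phT F (gX k H) y, (hL.line i).st y hy, DGn.map_phT h σ y⟩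
    · rw [← (hL.line i).card]
      refine (Nat.card_congr (Equiv.ofBijective
        (fun x : L i => (⟨σ x, (DGn.mem_img h σ (L i) x).1 x.2⟩ : DGn.img h σ (L i))) ⟨?_, ?_⟩)).symm
      · intro x y hxy
        exact Subtype.ext (σ.injective (congrArg Subtype.val hxy))
      · rintro ⟨_, y, hy, rfl⟩
        exact ⟨⟨y, hy⟩, rfl⟩

theorem DGn.actL_img {N : Polynomial F} (h : DrS F k H N) (σ : H ≃ₐ[RatFunc k] H)
    (L : Fin s → Submodule F H) : actL σ L (fun i => DGn.img h σ (L i)) :=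
  fun i x => DGn.mem_img h σ (L i) x

theorem DGn.act_ord (Q : DV H) (σ : H ≃ₐ[RatFunc k] H) (x : H) :
    (Q.act σ.symm).ord x = Q.ord (σ x) := rfl

theorem DGn.act_G (Q : DV H) (σ : H ≃ₐ[RatFunc k] H) (n : ℤ) (x : H) :
    (Q.act σ.symm).G n x ↔ Q.G n (σ x) := by
  rw [Pool.Agent.FF.GalAux.act_G, AlgEquiv.symm_symm]

theorem DGn.mem_V0 {N : Polynomial F} (h : DrS F k H N) (Q : DV H) (σ : H ≃ₐ[RatFunc k] H)
    (N' : Polynomial F) (x : H) :
    x ∈ V0 F (gX k H) (Q.act σ.symm) N' ↔ σ x ∈ V0 F (gX k H) Q N' := by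
  show (x ∈ VN F (gX k H) N' ∧ (Q.act σ.symm).G 0 x ∧ InV0 F (gX k H) (Q.act σ.symm) x) ↔
    (σ x ∈ VN F (gX k H) N' ∧ Q.G 0 (σ x) ∧ InV0 F (gX k H) Q (σ x))
  rw [← DGn.mem_VN h σ, DGn.act_G]
  unfold InV0
  rw [DGn.act_ord, DGn.act_ord, DGn.gX_fix, map_eq_zero σ]

theorem DGn.typ_act {N : Polynomial F} (h : DrS F k H N) (Q : DV H) (σ : H ≃ₐ[RatFunc k] H)
    {L L' : Fin s → Submodule F H} (ha : actL σ L L') :
    typ F (gX k H) (Q.act σ.symm) M L = typ F (gX k H) Q M L' := by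
  classical
  unfold typ
  refine Finset.filter_congr fun i _ => not_congr ?_
  constructor
  · intro h1
    ext x
    obtain ⟨y, rfl⟩ := σ.surjective x
    rw [← ha i y, ← DGn.mem_V0 h Q σ, h1]
  · intro h1
    ext x
    rw [ha i x, h1, DGn.mem_V0 h Q σ]

theorem DGn.cL_act {N : Polynomial F} (h : DrS F k H N) (σ : H ≃ₐ[RatFunc k] H)
    {L L' : Submodule F H} (ha : ∀ x, x ∈ L ↔ σ x ∈ L') (hf : Finite L) :
    σ (cL F L) = cL F L' := by
  classical
  have hs : {x : H | x ∈ L ∧ x ≠ 0}.Finite := by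
    have h1 : (L : Set H).Finite := hf
    exact h1.subset fun x hx => hx.1
  have h1 : cL F L = ∏ᶠ x ∈ {x : H | x ∈ L ∧ x ≠ 0}, x := rfl
  have h2 : cL F L' = ∏ᶠ x ∈ {x : H | x ∈ L' ∧ x ≠ 0}, x := rfl
  have h3 := MonoidHom.map_finprod_mem (fun x : H => x) (σ : H →* H) hs
  have h4 : ∏ᶠ x ∈ {x : H | x ∈ L ∧ x ≠ 0}, (fun x : H => σ x) x =
      ∏ᶠ x ∈ {x : H | x ∈ L' ∧ x ≠ 0}, (fun x : H => x) x := by
    refine finprod_mem_eq_of_bijOn σ ⟨?_, ?_, ?_⟩ fun x _ => rfl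
    · intro x hx
      exact ⟨(ha x).1 hx.1, fun h0 => hx.2 ((map_eq_zero σ).1 h0)⟩
    · exact σ.injective.injOn
    · intro y hy
      obtain ⟨x, rfl⟩ := σ.surjective y
      exact ⟨x, ⟨(ha x).2 hy.1, fun h0 => hy.2 (by rw [h0, map_zero])⟩, rfl⟩
  rw [h1, h2]
  exact h3.trans h4

theorem DGn.sup_act {N : Polynomial F} (h : DrS F k H N) (σ : H ≃ₐ[RatFunc k] H)
    {L L' : Fin s → Submodule F H} (ha : actL σ L L') (J : Finset (Fin s)) (x : H) :
    x ∈ ⨆ i ∈ J, L i ↔ σ x ∈ ⨆ i ∈ J, L' i := by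
  have h1 : ∀ i, L' i = (L i).map (DGn.fH h σ).toLinearMap := by
    intro i
    ext y
    obtain ⟨z, rfl⟩ := σ.surjective y
    rw [← ha i z]
    exact DGn.mem_img h σ (L i) z
  have h2 : ⨆ i ∈ J, L' i = DGn.img h σ (⨆ i ∈ J, L i) := by
    unfold DGn.img
    rw [Submodule.map_iSup]
    refine iSup_congr fun i => ?_
    rw [Submodule.map_iSup]
    exact iSup_congr fun _ => h1 i
  rw [h2]
  exact DGn.mem_img h σ _ x

theorem DGn.over_G {K H : Type*} [Field K] [Field H] [Algebra K H]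
    {w : DV H} {v : DV K} {e : ℕ} (h : OverE w v e) {n : ℤ} {x : K} (hx : v.G n x) :
    w.G (e * n) (algebraMap K H x) := by
  by_cases hx0 : x = 0
  · rw [hx0, map_zero]
    exact DV.G_zero _
  · refine DV.G_of_le ?_
    rw [h.2]
    exact mul_le_mul_of_nonneg_left (hx.le hx0) (by positivity)

theorem DGn.loc (h : DrS F k H (∏ i, M i)) {L : Fin s → Submodule F H} (hL : LT (gX k H) M L)
    {R : DV (EL k L)} (hR : R.Rat k) {P : DV (EL k L)} (hP : Over P (Rat.inf k)) {Q : DV H}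
    (hQ : Over Q P) :
    ∃ y : EL k L, IntO (Rat.inf k) y ∧ ∀ (σ : H ≃ₐ[RatFunc k] H) (L' : Fin s → Submodule F H),
      LT (gX k H) M L' → actL σ L L' → L' ≠ L →
      (y : H) - σ y ≠ 0 ∧
      (typ F (gX k H) Q M L' ≠ typ F (gX k H) Q M L → Q.ord ((y : H) - σ y) = 0) ∧
      (typ F (gX k H) Q M L' = typ F (gX k H) Q M L →
        (Nat.card F : ℤ) ^ dgM M (typ F (gX k H) Q M L) * (((Nat.card F : ℤ) - 1) *
          Q.ord ((y : H) - σ y)) = 2 * (Nat.card F : ℤ) * (- Q.ord (gX k H))) := by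
  classical
  have hfd := h.fin
  have hgal := h.gal
  obtain ⟨r, hrr⟩ : ∃ r : ℕ, r = Nat.card F := ⟨_, rfl⟩
  have hr : 1 < r := by
    rw [hrr]
    exact Finite.one_lt_card
  obtain ⟨I, hI⟩ : ∃ I, I = typ F (gX k H) Q M L := ⟨_, rfl⟩
  obtain ⟨hPe, hPr⟩ := cusp_ef h hL hR hP hQ
  obtain ⟨e', he'⟩ := hQ.overE
  rw [← hI, ← hrr] at hPe
  rw [← hI, ← hrr]
  have hgE : ((gX k (EL k L) : EL k L) : H) = gX k H := rfl
  have hgE0 : (gX k (EL k L) : EL k L) ≠ 0 := by
    rw [Ne, map_eq_zero]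
    exact RatFunc.X_ne_zero
  have hPg : P.ord (gX k (EL k L)) = - ((r : ℤ) ^ dgM M I) := by
    rw [hPe.2, Rat.inf_X]
    push_cast
    ring
  have hordg : Q.ord (gX k H) = - (e' * (r : ℤ) ^ dgM M I) := by
    show Q.ord (algebraMap (EL k L) H (gX k (EL k L))) = _
    rw [he'.2, hPg]
    ring
  have hrD : (1 : ℤ) ≤ (r : ℤ) ^ dgM M I := one_le_pow₀ (by exact_mod_cast hr.le)
  have he0 : (1 : ℤ) ≤ e' := by exact_mod_cast he'.1
  have hg : Q.ord (gX k H) < 0 := by
    rw [hordg]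
    nlinarith
  have hfin : ∀ i, Finite (L i) := by
    intro i
    apply Nat.finite_of_card_ne_zero
    rw [(hL.line i).card]
    exact pow_ne_zero _ Nat.card_pos.ne'
  -- the element `y₀`
  obtain ⟨c, hc⟩ : ∃ c, c = cL F (⨆ i ∈ I, L i) := ⟨_, rfl⟩
  have hcE : c ∈ EL k L := by
    rw [hc]
    exact cL_mem L hfin I
  have hc0 : c ≠ 0 := by
    rw [hc]
    exact cL_ne_zero (LnB.fin hL I)
  have hcord := cL_ord hL hg I
  rw [← hI, ← hc, ← hrr, Finset.inter_self, Finset.sdiff_self] at hcord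
  have hdg0 : dgM M ∅ = 0 := by simp [dgM]
  rw [hdg0, pow_zero] at hcord
  have hr1 : (((r - 1 : ℕ) : ℕ) : ℤ) = (r : ℤ) - 1 := by
    rw [Nat.cast_sub hr.le]
    norm_num
  obtain ⟨y0, hy0⟩ : ∃ y0 : EL k L, y0 = (⟨c, hcE⟩ : EL k L) ^ (r - 1) / gX k (EL k L) := ⟨_, rfl⟩
  have hy0H : (y0 : H) = c ^ (r - 1) / gX k H := by
    rw [hy0]
    push_cast
    rfl
  have hgH0 : gX k H ≠ 0 := by
    rw [Ne, map_eq_zero]
    exact RatFunc.X_ne_zero
  have hy0H0 : (y0 : H) ≠ 0 := by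
    rw [hy0H]
    exact div_ne_zero (pow_ne_zero _ hc0) hgH0
  have hQy0 : Q.ord (y0 : H) = e' := by
    rw [hy0H, Q.ord_div (pow_ne_zero _ hc0) hgH0, Q.ord_pow hc0, hr1]
    have h1 : (r : ℤ) ^ dgM M I * (((r : ℤ) - 1) * Q.ord c - Q.ord (gX k H) - e') = 0 := by
      have h2 := hcord
      rw [hordg] at h2 ⊢
      linear_combination h2
    have h2 := (mul_eq_zero.1 h1).resolve_left (by positivity)
    linarith
  have hPy0 : P.ord y0 = 1 := by
    have h1 : Q.ord (algebraMap (EL k L) H y0) = e' * P.ord y0 := he'.2 y0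
    have h2 : (e' : ℤ) * (P.ord y0 - 1) = 0 := by
      have h3 : Q.ord (algebraMap (EL k L) H y0) = e' := hQy0
      linear_combination h3 - h1
    have h3 := (mul_eq_zero.1 h2).resolve_left (by omega)
    linarith
  -- the approximation
  obtain ⟨y, hy⟩ := DV.weak_approx (over_finite' (L := EL k L) (Rat.inf k)).toFinset
    (fun u => if u = P then y0 else 1) 5
  have hyP : P.G 5 (y - y0) := by
    have h1 := hy P (by rw [Set.Finite.mem_toFinset]; exact hP)
    rw [if_pos rfl] at h1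
    exact h1
  have hyu : ∀ u : DV (EL k L), Over u (Rat.inf k) → u ≠ P → u.G 5 (y - 1) := by
    intro u hu hne
    have h1 := hy u (by rw [Set.Finite.mem_toFinset]; exact hu)
    rw [if_neg hne] at h1
    exact h1
  have hyP1 : P.G 1 y := by
    have h1 := (hyP.mono (by norm_num : (1 : ℤ) ≤ 5)).add (DV.G_of_le hPy0.ge : P.G 1 y0)
    rwa [sub_add_cancel] at h1
  refine ⟨y, ?_, ?_⟩
  · intro u hu
    by_cases hne : u = P
    · rw [hne]
      exact hyP1.mono (by norm_num)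
    · have h1 := ((hyu u hu hne).mono (by norm_num : (0 : ℤ) ≤ 5)).add (DV.G_one : u.G 0 1)
      rwa [sub_add_cancel] at h1
  intro σ L' hL' hact hne
  -- the place below the conjugate
  have hQK : Over Q (Rat.inf k) := hQ.trans' hP
  obtain ⟨Q', hQ'⟩ : ∃ Q' : DV H, Q' = Q.act σ.symm := ⟨_, rfl⟩
  have hQ'K : Over Q' (Rat.inf k) := by
    rw [hQ']
    exact hQK.act _
  have hEH : FiniteDimensional (EL k L) H := FiniteDimensional.right (RatFunc k) (EL k L) H
  obtain ⟨P', hP'⟩ := exists_below (K := EL k L) Q'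
  have hP'K : Over P' (Rat.inf k) := by
    obtain ⟨v', hv'⟩ := exists_below (K := RatFunc k) P'
    have h1 := (hP'.trans' hv').unique hQ'K
    rwa [h1] at hv'
  have htyp : typ F (gX k H) Q' M L = typ F (gX k H) Q M L' := by
    rw [hQ']
    exact DGn.typ_act h Q σ hact
  have hQ'G : ∀ (n : ℤ) (x : H), Q'.G n x ↔ Q.G n (σ x) := by
    intro n x
    rw [hQ']
    exact DGn.act_G Q σ n x
  by_cases hI' : typ F (gX k H) Q M L' = I
  · -- the same type
    have hPP : P' = P := by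
      refine (cusp_unique h hL hR hP hP'K hQ hP' ?_).symm
      rw [htyp, ← hI, hI']
    rw [hPP] at hP'
    obtain ⟨e'', he''⟩ := hP'.overE
    have hee : (e'' : ℤ) = e' := by
      have h1 : Q'.ord (gX k H) = Q.ord (gX k H) := by
        rw [hQ', DGn.act_ord, DGn.gX_fix]
      have h2 : Q'.ord (algebraMap (EL k L) H (gX k (EL k L))) = e'' * P.ord (gX k (EL k L)) :=
        he''.2 _
      have h3 : Q'.ord (algebraMap (EL k L) H (gX k (EL k L))) = Q.ord (gX k H) := h1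
      rw [h3, hPg, hordg] at h2
      have h4 : (r : ℤ) ^ dgM M I * ((e'' : ℤ) - e') = 0 := by linear_combination h2
      have h5 := (mul_eq_zero.1 h4).resolve_left (by positivity)
      linarith
    have hA : Q.G (e' * 5) ((y : H) - y0) := by
      have h1 := DGn.over_G he' hyP
      rwa [map_sub] at h1
    have hB : Q.G (e' * 5) (σ y - σ y0) := by
      have h1 := DGn.over_G he'' hyP
      rw [hQ'G, hee, map_sub, map_sub] at h1
      exact h1
    obtain ⟨c', hc'⟩ : ∃ c', c' = cL F (⨆ i ∈ I, L' i) := ⟨_, rfl⟩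
    have hσc : σ c = c' := by
      rw [hc, hc']
      exact DGn.cL_act h σ (fun x => DGn.sup_act h σ hact I x) (LnB.fin hL I)
    have hσy0 : σ y0 = c' ^ (r - 1) / gX k H := by
      rw [hy0H, map_div₀, map_pow, hσc, DGn.gX_fix]
    obtain ⟨B, hBB⟩ : ∃ B, B = (c' / c) ^ (r - 1) - 1 := ⟨_, rfl⟩
    have hdiff : (y0 : H) - σ y0 = -((y0 : H) * B) := by
      rw [hσy0, hBB, hy0H, div_pow]
      have : c ^ (r - 1) ≠ 0 := pow_ne_zero _ hc0
      field_simp
      ring
    have hcj := cL_conj hL hL' hg (hI'.trans hI) hne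
    rw [← hI, ← hc, ← hc', ← hrr, ← hBB] at hcj
    obtain ⟨hB0, hBo⟩ := hcj
    have hBo' : ((r : ℤ) - 1) * Q.ord B = (r + 1) * e' := by
      rw [hordg] at hBo
      have h1 : (r : ℤ) ^ dgM M I * (((r : ℤ) - 1) * Q.ord B - (r + 1) * e') = 0 := by
        linear_combination hBo
      have h2 := (mul_eq_zero.1 h1).resolve_left (by positivity)
      linarith
    have hd0 : (y0 : H) - σ y0 ≠ 0 := by
      rw [hdiff]
      exact neg_ne_zero.2 (mul_ne_zero hy0H0 hB0)
    have hdo : Q.ord ((y0 : H) - σ y0) = e' + Q.ord B := by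
      rw [hdiff, Q.ord_neg, Q.ord_mul _ _ hy0H0 hB0, hQy0]
    have hr2 : (2 : ℤ) ≤ r := by exact_mod_cast hr
    have hlt : Q.ord ((y0 : H) - σ y0) + 1 ≤ e' * 5 := by
      rw [hdo]
      have h1 : Q.ord B ≤ 3 * e' := by
        by_contra hcon
        push Not at hcon
        nlinarith
      linarith
    have h1 : Q.G (Q.ord ((y0 : H) - σ y0) + 1) (((y : H) - y0) - (σ y - σ y0)) :=
      (hA.sub hB).mono hlt
    have h2 := DV.ord_add_of_lt (v := Q) hd0 h1
    rw [show (y0 : H) - σ y0 + (((y : H) - y0) - (σ y - σ y0)) = (y : H) - σ y by ring] at h2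
    refine ⟨h2.1, fun h3 => absurd hI' h3, fun _ => ?_⟩
    rw [h2.2, hdo, hordg]
    have h3 : ((r : ℤ) - 1) * (e' + Q.ord B) = 2 * r * e' := by
      linear_combination hBo'
    rw [h3]
    ring
  · have hne' : P' ≠ P := by
      intro h1
      rw [h1] at hP'
      have h2 := typ_eq h hL hP hQ hP'
      rw [htyp, ← hI] at h2
      exact hI' h2.symm
    have h1 : Q.G 1 (σ y - 1) := by
      have h2 : Q'.G 1 (algebraMap (EL k L) H (y - 1)) :=
        (hP'.G_one_iff _).2 ((hyu P' hP'K hne').mono (by norm_num))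
      rw [hQ'G] at h2
      have h3 : σ (algebraMap (EL k L) H (y - 1)) = σ y - 1 := by
        rw [map_sub, map_one, map_sub, map_one]
        rfl
      rwa [h3] at h2
    have h2 : Q.G 1 (y : H) := (hQ.G_one_iff _).2 hyP1
    have h3 : Q.G (Q.ord (-1 : H) + 1) ((y : H) - σ y + 1) := by
      rw [Q.ord_neg_one, zero_add]
      have h4 := h2.sub h1
      rwa [show (y : H) - (σ y - 1) = (y : H) - σ y + 1 by ring] at h4
    have h4 := DV.ord_add_of_lt (v := Q) (neg_ne_zero.2 one_ne_zero) h3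
    rw [show (-1 : H) + ((y : H) - σ y + 1) = (y : H) - σ y by ring, Q.ord_neg_one] at h4
    exact ⟨h4.1, fun _ => h4.2, fun h5 => absurd h5 hI'⟩

theorem DGn.exists_zero (h : DrS F k H (∏ i, M i)) {L : Fin s → Submodule F H}
    (hL : LT (gX k H) M L) : ∃ R : DV (EL k L), Over R (Rat.pt (0 : k)) ∧ R.Rat k := by
  have hfd := h.fin
  obtain ⟨R, hR⟩ := exists_above (L := EL k L) (Rat.pt (0 : k))
  exact ⟨R, hR, (zero_rat h hL hR).2⟩

theorem DGn.img_ne {N : Polynomial F} (h : DrS F k H N) {L : Fin s → Submodule F H}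
    {σ : H ≃ₐ[RatFunc k] H} (hσ : σ ∉ stL k L) : (fun i => DGn.img h σ (L i)) ≠ L := by
  intro h1
  refine hσ ?_
  show ∀ i x, x ∈ L i ↔ σ x ∈ L i
  have h2 := DGn.actL_img h σ L
  rw [h1] at h2
  exact h2

theorem dgen_inf (h : DrS F k H (∏ i, M i)) {L : Fin s → Submodule F H} (hL : LT (gX k H) M L)
    {Q : DV H} (hQ : Over Q (Rat.inf k)) {σ : H ≃ₐ[RatFunc k] H} (hσ : σ ∉ stL k L) :
    ∃ y : EL k L, IntO (Rat.inf k) y ∧ (y : H) - σ y ≠ 0 ∧
      Q.ord ((y : H) - σ y) ≤ 4 * (- Q.ord (gX k H)) := by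
  have hfd := h.fin
  obtain ⟨R, -, hR⟩ := DGn.exists_zero h hL
  have hEH : FiniteDimensional (EL k L) H := FiniteDimensional.right (RatFunc k) (EL k L) H
  obtain ⟨P, hP⟩ := exists_below (K := EL k L) Q
  have hPK : Over P (Rat.inf k) := by
    obtain ⟨v', hv'⟩ := exists_below (K := RatFunc k) P
    have h1 := (hP.trans' hv').unique hQ
    rwa [h1] at hv'
  obtain ⟨y, hy, hall⟩ := DGn.loc h hL hR hPK hP
  obtain ⟨h0, h1, h2⟩ := hall σ _ (DGn.LT_img h σ hL) (DGn.actL_img h σ L) (DGn.img_ne h hσ)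
  have hg : Q.ord (gX k H) < 0 := by
    obtain ⟨e, he⟩ := hQ.overE
    rw [he.2, Rat.inf_X]
    have := he.1
    have h3 : (1 : ℤ) ≤ e := by exact_mod_cast this
    linarith
  refine ⟨y, hy, h0, ?_⟩
  by_cases ht : typ F (gX k H) Q M (fun i => DGn.img h σ (L i)) = typ F (gX k H) Q M L
  · have h3 := h2 ht
    have hr : (2 : ℤ) ≤ Nat.card F := by
      have : 1 < Nat.card F := Finite.one_lt_card
      exact_mod_cast this
    have hrD : (1 : ℤ) ≤ (Nat.card F : ℤ) ^ dgM M (typ F (gX k H) Q M L) :=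
      one_le_pow₀ (by linarith)
    by_contra hcon
    push Not at hcon
    have h4 : ((Nat.card F : ℤ) - 1) * (4 * (- Q.ord (gX k H))) <
        ((Nat.card F : ℤ) - 1) * Q.ord ((y : H) - σ y) :=
      mul_lt_mul_of_pos_left hcon (by linarith)
    have h5 : ((Nat.card F : ℤ) - 1) * Q.ord ((y : H) - σ y) ≤
        (Nat.card F : ℤ) ^ dgM M (typ F (gX k H) Q M L) *
          (((Nat.card F : ℤ) - 1) * Q.ord ((y : H) - σ y)) := by
      refine le_mul_of_one_le_left ?_ hrD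
      refine le_trans ?_ h4.le
      exact mul_nonneg (by linarith) (by linarith)
    nlinarith
  · rw [h1 ht]
    linarith

end

end Pool.Agent.FF
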