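import Pool.Agent.FD.RHBA
import Pool.Agent.FY.RRxA

/-! # The differential with the divisor `- 2 ∞` on the rational function field -/

set_option autoImplicit false
set_option linter.unusedSectionVars false

namespace Pool.Agent.FF.RHB

open Finset

variable {k : Type} [Field k] [Finite k] {p : ℕ} [hp : Fact p.Prime]

/-- twice the place at infinity (orders at least) -/
noncomputable def D2 (k : Type) [Field k] : DV (RatFunc k) →₀ ℤ := Finsupp.single (Rat.inf k) 2

theorem degZ_D2 : RRD.degZ k (D2 k) = 2 := by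
  rw [D2, RRD.degZ_single]
  have : RRD.deg k (Rat.inf k) = 1 := Rat.deg_inf
  rw [this]
  norm_num

theorem card_gt : 1 < RRD.hCard (D2 k : DV (RatFunc k) → ℤ) := by
  obtain ⟨h1, h2, h3⟩ := RRD.cnt (Rat.cv (K := k)) (D2 k)
  rw [degZ_D2] at h3
  have hq : 1 < Nat.card k := Finite.one_lt_card
  have hq' : (1 : ℚ) < Nat.card k := by exact_mod_cast hq
  have h4 : (1 : ℚ) ≤ (Nat.card (RRD.LInt (D2 k : DV (RatFunc k) → ℤ)) : ℚ) := by
    exact_mod_cast Nat.one_le_iff_ne_zero.2 h1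
  have h5 : ((Nat.card k : ℚ) ^ (1 - ((0 : ℕ) : ℤ) - 2)) = (Nat.card k : ℚ)⁻¹ := by
    rw [show (1 - ((0 : ℕ) : ℤ) - 2) = -1 by norm_num, zpow_neg_one]
  rw [h3, h5] at h4
  have hq0 : (0 : ℚ) < Nat.card k := by linarith
  rw [inv_mul_eq_div, le_div_iff₀ hq0, one_mul] at h4
  have h6 : (1 : ℚ) < (RRD.hCard (D2 k : DV (RatFunc k) → ℤ) : ℚ) := by linarith
  exact_mod_cast h6

theorem exists_hom_aux {Q : Type} [AddCommGroup Q] [Module (ZMod p) Q] {x : Q} (hx : x ≠ 0) :
    ∃ f : Q →+ ZMod p, f x ≠ 0 := by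
  by_contra hno
  push Not at hno
  exact hx ((Module.forall_dual_apply_eq_zero_iff (ZMod p) x).1 fun f => hno f.toAddMonoidHom)

theorem exists_hom {Q : Type} [AddCommGroup Q] (h : ∀ x : Q, p • x = 0) {x : Q} (hx : x ≠ 0) :
    ∃ f : Q →+ ZMod p, f x ≠ 0 :=
  let _ : Module (ZMod p) Q := AddCommGroup.zmodModule h
  exists_hom_aux hx

theorem exists_om0 [CharP k p] : ∃ om : Adl (RatFunc k) →+ ZMod p,
    (∀ r : Adl (RatFunc k), (r : DV (RatFunc k) → RatFunc k) ∈ Prin (RatFunc k) → om r = 0) ∧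
    (∀ r : Adl (RatFunc k), (r : DV (RatFunc k) → RatFunc k) ∈ RRD.AInt (D2 k : DV (RatFunc k) → ℤ) →
      om r = 0) ∧
    ∀ v : DV (RatFunc k), ∃ z, v.G (D2 k v - 1) z ∧ om (sgl v z) ≠ 0 := by
  classical
  set S : AddSubgroup (DV (RatFunc k) → RatFunc k) :=
    RRD.AInt (D2 k : DV (RatFunc k) → ℤ) ⊔ Prin (RatFunc k) with hS
  obtain ⟨r, hr, hrS⟩ : ∃ r, r ∈ Adl (RatFunc k) ∧ r ∉ S := by
    by_contra hno
    push Not at hno
    have h1 : S.relIndex (Adl (RatFunc k)) = 1 := AddSubgroup.relIndex_eq_one.2 hno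
    have h2 := card_gt (k := k)
    rw [RRD.hCard, ← hS, h1] at h2
    exact lt_irrefl _ h2
  let Q : Type := ↥(Adl (RatFunc k)) ⧸ S.addSubgroupOf (Adl (RatFunc k))
  have hchar : ∀ x : Q, p • x = 0 := by
    intro x
    obtain ⟨y, rfl⟩ := QuotientAddGroup.mk_surjective x
    rw [← QuotientAddGroup.mk_nsmul]
    have h1 : p • y = 0 := by
      refine Subtype.ext (funext fun v => ?_)
      show p • ((y : DV (RatFunc k) → RatFunc k) v) = 0
      have : CharP (RatFunc k) p := charP_of_injective_algebraMap (algebraMap k (RatFunc k)).injective p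
      rw [nsmul_eq_mul, CharP.cast_eq_zero, zero_mul]
    rw [h1]
    rfl
  have hx : (QuotientAddGroup.mk ⟨r, hr⟩ : Q) ≠ 0 := by
    intro h0
    rw [QuotientAddGroup.eq_zero_iff, AddSubgroup.mem_addSubgroupOf] at h0
    exact hrS h0
  obtain ⟨f, hf⟩ := exists_hom hchar hx
  set om : Adl (RatFunc k) →+ ZMod p := f.comp (QuotientAddGroup.mk' _) with hom
  have hz : ∀ r : Adl (RatFunc k), (r : DV (RatFunc k) → RatFunc k) ∈ S → om r = 0 := by
    intro s hs
    have h1 : (QuotientAddGroup.mk s : Q) = 0 := by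
      rw [QuotientAddGroup.eq_zero_iff, AddSubgroup.mem_addSubgroupOf]
      exact hs
    show f (QuotientAddGroup.mk s : Q) = 0
    rw [h1, map_zero]
  refine ⟨om, fun s hs => hz s (AddSubgroup.mem_sup_right hs), fun s hs =>
    hz s (AddSubgroup.mem_sup_left hs), fun v => ?_⟩
  by_contra hno
  push Not at hno
  apply hf
  -- the class group of `- 2 ∞ + v` is zero
  have hC := Rat.cv (K := k)
  have hdv : 1 ≤ v.deg (Nat.card k) := (hC.res v).1
  have h1 : RRD.hCard ((D2 k + Finsupp.single v (-1) : DV (RatFunc k) →₀ ℤ) : DV (RatFunc k) → ℤ) = 1 := by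
    refine hCard_eq_one' hC _ ?_
    rw [RRD.degZ_add, degZ_D2, RRD.degZ_single]
    have : (1 : ℤ) ≤ (RRD.deg k v : ℤ) := by exact_mod_cast hdv
    push_cast
    linarith
  have h2 := AddSubgroup.relIndex_eq_one.1 h1 hr
  obtain ⟨a, ha, b, hb, hab⟩ := AddSubgroup.mem_sup.1 h2
  have haA : a ∈ Adl (RatFunc k) := RRD.AInt_le _ ha
  have hbA : b ∈ Adl (RatFunc k) := RRD.Prin_le hC hb
  have h3 : om ⟨r, hr⟩ = om ⟨a, haA⟩ + om ⟨b, hbA⟩ := by
    rw [← map_add]
    congr 1
    exact Subtype.ext hab.symm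
  have h4 : om ⟨b, hbA⟩ = 0 := hz _ (AddSubgroup.mem_sup_right hb)
  have hav : ∀ w : DV (RatFunc k), w.G ((D2 k + Finsupp.single v (-1) : DV (RatFunc k) →₀ ℤ) w) (a w) := ha
  have h5 : om (sgl v (a v)) = 0 := by
    refine hno (a v) ?_
    have := hav v
    rw [Finsupp.add_apply, Finsupp.single_eq_same] at this
    exact this
  have h6 : om (⟨a, haA⟩ - sgl v (a v)) = 0 := by
    refine hz _ (AddSubgroup.mem_sup_left fun w => ?_)
    show w.G (D2 k w) (a w - (sgl v (a v) : DV (RatFunc k) → RatFunc k) w)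
    by_cases hw : w = v
    · subst hw
      rw [sgl_self, sub_self]
      exact DV.G_zero _
    · rw [sgl_ne hw, sub_zero]
      have := hav w
      rwa [Finsupp.add_apply, Finsupp.single_eq_of_ne hw, add_zero] at this
  rw [map_sub, h5, sub_zero] at h6
  show om ⟨r, hr⟩ = 0
  rw [h3, h4, h6, add_zero]

end Pool.Agent.FF.RHB
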