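import Pool.Agent.FD.Diff
import Pool.Agent.FD.Gal
import Pool.Agent.FD.RHBB

/-! # X5: the general genus bound (60) -/

set_option autoImplicit false
set_option linter.unusedSectionVars false

namespace Pool.Agent.FF

open Finset

theorem rhb {k E : Type} [Field k] [Finite k] [Field E] [Algebra k E] [Algebra (RatFunc k) E]
    [IsScalarTower k (RatFunc k) E] [FiniteDimensional (RatFunc k) E]
    [Algebra.IsSeparable (RatFunc k) E] {G : ℕ} (C : Cv k E G) {R : DV E} (hR : R.Rat k)
    (D : DV E →₀ ℤ)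
    (hD : ∀ (v : DV (RatFunc k)) (a : E),
      (∀ b : E, IntO v b → v.G 0 (Algebra.trace (RatFunc k) E (a * b))) →
        ∀ P : DV E, Over P v → P.G (- D P) a) :
    2 * (G : ℤ) + 2 * Module.finrank (RatFunc k) E ≤ RRD.degZ k D + 2 := by
  classical
  obtain ⟨p, hpc⟩ := CharP.exists k
  have hpp : p.Prime := (CharP.char_is_prime_or_zero k p).resolve_right
    (CharP.char_ne_zero_of_finite k p)
  have : Fact p.Prime := ⟨hpp⟩
  obtain ⟨om₀, hp₀, hb₀, hs₀⟩ := RHB.exists_om0 (k := k) (p := p)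
  have htr : RHB.HTr (RatFunc k) E := fun v x hx => IntO.trace (v := v) hx
  set W : DV (RatFunc k) → ℤ := fun v => - RHB.D2 k v with hW
  have hWn : ∀ v : DV (RatFunc k), - W v = RHB.D2 k v := fun v => by rw [hW]; simp
  have hb : ∀ r : Adl (RatFunc k), (r : DV (RatFunc k) → RatFunc k) ∈ Bdd W → om₀ r = 0 := by
    intro r hr
    refine hb₀ r fun v => ?_
    have := hr v
    rwa [hWn] at this
  have hs : ∀ v : DV (RatFunc k), ∃ z, v.G (- W v - 1) z ∧ om₀ (sgl v z) ≠ 0 := by
    intro v
    obtain ⟨z, h1, h2⟩ := hs₀ v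
    exact ⟨z, by rwa [hWn], h2⟩
  -- the fibre over infinity
  have hinf : (Rat.inf k).resCard = Nat.card k := Rat.card_res_inf
  obtain ⟨T, e, f, hTn, hT, hef, hsum⟩ := sum_ef (E := E) (Rat.inf k) (by
    rw [hinf]
    exact (Nat.card_pos (α := k)).ne')
  have hDW : ∀ (v : DV (RatFunc k)) (w : DV E), Over w v →
      w.ord (algebraMap (RatFunc k) E (RHB.T W v)) = if w ∈ T then 2 * (e w : ℤ) else 0 := by
    intro v w hw
    obtain ⟨e', he'⟩ := hw.overE
    by_cases hv : v = Rat.inf k
    · subst hv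
      rw [if_pos ((hT w).2 hw), (hef w ((hT w).2 hw)).1.2, RHB.T_ord, hWn, RHB.D2,
        Finsupp.single_eq_same]
      ring
    · have hwT : w ∉ T := fun h => hv (Over.unique hw ((hT w).1 h))
      rw [if_neg hwT, he'.2, RHB.T_ord, hWn, RHB.D2, Finsupp.single_eq_of_ne hv, mul_zero]
  set D0 : DV E →₀ ℤ := ∑ w ∈ T, Finsupp.single w (2 * (e w : ℤ)) with hD0
  have hD0w : ∀ w : DV E, D0 w = if w ∈ T then 2 * (e w : ℤ) else 0 := by
    intro w
    rw [hD0, Finsupp.finsetSum_apply]
    by_cases hw : w ∈ T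
    · rw [if_pos hw, Finset.sum_eq_single w]
      · rw [Finsupp.single_eq_same]
      · intro u _ hu
        exact Finsupp.single_eq_of_ne (Ne.symm hu)
      · intro h
        exact absurd hw h
    · rw [if_neg hw]
      refine Finset.sum_eq_zero fun u hu => ?_
      exact Finsupp.single_eq_of_ne (fun h => hw (h ▸ hu))
  have hdeg0 : RRD.degZ k D0 = 2 * (Module.finrank (RatFunc k) E : ℤ) := by
    have h1 : ∀ S : Finset (DV E), RRD.degZ k (∑ w ∈ S, Finsupp.single w (2 * (e w : ℤ))) =
        ∑ w ∈ S, 2 * (e w : ℤ) * (RRD.deg k w : ℤ) := by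
      intro S
      induction S using Finset.induction_on with
      | empty => rw [Finset.sum_empty, Finset.sum_empty, RRD.degZ_zero]
      | insert w S hw ih => rw [Finset.sum_insert hw, Finset.sum_insert hw, RRD.degZ_add, ih,
          RRD.degZ_single]
    rw [hD0, h1, ← hsum]
    push_cast
    rw [Finset.mul_sum]
    refine Finset.sum_congr rfl fun w hw => ?_
    have h2 : RRD.deg k w = f w := by
      show Nat.log (Nat.card k) (Nat.card w.Res) = f w
      have h3 : Nat.card w.Res = Nat.card k ^ f w := by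
        have h4 : w.resCard = (Rat.inf k).resCard ^ f w := (hef w hw).2.2
        rw [hinf] at h4
        exact h4
      rw [h3, Nat.log_pow Finite.one_lt_card]
    rw [h2]
    ring
  -- the differential of `E`
  set om := RHB.omE htr om₀ W hb with hom
  have hsharp : ∀ P : DV E, ∃ a : E, P.G (- (D - D0) P - 1) a ∧ om (sgl P a) ≠ 0 := by
    intro P
    obtain ⟨v, e', he'⟩ := exists_overE (K := RatFunc k) P
    have hP := he'.over
    obtain ⟨a, h1, h2⟩ := RHB.omE_sharp htr om₀ W hb hs hP (D P) (fun a ha => hD v a ha P hP)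
    refine ⟨a, ?_, h2⟩
    rw [hDW v P hP, ← hD0w] at h1
    refine h1.mono ?_
    rw [Finsupp.sub_apply]
    linarith
  have h0 : om ≠ 0 := by
    intro h0
    obtain ⟨a, -, h2⟩ := hsharp R
    exact h2 (by rw [h0]; rfl)
  have h1 := diff_bound (p := p) C hR om h0
    (fun r hr => RHB.omE_prin (RRD.Prin_le (Rat.cv (K := k))) htr om₀ W hb hp₀ r hr) D0
    (fun r hr => RHB.omE_bdd htr om₀ W hb r fun v w hw => by
      rw [hDW v w hw, ← hD0w]
      exact hr w) (D - D0) hsharp
  have h2 : RRD.degZ k (D - D0) + RRD.degZ k D0 = RRD.degZ k D := by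
    rw [← RRD.degZ_add, sub_add_cancel]
  linarith

end Pool.Agent.FF
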