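import Pool.Agent.FD.Zero
import Pool.Agent.FD.RHB
import Pool.Agent.FD.DGenA
import Pool.Agent.FF.RatAd
import Pool.Agent.FF.Bridge

/-! # D5: genus and points of the field of a line tuple (88) -/

set_option autoImplicit false
set_option linter.unusedSectionVars false
set_option linter.unusedVariables false

namespace Pool.Agent.FF

section

variable {F k H : Type} [Field F] [Finite F] [Field k] [Finite k] [Field H] [Algebra F k]
  [Algebra F H] [Algebra k H] [Algebra (RatFunc k) H] [IsScalarTower k (RatFunc k) H]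

variable {s : ℕ} {M : Fin s → Polynomial F}

/-- the places over `g = 0` -/
theorem DGn.pts (h : DrS F k H (∏ i, M i)) {L : Fin s → Submodule F H}
    (hL : LT (gX k H) M L) : ∃ T : Finset (DV (EL k L)), T.card = psiM M ∧ ∀ P ∈ T, P.Rat k := by
  classical
  have hfd := h.fin
  have hgal := h.gal
  obtain ⟨R, -, hR⟩ := DGn.exists_zero h hL
  have hpt : (Rat.pt (0 : k)).resCard ≠ 0 := by
    rw [Rat.resCard_pt]
    exact Nat.card_pos.ne'
  obtain ⟨T, e, f, -, hT, hTf, hsum⟩ := sum_ef (E := EL k L) (Rat.pt (0 : k)) hpt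
  refine ⟨T, ?_, fun P hP => (zero_rat h hL ((hT P).1 hP)).2⟩
  rw [finrank_EL h hL hR] at hsum
  rw [← hsum, Finset.card_eq_sum_ones]
  refine Finset.sum_congr rfl fun w hw => ?_
  obtain ⟨h1, h2⟩ := zero_rat h hL ((hT w).1 hw)
  obtain ⟨h3, h4, h5⟩ := hTf w hw
  have h6 : e w = 1 := by
    obtain ⟨t, _, ht1⟩ := (Rat.pt (0 : k)).exists_one
    have h7 := h1.2 t
    rw [h3.2 t, ht1] at h7
    push_cast at h7
    omega
  have h7 : f w = 1 := by
    have h8 : w.resCard = Nat.card k := by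
      rw [← DV.card_Res]
      exact h2.card_Res
    rw [h8, Rat.resCard_pt] at h5
    have h9 : Nat.card k ^ 1 = Nat.card k ^ f w := by rw [pow_one]; exact h5
    exact (Nat.pow_right_injective (Finite.one_lt_card (α := k)) h9).symm
  rw [h6, h7]

/-- the number of lines other than `V₀` -/
theorem DGn.card_line' {g : H} {Q : DV H} (hg : Q.ord g < 0) {N : Polynomial F} (hN : N.Monic)
    (hi : Irreducible N) (h1 : N.eval 1 ≠ 0)
    (hV : Nat.card (VN F g N) = Nat.card F ^ (2 * N.natDegree)) :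
    Nat.card {A : Submodule F H // IsLine F g N A ∧ A ≠ V0 F g Q N} = Nat.card F ^ N.natDegree := by
  classical
  have h2 := card_line hN hi hV
  have h3 := V0_line hg hN h1 hV
  have hfin : Finite {A : Submodule F H // IsLine F g N A} := by
    apply Nat.finite_of_card_ne_zero
    rw [h2]
    exact Nat.succ_ne_zero _
  have h4 : {A : Submodule F H | IsLine F g N A ∧ A ≠ V0 F g Q N} =
      {A : Submodule F H | IsLine F g N A} \ {V0 F g Q N} := by
    ext A
    simp
  have h5 : Nat.card {A : Submodule F H // IsLine F g N A ∧ A ≠ V0 F g Q N} =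
      ({A : Submodule F H | IsLine F g N A ∧ A ≠ V0 F g Q N} : Set _).ncard := rfl
  have h6 : Nat.card {A : Submodule F H // IsLine F g N A} =
      ({A : Submodule F H | IsLine F g N A} : Set _).ncard := rfl
  rw [h5, h4, Set.ncard_sdiff_singleton_of_mem (by exact h3), ← h6, h2]
  rfl

/-- an extension of an embedding -/
theorem DGn.exists_ext (h : DrS F k H (∏ i, M i)) {L : Fin s → Submodule F H}
    (τ : EL k L →ₐ[RatFunc k] H) : ∃ σ : H ≃ₐ[RatFunc k] H, ∀ x : EL k L, σ x = τ x := by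
  have hfd := h.fin
  have hgal := h.gal
  refine ⟨AlgEquiv.ofBijective (τ.liftNormal H) (Algebra.IsAlgebraic.algHom_bijective _), ?_⟩
  intro x
  exact τ.liftNormal_commutes H x

theorem DGn.stL_of_fix (h : DrS F k H (∏ i, M i)) {L : Fin s → Submodule F H}
    {σ : H ≃ₐ[RatFunc k] H} (hσ : ∀ x : EL k L, σ x = x) : σ ∈ stL k L := by
  have hfd := h.fin
  rw [← IntermediateField.fixingSubgroup_fixedField (stL k L)]
  intro x
  exact hσ x

theorem DGn.fix_of_stL {L : Fin s → Submodule F H} {σ : H ≃ₐ[RatFunc k] H} (hσ : σ ∈ stL k L)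
    (x : EL k L) : σ x = x := x.2 ⟨σ, hσ⟩

/-- the number of embeddings whose line tuple has the type of `L` -/
theorem DGn.count (h : DrS F k H (∏ i, M i)) {L : Fin s → Submodule F H}
    (hL : LT (gX k H) M L) {Q : DV H} (hg : Q.ord (gX k H) < 0) (I : Finset (Fin s))
    (sg : (EL k L →ₐ[RatFunc k] H) → (H ≃ₐ[RatFunc k] H))
    (hsg : ∀ τ (x : EL k L), sg τ x = τ x) (S : Finset (EL k L →ₐ[RatFunc k] H))
    (hS : ∀ τ ∈ S, typ F (gX k H) Q M (fun i => DGn.img h (sg τ) (L i)) = I) :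
    S.card ≤ Nat.card F ^ dgM M I := by
  classical
  have hfd := h.fin
  have hgal := h.gal
  -- the target
  let β : I → Type := fun i =>
    {A : Submodule F H // IsLine F (gX k H) (M i) A ∧ A ≠ V0 F (gX k H) Q (M i)}
  have hβ : ∀ i : I, Nat.card (β i) = Nat.card F ^ (M i).natDegree := fun i =>
    DGn.card_line' hg (hL.monic i) (hL.irr i) (hL.one i) (hL.full i)
  have hβf : ∀ i : I, Finite (β i) := by
    intro i
    apply Nat.finite_of_card_ne_zero
    rw [hβ]
    exact pow_ne_zero _ Nat.card_pos.ne'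
  have hcard : Nat.card (∀ i : I, β i) = Nat.card F ^ dgM M I := by
    rw [Nat.card_pi, dgM, ← Finset.prod_pow_eq_pow_sum]
    rw [Finset.prod_congr rfl fun i _ => hβ i]
    exact Finset.prod_coe_sort I fun i => Nat.card F ^ (M i).natDegree
  have hmem : ∀ τ ∈ S, ∀ i, (DGn.img h (sg τ) (L i) ≠ V0 F (gX k H) Q (M i) ↔ i ∈ I) := by
    intro τ hτ i
    rw [← hS τ hτ, typ, Finset.mem_filter]
    exact ⟨fun h1 => ⟨Finset.mem_univ _, h1⟩, fun h1 => h1.2⟩
  let Φ : S → ∀ i : I, β i := fun τ i =>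
    ⟨DGn.img h (sg τ) (L i), (DGn.LT_img h (sg τ) hL).line i, (hmem τ τ.2 i).2 i.2⟩
  have hΦ : Function.Injective Φ := by
    intro τ τ' hττ
    have h1 : ∀ i, DGn.img h (sg τ) (L i) = DGn.img h (sg τ') (L i) := by
      intro i
      by_cases hi : i ∈ I
      · exact congrArg Subtype.val (congrFun hττ ⟨i, hi⟩)
      · have h2 := not_not.1 ((hmem τ τ.2 i).not.2 hi)
        have h3 := not_not.1 ((hmem τ' τ'.2 i).not.2 hi)
        rw [h2, h3]
    have h2 : (sg τ).trans (sg τ').symm ∈ stL k L := by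
      show ∀ i x, x ∈ L i ↔ (sg τ').symm (sg τ x) ∈ L i
      intro i x
      rw [DGn.mem_img h (sg τ) (L i) x, h1 i,
        DGn.mem_img h (sg τ') (L i) ((sg τ').symm (sg τ x)), AlgEquiv.apply_symm_apply]
    refine Subtype.ext (AlgHom.ext fun x => ?_)
    have h3 : (sg τ').symm (sg τ x) = x := DGn.fix_of_stL h2 x
    rw [← hsg, ← hsg, ← h3, AlgEquiv.apply_symm_apply]
    rw [h3]
  have h4 := Nat.card_le_card_of_injective Φ hΦ
  rw [hcard] at h4
  simpa using h4

/-- the local bound at infinity -/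
theorem DGn.inf_bound (h : DrS F k H (∏ i, M i)) {L : Fin s → Submodule F H}
    (hL : LT (gX k H) M L) {P : DV (EL k L)} (hP : Over P (Rat.inf k)) {Q : DV H}
    (hQ : Over Q P) {a : EL k L}
    (ha : ∀ b : EL k L, IntO (Rat.inf k) b →
      (Rat.inf k).G 0 (Algebra.trace (RatFunc k) (EL k L) (a * b))) {d : ℤ}
    (hd : ((Nat.card F : ℤ) - 1) * d =
      2 * (Nat.card F : ℤ) * ((Nat.card F : ℤ) ^ dgM M (typ F (gX k H) Q M L) - 1)) :
    P.G (-d) a := by
  classical
  have hfd := h.fin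
  have hgal := h.gal
  obtain ⟨R, -, hR⟩ := DGn.exists_zero h hL
  obtain ⟨I, hI⟩ : ∃ I, I = typ F (gX k H) Q M L := ⟨_, rfl⟩
  obtain ⟨y, hy, hall⟩ := DGn.loc h hL hR hP hQ
  obtain ⟨hPe, -⟩ := cusp_ef h hL hR hP hQ
  obtain ⟨e', he'⟩ := hQ.overE
  rw [← hI] at hPe hall hd
  obtain ⟨r, hrr⟩ : ∃ r : ℤ, r = (Nat.card F : ℤ) := ⟨_, rfl⟩
  have hr : 2 ≤ r := by
    rw [hrr]
    have : 1 < Nat.card F := Finite.one_lt_card
    exact_mod_cast this
  have hPg : P.ord (gX k (EL k L)) = - (r ^ dgM M I) := by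
    rw [hPe.2, Rat.inf_X, hrr]
    push_cast
    ring
  have hordg : Q.ord (gX k H) = - (e' * r ^ dgM M I) := by
    show Q.ord (algebraMap (EL k L) H (gX k (EL k L))) = _
    rw [he'.2, hPg]
    ring
  have hrD : (1 : ℤ) ≤ r ^ dgM M I := one_le_pow₀ (by linarith)
  have he0 : (1 : ℤ) ≤ e' := by exact_mod_cast he'.1
  have hg : Q.ord (gX k H) < 0 := by
    rw [hordg]
    nlinarith
  have hFT : Fintype (EL k L →ₐ[RatFunc k] H) := Fintype.ofFinite _
  choose sg hsg using fun τ : EL k L →ₐ[RatFunc k] H => DGn.exists_ext h τ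
  obtain ⟨ι, hι⟩ : ∃ ι : EL k L →ₐ[RatFunc k] H, ι = IsScalarTower.toAlgHom (RatFunc k) (EL k L) H :=
    ⟨_, rfl⟩
  have hιx : ∀ x : EL k L, ι x = x := fun x => by rw [hι]; rfl
  have hne : ∀ τ : EL k L →ₐ[RatFunc k] H, τ ≠ ι → sg τ ∉ stL k L := by
    intro τ hτ hmem
    refine hτ (AlgHom.ext fun x => ?_)
    rw [hιx, ← hsg]
    exact DGn.fix_of_stL hmem x
  have hval : ∀ τ : EL k L →ₐ[RatFunc k] H, τ ≠ ι →
      (y : H) - τ y ≠ 0 ∧ r ^ dgM M I * ((r - 1) * Q.ord ((y : H) - τ y)) =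
        if typ F (gX k H) Q M (fun i => DGn.img h (sg τ) (L i)) = I then
          2 * r * (e' * r ^ dgM M I) else 0 := by
    intro τ hτ
    obtain ⟨h0, h1, h2⟩ := hall (sg τ) _ (DGn.LT_img h (sg τ) hL) (DGn.actL_img h (sg τ) L)
      (DGn.img_ne h (hne τ hτ))
    rw [hsg] at h0 h1 h2
    refine ⟨h0, ?_⟩
    split_ifs with ht
    · rw [hrr, h2 ht, hordg, hrr]
      ring
    · rw [h1 ht]
      ring
  have h1 := lag (E := EL k L) (hQ.trans' hP) ha (fun _ => y) (fun _ => hy)
    (fun τ => Q.ord ((y : H) - τ y)) (fun τ hτ => by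
      rw [← hι] at hτ
      exact ⟨(hval τ hτ).1, le_rfl⟩)
  rw [← hι] at h1
  by_cases ha0 : a = 0
  · rw [ha0]
    exact DV.G_zero _
  have ha0' : algebraMap (EL k L) H a ≠ 0 := by rwa [Ne, map_eq_zero]
  have h2 := h1.le ha0'
  rw [he'.2] at h2
  -- the sum
  obtain ⟨S, hS⟩ : ∃ S : Finset (EL k L →ₐ[RatFunc k] H), S = Finset.univ.filter fun τ =>
      typ F (gX k H) Q M (fun i => DGn.img h (sg τ) (L i)) = I := ⟨_, rfl⟩
  have hScard : S.card ≤ Nat.card F ^ dgM M I := by
    refine DGn.count h hL hg I sg hsg S fun τ hτ => ?_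
    rw [hS, Finset.mem_filter] at hτ
    exact hτ.2
  have hιS : ι ∈ S := by
    rw [hS, Finset.mem_filter]
    refine ⟨Finset.mem_univ _, ?_⟩
    have h3 : sg ι ∈ stL k L := DGn.stL_of_fix h fun x => by rw [hsg, hιx]
    have h4 : (fun i => DGn.img h (sg ι) (L i)) = L := by
      funext i
      ext x
      obtain ⟨z, rfl⟩ := (sg ι).surjective x
      rw [← DGn.mem_img h (sg ι) (L i)]
      exact h3 i z
    rw [h4, hI]
  have hsum : r ^ dgM M I * ((r - 1) * ∑ τ ∈ Finset.univ.erase ι, Q.ord ((y : H) - τ y)) ≤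
      (r ^ dgM M I - 1) * (2 * r * (e' * r ^ dgM M I)) := by
    rw [Finset.mul_sum, Finset.mul_sum, Finset.sum_congr rfl fun τ hτ =>
      (hval τ (Finset.ne_of_mem_erase hτ)).2, ← Finset.sum_filter, Finset.sum_const, nsmul_eq_mul]
    refine mul_le_mul_of_nonneg_right ?_ (by positivity)
    have h3 : (Finset.univ.erase ι).filter (fun τ =>
        typ F (gX k H) Q M (fun i => DGn.img h (sg τ) (L i)) = I) = S.erase ι := by
      ext τ
      rw [hS, Finset.mem_filter, Finset.mem_erase, Finset.mem_erase, Finset.mem_filter, and_assoc]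
    rw [h3, Finset.card_erase_of_mem hιS]
    have h4 : 1 ≤ S.card := Finset.card_pos.2 ⟨ι, hιS⟩
    rw [Nat.cast_sub h4]
    have h5 : (S.card : ℤ) ≤ (Nat.card F : ℤ) ^ dgM M I := by exact_mod_cast hScard
    rw [← hrr] at h5
    push_cast
    linarith
  refine DV.G_of_le ?_
  rw [← hrr] at hd
  have h3 : r ^ dgM M I * ((r - 1) * (- (e' * P.ord a))) ≤
      (r ^ dgM M I - 1) * (2 * r * (e' * r ^ dgM M I)) := by
    refine le_trans ?_ hsum
    refine mul_le_mul_of_nonneg_left ?_ (by positivity)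
    refine mul_le_mul_of_nonneg_left ?_ (by linarith)
    linarith
  have h4 : (r ^ dgM M I * e' * (r - 1)) * (- P.ord a) ≤ (r ^ dgM M I * e' * (r - 1)) * d := by
    calc (r ^ dgM M I * e' * (r - 1)) * (- P.ord a)
        = r ^ dgM M I * ((r - 1) * (- (e' * P.ord a))) := by ring
      _ ≤ (r ^ dgM M I - 1) * (2 * r * (e' * r ^ dgM M I)) := h3
      _ = r ^ dgM M I * e' * (2 * r * (r ^ dgM M I - 1)) := by ring
      _ = (r ^ dgM M I * e' * (r - 1)) * d := by rw [← hd]; ring
  have h5 : 0 < r ^ dgM M I * e' * (r - 1) :=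
    mul_pos (mul_pos (by linarith) (by linarith)) (by linarith)
  have h6 := le_of_mul_le_mul_left h4 h5
  linarith

theorem dgen (h : DrS F k H (∏ i, M i)) {L : Fin s → Submodule F H} (hL : LT (gX k H) M L) :
    IsFF k (EL k L) ∧ ∃ G : ℕ, Cv k (EL k L) G ∧ (Nat.card F - 1) * G ≤ psiM M ∧
      ∃ T : Finset (DV (EL k L)), T.card = psiM M ∧ ∀ P ∈ T, P.Rat k := by
  classical
  have hfd := h.fin
  have hgal := h.gal
  have hEH : FiniteDimensional (EL k L) H := FiniteDimensional.right (RatFunc k) (EL k L) H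
  obtain ⟨R, -, hR⟩ := DGn.exists_zero h hL
  obtain ⟨hff, G, C⟩ := exists_cv (k := k) (E := EL k L) hR
  refine ⟨hff, G, C, ?_, DGn.pts h hL⟩
  obtain ⟨r, hrr⟩ : ∃ r : ℤ, r = (Nat.card F : ℤ) := ⟨_, rfl⟩
  have hr1 : 1 < Nat.card F := Finite.one_lt_card
  have hr : 2 ≤ r := by
    rw [hrr]
    exact_mod_cast hr1
  -- the numbers `d`
  have hdex : ∀ I : Finset (Fin s), ∃ d : ℤ, (r - 1) * d = 2 * r * (r ^ dgM M I - 1) := by
    intro I
    obtain ⟨c, hc⟩ := sub_one_dvd_pow_sub_one r (dgM M I)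
    refine ⟨2 * r * c, ?_⟩
    rw [hc]
    ring
  choose d hd using hdex
  have hd0 : ∀ I, 0 ≤ d I := by
    intro I
    by_contra hcon
    push Not at hcon
    have h1 : (1 : ℤ) ≤ r ^ dgM M I := one_le_pow₀ (by linarith)
    have h2 := hd I
    have h3 : (r - 1) * d I < 0 := mul_neg_of_pos_of_neg (by linarith) hcon
    have h4 : 0 ≤ 2 * r * (r ^ dgM M I - 1) := mul_nonneg (by linarith) (by linarith)
    linarith
  -- the places over infinity and their types
  choose Qc hQc using fun P : DV (EL k L) => exists_aboveH (K := RatFunc k) (H := H) P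
  obtain ⟨ty, hty⟩ : ∃ ty : DV (EL k L) → Finset (Fin s),
      ty = fun P => typ F (gX k H) (Qc P) M L := ⟨_, rfl⟩
  obtain ⟨S, hS⟩ : ∃ S : Finset (DV (EL k L)),
      S = (over_finite' (L := EL k L) (Rat.inf k)).toFinset := ⟨_, rfl⟩
  have hmemS : ∀ P, P ∈ S ↔ Over P (Rat.inf k) := by
    intro P
    rw [hS, Set.Finite.mem_toFinset]
    rfl
  have hinj : ∀ P ∈ S, ∀ P' ∈ S, ty P = ty P' → P = P' := by
    intro P hP P' hP' hPP
    rw [hty] at hPP
    exact cusp_unique h hL hR ((hmemS P).1 hP) ((hmemS P').1 hP') (hQc P) (hQc P') hPP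
  let D : DV (EL k L) →₀ ℤ := Finsupp.onFinset S (fun P => if P ∈ S then d (ty P) else 0)
    (fun P hP => by
      by_contra hcon
      exact hP (if_neg hcon))
  have hDS : ∀ P ∈ S, D P = d (ty P) := fun P hP => if_pos hP
  have hDn : ∀ P, P ∉ S → D P = 0 := fun P hP => if_neg hP
  have hdeg : RRD.degZ k D ≤ ∑ I : Finset (Fin s), d I := by
    have h1 : RRD.degZ k D = ∑ P ∈ S, d (ty P) := by
      rw [RRD.degZ, Finsupp.onFinset_sum _ (fun P => by ring)]
      refine Finset.sum_congr rfl fun P hP => ?_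
      have h2 : RRD.deg k P = 1 := (cusp_ef h hL hR ((hmemS P).1 hP) (hQc P)).2.deg_eq_one
      rw [if_pos hP, h2]
      push_cast
      ring
    rw [h1, ← Finset.sum_image (f := d) hinj]
    exact Finset.sum_le_sum_of_subset_of_nonneg (Finset.subset_univ _) fun I _ _ => hd0 I
  have hsum : (r - 1) * ∑ I : Finset (Fin s), d I = 2 * r * ((psiM (F := F) M : ℤ) - 2 ^ s) := by
    rw [Finset.mul_sum, Finset.sum_congr rfl fun I _ => hd I, ← Finset.mul_sum,
      Finset.sum_sub_distrib]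
    congr 2
    · rw [psiM, hrr]
      push_cast
      rw [Finset.prod_add_one, Finset.powerset_univ]
      refine Finset.sum_congr rfl fun I _ => ?_
      rw [dgM, Finset.prod_pow_eq_pow_sum]
    · simp
  have hfr : Module.finrank (RatFunc k) (EL k L) = psiM M := finrank_EL h hL hR
  have hmain := rhb (k := k) (E := EL k L) C hR D ?_
  · rw [hfr] at hmain
    have h1 : (r - 1) * (2 * (G : ℤ) + 2 * (psiM (F := F) M : ℤ)) ≤
        (r - 1) * (∑ I : Finset (Fin s), d I + 2) :=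
      mul_le_mul_of_nonneg_left (by linarith) (by linarith)
    rw [mul_add (r - 1) (∑ I : Finset (Fin s), d I), hsum] at h1
    have h2 : (1 : ℤ) ≤ 2 ^ s := one_le_pow₀ (by norm_num)
    have h3 : (((Nat.card F - 1) * G : ℕ) : ℤ) = (r - 1) * G := by
      rw [Nat.cast_mul, Nat.cast_sub hr1.le, hrr]
      norm_num
    have h4 : (((Nat.card F - 1) * G : ℕ) : ℤ) ≤ (psiM (F := F) M : ℤ) := by
      rw [h3]
      nlinarith
    exact_mod_cast h4
  · intro v a ha P hP
    by_cases hv : v = Rat.inf k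
    · rw [hv] at ha hP
      rw [hDS P ((hmemS P).2 hP)]
      refine DGn.inf_bound h hL hP (hQc P) ha ?_
      rw [← hrr, hd, hty]
    · have hPS : P ∉ S := fun h1 => hv (hP.unique ((hmemS P).1 h1))
      rw [hDn P hPS, neg_zero]
      have hQv : Over (Qc P) v := (hQc P).trans' hP
      exact ((hQc P).G_zero_iff a).1 (unram_trace (E := EL k L) hQv
        (fun σ hσ => drS_unit h hQv hv σ hσ) ha)

end

end Pool.Agent.FF
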