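import Pool.Agent.FD.AssemD
import Pool.Agent.FD.AssemDE
import Pool.Agent.FF.FinalLL

/-!
# Lower bounds for `L(q)` from log-dense families of curves
-/

set_option autoImplicit false

namespace FF

/-- **The arithmetic of the final step for log-dense families.** -/
theorem final_dens (E : ℕ → ℝ → Prop) (mono : ∀ G x y, y ≤ x → E G x → E G y)
    {lam s kap R β : ℝ} (hlam : 0 < lam) (hs : 0 < s) (hkap : 0 ≤ kap) (hR : 0 ≤ R) (hR1 : R ≤ 1)
    (hβ : 0 ≤ β) (hβ2 : β * (1 - R) ≤ 2)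
    (H : ∀ η ε C : ℝ, 0 < η → η < 1 → 0 < ε → ∃ m0 : ℝ, ∀ m : ℝ, m0 ≤ m → ∀ G : ℕ,
      (kap + R * (s * (1 - η)) + ε) * m ≤ ((G : ℝ) - 2 * 1 * m) * lam → (G : ℝ) ≤ C * m →
      E G (phiE lam (1, kap, s * (1 - η)) β m G - ε * m)) :
    ∀ ε : ℝ, 0 < ε → ∃ G0 : ℕ, ∀ G : ℕ, G0 ≤ G →
      E G ((s * (2 - β * (1 - R)) / (2 + (kap + R * s) / lam) - ε) * G) := by
  intro ε hε
  set c : ℝ := s * (2 - β * (1 - R)) / (2 + (kap + R * s) / lam) with hc
  set w : ℝ := 2 * lam + kap + R * s with hw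
  have hw0 : 0 < w := by positivity
  set θ : ℝ := lam / w with hθ
  have hθ0 : 0 < θ := by positivity
  have hθw : θ * w = lam := by
    rw [hθ]
    field_simp
  have hβ3 : 0 ≤ 2 - β * (1 - R) := by linarith
  have hcw : c = s * θ * (2 - β * (1 - R)) := by
    rw [hc, hθ, hw]
    field_simp
    ring
  have hc0 : 0 ≤ c := by
    rw [hcw]
    positivity
  -- `η` and `ε'`
  obtain ⟨η, hη0, hη1, hηc⟩ : ∃ η : ℝ, 0 < η ∧ η < 1 ∧ c - ε / 2 ≤ (1 - η) ^ 2 * c := by
    refine ⟨min (1 / 2) (ε / (4 * (c + 1))), lt_min (by norm_num) (by positivity),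
      lt_of_le_of_lt (min_le_left _ _) (by norm_num), ?_⟩
    set η := min (1 / 2 : ℝ) (ε / (4 * (c + 1))) with hη
    have h1 : η ≤ ε / (4 * (c + 1)) := min_le_right _ _
    have h0 : 0 < η := lt_min (by norm_num) (by positivity)
    have h2 : η * c ≤ ε / 4 := by
      calc η * c ≤ ε / (4 * (c + 1)) * c := mul_le_mul_of_nonneg_right h1 hc0
        _ = ε / 4 * (c / (c + 1)) := by
            have : c + 1 ≠ 0 := by positivity
            field_simp
        _ ≤ ε / 4 * 1 := by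
            refine mul_le_mul_of_nonneg_left ?_ (by positivity)
            rw [div_le_one (by positivity)]
            linarith
        _ = _ := mul_one _
    nlinarith [mul_nonneg (sq_nonneg η) hc0]
  have h1η : 0 < 1 - η := by linarith
  obtain ⟨ε', hε0, hε1, hε2⟩ : ∃ ε' : ℝ, 0 < ε' ∧ ε' ≤ η * w ∧ ε' * ((1 - η) * θ) ≤ ε / 2 := by
    refine ⟨min (η * w) (ε / (2 * ((1 - η) * θ))), lt_min (by positivity) (by positivity),
      min_le_left _ _, ?_⟩
    calc min (η * w) (ε / (2 * ((1 - η) * θ))) * ((1 - η) * θ) ≤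
          ε / (2 * ((1 - η) * θ)) * ((1 - η) * θ) :=
          mul_le_mul_of_nonneg_right (min_le_right _ _) (by positivity)
      _ = ε / 2 := by field_simp
  obtain ⟨m0, hm0⟩ := H η ε' (1 / ((1 - η) * θ)) hη0 hη1 hε0
  obtain ⟨G0, hG0⟩ := exists_nat_ge (m0 / ((1 - η) * θ))
  refine ⟨G0, fun G hG => ?_⟩
  have hGR : (G0 : ℝ) ≤ G := by exact_mod_cast hG
  have hGn : (0 : ℝ) ≤ G := Nat.cast_nonneg _
  set m : ℝ := (1 - η) * θ * G with hm
  have hm0' : m0 ≤ m := by
    rw [div_le_iff₀ (by positivity)] at hG0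
    rw [hm]
    have := mul_le_mul_of_nonneg_right hGR (by positivity : 0 ≤ (1 - η) * θ)
    linarith
  have hmn : 0 ≤ m := by positivity
  have hmw : m * w = (1 - η) * lam * G := by
    rw [hm]
    calc (1 - η) * θ * G * w = (1 - η) * (θ * w) * G := by ring
      _ = _ := by rw [hθw]
  have hmlt : m ≤ θ * G := by
    rw [hm]
    have : 0 ≤ η * (θ * G) := by positivity
    nlinarith
  have hbits : ((G : ℝ) - 2 * 1 * m) * lam - kap * m = η * lam * G + R * s * m := by
    have : m * w = 2 * m * lam + kap * m + R * s * m := by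
      rw [hw]
      ring
    linarith
  have hεm : ε' * m ≤ η * lam * G := by
    calc ε' * m ≤ η * w * (θ * G) := mul_le_mul hε1 hmlt hmn (by positivity)
      _ = η * (θ * w) * G := by ring
      _ = _ := by rw [hθw]
  have hRs : R * (s * (1 - η)) * m ≤ R * s * m := by
    have h1 : 0 ≤ R * s * m := by positivity
    have h2 : 0 ≤ η * (R * s * m) := by positivity
    nlinarith
  have key := hm0 m hm0' G (by
    have : (kap + R * (s * (1 - η)) + ε') * m = kap * m + R * (s * (1 - η)) * m + ε' * m := by ring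
    linarith) (by
    rw [hm]
    field_simp
    exact le_rfl)
  refine mono _ _ _ ?_ key
  unfold phiE
  simp only
  set s' : ℝ := s * (1 - η) with hs'
  have hs'0 : 0 < s' := by positivity
  have h1 : (c - ε / 2) * G ≤ s' * m * (2 - β * (1 - R)) := by
    calc (c - ε / 2) * G ≤ (1 - η) ^ 2 * c * G := mul_le_mul_of_nonneg_right hηc hGn
      _ = s' * m * (2 - β * (1 - R)) := by
          rw [hcw, hs', hm]
          ring
  have h2 : ε' * m ≤ ε / 2 * G := by
    calc ε' * m = ε' * ((1 - η) * θ) * G := by rw [hm]; ring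
      _ ≤ _ := mul_le_mul_of_nonneg_right hε2 hGn
  have h3 : s' * m * (2 - β * (1 - R)) ≤ min (2 * s' * m - β * (s' * m -
      (((G : ℝ) - 2 * 1 * m) * lam - kap * m))) (2 * s' * m) := by
    rw [hbits, le_min_iff]
    have h4 : R * (s' * m) ≤ η * lam * G + R * s * m := by
      have : 0 ≤ η * lam * G := by positivity
      have h5 : R * (s' * m) = R * (s * (1 - η)) * m := by
        rw [hs']
        ring
      linarith
    constructor
    · have h5 : β * (s' * m - (η * lam * G + R * s * m)) ≤ β * (s' * m - R * (s' * m)) :=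
        mul_le_mul_of_nonneg_left (by linarith) hβ
      have h6 : s' * m * (2 - β * (1 - R)) = 2 * s' * m - β * (s' * m - R * (s' * m)) := by ring
      linarith
    · have h5 : 0 ≤ β * (1 - R) := mul_nonneg hβ (by linarith)
      have h6 : 0 ≤ s' * m * (β * (1 - R)) := by positivity
      have h7 : s' * m * (2 - β * (1 - R)) = 2 * s' * m - s' * m * (β * (1 - R)) := by ring
      linarith
  have h4 : (c - ε) * (G : ℝ) = (c - ε / 2) * G - ε / 2 * G := by ring
  linarith

end FF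

namespace Pool.Agent.FF

/-- **The bound from a log-dense family and a bound for codes**, odd characteristic. -/
theorem LL_denseD {k : Type} [Field k] [Finite k] (h2 : (2 : k) ≠ 0) {lam : ℝ} (hlam0 : 0 < lam)
    (hlam : (2 : ℝ) ^ lam ≤ Nat.card k) {s : ℝ} (hs : 0 < s) {A : ℕ}
    (H : ∀ η : ℝ, 0 < η → η < 1 → ∃ m0 : ℝ, ∀ m : ℝ, m0 ≤ m → CurveD k A (1, 2, s * (1 - η)) m)
    {B κ : ℕ} {u : ℝ} (hb : BlkF B κ u) (hκ : κ < B) (hu : 0 ≤ u) (hu2 : u ≤ B) {c : ℝ}
    (hc : c ≤ s * (2 - 2 * u / B) / (2 + (2 + κ / B * s) / lam)) :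
    ENNReal.ofReal c ≤ LL k := by
  refine (ENNReal.ofReal_le_ofReal hc).trans (ofReal_le_LL ?_)
  have hB : (0 : ℝ) < B := by exact_mod_cast (by omega : 0 < B)
  have hBκ : (0 : ℝ) < (B : ℝ) - κ := by
    have : ((κ + 1 : ℕ) : ℝ) ≤ (B : ℕ) := by exact_mod_cast hκ
    push_cast at this
    linarith
  have e : 2 * u / ((B : ℝ) - κ) * (1 - (κ : ℝ) / B) = 2 * u / B := by
    field_simp
  have key := _root_.FF.final_dens (EC k) (EC_mono k) (lam := lam) (s := s) (kap := 2)
    (R := (κ : ℝ) / B) (β := 2 * u / ((B : ℝ) - κ)) hlam0 hs (by norm_num) (by positivity)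
    (by rw [div_le_one hB]; linarith) (by positivity)
    (by rw [e, div_le_iff₀ hB]; linarith)
    (fun η ε C h0 h1 hε => by
      obtain ⟨m1, hm1⟩ := H η h0 h1
      have h3 : 0 ≤ s * (1 - η) := mul_nonneg hs.le (by linarith)
      obtain ⟨m2, hm2⟩ := curveD_one h2 hlam0 hlam (p := (1, 2, s * (1 - η))) (by norm_num)
        (by norm_num) h3 hκ hu hb A C hε
      exact ⟨max m1 m2, fun m hm => hm2 m ((le_max_right _ _).trans hm)
        (hm1 m ((le_max_left _ _).trans hm))⟩)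
  rw [e] at key
  exact key

/-- **The bound from a log-dense family and a bound for codes**, characteristic two. -/
theorem LL_denseE {k : Type} [Field k] [Finite k] {e : ℕ} (he : 1 ≤ e) (hk : Nat.card k = 2 ^ e)
    {s : ℝ} (hs : 0 < s) {A : ℕ}
    (H : ∀ η : ℝ, 0 < η → η < 1 → ∃ m0 : ℝ, ∀ m : ℝ, m0 ≤ m → CurveE k A (1, 1, s * (1 - η)) m)
    {B κ : ℕ} {u : ℝ} (hb : Blk B κ u) (hκ : κ < B) (hu : 0 ≤ u) (hu2 : u ≤ B) {c : ℝ}
    (hc : c ≤ s * (2 - 2 * u / B) / (2 + (1 + κ / B * s) / e)) :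
    ENNReal.ofReal c ≤ LL k := by
  refine (ENNReal.ofReal_le_ofReal hc).trans (ofReal_le_LL ?_)
  have hB : (0 : ℝ) < B := by exact_mod_cast (by omega : 0 < B)
  have hBκ : (0 : ℝ) < (B : ℝ) - κ := by
    have : ((κ + 1 : ℕ) : ℝ) ≤ (B : ℕ) := by exact_mod_cast hκ
    push_cast at this
    linarith
  have e1 : 2 * u / ((B : ℝ) - κ) * (1 - (κ : ℝ) / B) = 2 * u / B := by
    field_simp
  have he0 : (0 : ℝ) < e := by exact_mod_cast he
  have key := _root_.FF.final_dens (EC k) (EC_mono k) (lam := (e : ℝ)) (s := s) (kap := 1)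
    (R := (κ : ℝ) / B) (β := 2 * u / ((B : ℝ) - κ)) he0 hs (by norm_num) (by positivity)
    (by rw [div_le_one hB]; linarith) (by positivity)
    (by rw [e1, div_le_iff₀ hB]; linarith)
    (fun η ε C h0 h1 hε => by
      obtain ⟨m1, hm1⟩ := H η h0 h1
      have h3 : 0 ≤ s * (1 - η) := mul_nonneg hs.le (by linarith)
      obtain ⟨m2, hm2⟩ := curveE_one (p := (1, 1, s * (1 - η))) he (by norm_num)
        (by norm_num) h3 hκ hu hb hk A C hε
      exact ⟨max m1 m2, fun m hm => hm2 m ((le_max_right _ _).trans hm)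
        (hm1 m ((le_max_left _ _).trans hm))⟩)
  rw [e1] at key
  exact key

end Pool.Agent.FF
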