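import Pool.Agent.FD.Base
import Pool.Agent.FY.RRx
import Mathlib.Analysis.Fourier.FiniteAbelian.PontryaginDuality
import Mathlib.Analysis.SpecialFunctions.Complex.CircleAddChar

/-! # X4: differentials with values in `ZMod p` (31) -/

set_option autoImplicit false
set_option linter.unusedSectionVars false

namespace Pool.Agent.FF

open Classical in
/-- the repartition with the value `a` at `P`, `0` elsewhere -/
noncomputable def sgl {E : Type*} [Field E] (P : DV E) (a : E) : Adl E :=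
  ⟨Pi.single P a, by
    refine Set.Finite.subset (Set.finite_singleton P) fun v hv => ?_
    by_contra hne
    apply hv
    have hne' : v ≠ P := hne
    show v.G 0 ((Pi.single P a : DV E → E) v)
    rw [Pi.single_eq_of_ne hne']
    exact DV.G_zero _⟩

namespace Dif

open RRD

variable {k E : Type*} [Field k] [Finite k] [Field E] [Algebra k E] {G : ℕ}

theorem mul_mem (C : Cv k E G) (z : E) {r : DV E → E} (hr : r ∈ Adl E) :
    (fun P => z * r P) ∈ Adl E := by
  change Set.Finite _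
  refine ((C.poles z).union hr).subset fun P hP => ?_
  by_contra hc
  rw [Set.mem_union, not_or] at hc
  refine hP ?_
  have := (not_not.1 hc.1).mul (not_not.1 hc.2)
  rwa [add_zero] at this

/-- multiplication by a function -/
def mulA (C : Cv k E G) (z : E) : ↥(Adl E) →+ ↥(Adl E) where
  toFun r := ⟨fun P => z * r.1 P, mul_mem C z r.2⟩
  map_zero' := Subtype.ext (funext fun P => by simp)
  map_add' r s := Subtype.ext (funext fun P => by simp [mul_add])

theorem mulA_apply (C : Cv k E G) (z : E) (r : ↥(Adl E)) (P : DV E) :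
    (mulA C z r).1 P = z * r.1 P := rfl

/-- the characters of the repartitions of level `D` -/
def Lev (D : DV E → ℤ) (w : AddChar ↥(Adl E) ℂ) : Prop :=
  ∀ r : Adl E, (r : DV E → E) ∈ AInt D ⊔ Prin E → w r = 1

theorem Lev.anti {D D' : DV E → ℤ} {w : AddChar ↥(Adl E) ℂ} (hw : Lev D w)
    (h : ∀ P, D P ≤ D' P) : Lev D' w := fun r hr =>
  hw r (sup_le_sup_right (AInt_anti h) (Prin E) hr)

theorem card_Lev (C : Cv k E G) (D : DV E →₀ ℤ) :
    Nat.card {w : AddChar ↥(Adl E) ℂ // Lev (D : DV E → ℤ) w} = RRD.hCard (D : DV E → ℤ) := by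
  classical
  set N : AddSubgroup ↥(Adl E) := (AInt (D : DV E → ℤ) ⊔ Prin E).addSubgroupOf (Adl E) with hN
  have h1 : Nat.card (↥(Adl E) ⧸ N) = RRD.hCard (D : DV E → ℤ) := rfl
  have hfin : Finite (↥(Adl E) ⧸ N) :=
    Nat.finite_of_card_ne_zero (by rw [h1]; exact (cnt C D).hfin)
  have := Fintype.ofFinite (↥(Adl E) ⧸ N)
  have h2 : Nat.card (AddChar (↥(Adl E) ⧸ N) ℂ) = RRD.hCard (D : DV E → ℤ) := by
    rw [← h1, Nat.card_eq_fintype_card, Nat.card_eq_fintype_card, AddChar.card_eq]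
  rw [← h2]
  let f : AddChar (↥(Adl E) ⧸ N) ℂ → {w : AddChar ↥(Adl E) ℂ // Lev (D : DV E → ℤ) w} :=
    fun ψ => ⟨ψ.compAddMonoidHom (QuotientAddGroup.mk' N), fun r hr => by
      have h3 : QuotientAddGroup.mk' N r = 0 := by
        rw [QuotientAddGroup.mk'_apply, QuotientAddGroup.eq_zero_iff]
        exact hr
      rw [AddChar.compAddMonoidHom_apply, h3, AddChar.map_zero_eq_one]⟩
  refine (Nat.card_congr (Equiv.ofBijective f ⟨fun ψ ψ' h => ?_, fun w => ?_⟩)).symm
  · have h3 := congrArg Subtype.val h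
    refine DFunLike.ext _ _ fun x => ?_
    obtain ⟨r, rfl⟩ := QuotientAddGroup.mk'_surjective N x
    exact DFunLike.congr_fun h3 r
  · obtain ⟨w, hw⟩ := w
    let φ : ↥(Adl E) →+ Additive ℂ := w.toAddMonoidHom
    have hφ : N ≤ φ.ker := fun r hr => by
      rw [AddMonoidHom.mem_ker]
      exact hw r hr
    refine ⟨AddChar.toAddMonoidHomEquiv.symm (QuotientAddGroup.lift N φ hφ), Subtype.ext ?_⟩
    refine DFunLike.ext _ _ fun r => ?_
    rfl

/-- multiplication of a character by a function -/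
def mulC (C : Cv k E G) (z : E) (w : AddChar ↥(Adl E) ℂ) : AddChar ↥(Adl E) ℂ :=
  w.compAddMonoidHom (mulA C z)

theorem mulC_apply (C : Cv k E G) (z : E) (w : AddChar ↥(Adl E) ℂ) (r : ↥(Adl E)) :
    mulC C z w r = w (mulA C z r) := rfl

theorem mulA_mulA (C : Cv k E G) (x y : E) (r : ↥(Adl E)) :
    mulA C x (mulA C y r) = mulA C (x * y) r :=
  Subtype.ext (funext fun P => by simp only [mulA_apply, mul_assoc])

theorem mulA_one (C : Cv k E G) (r : ↥(Adl E)) : mulA C 1 r = r :=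
  Subtype.ext (funext fun P => by rw [mulA_apply, one_mul])

theorem mulA_add (C : Cv k E G) (x y : E) (r : ↥(Adl E)) :
    mulA C (x + y) r = mulA C x r + mulA C y r :=
  Subtype.ext (funext fun _ => add_mul _ _ _)

theorem Lev.mul (C : Cv k E G) {D D' D'' : DV E → ℤ} {w : AddChar ↥(Adl E) ℂ} (hw : Lev D w)
    {z : E} (hz : z ∈ LInt D') (h : ∀ P, D P ≤ D' P + D'' P) : Lev D'' (mulC C z w) := by
  intro r hr
  rw [mulC_apply]
  refine hw _ ?_
  obtain ⟨s, hs, t, ht, hst⟩ := AddSubgroup.mem_sup.1 hr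
  refine AddSubgroup.mem_sup.2 ⟨fun P => z * s P, fun P => ((hz P).mul (hs P)).mono (h P),
    fun P => z * t P, ?_, ?_⟩
  · obtain ⟨a, ha⟩ := ht
    exact ⟨z * a, fun P => by
      change z * t P = z * a
      rw [ha P]⟩
  · funext P
    change z * s P + z * t P = z * r.1 P
    rw [← mul_add]
    exact congrArg (z * ·) (congrFun hst P)

theorem mulC_zero (C : Cv k E G) (w : AddChar ↥(Adl E) ℂ) : mulC C 0 w = 1 := by
  refine DFunLike.ext _ _ fun r => ?_
  have h : mulA C 0 r = 0 := Subtype.ext (funext fun P => zero_mul _)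
  rw [mulC_apply, h, AddChar.map_zero_eq_one, AddChar.one_apply]

theorem char_ne_zero {A : Type*} [AddGroup A] (w : AddChar A ℂ) (a : A) : w a ≠ 0 := fun h => by
  have h5 := AddChar.map_add_eq_mul w a (-a)
  rw [add_neg_cancel, AddChar.map_zero_eq_one, h, zero_mul] at h5
  exact one_ne_zero h5

theorem eq_one_of_mulC (C : Cv k E G) {z : E} (hz : z ≠ 0) {w : AddChar ↥(Adl E) ℂ}
    (h : mulC C z w = 1) : w = 1 := by
  refine DFunLike.ext _ _ fun r => ?_
  have h1 := DFunLike.congr_fun h (mulA C z⁻¹ r)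
  rwa [mulC_apply, mulA_mulA, mul_inv_cancel₀ hz, mulA_one, AddChar.one_apply] at h1

/-- two characters of finite level are proportional -/
theorem dep (C : Cv k E G) {w w' : AddChar ↥(Adl E) ℂ} (D : DV E →₀ ℤ)
    (hw : Lev (D : DV E → ℤ) w) (hw' : Lev (D : DV E → ℤ) w') (h1' : w' ≠ 1)
    (R : DV E) : ∃ y : E, w = mulC C y w' := by
  classical
  by_contra hno
  have hno' : ∀ x x' : E, mulC C x w = mulC C x' w' → x = 0 ∧ x' = 0 := by
    intro x x' h
    have hx : x = 0 := by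
      by_contra hx
      refine hno ⟨x' * x⁻¹, DFunLike.ext _ _ fun r => ?_⟩
      have h2 := DFunLike.congr_fun h (mulA C x⁻¹ r)
      rw [mulC_apply, mulC_apply, mulA_mulA, mulA_mulA, mul_inv_cancel₀ hx, mulA_one] at h2
      rw [h2, mulC_apply]
    refine ⟨hx, ?_⟩
    by_contra hx'
    rw [hx, mulC_zero] at h
    exact h1' (eq_one_of_mulC C hx' h.symm)
  have hq : 1 < Nat.card k := Finite.one_lt_card
  have hq0 : (Nat.card k : ℚ) ≠ 0 := q_ne_zero
  have hqp : (0 : ℚ) < Nat.card k := by exact_mod_cast Nat.card_pos (α := k)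
  have hd := (C.res R).1
  obtain ⟨d, hd'⟩ : ∃ d : ℕ, d = R.deg (Nat.card k) := ⟨_, rfl⟩
  obtain ⟨M, hM⟩ : ∃ M : ℕ, M = Nat.card (LInt (D : DV E → ℤ)) := ⟨_, rfl⟩
  obtain ⟨n, hn⟩ := pow_unbounded_of_one_lt
    ((M : ℚ) * (Nat.card k : ℚ) ^ (3 * (G : ℤ) - 3 + degZ k D))
    (show (1 : ℚ) < Nat.card k by exact_mod_cast hq)
  set A : DV E →₀ ℤ := Finsupp.single R (-n : ℤ) with hA
  set B : DV E →₀ ℤ := D + Finsupp.single R (n : ℤ) with hB
  have hAB : ∀ P, D P ≤ A P + B P := by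
    intro P
    rw [hA, hB, Finsupp.add_apply, Finsupp.single_apply, Finsupp.single_apply]
    split_ifs <;> omega
  have hcA := cnt C A
  have hcB := cnt C B
  -- the map
  let f : LInt (A : DV E → ℤ) × LInt (A : DV E → ℤ) →
      {w : AddChar ↥(Adl E) ℂ // Lev (B : DV E → ℤ) w} := fun x =>
    ⟨mulC C x.1.1 w * (mulC C x.2.1 w')⁻¹, fun r hr => by
      rw [AddChar.mul_apply, AddChar.inv_apply]
      have h2 := hw.mul C x.1.2 hAB r hr
      have h3 := hw'.mul C x.2.2 hAB (-r) (neg_mem hr)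
      rw [h2, h3, mul_one]⟩
  have hf : Function.Injective f := by
    intro x y hxy
    have h2 := congrArg Subtype.val hxy
    have h3 : mulC C (x.1.1 - y.1.1) w = mulC C (x.2.1 - y.2.1) w' := by
      refine DFunLike.ext _ _ fun r => ?_
      have h4 := DFunLike.congr_fun h2 r
      change (mulC C x.1.1 w * (mulC C x.2.1 w')⁻¹) r = (mulC C y.1.1 w * (mulC C y.2.1 w')⁻¹) r
        at h4
      rw [AddChar.mul_apply, AddChar.mul_apply, AddChar.inv_apply, AddChar.inv_apply] at h4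
      have e1 : mulC C x.1.1 w r = mulC C (x.1.1 - y.1.1) w r * mulC C y.1.1 w r := by
        rw [mulC_apply, mulC_apply, mulC_apply, ← AddChar.map_add_eq_mul, ← mulA_add,
          sub_add_cancel]
      have e2 : mulC C x.2.1 w' r = mulC C (x.2.1 - y.2.1) w' r * mulC C y.2.1 w' r := by
        rw [mulC_apply, mulC_apply, mulC_apply, ← AddChar.map_add_eq_mul, ← mulA_add,
          sub_add_cancel]
      have n1 := char_ne_zero (mulC C y.1.1 w) r
      have n2 := char_ne_zero (mulC C y.2.1 w') r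
      have n3 := char_ne_zero (mulC C x.2.1 w') r
      have i1 : ∀ u : AddChar ↥(Adl E) ℂ, u (-r) = (u r)⁻¹ := fun u =>
        eq_inv_of_mul_eq_one_left (by
          rw [← AddChar.map_add_eq_mul, neg_add_cancel, AddChar.map_zero_eq_one])
      rw [i1, i1, ← div_eq_mul_inv, ← div_eq_mul_inv, div_eq_div_iff n3 n2, e1, e2] at h4
      have h5 : mulC C (x.1.1 - y.1.1) w r * (mulC C y.1.1 w r * mulC C y.2.1 w' r) =
          mulC C (x.2.1 - y.2.1) w' r * (mulC C y.1.1 w r * mulC C y.2.1 w' r) := by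
        linear_combination h4
      exact mul_right_cancel₀ (mul_ne_zero n1 n2) h5
    obtain ⟨h4, h5⟩ := hno' _ _ h3
    exact Prod.ext (Subtype.ext (sub_eq_zero.1 h4)) (Subtype.ext (sub_eq_zero.1 h5))
  have hfinB : Finite {w : AddChar ↥(Adl E) ℂ // Lev (B : DV E → ℤ) w} :=
    Nat.finite_of_card_ne_zero (by rw [card_Lev C B]; exact hcB.hfin)
  have hcard := Nat.card_le_card_of_injective f hf
  rw [Nat.card_prod, card_Lev C B] at hcard
  -- sizes
  have hle : Nat.card (LInt (B : DV E → ℤ)) ≤ M := by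
    rw [hM]
    have hfD : Finite (LInt (D : DV E → ℤ)) := Nat.finite_of_card_ne_zero (cnt C D).fin
    have hBD : ∀ P, (D : DV E → ℤ) P ≤ (B : DV E → ℤ) P := fun P => by
      rw [hB, Finsupp.add_apply, Finsupp.single_apply]
      split_ifs <;> omega
    exact Nat.card_le_card_of_injective (AddSubgroup.inclusion (LInt_anti hBD))
      (AddSubgroup.inclusion_injective _)
  have hdA : degZ k A = -(n * d : ℤ) := by rw [hA, degZ_single, hd']; ring
  have hdB : degZ k B = degZ k D + n * d := by rw [hB, degZ_add, degZ_single, hd']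
  have e1 : (Nat.card k : ℚ) ^ (1 - (G : ℤ) + n * d) ≤ Nat.card (LInt (A : DV E → ℤ)) := by
    rw [hcA.eq, hdA, sub_neg_eq_add]
    have : (1 : ℚ) ≤ RRD.hCard (A : DV E → ℤ) := by exact_mod_cast Nat.one_le_iff_ne_zero.2 hcA.hfin
    exact le_mul_of_one_le_right (zpow_nonneg hqp.le _) this
  have e2 : (RRD.hCard (B : DV E → ℤ) : ℚ) ≤
      M * (Nat.card k : ℚ) ^ ((G : ℤ) - 1 + degZ k D + n * d) := by
    have h2 := hcB.eq
    rw [hdB] at h2
    have h3 : (RRD.hCard (B : DV E → ℤ) : ℚ) = (Nat.card (LInt (B : DV E → ℤ)) : ℚ) *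
        (Nat.card k : ℚ) ^ ((G : ℤ) - 1 + degZ k D + n * d) := by
      rw [h2, mul_right_comm, ← zpow_add₀ hq0]
      have : 1 - (G : ℤ) - (degZ k D + n * d) + ((G : ℤ) - 1 + degZ k D + n * d) = 0 := by ring
      rw [this, zpow_zero, one_mul]
    rw [h3]
    have h4 : (Nat.card (LInt (B : DV E → ℤ)) : ℚ) ≤ M := by exact_mod_cast hle
    exact mul_le_mul_of_nonneg_right h4 (zpow_nonneg hqp.le _)
  have e3 : (Nat.card (LInt (A : DV E → ℤ)) : ℚ) * Nat.card (LInt (A : DV E → ℤ)) ≤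
      RRD.hCard (B : DV E → ℤ) := by exact_mod_cast hcard
  have e4 : (Nat.card k : ℚ) ^ (1 - (G : ℤ) + n * d) * (Nat.card k : ℚ) ^ (1 - (G : ℤ) + n * d) ≤
      M * (Nat.card k : ℚ) ^ ((G : ℤ) - 1 + degZ k D + n * d) :=
    (mul_le_mul e1 e1 (zpow_nonneg hqp.le _) (by positivity)).trans (e3.trans e2)
  have e5 : (Nat.card k : ℚ) ^ (n : ℕ) ≤ M * (Nat.card k : ℚ) ^ (3 * (G : ℤ) - 3 + degZ k D) := by
    have h2 : (0 : ℚ) < (Nat.card k : ℚ) ^ (2 - 2 * (G : ℤ) + n * d) := zpow_pos hqp _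
    refine le_of_mul_le_mul_right ?_ h2
    have h3 : (n : ℤ) ≤ n * d := by
      have : (1 : ℤ) ≤ d := by rw [hd']; exact_mod_cast hd
      nlinarith
    calc (Nat.card k : ℚ) ^ (n : ℕ) * (Nat.card k : ℚ) ^ (2 - 2 * (G : ℤ) + n * d)
        ≤ (Nat.card k : ℚ) ^ ((n : ℤ) * d) * (Nat.card k : ℚ) ^ (2 - 2 * (G : ℤ) + n * d) := by
          refine mul_le_mul_of_nonneg_right ?_ h2.le
          rw [← zpow_natCast]
          exact zpow_le_zpow_right₀ (by exact_mod_cast hq.le) h3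
      _ = (Nat.card k : ℚ) ^ (1 - (G : ℤ) + n * d) * (Nat.card k : ℚ) ^ (1 - (G : ℤ) + n * d) := by
          rw [← zpow_add₀ hq0, ← zpow_add₀ hq0]
          congr 1
          ring
      _ ≤ M * (Nat.card k : ℚ) ^ ((G : ℤ) - 1 + degZ k D + n * d) := e4
      _ = M * (Nat.card k : ℚ) ^ (3 * (G : ℤ) - 3 + degZ k D) *
            (Nat.card k : ℚ) ^ (2 - 2 * (G : ℤ) + n * d) := by
          rw [mul_assoc, ← zpow_add₀ hq0]
          congr 2
          ring
  exact absurd hn (not_lt.2 e5)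

end Dif

open RRD Dif in
/-- the degree of a differential is at most the degree of an upper bound of its divisor -/
theorem diff_bound {k E : Type*} [Field k] [Finite k] [Field E] [Algebra k E] {p : ℕ}
    [Fact p.Prime] [CharP k p] {G : ℕ} (C : Cv k E G) {R : DV E} (hR : R.Rat k)
    (om : Adl E →+ ZMod p) (h0 : om ≠ 0)
    (hP : ∀ r : Adl E, (r : DV E → E) ∈ Prin E → om r = 0) (D0 : DV E →₀ ℤ)
    (hD : ∀ r : Adl E, (r : DV E → E) ∈ RRD.AInt (D0 : DV E → ℤ) → om r = 0) (W : DV E →₀ ℤ)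
    (hW : ∀ P : DV E, ∃ a : E, P.G (- W P - 1) a ∧ om (sgl P a) ≠ 0) :
    2 * (G : ℤ) ≤ RRD.degZ k W + 2 := by
  classical
  have : NeZero p := ⟨(Fact.out : p.Prime).ne_zero⟩
  let om' : AddChar ↥(Adl E) ℂ := (ZMod.stdAddChar (N := p)).compAddMonoidHom om
  have hst : ∀ c : ZMod p, ZMod.stdAddChar c = 1 → c = 0 := fun c hc =>
    ZMod.injective_stdAddChar (by rw [hc, AddChar.map_zero_eq_one])
  have ho : ∀ r : Adl E, om' r = 1 ↔ om r = 0 := fun r =>
    ⟨fun h => hst _ h, fun h => by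
      change ZMod.stdAddChar (om r) = 1
      rw [h, AddChar.map_zero_eq_one]⟩
  have hL0 : Lev (D0 : DV E → ℤ) om' := by
    intro r hr
    obtain ⟨s, hs, t, ht, hst⟩ := AddSubgroup.mem_sup.1 hr
    have hs' : s ∈ Adl E := AInt_le D0 hs
    have ht' : t ∈ Adl E := Prin_le C ht
    have e : r = ⟨s, hs'⟩ + ⟨t, ht'⟩ := Subtype.ext hst.symm
    rw [ho, e, map_add, hD ⟨s, hs'⟩ hs, hP ⟨t, ht'⟩ ht, add_zero]
  have hne : om' ≠ 1 := by
    intro h
    refine h0 (DFunLike.ext _ _ fun r => ?_)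
    exact (ho r).1 (DFunLike.congr_fun h r)
  -- every character of level `D` is a multiple of `om'`
  have key : ∀ (D : DV E →₀ ℤ) (w : AddChar ↥(Adl E) ℂ), Lev (D : DV E → ℤ) w →
      ∃ y : E, w = mulC C y om' ∧ ∀ P : DV E, P.G (- W P - D P) y := by
    intro D w hw
    obtain ⟨y, hy⟩ : ∃ y : E, w = mulC C y om' := by
      have hs1 : ∀ P, D P ≤ (D ⊔ D0) P := fun P => by
        rw [Finsupp.sup_apply]; exact le_sup_left
      have hs2 : ∀ P, D0 P ≤ (D ⊔ D0) P := fun P => by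
        rw [Finsupp.sup_apply]; exact le_sup_right
      exact dep C (D ⊔ D0) (hw.anti hs1) (hL0.anti hs2) hne R
    refine ⟨y, hy, fun P => ?_⟩
    by_cases hy0 : y = 0
    · rw [hy0]; exact DV.G_zero _
    refine DV.G_of_le ?_
    by_contra hlt
    push Not at hlt
    obtain ⟨a, ha, hoa⟩ := hW P
    refine hoa ((ho _).1 ?_)
    have e : sgl P a = mulA C y (sgl P (y⁻¹ * a)) := by
      refine Subtype.ext (funext fun Q => ?_)
      rw [mulA_apply]
      change (Pi.single P a : DV E → E) Q = y * (Pi.single P (y⁻¹ * a) : DV E → E) Q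
      by_cases hQ : Q = P
      · subst hQ
        rw [Pi.single_eq_same, Pi.single_eq_same, mul_inv_cancel_left₀ hy0]
      · rw [Pi.single_eq_of_ne hQ, Pi.single_eq_of_ne hQ, mul_zero]
    rw [e, ← mulC_apply, ← hy]
    refine hw _ (AddSubgroup.mem_sup_left fun Q => ?_)
    change Q.G (D Q) ((Pi.single P (y⁻¹ * a) : DV E → E) Q)
    by_cases hQ : Q = P
    · subst hQ
      rw [Pi.single_eq_same]
      have h2 : Q.G (- Q.ord y) y⁻¹ := DV.G_of_le (by rw [Q.ord_inv hy0])
      exact (h2.mul ha).mono (by omega)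
    · rw [Pi.single_eq_of_ne hQ]
      exact DV.G_zero _
  have hcard : ∀ D D' : DV E →₀ ℤ, (∀ P, D' P = - W P - D P) →
      RRD.hCard (D : DV E → ℤ) ≤ Nat.card (LInt (D' : DV E → ℤ)) := by
    intro D D' hDD
    rw [← card_Lev C D]
    have hf : Finite (LInt (D' : DV E → ℤ)) := Nat.finite_of_card_ne_zero (cnt C D').fin
    choose y hy1 hy2 using key D
    refine Nat.card_le_card_of_injective
      (fun w => (⟨y w.1 w.2, fun P => by rw [hDD P]; exact hy2 w.1 w.2 P⟩ :
        LInt (D' : DV E → ℤ))) fun w w' h => Subtype.ext ?_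
    rw [hy1 w.1 w.2, hy1 w'.1 w'.2]
    exact congrArg (fun z => mulC C z om') (congrArg Subtype.val h)
  have c1 := hcard 0 (-W) (fun P => by simp)
  have c2 := hcard (-W) 0 (fun P => by simp)
  have h00 : ((0 : DV E →₀ ℤ) : DV E → ℤ) = 0 := rfl
  rw [h00, hgen C] at c1
  rw [h00, card_LInt_zero C] at c2
  have hq : 1 < Nat.card k := Finite.one_lt_card
  have hq0 : (Nat.card k : ℚ) ≠ 0 := q_ne_zero
  have hqp : (0 : ℚ) < Nat.card k := by exact_mod_cast Nat.card_pos (α := k)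
  have h3 := (cnt C (-W)).eq
  have hneg : degZ k (-W) = - degZ k W := by
    have := degZ_add k W (-W)
    rw [add_neg_cancel, degZ_zero] at this
    omega
  rw [hneg] at h3
  have h4 : (Nat.card k : ℚ) ^ (G : ℤ) ≤ (Nat.card k : ℚ) ^ (2 - (G : ℤ) + degZ k W) := by
    have e1 : ((Nat.card k : ℚ)) ^ (G : ℤ) ≤ Nat.card (LInt ((-W : DV E →₀ ℤ) : DV E → ℤ)) := by
      rw [zpow_natCast]
      exact_mod_cast c1
    have e2 : (RRD.hCard ((-W : DV E →₀ ℤ) : DV E → ℤ) : ℚ) ≤ Nat.card k := by exact_mod_cast c2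
    rw [h3] at e1
    refine e1.trans ((mul_le_mul_of_nonneg_left e2 (zpow_nonneg hqp.le _)).trans (le_of_eq ?_))
    rw [← zpow_add_one₀ hq0]
    congr 1
    ring
  have h5 := (zpow_le_zpow_iff_right₀ (show (1 : ℚ) < Nat.card k by exact_mod_cast hq)).1 h4
  omega

end Pool.Agent.FF
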