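import Pool.Agent.FD.Cheb
import Pool.Agent.FF.RatWt

/-! # Many places of exact degree `m` (93) -/

set_option autoImplicit false

namespace Pool.Agent.FF

/-- few places of bounded degree in a finite extension of `k(g)` -/
theorem few_fin {k E : Type*} [Field k] [Finite k] [Field E] [Algebra k E] [Algebra (RatFunc k) E]
    [IsScalarTower k (RatFunc k) E] [FiniteDimensional (RatFunc k) E]
    [Algebra.IsSeparable (RatFunc k) E] (D : ℕ) :
    Few k E D (Module.finrank (RatFunc k) E * (1 + Nat.card k ^ (D + 1))) := by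
  classical
  intro A hA
  choose P eP hP using fun w : DV E => exists_overE (K := RatFunc k) (E := E) w
  have hT := fun v : DV (RatFunc k) => sum_ef (K := RatFunc k) (E := E) v (Rat.resCard_ne v)
  choose T eT fT hTn hTm hTo hTs using hT
  have h1 : ∀ v ∈ A.image P, deg k v ≤ D := by
    intro v hv
    obtain ⟨w, hw, rfl⟩ := Finset.mem_image.1 hv
    refine le_trans ?_ (hA w hw)
    obtain ⟨-, h2, h3⟩ := hTo (P w) w ((hTm (P w) w).2 (hP w).over)
    rw [deg_of_resCard (Rat.resCard_ne (P w)) h3]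
    exact Nat.le_mul_of_pos_left _ h2
  have h2 : (A.image P).card ≤ 1 + Nat.card k ^ (D + 1) := Rat.few D _ h1
  calc A.card ≤ Module.finrank (RatFunc k) E * (A.image P).card := by
        refine Finset.card_le_mul_card_image A _ fun v _ => ?_
        have h3 : (A.filter fun w => P w = v) ⊆ T v := by
          intro w hw
          obtain ⟨-, rfl⟩ := Finset.mem_filter.1 hw
          exact (hTm (P w) w).2 (hP w).over
        refine (Finset.card_le_card h3).trans ?_
        rw [← hTs v, Finset.card_eq_sum_ones]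
        refine Finset.sum_le_sum fun w hw => ?_
        obtain ⟨h4, h5, -⟩ := hTo v w hw
        exact Nat.one_le_iff_ne_zero.2 (Nat.mul_ne_zero (by have := h4.1; omega) (by omega))
    _ ≤ _ := Nat.mul_le_mul_left _ h2

/-- many places of degree exactly `m` -/
theorem exists_many {k E : Type*} [Field k] [Finite k] [Field E] [Algebra k E]
    (hres : ∀ v : DV E, v.resCard ≠ 0) {m s C N : ℕ} (hm : 1 ≤ m)
    (h : Wt k E m s C) (hf : Few k E (m / 2) N) (hlt : 2 * (m / 2 * N + C * s) ≤ s ^ 2)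
    (hs : s ^ 2 = Nat.card k ^ m) :
    ∃ Q : Finset (DV E), (∀ v ∈ Q, v.deg (Nat.card k) = m) ∧ Nat.card k ^ m ≤ 2 * m * Q.card := by
  classical
  obtain ⟨A, hA, hsum⟩ := h
  refine ⟨A.filter fun v => deg k v = m, fun v hv => (Finset.mem_filter.1 hv).2, ?_⟩
  have h1 : ∀ v ∈ A.filter (fun v => ¬ deg k v = m), deg k v ≤ m / 2 := by
    intro v hv
    obtain ⟨hvA, hne⟩ := Finset.mem_filter.1 hv
    obtain ⟨j, hj⟩ := dvd_of_Er (hres v) (hA v hvA)
    have hm2 : 2 ≤ j := by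
      rcases j with _ | _ | j
      · omega
      · exact absurd (by rw [hj]; ring) hne
      · omega
    rw [Nat.le_div_iff_mul_le (by norm_num)]
    calc deg k v * 2 ≤ deg k v * j := Nat.mul_le_mul_left _ hm2
      _ = m := hj.symm
  have h2 : ∑ v ∈ A.filter (fun v => ¬ deg k v = m), deg k v ≤ m / 2 * N := by
    calc ∑ v ∈ A.filter (fun v => ¬ deg k v = m), deg k v
        ≤ ∑ _v ∈ A.filter (fun v => ¬ deg k v = m), m / 2 := Finset.sum_le_sum h1
      _ = m / 2 * (A.filter (fun v => ¬ deg k v = m)).card := by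
        rw [Finset.sum_const, smul_eq_mul, mul_comm]
      _ ≤ m / 2 * N := Nat.mul_le_mul_left _ (hf _ h1)
  have h3 : ∑ v ∈ A.filter (fun v => deg k v = m), deg k v =
      m * (A.filter fun v => deg k v = m).card := by
    rw [Finset.sum_congr rfl (fun v hv => (Finset.mem_filter.1 hv).2), Finset.sum_const,
      smul_eq_mul, mul_comm]
  have h4 := Finset.sum_filter_add_sum_filter_not A (fun v => deg k v = m) (fun v => deg k v)
  rw [h3] at h4
  rw [← hs]
  have h5 : 2 * m * (A.filter fun v => deg k v = m).card =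
      2 * (m * (A.filter fun v => deg k v = m).card) := by ring
  rw [h5]
  omega

/-- the numbers -/
theorem drin_num {r n D m G : ℕ} (hr : 2 ≤ r) (hn : n ≤ r ^ (4 * D)) (hG : G ≤ 2 * n ^ 2)
    (hn1 : 1 ≤ n) (hm : 30 * (D + 1) ≤ m) : (G + 1) * (G + 2) ≤ r ^ m ∧
      2 * (m / 2 * (n * (1 + (r ^ 2) ^ (m / 2 + 1))) + n * (2 * G + 3) * r ^ m) ≤ (r ^ m) ^ 2 := by
  have hr0 : 0 < r := by omega
  have h16 : 16 ≤ r ^ 4 := by
    calc 16 = 2 ^ 4 := by norm_num
      _ ≤ r ^ 4 := Nat.pow_le_pow_left hr 4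
  have hn2 : 1 ≤ n ^ 2 := Nat.one_le_pow _ _ hn1
  have hn3 : n ^ 3 ≤ r ^ (12 * D) := by
    calc n ^ 3 ≤ (r ^ (4 * D)) ^ 3 := Nat.pow_le_pow_left hn 3
      _ = r ^ (12 * D) := by rw [← pow_mul]; congr 1; ring
  have hn4 : n ^ 4 ≤ r ^ (16 * D) := by
    calc n ^ 4 ≤ (r ^ (4 * D)) ^ 4 := Nat.pow_le_pow_left hn 4
      _ = r ^ (16 * D) := by rw [← pow_mul]; congr 1; ring
  constructor
  · calc (G + 1) * (G + 2) ≤ (3 * n ^ 2) * (4 * n ^ 2) := Nat.mul_le_mul (by omega) (by omega)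
      _ = 12 * n ^ 4 := by ring
      _ ≤ r ^ 4 * r ^ (16 * D) := Nat.mul_le_mul (by omega) hn4
      _ = r ^ (4 + 16 * D) := by rw [pow_add]
      _ ≤ r ^ m := Nat.pow_le_pow_right hr0 (by omega)
  · have hm2 : m ≤ r ^ ((m + 1) / 2) := by
      obtain ⟨t, ht | ht⟩ := Nat.even_or_odd' m
      · have h1 : (m + 1) / 2 = t := by omega
        rw [h1, ht]
        have h2 : 2 * t ≤ 2 ^ t := by
          have : 1 ≤ t := by omega
          obtain ⟨u, rfl⟩ : ∃ u, t = u + 1 := ⟨t - 1, by omega⟩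
          rw [pow_succ]
          have := Nat.lt_two_pow_self (n := u)
          omega
        exact h2.trans (Nat.pow_le_pow_left hr _)
      · have h1 : (m + 1) / 2 = t + 1 := by omega
        rw [h1, ht]
        have h2 : 2 * t + 1 ≤ 2 ^ (t + 1) := by
          rw [pow_succ]
          have := Nat.lt_two_pow_self (n := t)
          omega
        exact h2.trans (Nat.pow_le_pow_left hr _)
    have h1 : (r ^ 2) ^ (m / 2 + 1) ≤ r ^ (m + 2) := by
      rw [← pow_mul]
      exact Nat.pow_le_pow_right hr0 (by omega)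
    have h2 : 1 ≤ r ^ (m + 2) := Nat.one_le_pow _ _ hr0
    have h3 : m / 2 * (n * (1 + (r ^ 2) ^ (m / 2 + 1))) ≤ m * n * r ^ (m + 2) := by
      calc m / 2 * (n * (1 + (r ^ 2) ^ (m / 2 + 1))) ≤ m / 2 * (n * (2 * r ^ (m + 2))) :=
            Nat.mul_le_mul_left _ (Nat.mul_le_mul_left _ (by omega))
        _ = (m / 2 * 2) * (n * r ^ (m + 2)) := by ring
        _ ≤ m * (n * r ^ (m + 2)) := Nat.mul_le_mul_right _ (Nat.div_mul_le_self m 2)
        _ = m * n * r ^ (m + 2) := by ring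
    have h4 : n * (2 * G + 3) ≤ 7 * n ^ 3 := by
      calc n * (2 * G + 3) ≤ n * (7 * n ^ 2) := Nat.mul_le_mul_left _ (by omega)
        _ = 7 * n ^ 3 := by ring
    have hn13 : n ≤ n ^ 3 := Nat.le_self_pow (by norm_num) n
    have hm1 : 1 ≤ m := by omega
    have hr2 : 1 ≤ r ^ 2 := Nat.one_le_pow _ _ hr0
    have h5 : m * n * r ^ (m + 2) + n * (2 * G + 3) * r ^ m ≤ 8 * m * n ^ 3 * r ^ 2 * r ^ m := by
      have h6 : m * n * r ^ (m + 2) ≤ m * n ^ 3 * r ^ 2 * r ^ m := by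
        calc m * n * r ^ (m + 2) ≤ m * n ^ 3 * r ^ (m + 2) :=
              Nat.mul_le_mul_right _ (Nat.mul_le_mul_left _ hn13)
          _ = _ := by rw [pow_add]; ring
      have h7 : n * (2 * G + 3) * r ^ m ≤ 7 * m * n ^ 3 * r ^ 2 * r ^ m := by
        refine Nat.mul_le_mul_right _ (h4.trans ?_)
        calc 7 * n ^ 3 = 7 * 1 * n ^ 3 * 1 := by ring
          _ ≤ 7 * m * n ^ 3 * r ^ 2 :=
            Nat.mul_le_mul (Nat.mul_le_mul_right _ (Nat.mul_le_mul_left _ hm1)) hr2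
      calc _ ≤ m * n ^ 3 * r ^ 2 * r ^ m + 7 * m * n ^ 3 * r ^ 2 * r ^ m := Nat.add_le_add h6 h7
        _ = _ := by ring
    calc 2 * (m / 2 * (n * (1 + (r ^ 2) ^ (m / 2 + 1))) + n * (2 * G + 3) * r ^ m)
        ≤ 2 * (8 * m * n ^ 3 * r ^ 2 * r ^ m) :=
          Nat.mul_le_mul_left _ ((Nat.add_le_add_right h3 _).trans h5)
      _ = 16 * m * n ^ 3 * r ^ 2 * r ^ m := by ring
      _ ≤ r ^ 4 * r ^ ((m + 1) / 2) * r ^ (12 * D) * r ^ 2 * r ^ m :=
          Nat.mul_le_mul_right _ (Nat.mul_le_mul_right _ (Nat.mul_le_mul (Nat.mul_le_mul h16 hm2) hn3))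
      _ = r ^ (4 + (m + 1) / 2 + 12 * D + 2) * r ^ m := by
          rw [← pow_add, ← pow_add, ← pow_add]
      _ ≤ r ^ m * r ^ m := Nat.mul_le_mul_right _ (Nat.pow_le_pow_right hr0 (by omega))
      _ = (r ^ m) ^ 2 := by ring

end Pool.Agent.FF
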