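import Pool.Agent.FD.HOne
import Pool.Agent.FD.DrinA

/-! # The curves `X_0(N)` over the field with `r ^ 2` elements (88, 93) -/

set_option autoImplicit false

namespace Pool.Agent.FF

section

variable {F k H : Type} [Field F] [Finite F] [Field k] [Finite k] [Field H] [Algebra F k]
  [Algebra F H] [Algebra k H] [Algebra (RatFunc k) H] [IsScalarTower k (RatFunc k) H]

variable {s : ℕ} {M : Fin s → Polynomial F}

/-- a line tuple -/
theorem exists_LT (h : DrS F k H (∏ i, M i))
    (hM : ∀ i, (M i).Monic ∧ Irreducible (M i) ∧ (M i).eval 1 ≠ 0) (hinj : Function.Injective M) :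
    ∃ L : Fin s → Submodule F H, LT (gX k H) M L := by
  have hfull : ∀ i, Nat.card (VN F (gX k H) (M i)) = Nat.card F ^ (2 * (M i).natDegree) := fun i =>
    card_VN_dvd (gX k H) h.monic (hM i).1 (Finset.dvd_prod_of_mem M (Finset.mem_univ i)) h.cardV
  have hex : ∀ i, ∃ L : Submodule F H, IsLine F (gX k H) (M i) L := by
    intro i
    have h1 := card_line (hM i).1 (hM i).2.1 (hfull i)
    have h2 : Nat.card {L : Submodule F H // IsLine F (gX k H) (M i) L} ≠ 0 := by omega
    obtain ⟨⟨L, hL⟩⟩ := (Nat.card_ne_zero.1 h2).1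
    exact ⟨L, hL⟩
  choose L hL using hex
  exact ⟨L, fun i => (hM i).1, fun i => (hM i).2.1, fun i => (hM i).2.2, hinj, hfull, hL⟩

/-- `H₁` is unramified outside infinity -/
theorem hOne_unram (h : DrS F k H (∏ i, M i)) (Q : DV (HOne H k M)) (v : DV (RatFunc k))
    (hQ : Over Q v) (hv : v ≠ Rat.inf k) : OverE Q v 1 := by
  have := h.fin
  have := h.gal
  obtain ⟨R, hR⟩ := exists_aboveH (K := RatFunc k) (H := H) Q
  have h1 : Over R v := hR.trans' hQ
  have h2 := drS_unram h h1 hv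
  obtain ⟨e, he⟩ := hR.overE
  obtain ⟨f, hf⟩ := hQ.overE
  have h3 : OverE R v (e * f) := by
    refine ⟨Nat.mul_pos he.1 hf.1, fun a => ?_⟩
    rw [IsScalarTower.algebraMap_apply (RatFunc k) (HOne H k M) H, he.2, hf.2]
    push_cast
    ring
  have h4 := h3.e_unique h2
  have h5 : f = 1 := Nat.eq_one_of_mul_eq_one_left h4
  rwa [h5] at hf

theorem EL_many (h : DrS F k H (∏ i, M i)) {L : Fin s → Submodule F H} (hL : LT (gX k H) M L)
    {G : ℕ} (hC : Cv k (EL k L) G) {m : ℕ} (hm : 30 * (dgM M Finset.univ + 1) ≤ m) :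
    ∃ Q : Finset (DV (EL k L)), (∀ v ∈ Q, v.deg (Nat.card k) = m) ∧
      Nat.card k ^ m ≤ 2 * m * Q.card := by
  have := h.fin
  have := h.gal
  obtain ⟨⟨R, hR⟩, G1, C1, hG1⟩ := hOne_cv h hL
  have hgal := hOne_galois (M := M) h
  have hle := EL_le_HOne h hL
  let _ : Algebra (EL k L) (HOne H k M) := (IntermediateField.inclusion hle).toAlgebra
  have : IsScalarTower (RatFunc k) (EL k L) (HOne H k M) := IsScalarTower.of_algebraMap_eq' rfl
  have := Fintype.ofFinite F
  obtain ⟨p, hp⟩ := CharP.exists F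
  obtain ⟨a, hpp, hc⟩ := FiniteField.card F p
  have : Fact p.Prime := ⟨hpp⟩
  have hck : CharP k p := charP_of_injective_algebraMap (algebraMap F k).injective p
  rw [← Nat.card_eq_fintype_card] at hc
  have hr : 2 ≤ Nat.card F := one_lt_card F
  have hn : Module.finrank (RatFunc k) (HOne H k M) ≤ Nat.card F ^ (4 * dgM M Finset.univ) := by
    refine le_trans ?_ (finrank_H h hL)
    rw [← Module.finrank_mul_finrank (RatFunc k) (HOne H k M) H]
    have : FiniteDimensional (HOne H k M) H := FiniteDimensional.right (RatFunc k) _ _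
    exact Nat.le_mul_of_pos_right _ Module.finrank_pos
  have hE : Module.finrank (RatFunc k) (EL k L) ≤ Module.finrank (RatFunc k) (HOne H k M) := by
    rw [← Module.finrank_mul_finrank (RatFunc k) (EL k L) (HOne H k M)]
    have : FiniteDimensional (EL k L) (HOne H k M) := FiniteDimensional.right (RatFunc k) _ _
    exact Nat.le_mul_of_pos_right _ Module.finrank_pos
  obtain ⟨h1, h2⟩ := drin_num hr hn hG1 Module.finrank_pos hm
  have hsq : (Nat.card F ^ m) ^ 2 = Nat.card k ^ m := by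
    rw [h.card, ← pow_mul, ← pow_mul, mul_comm]
  have hm1 : 1 ≤ m := by omega
  have hwt : Wt k (EL k L) m (Nat.card F ^ m)
      (Module.finrank (RatFunc k) (HOne H k M) * (2 * G1 + 3)) :=
    cheb (p := p) (e := a * m) C1 hR (hOne_unram h) hm1 (by rw [hc, ← pow_mul]) hsq h1
  refine exists_many hC.resCard_ne hm1 hwt (few_fin (m / 2)) ?_ hsq
  refine le_trans ?_ h2
  refine Nat.mul_le_mul_left _ (Nat.add_le_add_right (Nat.mul_le_mul_left _ ?_) _)
  rw [h.card]
  exact Nat.mul_le_mul_right _ hE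

end

theorem drin (F k : Type) [Field F] [Finite F] [Field k] [Finite k] [Algebra F k]
    (hk : Nat.card k = Nat.card F ^ 2) : ∃ A : ℕ, ∀ (s : ℕ) (M : Fin s → Polynomial F),
      (∀ i, (M i).Monic ∧ Irreducible (M i) ∧ (M i).eval 1 ≠ 0) → Function.Injective M →
      ∃ (E : Type) (_ : Field E) (_ : Algebra k E) (G : ℕ) (T : Finset (DV E)),
        IsFF k E ∧ Cv k E G ∧ (Nat.card F - 1) * G ≤ psiM M ∧ T.card = psiM M ∧
        (∀ P ∈ T, P.Rat k) ∧
        ∀ m : ℕ, A * (dgM M Finset.univ + 1) ≤ m → ∃ Q : Finset (DV E),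
          (∀ v ∈ Q, v.deg (Nat.card k) = m) ∧ Nat.card k ^ m ≤ 2 * m * Q.card := by
  refine ⟨30, fun s M hM hinj => ?_⟩
  have hN : (∏ i, M i).Monic := Polynomial.monic_prod_of_monic _ _ fun i _ => (hM i).1
  have hN1 : (∏ i, M i).eval 1 ≠ 0 := by
    rw [Polynomial.eval_prod]
    exact Finset.prod_ne_zero_iff.2 fun i _ => (hM i).2.2
  obtain ⟨H, iH, iFH, ikH, iRH, iT, h⟩ := exists_drS F k hk hN hN1
  obtain ⟨L, hL⟩ := exists_LT h hM hinj
  obtain ⟨hFF, G, hC, hG, T, hT, hTr⟩ := dgen h hL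
  exact ⟨EL k L, inferInstance, inferInstance, G, T, hFF, hC, hG, hT, hTr, fun m hm =>
    EL_many h hL hC hm⟩

end Pool.Agent.FF
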