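import Pool.Agent.FD.ExtC

/-! # Places over a place: the sum of the local degrees -/

set_option autoImplicit false

open Finset

namespace Pool.Agent.FF

section ef

variable {K L : Type*} [Field K] [Field L] [Algebra K L]

theorem mem_intO_iff [FiniteDimensional K L] (v : DV K) (x : L) :
    (letI := v.algL L; IsIntegral v.vs x) ↔ IntO v x := by
  let _ := v.algL L
  have := v.tower L
  constructor
  · intro h w hw
    let φ : v.vs →+* w.vs := ((algebraMap K L).comp v.vs.subtype).codRestrict w.vs.toSubring
      fun x => (hw.G_zero_iff _).2 x.2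
    have h1 : IsIntegral w.vs x := by
      obtain ⟨p, hp, h0⟩ := h
      refine ⟨p.map φ, hp.map φ, ?_⟩
      rw [Polynomial.eval₂_map]
      exact h0
    obtain ⟨y, hy⟩ := (IsIntegrallyClosed.isIntegral_iff (R := w.vs) (K := L)).1 h1
    rw [← hy]
    exact y.2
  · intro h
    exact h.isIntegral v.vs Subtype.val_injective fun b hb => ⟨⟨b, hb⟩, rfl⟩

theorem LT_relIndex_base [FiniteDimensional K L] [Algebra.IsSeparable K L] (v : DV K)
    (T : Finset (DV L)) (hT : ∀ w, w ∈ T ↔ Over w v) (e : DV L → ℕ)
    (he : ∀ w ∈ T, OverE w v (e w)) :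
    (LTw T fun w => (e w : ℤ)).relIndex (LTw T fun _ => 0) = v.resCard ^ Module.finrank K L := by
  classical
  let _ := v.algL L
  have := v.tower L
  have := v.vs_pid
  have : Module.IsTorsionFree v.vs L := Module.IsTorsionFree.trans_faithfulSMul v.vs K L
  have hfree := IsIntegralClosure.module_free v.vs K L (integralClosure v.vs L)
  have hrank := IsIntegralClosure.rank v.vs K L (integralClosure v.vs L)
  have hnoeth := IsIntegralClosure.isNoetherian v.vs K L (integralClosure v.vs L)
  have hfinm : Module.Finite v.vs (integralClosure v.vs L) := inferInstance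
  set B := integralClosure v.vs L with hB
  have hmem : ∀ x : L, x ∈ B ↔ ∀ w ∈ T, w.G 0 x := by
    intro x
    rw [hB, mem_integralClosure_iff, mem_intO_iff v x]
    exact ⟨fun h w hw => h w ((hT w).1 hw), fun h w hw => h w ((hT w).2 hw)⟩
  let b := Module.Free.chooseBasis v.vs B
  have hcard : Fintype.card (Module.Free.ChooseBasisIndex v.vs B) = Module.finrank K L := by
    rw [← hrank, Module.finrank_eq_card_basis b]
  let f : B →+ L := B.val.toRingHom.toAddMonoidHom
  have htop : (⊤ : AddSubgroup B).map f = LTw T fun _ => 0 := by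
    ext x
    constructor
    · rintro ⟨y, -, rfl⟩
      exact (hmem _).1 y.2
    · intro hx
      exact ⟨⟨x, (hmem x).2 hx⟩, trivial, rfl⟩
  let g : B →+ (Module.Free.ChooseBasisIndex v.vs B → v.vs) := b.equivFun.toLinearMap.toAddMonoidHom
  let P : AddSubgroup v.vs := (v.O 1).comap (v.vs.subtype : v.vs →+ K)
  obtain ⟨π, hπ, hπ1⟩ := v.exists_one
  have hcomap : (LTw T fun w => (e w : ℤ)).comap f = (AddSubgroup.pi Set.univ fun _ => P).comap g := by
    ext x
    constructor
    · intro hx i _
      -- `x = π y`
      have hy : (x : L) / algebraMap K L π ∈ B := by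
        rw [hmem]
        intro w hw
        by_cases hx0 : (x : L) = 0
        · rw [hx0, zero_div]
          exact DV.G_zero 0
        · have h1 : w.G (e w) (x : L) := hx w hw
          apply DV.G_of_le
          rw [w.ord_div hx0 (map_ne_zero' hπ), (he w hw).2 π, hπ1]
          have := h1.le hx0
          omega
      have hπv : v.G 0 π := DV.G_of_le (by omega)
      have hxy : x = (⟨π, hπv⟩ : v.vs) • (⟨_, hy⟩ : B) := by
        apply Subtype.ext
        show (x : L) = algebraMap K L π * ((x : L) / algebraMap K L π)
        rw [mul_div_cancel₀ _ (map_ne_zero' hπ)]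
      show v.G 1 ((b.equivFun x i : v.vs) : K)
      rw [hxy, map_smul]
      show v.G 1 (π * ((b.equivFun ⟨_, hy⟩ i : v.vs) : K))
      have h2 : v.G 1 π := DV.G_of_le (by omega)
      have h3 := h2.mul (b.equivFun ⟨_, hy⟩ i).2
      rwa [add_zero] at h3
    · intro hx w hw
      have hxs : (x : L) = ∑ i, algebraMap K L ((b.equivFun x i : v.vs) : K) * (b i : L) := by
        have h1 := b.sum_equivFun x
        have h2 := congrArg (fun y : B => (y : L)) h1
        rw [← h2, AddSubmonoidClass.coe_finsetSum]
        rfl
      show w.G (e w) (x : L)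
      rw [hxs]
      have h8 : ∀ s : Finset (Module.Free.ChooseBasisIndex v.vs B),
          w.G (e w) (∑ i ∈ s, algebraMap K L ((b.equivFun x i : v.vs) : K) * (b i : L)) := by
        intro s
        induction s using Finset.induction_on with
        | empty => simpa using DV.G_zero (v := w) (e w)
        | insert i s hi ih =>
          rw [sum_insert hi]
          refine DV.G.add ?_ ih
          have h3 : v.G 1 ((b.equivFun x i : v.vs) : K) := hx i trivial
          have h4 : w.G (e w) (algebraMap K L ((b.equivFun x i : v.vs) : K)) := by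
            by_cases h0 : ((b.equivFun x i : v.vs) : K) = 0
            · rw [h0, map_zero]
              exact DV.G_zero _
            · apply DV.G_of_le
              rw [(he w hw).2]
              have h5 := h3.le h0
              have h6 : (0 : ℤ) ≤ e w := by positivity
              nlinarith
          have := h4.mul ((hmem _).1 (b i).2 w hw)
          rwa [add_zero] at this
      exact h8 _
  have h1 : ((LTw T fun w => (e w : ℤ)).comap f).index = v.resCard ^ Module.finrank K L := by
    rw [hcomap, AddSubgroup.index_comap_of_surjective _ b.equivFun.surjective,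
      AddSubgroup.index_pi, prod_const, card_univ, hcard, v.index_max]
  rw [← h1, ← htop, ← AddSubgroup.relIndex_comap, AddSubgroup.relIndex_top_right]

/-- `∑ e f = [L : K]` -/
theorem sum_ef' [FiniteDimensional K L] [Algebra.IsSeparable K L] (v : DV K) (hv : v.resCard ≠ 0) :
    ∃ (T : Finset (DV L)) (e f : DV L → ℕ), T.Nonempty ∧ (∀ w, w ∈ T ↔ Over w v) ∧
      (∀ w ∈ T, OverE w v (e w) ∧ 1 ≤ f w ∧ w.resCard = v.resCard ^ f w) ∧
      ∑ w ∈ T, e w * f w = Module.finrank K L := by
  classical
  have hfin := over_finite' (L := L) v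
  set T := hfin.toFinset with hTdef
  have hT : ∀ w, w ∈ T ↔ Over w v := fun w => by rw [hTdef, Set.Finite.mem_toFinset]; rfl
  have hex : ∀ w : DV L, ∃ e : ℕ, Over w v → OverE w v e := by
    intro w
    by_cases h : Over w v
    · obtain ⟨e, he, h⟩ := h
      refine ⟨e.toNat, fun _ => ⟨by omega, fun a => ?_⟩⟩
      by_cases ha : a = 0
      · simp [ha, DV.ord_zero]
      · rw [h a ha]
        congr 1
        omega
    · exact ⟨0, fun h' => absurd h' h⟩
  choose e he using hex
  have he' : ∀ w ∈ T, OverE w v (e w) := fun w hw => he w ((hT w).1 hw)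
  have h1 := LT_relIndex_base v T hT e he'
  rw [LT_relIndex] at h1
  have hne : ∀ w ∈ T, w.resCard ≠ 0 := by
    intro w hw h0
    apply pow_ne_zero (Module.finrank K L) hv
    rw [← h1]
    exact prod_eq_zero hw (by rw [h0, zero_pow (he' w hw).1.ne'])
  have hexf : ∀ w : DV L, ∃ f : ℕ, w ∈ T → 1 ≤ f ∧ w.resCard = v.resCard ^ f := by
    intro w
    by_cases h : w ∈ T
    · obtain ⟨f, hf⟩ := ((hT w).1 h).exists_f (hne w h)
      exact ⟨f, fun _ => hf⟩
    · exact ⟨0, fun h' => absurd h' h⟩
  choose f hf using hexf
  refine ⟨T, e, f, ?_, hT, fun w hw => ⟨he' w hw, hf w hw⟩, ?_⟩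
  · obtain ⟨w, hw⟩ := exists_above (L := L) v
    exact ⟨w, (hT w).2 hw⟩
  · have h2 : ∏ w ∈ T, w.resCard ^ e w = v.resCard ^ ∑ w ∈ T, e w * f w := by
      rw [← prod_pow_eq_pow_sum]
      refine prod_congr rfl fun w hw => ?_
      rw [(hf w hw).2, ← pow_mul, mul_comm]
    rw [h2] at h1
    have h3 : 2 ≤ v.resCard := by
      have := v.resCard_ne_one
      omega
    exact Nat.pow_right_injective h3 h1

end ef

end Pool.Agent.FF
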