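import Pool.Agent.FD.Base
import Pool.Agent.FD.ExtD

/-! # X1: places of a finite extension (57, 37) -/

set_option autoImplicit false

namespace Pool.Agent.FF

section

variable {K E : Type*} [Field K] [Field E] [Algebra K E]

theorem OverE.over {w : DV E} {v : DV K} {e : ℕ} (h : OverE w v e) : Over w v :=
  ⟨e, by exact_mod_cast h.1, fun a _ => h.2 a⟩

theorem Over.overE {w : DV E} {v : DV K} (h : Over w v) : ∃ e : ℕ, OverE w v e := by
  obtain ⟨e, he, h⟩ := h
  refine ⟨e.toNat, by omega, fun a => ?_⟩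
  by_cases ha : a = 0
  · simp [ha, DV.ord_zero]
  · rw [h a ha]
    congr 1
    omega

theorem exists_overE [FiniteDimensional K E] (w : DV E) : ∃ (v : DV K) (e : ℕ), OverE w v e := by
  obtain ⟨v, h⟩ := exists_below (K := K) w
  obtain ⟨e, he⟩ := h.overE
  exact ⟨v, e, he⟩

/-- `∑ e f = [E : K]` -/
theorem sum_ef [FiniteDimensional K E] [Algebra.IsSeparable K E] (v : DV K) (hv : v.resCard ≠ 0) :
    ∃ (T : Finset (DV E)) (e f : DV E → ℕ), T.Nonempty ∧ (∀ w, w ∈ T ↔ Over w v) ∧
      (∀ w ∈ T, OverE w v (e w) ∧ 1 ≤ f w ∧ w.resCard = v.resCard ^ f w) ∧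
      ∑ w ∈ T, e w * f w = Module.finrank K E := sum_ef' v hv

theorem IntO.coeff [FiniteDimensional K E] {v : DV K} {a : E} (h : IntO v a) (i : ℕ) :
    v.G 0 ((minpoly K a).coeff i) := IntO.coeff' h i

theorem IntO.trace [FiniteDimensional K E] {v : DV K} {a : E} (h : IntO v a) :
    v.G 0 (Algebra.trace K E a) := IntO.trace' h

end

end Pool.Agent.FF
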