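import Pool.Agent.FD.Base
import Pool.Agent.FF.TmRes
import Pool.Agent.FF.Deg

/-! # Places of a finite extension: integrality and the fundamental identity -/

set_option autoImplicit false

namespace Pool.Agent.FF

section ext

variable {K L : Type*} [Field K] [Field L] [Algebra K L]

/-- A valuation ring over the one of a place belongs to a place. -/
theorem dv_of_vs [FiniteDimensional K L] (v : DV K) (A : ValuationSubring L)
    (h1 : ∀ a : K, v.G 0 a → algebraMap K L a ∈ A) (h2 : ∀ a : K, algebraMap K L a ∈ A → v.G 0 a) :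
    ∃ w : DV L, Over w v ∧ ∀ x : L, w.G 0 x ↔ x ∈ A := by
  classical
  have hval : ∀ a b : K, a ≠ 0 → b ≠ 0 →
      (A.valuation (algebraMap K L a) ≤ A.valuation (algebraMap K L b) ↔ v.ord b ≤ v.ord a) := by
    intro a b ha hb
    have hb' : A.valuation (algebraMap K L b) ≠ 0 := by
      rw [Ne, map_eq_zero]; exact map_ne_zero' hb
    have e1 : A.valuation (algebraMap K L a) ≤ A.valuation (algebraMap K L b) ↔
        algebraMap K L (a / b) ∈ A := by
      rw [← A.valuation_le_one_iff, map_div₀, map_div₀, div_le_one₀ (zero_lt_iff.2 hb')]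
    rw [e1]
    constructor
    · intro h
      have := (h2 _ h).le (div_ne_zero ha hb)
      rw [v.ord_div ha hb] at this
      omega
    · intro h
      apply h1
      apply DV.G_of_le
      rw [v.ord_div ha hb]
      omega
  have hvaleq : ∀ a b : K, a ≠ 0 → b ≠ 0 →
      A.valuation (algebraMap K L a) = A.valuation (algebraMap K L b) → v.ord a = v.ord b := by
    intro a b ha hb h
    exact le_antisymm ((hval b a hb ha).1 h.ge) ((hval a b ha hb).1 h.le)
  set N := (Module.finrank K L).factorial with hN
  have hNpos : 0 < N := Nat.factorial_pos _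
  have hpow : ∀ x : L, ∃ a : K, x ≠ 0 → a ≠ 0 ∧
      A.valuation (x ^ N) = A.valuation (algebraMap K L a) := by
    intro x
    by_cases hx : x = 0
    · exact ⟨0, fun h => absurd hx h⟩
    · obtain ⟨m, hm, hmn, a, ha, h⟩ := exists_pow_val (K := K) A hx
      obtain ⟨c, hc⟩ := Nat.dvd_factorial hm hmn
      refine ⟨a ^ c, fun _ => ⟨pow_ne_zero c ha, ?_⟩⟩
      rw [hN, hc, pow_mul, map_pow, h, map_pow, map_pow]
  choose α hα using hpow
  have hαne : ∀ x : L, x ≠ 0 → α x ≠ 0 := fun x hx => (hα x hx).1
  have hαv : ∀ x : L, x ≠ 0 → A.valuation (x ^ N) = A.valuation (algebraMap K L (α x)) :=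
    fun x hx => (hα x hx).2
  have hle : ∀ x y : L, x ≠ 0 → y ≠ 0 → A.valuation x ≤ A.valuation y →
      v.ord (α y) ≤ v.ord (α x) := by
    intro x y hx hy h
    rw [← hval _ _ (hαne x hx) (hαne y hy), ← hαv x hx, ← hαv y hy, map_pow, map_pow]
    exact pow_le_pow_left₀ zero_le h N
  have hmap : ∀ a : K, a ≠ 0 → v.ord (α (algebraMap K L a)) = N * v.ord a := by
    intro a ha
    rw [← v.ord_pow ha]
    apply hvaleq _ _ (hαne _ (map_ne_zero' ha)) (pow_ne_zero N ha)
    rw [← hαv _ (map_ne_zero' ha), map_pow (algebraMap K L)]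
  obtain ⟨π, hπ, hπ1⟩ := v.exists_one
  obtain ⟨w, d, hd, h⟩ := exists_norm (fun x : L => v.ord (α x))
    (fun x y hx hy => by
      show v.ord (α (x * y)) = v.ord (α x) + v.ord (α y)
      rw [← v.ord_mul _ _ (hαne x hx) (hαne y hy)]
      apply hvaleq _ _ (hαne _ (mul_ne_zero hx hy)) (mul_ne_zero (hαne x hx) (hαne y hy))
      rw [← hαv _ (mul_ne_zero hx hy), mul_pow, map_mul, hαv x hx, hαv y hy, map_mul, map_mul])
    (fun x y hx hy hxy => by
      show min (v.ord (α x)) (v.ord (α y)) ≤ v.ord (α (x + y))
      rcases le_total (A.valuation x) (A.valuation y) with h | h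
      · exact (min_le_right _ _).trans (hle _ _ hxy hy
          ((A.valuation.map_add x y).trans (max_le h le_rfl)))
      · exact (min_le_left _ _).trans (hle _ _ hxy hx
          ((A.valuation.map_add x y).trans (max_le le_rfl h))))
    ⟨algebraMap K L π, map_ne_zero' hπ, by
      show v.ord (α (algebraMap K L π)) ≠ 0
      rw [hmap π hπ, hπ1]
      have : (N : ℤ) ≠ 0 := by exact_mod_cast hNpos.ne'
      simpa using this⟩
  have hcomp : ∀ a : K, a ≠ 0 → d * w.ord (algebraMap K L a) = N * v.ord a := by
    intro a ha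
    rw [← hmap a ha]
    exact (h _ (map_ne_zero' ha)).symm
  have h3 := hcomp π hπ
  rw [hπ1, mul_one] at h3
  have hNz : (0 : ℤ) < N := by exact_mod_cast hNpos
  refine ⟨w, ⟨w.ord (algebraMap K L π), ?_, fun a ha => ?_⟩, fun x => ?_⟩
  · by_contra hneg
    push Not at hneg
    nlinarith
  · have h4 := hcomp a ha
    rw [← h3, mul_assoc] at h4
    exact mul_left_cancel₀ hd.ne' h4
  · by_cases hx : x = 0
    · subst hx
      exact ⟨fun _ => A.zero_mem, fun _ => DV.G_zero 0⟩
    · have e1 : v.ord (α x) = d * w.ord x := h x hx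
      have e2 : w.G 0 x ↔ v.G 0 (α x) := by
        rw [DV.G_iff hx, DV.G_iff (hαne x hx), e1]
        constructor
        · intro h1
          positivity
        · intro h1
          exact nonneg_of_mul_nonneg_right h1 hd
      have e3 : v.G 0 (α x) ↔ x ^ N ∈ A := by
        rw [← A.valuation_le_one_iff, hαv x hx, A.valuation_le_one_iff]
        exact ⟨h1 _, h2 _⟩
      rw [e2, e3, ← A.valuation_le_one_iff, ← A.valuation_le_one_iff, map_pow]
      exact pow_le_one_iff hNpos.ne'

/-- A valuation ring containing the base field contains the finite extension. -/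
theorem mem_of_base_mem [FiniteDimensional K L] (A : ValuationSubring L)
    (h : ∀ a : K, algebraMap K L a ∈ A) (x : L) : x ∈ A := by
  let φ : K →+* A := (algebraMap K L).codRestrict A.toSubring h
  obtain ⟨p, hp, h0⟩ := (Algebra.IsIntegral.isIntegral (R := K) x)
  have h1 : IsIntegral A x := by
    refine ⟨p.map φ, hp.map φ, ?_⟩
    rw [Polynomial.eval₂_map]
    have : (algebraMap A L).comp φ = algebraMap K L := by
      ext a
      rfl
    rw [this]
    exact h0
  obtain ⟨y, hy⟩ := (IsIntegrallyClosed.isIntegral_iff (R := A) (K := L)).1 h1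
  rw [← hy]
  exact y.2

/-- An element integral at all places over `v` lies in every valuation ring over that of `v`. -/
theorem IntO.mem [FiniteDimensional K L] {v : DV K} {x : L} (hx : IntO v x)
    (A : ValuationSubring L) (h1 : ∀ a : K, v.G 0 a → algebraMap K L a ∈ A) : x ∈ A := by
  by_cases h2 : ∀ a : K, algebraMap K L a ∈ A → v.G 0 a
  · obtain ⟨w, hw, h⟩ := dv_of_vs v A h1 h2
    exact (h x).1 (hx w hw)
  · push Not at h2
    obtain ⟨b, hb, hb'⟩ := h2
    have hb0 := DV.ne_zero_of_not_G hb'
    have hlt := (DV.not_G hb0).1 hb'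
    apply mem_of_base_mem (K := K) A
    intro a
    by_cases ha : a = 0
    · rw [ha, map_zero]
      exact A.zero_mem
    · have h3 : v.G 0 (a / b ^ (v.ord a).natAbs) := by
        apply DV.G_of_le
        rw [v.ord_div ha (pow_ne_zero _ hb0), v.ord_pow hb0]
        have h4 : -((v.ord a).natAbs : ℤ) ≤ v.ord a := by omega
        have h5 : (0 : ℤ) ≤ ((v.ord a).natAbs : ℤ) := by positivity
        nlinarith
      have h4 : algebraMap K L a = algebraMap K L (a / b ^ (v.ord a).natAbs) *
          algebraMap K L b ^ (v.ord a).natAbs := by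
        rw [← map_pow, ← map_mul, div_mul_cancel₀ _ (pow_ne_zero _ hb0)]
      rw [h4]
      exact A.mul_mem _ _ (h1 _ h3) (pow_mem hb _)

/-- An element integral at all places over `v` is integral over the ring of `v`. -/
theorem IntO.isIntegral [FiniteDimensional K L] {v : DV K} {x : L} (hx : IntO v x)
    (R : Type*) [CommRing R] [Algebra R K] [Algebra R L] [IsScalarTower R K L]
    (hinj : Function.Injective (algebraMap R K))
    (hR : ∀ a : K, v.G 0 a → ∃ r : R, algebraMap R K r = a) : IsIntegral R x := by
  have hinjL : Function.Injective (algebraMap R L) := by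
    rw [IsScalarTower.algebraMap_eq R K L]
    exact (algebraMap K L).injective.comp hinj
  set S : Subring L := (algebraMap R L).range with hS
  have h1 : x ∈ (integralClosure (Subring.closure (S : Set L)) L).toSubring := by
    rw [← iInf_valuationSubring_superset, Subring.mem_iInf]
    rintro ⟨V, hV⟩
    refine hx.mem V fun a ha => ?_
    obtain ⟨r, rfl⟩ := hR a ha
    rw [← IsScalarTower.algebraMap_apply]
    exact hV ⟨r, rfl⟩
  have h2 : IsIntegral (Subring.closure (S : Set L)) x := h1
  rw [Subring.closure_eq] at h2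
  have hbij : Function.Bijective (algebraMap R L).rangeRestrict :=
    ⟨fun a b hab => hinjL (congrArg Subtype.val hab), (algebraMap R L).rangeRestrict_surjective⟩
  let e : R ≃+* S := RingEquiv.ofBijective (algebraMap R L).rangeRestrict hbij
  have h3 := IsIntegral.map_of_comp_eq (e.symm : S →+* R) (RingHom.id L) (by
    ext a
    obtain ⟨r, rfl⟩ := e.surjective a
    show algebraMap R L (e.symm (e r)) = (e r : L)
    rw [e.symm_apply_apply]
    rfl) h2
  exact h3

/-- the algebra structure over the ring of a place of the base -/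
@[reducible] def DV.algL (v : DV K) (L : Type*) [Field L] [Algebra K L] : Algebra v.vs L :=
  ((algebraMap K L).comp (algebraMap v.vs K)).toAlgebra

theorem DV.tower (v : DV K) (L : Type*) [Field L] [Algebra K L] :
    letI := v.algL L
    IsScalarTower v.vs K L := by
  let _ := v.algL L
  exact IsScalarTower.of_algebraMap_eq fun _ => rfl

theorem IntO.coeff' [FiniteDimensional K L] {v : DV K} {a : L} (h : IntO v a) (i : ℕ) :
    v.G 0 ((minpoly K a).coeff i) := by
  let _ := v.algL L
  have := v.tower L
  have h1 : IsIntegral v.vs a := h.isIntegral v.vs Subtype.val_injective fun b hb => ⟨⟨b, hb⟩, rfl⟩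
  rw [minpoly.isIntegrallyClosed_eq_field_fractions' K h1, Polynomial.coeff_map]
  exact ((minpoly v.vs a).coeff i).2

theorem IntO.trace' [FiniteDimensional K L] {v : DV K} {a : L} (h : IntO v a) :
    v.G 0 (Algebra.trace K L a) := by
  let _ := v.algL L
  have := v.tower L
  have h1 : IsIntegral v.vs a := h.isIntegral v.vs Subtype.val_injective fun b hb => ⟨⟨b, hb⟩, rfl⟩
  obtain ⟨y, hy⟩ := (IsIntegrallyClosed.isIntegral_iff (R := v.vs) (K := K)).1
    (Algebra.isIntegral_trace (L := K) (F := L) h1)
  rw [← hy]
  exact y.2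

end ext

end Pool.Agent.FF
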