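import Pool.Agent.FD.ExtA

/-! # Filtration of the elements of a field by orders at finitely many places -/


set_option autoImplicit false

open Finset

namespace Pool.Agent.FF

section fil

variable {F : Type*} [Field F]

/-- the elements with prescribed orders at finitely many places -/
def LTw (T : Finset (DV F)) (m : DV F → ℤ) : AddSubgroup F where
  carrier := {x | ∀ w ∈ T, w.G (m w) x}
  zero_mem' _ _ := DV.G_zero _
  add_mem' ha hb w hw := (ha w hw).add (hb w hw)
  neg_mem' ha w hw := (ha w hw).neg

theorem mem_LT {T : Finset (DV F)} {m : DV F → ℤ} {x : F} : x ∈ LTw T m ↔ ∀ w ∈ T, w.G (m w) x :=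
  Iff.rfl

theorem LT_anti (T : Finset (DV F)) {m m' : DV F → ℤ} (h : ∀ w ∈ T, m w ≤ m' w) :
    LTw T m' ≤ LTw T m := fun _ hx w hw => (hx w hw).mono (h w hw)

theorem LT_update (T : Finset (DV F)) (m : DV F → ℤ) (w₀ : DV F) (h₀ : w₀ ∈ T) (k : ℕ)
    (m' : DV F → ℤ) (hm' : ∀ w ∈ T, w ≠ w₀ → m' w = m w) (hm₀ : m' w₀ = m w₀ + k) :
    (LTw T m').relIndex (LTw T m) = w₀.resCard ^ k := by
  classical
  have h1 : LTw T m' = w₀.O (m w₀ + k) ⊓ LTw T m := by
    ext x
    constructor
    · intro hx
      refine ⟨?_, ?_⟩
      · have := hx w₀ h₀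
        rwa [hm₀] at this
      · intro w hw
        by_cases hww : w = w₀
        · subst hww
          refine (hx w hw).mono ?_
          rw [hm₀]
          omega
        · have := hx w hw
          rwa [hm' w hw hww] at this
    · rintro ⟨hx0, hx⟩ w hw
      by_cases hww : w = w₀
      · subst hww
        rw [hm₀]
        exact hx0
      · rw [hm' w hw hww]
        exact hx w hw
  rw [h1, AddSubgroup.inf_relIndex_right, ← w₀.relIndex_O (m w₀) k]
  have h2 : (LTw T m).map (AddMonoidHom.id F) ⊔ w₀.O (m w₀ + k) = w₀.O (m w₀) := by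
    apply le_antisymm
    · refine sup_le ?_ (w₀.O_anti (by omega))
      rintro _ ⟨x, hx, rfl⟩
      exact hx w₀ h₀
    · intro x hx
      obtain ⟨y, hy⟩ := DV.weak_approx T (fun w => if w = w₀ then x else 0)
        (∑ w ∈ T, (m w).natAbs + k)
      have hN : ∀ w ∈ T, m w + k ≤ ((∑ w ∈ T, (m w).natAbs + k : ℕ) : ℤ) := by
        intro w hw
        have h1 := Finset.single_le_sum (f := fun w : DV F => (m w).natAbs)
          (fun _ _ => Nat.zero_le _) hw
        have h2 : m w ≤ ((m w).natAbs : ℤ) := by omega
        have h3 : ((m w).natAbs : ℤ) ≤ ((∑ w ∈ T, (m w).natAbs : ℕ) : ℤ) := by exact_mod_cast h1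
        rw [Nat.cast_add]
        linarith
      have hy0 : w₀.G (m w₀ + k) (y - x) := by
        have := hy w₀ h₀
        simp only [if_true] at this
        exact this.mono (hN w₀ h₀)
      refine AddSubgroup.mem_sup.2 ⟨y, ⟨y, fun w hw => ?_, rfl⟩, x - y, ?_, by ring⟩
      · by_cases hww : w = w₀
        · subst hww
          have h5 : y = (y - x) + x := by ring
          rw [h5]
          exact (hy0.mono (by omega)).add hx
        · have := hy w hw
          simp only [if_neg hww, sub_zero] at this
          exact this.mono (by have := hN w hw; omega)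
      · have h5 : x - y = -(y - x) := by ring
        rw [h5]
        exact hy0.neg
  rw [relIndex_comap_of_sup _ h2]
  rfl

theorem LT_relIndex (T : Finset (DV F)) (e : DV F → ℕ) :
    (LTw T fun w => (e w : ℤ)).relIndex (LTw T fun _ => 0) = ∏ w ∈ T, w.resCard ^ e w := by
  classical
  have key : ∀ S : Finset (DV F), S ⊆ T →
      (LTw T fun w => if w ∈ S then (e w : ℤ) else 0).relIndex (LTw T fun _ => 0) =
        ∏ w ∈ S, w.resCard ^ e w := by
    intro S
    induction S using Finset.induction_on with
    | empty =>
      intro _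
      simp
    | insert w₀ S hw₀ ih =>
      intro hS
      rw [prod_insert hw₀, ← ih fun w hw => hS (mem_insert_of_mem hw)]
      rw [← AddSubgroup.relIndex_mul_relIndex _ (LTw T fun w => if w ∈ S then (e w : ℤ) else 0) _
        (LT_anti T fun w _ => ?_) (LT_anti T fun w _ => ?_)]
      · congr 1
        refine LT_update T _ w₀ (hS (mem_insert_self _ _)) (e w₀) _ ?_ ?_
        · intro w _ hww
          simp only [mem_insert, hww, false_or]
        · simp [hw₀]
      · by_cases h : w ∈ S
        · simp [h]
        · by_cases h' : w = w₀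
          · subst h'
            simp [h]
          · simp [h, h']
      · by_cases h : w ∈ S
        · simp [h]
        · simp [h]
  rw [← key T subset_rfl]
  congr 1
  ext x
  simp only [mem_LT]
  exact forall₂_congr fun w hw => by simp [hw]

end fil

end Pool.Agent.FF
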