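import Pool.Agent.FD.ExtB

/-! # The fundamental identity -/

set_option autoImplicit false

open Finset

namespace Pool.Agent.FF

section pid

variable {K : Type*} [Field K] (v : DV K)

theorem DV.mem_max (x : v.vs) : x ∈ IsLocalRing.maximalIdeal v.vs ↔ v.G 1 (x : K) := by
  rw [IsLocalRing.mem_maximalIdeal, mem_nonunits_iff]
  by_cases hx : (x : K) = 0
  · have hx' : x = 0 := Subtype.ext hx
    subst hx'
    exact ⟨fun _ => DV.G_zero 1, fun _ => not_isUnit_zero⟩
  · constructor
    · intro h
      rw [DV.G_iff hx]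
      by_contra hlt
      apply h
      have h0 : v.ord (x : K) = 0 := by
        have := DV.G.le (v := v) (n := 0) x.2 hx
        omega
      refine isUnit_iff_exists_inv.2 ⟨⟨(x : K)⁻¹, ?_⟩, ?_⟩
      · show v.G 0 _
        exact DV.G_of_le (by rw [v.ord_inv hx, h0]; simp)
      · apply Subtype.ext
        show (x : K) * (x : K)⁻¹ = 1
        exact mul_inv_cancel₀ hx
    · intro h hu
      obtain ⟨y, hy⟩ := isUnit_iff_exists_inv.1 hu
      have h1 : (x : K) * (y : K) = 1 := congrArg Subtype.val hy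
      have h2 := h.mul (show v.G 0 (y : K) from y.2)
      rw [h1] at h2
      have := h2.le one_ne_zero
      rw [v.ord_one] at this
      omega

theorem DV.vs_pid : IsPrincipalIdealRing v.vs := by
  classical
  refine ⟨fun I => ?_⟩
  by_cases hI : I = ⊥
  · subst hI
    exact ⟨0, by simp⟩
  · obtain ⟨x₀, hx₀, hx₀0⟩ := Submodule.exists_mem_ne_zero_of_ne_bot hI
    have hex : ∃ n : ℕ, ∃ x : v.vs, x ∈ I ∧ (x : K) ≠ 0 ∧ v.ord (x : K) = n := by
      have h0 : (x₀ : K) ≠ 0 := fun h => hx₀0 (Subtype.ext h)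
      have := DV.G.le (v := v) (n := 0) x₀.2 h0
      exact ⟨(v.ord (x₀ : K)).toNat, x₀, hx₀, h0, by omega⟩
    obtain ⟨g, hg, hg0, hgn⟩ := Nat.find_spec hex
    refine ⟨g, ?_⟩
    apply le_antisymm
    · intro x hx
      rw [Submodule.mem_span_singleton]
      by_cases h0 : (x : K) = 0
      · exact ⟨0, by rw [zero_smul]; exact Subtype.ext h0.symm⟩
      · have h1 := DV.G.le (v := v) (n := 0) x.2 h0
        have h2 : Nat.find hex ≤ (v.ord (x : K)).toNat :=
          Nat.find_min' hex ⟨x, hx, h0, by omega⟩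
        refine ⟨⟨(x : K) / g, ?_⟩, ?_⟩
        · show v.G 0 _
          exact DV.G_of_le (by rw [v.ord_div h0 hg0]; omega)
        · apply Subtype.ext
          show (x : K) / g * g = x
          exact div_mul_cancel₀ _ hg0
    · rw [Submodule.span_singleton_le_iff_mem]
      exact hg

theorem DV.index_max : ((v.O 1).comap (v.vs.subtype : v.vs →+ K)).index = v.resCard := by
  rw [← AddSubgroup.relIndex_top_right, AddSubgroup.relIndex_comap]
  unfold DV.resCard
  congr 1
  ext x
  constructor
  · rintro ⟨y, -, rfl⟩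
    exact y.2
  · intro hx
    exact ⟨⟨x, hx⟩, trivial, rfl⟩

theorem DV.card_resField : Nat.card (v.vs ⧸ IsLocalRing.maximalIdeal v.vs) = v.resCard := by
  rw [← v.index_max]
  have h : ((v.O 1).comap (v.vs.subtype : v.vs →+ K)) =
      (IsLocalRing.maximalIdeal v.vs).toAddSubgroup := by
    ext x
    exact (v.mem_max x).symm
  rw [h]
  rfl

end pid

section ef

variable {K L : Type*} [Field K] [Field L] [Algebra K L]

/-- The residue field of a place over `v` is a vector space over the residue field of `v`. -/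
theorem Over.exists_f {w : DV L} {v : DV K} (h : Over w v) (hw : w.resCard ≠ 0) :
    ∃ f : ℕ, 1 ≤ f ∧ w.resCard = v.resCard ^ f := by
  let φ : v.vs →+* w.vs := ((algebraMap K L).comp v.vs.subtype).codRestrict w.vs.toSubring
    fun x => (h.G_zero_iff _).2 x.2
  have hφ : IsLocalRing.maximalIdeal v.vs ≤ (IsLocalRing.maximalIdeal w.vs).comap φ := by
    intro x hx
    rw [Ideal.mem_comap, w.mem_max]
    exact (h.G_one_iff _).2 ((v.mem_max x).1 hx)
  let ψ : (v.vs ⧸ IsLocalRing.maximalIdeal v.vs) →+* (w.vs ⧸ IsLocalRing.maximalIdeal w.vs) :=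
    Ideal.quotientMap _ φ hφ
  let _ := Ideal.Quotient.field (IsLocalRing.maximalIdeal v.vs)
  let _ := ψ.toAlgebra
  have hfin : Finite (w.vs ⧸ IsLocalRing.maximalIdeal w.vs) := by
    apply Nat.finite_of_card_ne_zero
    rw [w.card_resField]
    exact hw
  have : Module.Finite (v.vs ⧸ IsLocalRing.maximalIdeal v.vs)
    (w.vs ⧸ IsLocalRing.maximalIdeal w.vs) := Module.Finite.of_finite
  have h1 := Module.natCard_eq_pow_finrank (K := v.vs ⧸ IsLocalRing.maximalIdeal v.vs)
    (V := w.vs ⧸ IsLocalRing.maximalIdeal w.vs)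
  rw [v.card_resField, w.card_resField] at h1
  refine ⟨_, ?_, h1⟩
  rw [Nat.one_le_iff_ne_zero]
  intro h0
  rw [h0, pow_zero] at h1
  exact w.resCard_ne_one h1

end ef

end Pool.Agent.FF
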