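import Pool.Agent.FD.NumD

/-!
# The numbers for all squares, the two theorems
-/

set_option autoImplicit false

namespace Pool.Agent.FF

namespace AllP

theorem le_logb_of_pow {x y n : ℕ} (hn : 0 < n) (h : 2 ^ x ≤ y ^ n) (hy : 0 < y) :
    (x : ℝ) / n ≤ Real.logb 2 y := by
  have h1 : (x : ℝ) ≤ Real.logb 2 ((y : ℝ) ^ n) := by
    rw [Real.le_logb_iff_rpow_le (by norm_num) (by positivity), Real.rpow_natCast]
    exact_mod_cast h
  rw [Real.logb_pow] at h1
  rw [div_le_iff₀ (by exact_mod_cast hn)]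
  linarith

theorem blk_81 : BlkF 81 23 ((23 : ℕ) : ℝ) :=
  blkF_lp (a := 4) (by norm_num) (by norm_num) (by decide +kernel) (by norm_num) (by norm_num)

/-- the large even `r = 2 m`, `m = 2 ^ L` -/
theorem largeE {k : Type} [Field k] {l : ℕ} (hl : 4 ≤ l)
    (H : Good k (2 * (2 : ℝ) ^ l - 1) 1 (2 * ((l : ℝ) + 1))) :
    ENNReal.ofReal ((2 * (2 : ℝ) ^ l + 1) / (2 + 1 / (2 * ((l : ℝ) + 1)))) ≤ LL k := by
  obtain ⟨m, hm⟩ : ∃ m : ℕ, m = 2 ^ l := ⟨_, rfl⟩
  have hm16 : 16 ≤ m := by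
    rw [hm]
    calc 16 = 2 ^ 4 := by norm_num
      _ ≤ 2 ^ l := Nat.pow_le_pow_right (by norm_num) hl
  have hme : Even m := by
    rw [hm]
    exact (Nat.even_pow' (by omega)).2 even_two
  have hmR : (m : ℝ) = 2 ^ l := by
    rw [hm]
    push_cast
    ring
  have hL : Real.logb 2 m = l := by
    rw [hmR, Real.logb_pow, Real.logb_self_eq_one (by norm_num), mul_one]
  rw [← hmR] at H ⊢
  have hmr : (16 : ℝ) ≤ m := by exact_mod_cast hm16
  have hm0 : (0 : ℝ) < m := by linarith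
  have hl0 : (0 : ℝ) ≤ l := Nat.cast_nonneg _
  have hl2 : 0 < Real.log 2 := Real.log_pos (by norm_num)
  set X : ℝ := (m : ℝ) * (2 * l + 1 / Real.log 2) with hX
  have hX0 : 0 ≤ X := by positivity
  set κ : ℕ := ⌈X⌉₊ with hκ
  have hκ1 : X ≤ κ := Nat.le_ceil _
  have hκ2 : (κ : ℝ) < X + 1 := Nat.ceil_lt_add_one hX0
  set lam : ℝ := 2 * ((l : ℝ) + 1) with hlam
  have hlam0 : 0 < lam := by positivity
  obtain ⟨u, hu⟩ : ∃ u : ℕ, m ^ 3 = 2 * u + (2 * m ^ 2 - 2) := by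
    have hb : 2 * m ^ 2 ≤ m ^ 3 := by
      have : m ^ 3 = m * m ^ 2 := by ring
      rw [this]
      exact Nat.mul_le_mul_right _ (by omega)
    have h64 : 8 ^ 2 ≤ m ^ 2 := Nat.pow_le_pow_left (by omega) 2
    have h3 : Even (m ^ 3) := (Nat.even_pow' (by norm_num)).2 hme
    obtain ⟨v, hv⟩ := h3
    exact ⟨v - m ^ 2 + 1, by omega⟩
  obtain ⟨t, ht⟩ : ∃ t : ℕ, t = 2 * m ^ 2 - 2 := ⟨_, rfl⟩
  rw [← ht] at hu
  have hmm : (m : ℝ) ^ 3 = 2 * u + t := by exact_mod_cast hu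
  have htR : (t : ℝ) = 2 * (m : ℝ) ^ 2 - 2 := by
    have h1 : t + 2 = 2 * m ^ 2 := by
      have h64 : 8 ^ 2 ≤ m ^ 2 := Nat.pow_le_pow_left (by omega) 2
      omega
    have h2 : ((t + 2 : ℕ) : ℝ) = ((2 * m ^ 2 : ℕ) : ℝ) := by exact_mod_cast h1
    push_cast at h2
    linarith
  -- the volume
  have hvol := vol (by omega : 8 ≤ m) (by rw [hL]; exact hκ1)
  have hL1 := logb_le (by linarith : (8 : ℝ) ≤ m)
  rw [hL] at hL1
  have h14 := inv_log_two
  have hκ3 : (κ : ℝ) ≤ m * (2 * l + 1.4427) + 1 := by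
    have : X ≤ m * (2 * l + 1.4427) := mul_le_mul_of_nonneg_left (by linarith) hm0.le
    linarith
  have hκB : κ < m ^ 3 := by
    have h1 : (κ : ℝ) < (m : ℝ) ^ 3 := by
      have h5 : m * (2 * (l : ℝ) + 1.4427) + 1 < (m : ℝ) ^ 3 := by
        have h6 : 2 * (l : ℝ) + 1.4427 ≤ 4.5573 + 0.36068 * m := by linarith
        have h7 : (m : ℝ) * (2 * l + 1.4427) ≤ m * (4.5573 + 0.36068 * m) :=
          mul_le_mul_of_nonneg_left h6 hm0.le
        nlinarith [mul_nonneg hm0.le (mul_nonneg hm0.le (by linarith : (0 : ℝ) ≤ m - 8))]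
      linarith
    exact_mod_cast h1
  have hsq : (m ^ 3 - 2 * u) ^ 2 < 4 * m * (m ^ 3 - m) := by
    have h1 : m ^ 3 - 2 * u = t := by omega
    rw [h1]
    obtain ⟨n, hn⟩ : ∃ n : ℕ, m ^ 2 = n + 1 := ⟨m ^ 2 - 1, by
      have : 1 ≤ m ^ 2 := Nat.one_le_pow _ _ (by omega)
      omega⟩
    have h3 : m ^ 3 - m = m * n := by
      have : m ^ 3 = m * n + m := by
        calc m ^ 3 = m * m ^ 2 := by ring
          _ = m * n + m := by rw [hn]; ring
      omega
    rw [h3]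
    have h4 : t ≤ 2 * n := by omega
    have h5 : 4 * m * (m * n) = 4 * (n + 1) * n := by
      rw [← hn]
      ring
    rw [h5]
    have hn0 : 0 < n := by
      have : 8 ^ 2 ≤ m ^ 2 := Nat.pow_le_pow_left (by omega) 2
      omega
    calc t ^ 2 ≤ (2 * n) ^ 2 := Nat.pow_le_pow_left h4 2
      _ < 4 * (n + 1) * n := by nlinarith
  have hb : BlkF (m ^ 3) κ (u : ℝ) := blkF_lp (a := m) (by omega)
    (by
      have : m ^ 3 = m * m * m := by ring
      rw [this]
      nlinarith) hvol (by omega) hsq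
  refine H _ _ _ _ hb hκB (Nat.cast_nonneg _)
    (by
      push_cast
      rw [hmm]
      have : (0 : ℝ) ≤ t := Nat.cast_nonneg _
      have : (0 : ℝ) ≤ u := Nat.cast_nonneg _
      linarith) ?_
  -- the inequality
  push_cast
  have e1 : (2 : ℝ) - 2 * u / (m : ℝ) ^ 3 = 1 + t / (m : ℝ) ^ 3 := by
    have : (m : ℝ) ^ 3 ≠ 0 := by positivity
    field_simp
    linarith
  rw [e1]
  have hs0 : (0 : ℝ) < 2 * m - 1 := by linarith
  have hden : (0 : ℝ) < (2 * lam + 1) * (m : ℝ) ^ 3 + κ * (2 * m - 1) := by positivity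
  have e2 : (2 * (m : ℝ) + 1) / (2 + 1 / lam) = (2 * m + 1) * lam / (2 * lam + 1) := by
    field_simp
  have e3 : (2 * (m : ℝ) - 1) * (1 + t / (m : ℝ) ^ 3) /
      (2 + (1 + κ / (m : ℝ) ^ 3 * (2 * m - 1)) / lam) =
      (2 * m - 1) * ((m : ℝ) ^ 3 + t) * lam / ((2 * lam + 1) * (m : ℝ) ^ 3 + κ * (2 * m - 1)) := by
    have h3 : (0 : ℝ) < 2 + (1 + κ / (m : ℝ) ^ 3 * (2 * m - 1)) / lam := by positivity
    rw [div_eq_div_iff h3.ne' hden.ne']
    field_simp
    ring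
  rw [e2, e3, div_le_div_iff₀ (by positivity) hden]
  have key : (2 * (m : ℝ) + 1) * ((2 * lam + 1) * (m : ℝ) ^ 3 + κ * (2 * m - 1)) ≤
      (2 * m - 1) * ((m : ℝ) ^ 3 + t) * (2 * lam + 1) := by
    rw [htR, hlam]
    have h1 : (4 * (m : ℝ) ^ 2 - 1) * κ ≤ (4 * (m : ℝ) ^ 2 - 1) * (m * (2 * l + 1.4427) + 1) :=
      mul_le_mul_of_nonneg_left hκ3 (by nlinarith)
    have h2 : (l : ℝ) * (2 * (m : ℝ) ^ 2 + 4 * m) ≤
        (1.5573 + 0.18034 * m) * (2 * (m : ℝ) ^ 2 + 4 * m) :=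
      mul_le_mul_of_nonneg_right hL1 (by positivity)
    have h3 : 0 ≤ (m : ℝ) ^ 2 * (m - 16) := mul_nonneg (by positivity) (by linarith)
    have h4 : 0 ≤ (m : ℝ) * (m - 16) := mul_nonneg (by positivity) (by linarith)
    nlinarith [mul_nonneg hl0 hm0.le]
  nlinarith [mul_le_mul_of_nonneg_left key hlam0.le]

/-- a single odd `r` -/
theorem smallN {k : Type} [Field k] {r : ℕ} (hr : 3 ≤ r)
    (H : Good k ((r : ℝ) - 1) 2 (2 * Real.logb 2 r)) {B κ : ℕ} {u : ℝ}
    (hb : BlkF B κ u) (hκ : κ < B) (hu : 0 ≤ u) (hu2 : u ≤ B) {x n : ℕ} (hn : 0 < n)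
    (hx : 2 ^ x ≤ r ^ n)
    (hin : ∀ l : ℝ, (x : ℝ) / n ≤ l → ((r : ℝ) + 1) * (2 * (2 * l) + 2 + κ / B * (r - 1)) ≤
      (r - 1) * (2 - 2 * u / B) * (2 * (2 * l) + 2)) :
    ENNReal.ofReal (((r : ℝ) + 1) / (2 + 1 / Real.logb 2 r)) ≤ LL k := by
  have hr3 : (3 : ℝ) ≤ r := by exact_mod_cast hr
  have hlg0 : 0 < Real.logb 2 r := Real.logb_pos (by norm_num) (by linarith)
  have e : (1 : ℝ) / Real.logb 2 r = 2 / (2 * Real.logb 2 r) := by
    field_simp
  rw [e]
  exact smallD (by linarith) (by norm_num) hlg0 H hb hκ hu hu2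
    (hin _ (le_logb_of_pow hn hx (by omega)))

end AllP

open AllP in
/-- **All odd squares.** -/
theorem LL_good_odd {k : Type} [Field k] {r : ℕ} (hr : 7 ≤ r) (hodd : Odd r)
    (H : Good k ((r : ℝ) - 1) 2 (2 * Real.logb 2 r)) :
    ENNReal.ofReal (((r : ℝ) + 1) / (2 + 1 / Real.logb 2 r)) ≤ LL k := by
  obtain ⟨m, hm⟩ := hodd
  by_cases h8 : 8 ≤ m
  · subst hm
    push_cast at H ⊢
    have e : (2 * (m : ℝ) + 1 + 1) = 2 * m + 2 := by ring
    have e' : (2 * (m : ℝ) + 1 - 1) = 2 * m := by ring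
    rw [e'] at H
    rw [e]
    exact largeD h8 H
  · have h3 : m = 3 ∨ m = 4 ∨ m = 5 ∨ m = 6 ∨ m = 7 := by omega
    rcases h3 with rfl | rfl | rfl | rfl | rfl
    · subst hm
      refine smallN (by norm_num) H blk_907 (by norm_num) (by norm_num) (by norm_num) (x := 14)
        (n := 5) (by norm_num) (by norm_num) ?_
      intro l hl
      norm_num at hl ⊢
      nlinarith
    · subst hm
      refine smallN (by norm_num) H blk_907 (by norm_num) (by norm_num) (by norm_num) (x := 3)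
        (n := 1) (by norm_num) (by norm_num) ?_
      intro l hl
      norm_num at hl ⊢
      nlinarith
    · subst hm
      refine smallN (by norm_num) H blk_907 (by norm_num) (by norm_num) (by norm_num) (x := 10)
        (n := 3) (by norm_num) (by norm_num) ?_
      intro l hl
      norm_num at hl ⊢
      nlinarith
    · subst hm
      refine smallN (by norm_num) H blk_46 (by norm_num) (by norm_num) (by norm_num) (x := 11)
        (n := 3) (by norm_num) (by norm_num) ?_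
      intro l hl
      norm_num at hl ⊢
      nlinarith
    · subst hm
      refine smallN (by norm_num) H blk_46 (by norm_num) (by norm_num) (by norm_num) (x := 7)
        (n := 2) (by norm_num) (by norm_num) ?_
      intro l hl
      norm_num at hl ⊢
      nlinarith

open AllP in
/-- **All even squares `q = 4 ^ a`, `a ≥ 3`.** -/
theorem LL_good_even {k : Type} [Field k] {a : ℕ} (ha : 3 ≤ a)
    (H : Good k ((2 : ℝ) ^ a - 1) 1 ((2 * a : ℕ) : ℝ)) :
    ENNReal.ofReal (((2 : ℝ) ^ a + 1) / (2 + 1 / (2 * (a : ℝ)))) ≤ LL k := by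
  push_cast at H
  by_cases h5 : 5 ≤ a
  · obtain ⟨l, rfl⟩ : ∃ l, a = l + 1 := ⟨a - 1, by omega⟩
    have h := largeE (k := k) (l := l) (by omega) (by
      push_cast at H
      rw [pow_succ, mul_comm ((2 : ℝ) ^ l)] at H
      exact H)
    rw [pow_succ, mul_comm ((2 : ℝ) ^ l)]
    push_cast
    exact h
  · have h3 : a = 3 ∨ a = 4 := by omega
    rcases h3 with rfl | rfl
    · have h := smallD (k := k) (r := (2 : ℝ) ^ 3) (kap := 1) (lg := ((3 : ℕ) : ℝ)) (by norm_num)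
        (by norm_num) (by norm_num) H blk_907 (by norm_num) (by norm_num) (by norm_num)
        (by norm_num)
      exact h
    · have h := smallD (k := k) (r := (2 : ℝ) ^ 4) (kap := 1) (lg := ((4 : ℕ) : ℝ)) (by norm_num)
        (by norm_num) (by norm_num) H blk_81 (by norm_num) (by norm_num) (by norm_num)
        (by norm_num)
      exact h

end Pool.Agent.FF
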