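import Pool.Agent.FF.PRank
import Pool.Agent.FF.TmOb

/-! # characteristic two: the obstruction group has at most `2 ^ g` elements -/

set_option autoImplicit false

namespace Pool.Agent.FF

theorem ob_genus {k K : Type*} [Field k] [Finite k] [Field K] [Algebra k K] [CharP K 2] {g : ℕ}
    (C : Cv k K g) : Ob K g := Ob.of_genus C

end Pool.Agent.FF
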