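import Pool.Agent.FD.Primes
import Pool.Agent.FD.Lines

/-! # S: the sizes `ψ(N)` are log-dense -/

set_option autoImplicit false

namespace Pool.Agent.FF

open Polynomial

theorem sizes (F : Type*) [Field F] [Finite F] {eta : ℝ} (he : 0 < eta) : ∃ X0 : ℝ, ∀ X : ℝ,
    X0 ≤ X → ∃ (s : ℕ) (M : Fin s → F[X]), Function.Injective M ∧
      (∀ i, (M i).Monic ∧ Irreducible (M i) ∧ (M i).eval 1 ≠ 0) ∧
      X ≤ psiM M ∧ (psiM M : ℝ) ≤ (1 + eta) * X := by
  classical
  have hr2 : 2 ≤ Nat.card F := Finite.one_lt_card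
  set r : ℝ := (Nat.card F : ℝ) with hr
  have hr1 : (2 : ℝ) ≤ r := by rw [hr]; exact_mod_cast hr2
  have hr0 : 0 < r := by linarith
  -- the small parameter
  set δ : ℝ := min eta 1 / 3 with hδ
  have hδ0 : 0 < δ := by rw [hδ]; positivity
  have hδ1 : (1 + δ) * (1 + δ) ≤ 1 + eta := by
    have h1 : min eta 1 ≤ eta := min_le_left _ _
    have h2 : min eta 1 ≤ 1 := min_le_right _ _
    have h3 : min eta 1 = 3 * δ := by rw [hδ]; ring
    rw [h3] at h1 h2
    nlinarith
  obtain ⟨D0, hD0⟩ := exists_pow_lt_of_lt_one hδ0 (show 1 / r < 1 by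
    rw [div_lt_one hr0]; linarith)
  have hsmall : ∀ n, D0 ≤ n → 1 / r ^ n ≤ δ := by
    intro n hn
    have h1 : 1 / r ^ n ≤ 1 / r ^ D0 :=
      one_div_le_one_div_of_le (by positivity) (pow_le_pow_right₀ (by linarith) hn)
    rw [one_div_pow] at hD0
    linarith
  obtain ⟨T, M, hinj, hM, hB⟩ := exists_seq (F := F) (D0 + 1) r
  set N : ℕ → F[X] := fun i => if h : i < T then M ⟨i, h⟩ else 1 with hN
  have hNi : ∀ i (h : i < T), N i = M ⟨i, h⟩ := fun i h => by rw [hN]; simp only [dif_pos h]
  set dd : ℕ → ℕ := fun i => (N i).natDegree with hdd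
  have hdd1 : ∀ i < T, D0 + 1 < dd i := fun i h => by
    rw [hdd]; simp only; rw [hNi i h]; exact (hM _).2.2
  set κ : ℕ → ℝ := fun t => ∏ i ∈ Finset.range t, (1 + 1 / r ^ dd i) with hκ
  have hκT : r ≤ κ T := by
    refine hB.trans (le_of_eq ?_)
    rw [hκ]
    simp only
    rw [← Fin.prod_univ_eq_prod_range (fun i => 1 + 1 / r ^ dd i) T]
    refine Finset.prod_congr rfl fun i _ => ?_
    rw [hdd]
    simp only
    rw [hNi i i.isLt]
  have hκ0 : ∀ t, 0 < κ t := fun t => Finset.prod_pos fun i _ => by positivity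
  set S : ℕ := ∑ i ∈ Finset.range T, dd i with hS
  refine ⟨r ^ (S + (S + D0 + 2)), fun X hX => ?_⟩
  have hX1 : 1 ≤ X := (one_le_pow₀ (by linarith)).trans hX
  obtain ⟨m, hm1, hm2⟩ := exists_nat_pow_near hX1 (show 1 < r by linarith)
  have hrm : 0 < r ^ m := by positivity
  have hmS : S + (S + D0 + 2) ≤ m := by
    have h1 : r ^ (S + (S + D0 + 2)) < r ^ (m + 1) := lt_of_le_of_lt hX hm2
    have h2 := (pow_lt_pow_iff_right₀ (show 1 < r by linarith)).1 h1
    omega
  -- the index
  have hex : ∃ t, X / r ^ m ≤ κ t := by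
    refine ⟨T, le_trans ?_ hκT⟩
    rw [div_le_iff₀ hrm, ← pow_succ']
    exact hm2.le
  set t := Nat.find hex with ht
  have htT : t ≤ T := by
    apply Nat.find_min' hex
    refine le_trans ?_ hκT
    rw [div_le_iff₀ hrm, ← pow_succ']
    exact hm2.le
  have ht1 : X / r ^ m ≤ κ t := Nat.find_spec hex
  have hlow : X ≤ r ^ m * κ t := by
    rw [div_le_iff₀ hrm] at ht1
    linarith
  have hupp : r ^ m * κ t ≤ (1 + δ) * X := by
    rcases Nat.eq_zero_or_pos t with h0 | h0
    · rw [h0, hκ]
      simp only [Finset.range_zero, Finset.prod_empty, mul_one]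
      nlinarith
    · have h1 : ¬ X / r ^ m ≤ κ (t - 1) := Nat.find_min hex (by omega)
      push Not at h1
      have h2 : κ t = κ (t - 1) * (1 + 1 / r ^ dd (t - 1)) := by
        rw [hκ]
        simp only
        conv_lhs => rw [show t = (t - 1) + 1 by omega]
        rw [Finset.prod_range_succ]
      have h3 : 1 / r ^ dd (t - 1) ≤ δ := hsmall _ (by have := hdd1 (t - 1) (by omega); omega)
      rw [lt_div_iff₀ hrm] at h1
      rw [h2]
      calc r ^ m * (κ (t - 1) * (1 + 1 / r ^ dd (t - 1)))
          = (κ (t - 1) * r ^ m) * (1 + 1 / r ^ dd (t - 1)) := by ring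
        _ ≤ X * (1 + δ) := by
            apply mul_le_mul h1.le (by linarith) (by positivity) (by linarith)
        _ = (1 + δ) * X := by ring
  -- the last polynomial
  set St : ℕ := ∑ i ∈ Finset.range t, dd i with hSt
  have hStS : St ≤ S := Finset.sum_le_sum_of_subset (Finset.range_mono htT)
  obtain ⟨f, hf1, hf2, hf3⟩ := exists_irr (F := F) (n := m - St) (by omega)
  have hle : ∀ i < T, dd i ≤ S := fun i hi =>
    Finset.single_le_sum (f := dd) (fun _ _ => Nat.zero_le _) (Finset.mem_range.2 hi)
  have hfN : ∀ i < T, N i ≠ f := by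
    intro i hi h
    have h1 := hle i hi
    have h2 : dd i = m - St := by rw [hdd]; simp only; rw [h, hf3]
    have h3 : m - St ≤ S := h2 ▸ h1
    clear_value S St
    omega
  have heval : ∀ g : F[X], Irreducible g → 1 < g.natDegree → g.eval 1 ≠ 0 := by
    intro g h1 h2 h3
    have h4 := degree_eq_one_of_irreducible_of_root h1 (x := 1) h3
    have h5 : g.natDegree = 1 := natDegree_eq_of_degree_eq_some h4
    omega
  refine ⟨t + 1, Fin.snoc (fun i : Fin t => N i) f, ?_, ?_, ?_⟩
  · intro i j hij
    induction i using Fin.lastCases with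
    | last =>
      induction j using Fin.lastCases with
      | last => rfl
      | cast j =>
        rw [Fin.snoc_last, Fin.snoc_castSucc] at hij
        exact absurd hij.symm (hfN j (by have := j.isLt; omega))
    | cast i =>
      induction j using Fin.lastCases with
      | last =>
        rw [Fin.snoc_last, Fin.snoc_castSucc] at hij
        exact absurd hij (hfN i (by have := i.isLt; omega))
      | cast j =>
        rw [Fin.snoc_castSucc, Fin.snoc_castSucc] at hij
        rw [hNi i (by have := i.isLt; omega), hNi j (by have := j.isLt; omega)] at hij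
        have h1 := hinj hij
        have h2 : (i : ℕ) = j := by simpa using h1
        rw [Fin.ext h2]
  · intro i
    induction i using Fin.lastCases with
    | last =>
      rw [Fin.snoc_last]
      exact ⟨hf1, hf2, heval f hf2 (by omega)⟩
    | cast i =>
      rw [Fin.snoc_castSucc]
      have hi : (i : ℕ) < T := by have := i.isLt; omega
      rw [hNi i hi]
      exact ⟨(hM _).1, (hM _).2.1, heval _ (hM _).2.1 (by have := (hM ⟨i, hi⟩).2.2; omega)⟩
  · have hpsi : ((psiM (Fin.snoc (fun i : Fin t => N i) f : Fin (t + 1) → F[X]) : ℕ) : ℝ) =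
        r ^ m * κ t * (1 + 1 / r ^ (m - St)) := by
      rw [psiM, Fin.prod_univ_castSucc]
      simp only [Fin.snoc_castSucc, Fin.snoc_last]
      push_cast
      rw [hf3]
      have h1 : ∏ i : Fin t, (r ^ (N i).natDegree + 1) = r ^ St * κ t := by
        rw [Fin.prod_univ_eq_prod_range (fun i => r ^ (N i).natDegree + 1) t, hSt,
          ← Finset.prod_pow_eq_pow_sum, hκ, ← Finset.prod_mul_distrib]
        refine Finset.prod_congr rfl fun i _ => ?_
        have : r ^ dd i ≠ 0 := by positivity
        rw [mul_add, mul_one, mul_one_div_cancel this]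
      rw [← hr, h1]
      have h2 : r ^ m = r ^ St * r ^ (m - St) := by
        rw [← pow_add]; congr 1; omega
      have h3 : r ^ (m - St) ≠ 0 := by positivity
      rw [h2]
      field_simp
    rw [hpsi]
    have hd : 1 / r ^ (m - St) ≤ δ := hsmall _ (by omega)
    have hd0 : 0 < 1 / r ^ (m - St) := by positivity
    constructor
    · have : 0 < r ^ m * κ t := mul_pos hrm (hκ0 t)
      nlinarith
    · calc r ^ m * κ t * (1 + 1 / r ^ (m - St)) ≤ ((1 + δ) * X) * (1 + δ) := by
            apply mul_le_mul hupp (by linarith) (by positivity) (by positivity)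
        _ = (1 + δ) * (1 + δ) * X := by ring
        _ ≤ (1 + eta) * X := mul_le_mul_of_nonneg_right hδ1 (by linarith)

/-- the degree is at most the logarithm of the size -/
theorem pow_dgM_le {F : Type*} [Field F] [Finite F] {s : ℕ} (M : Fin s → F[X]) :
    Nat.card F ^ dgM M Finset.univ ≤ psiM M := by
  rw [dgM, psiM, ← Finset.prod_pow_eq_pow_sum]
  exact Finset.prod_le_prod' fun i _ => Nat.le_succ _

end Pool.Agent.FF
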