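import Pool.Agent.FD.Drin
import Pool.Agent.FD.Sizes
import Pool.Agent.FD.ObG
import Pool.Agent.FD.NumD2
import Pool.Agent.FY.SeR

/-!
# Log-dense families over the field with `r ^ 2` elements
-/

set_option autoImplicit false

namespace Pool.Agent.FF

/-- a field with `r` elements in a field with `r ^ 2` elements -/
theorem exists_subF {k : Type} [Field k] [Finite k] {r : ℕ} (hk : Nat.card k = r ^ 2) :
    ∃ (F : Type) (_ : Field F) (_ : Finite F) (_ : Algebra F k), Nat.card F = r := by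
  have := Fintype.ofFinite k
  obtain ⟨p, hp⟩ := CharP.exists k
  obtain ⟨n, hpp, hc⟩ := FiniteField.card k p
  have : Fact p.Prime := ⟨hpp⟩
  rw [← Nat.card_eq_fintype_card, hk] at hc
  obtain ⟨a, ha, har⟩ : ∃ a ≤ (n : ℕ), r = p ^ a := by
    have h1 : r ∣ p ^ (n : ℕ) := by
      rw [← hc]
      exact dvd_pow_self r (by norm_num)
    exact (Nat.dvd_prime_pow hpp).1 h1
  have hn : (n : ℕ) = 2 * a := by
    rw [har, ← pow_mul] at hc
    have := Nat.pow_right_injective hpp.two_le hc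
    omega
  have ha0 : a ≠ 0 := by
    rintro rfl
    have := n.pos
    omega
  have : NeZero a := ⟨ha0⟩
  let F := GaloisField p a
  let _ : Algebra (ZMod p) k := ZMod.algebra k p
  have hF : Nat.card F = p ^ a := GaloisField.card p a ha0
  have hfF : Module.finrank (ZMod p) F = a := GaloisField.finrank p ha0
  have hfk : Module.finrank (ZMod p) k = 2 * a := by
    have h1 := FiniteField.pow_finrank_eq_card p k
    rw [← Nat.card_eq_fintype_card, hk, hc, hn] at h1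
    exact Nat.pow_right_injective hpp.two_le h1
  obtain ⟨f⟩ := FiniteField.nonempty_algHom_of_finrank_dvd (F := ZMod p) (K := F) (L := k) (by
    rw [hfF, hfk]
    exact dvd_mul_left _ _)
  exact ⟨F, inferInstance, Nat.finite_of_card_ne_zero (by rw [hF]; exact pow_ne_zero _ hpp.ne_zero),
    f.toRingHom.toAlgebra, by rw [hF, har]⟩

/-- the curves of the dense family, before the choice of the parity -/
theorem famD_aux {k : Type} [Field k] [Finite k] {r : ℕ} (hr : 2 ≤ r) (hk : Nat.card k = r ^ 2) :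
    ∃ A : ℕ, ∀ η : ℝ, 0 < η → η < 1 → ∃ m0 : ℝ, ∀ m : ℝ, m0 ≤ m → ∃ (E : Type) (_ : Field E)
      (_ : Algebra k E) (G : ℕ) (T : Finset (DV E)), IsFF k E ∧ Cv k E G ∧ (G : ℝ) ≤ m ∧
        (∀ P ∈ T, P.Rat k) ∧ T.Nonempty ∧ ((r : ℝ) - 1) * (1 - η) * m ≤ T.card ∧
        ∀ d : ℕ, (A : ℝ) * (Real.logb 2 m + 1) ≤ d → ∃ Q : Finset (DV E),
          (∀ v ∈ Q, v.deg (Nat.card k) = d) ∧ Nat.card k ^ d ≤ 2 * d * Q.card := by
  obtain ⟨F, iF, iFin, iA, hF⟩ := exists_subF hk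
  obtain ⟨A, hA⟩ := drin F k (by rw [hk, hF])
  have hrR : (2 : ℝ) ≤ r := by exact_mod_cast hr
  have hr1 : (0 : ℝ) < (r : ℝ) - 1 := by linarith
  refine ⟨A * (r + 1), fun η h0 h1 => ?_⟩
  obtain ⟨X0, hX0⟩ := sizes F h0
  refine ⟨max 1 (X0 * (1 + η) / ((r : ℝ) - 1)), fun m hm => ?_⟩
  have hm1 : 1 ≤ m := (le_max_left _ _).trans hm
  have hm2 : X0 * (1 + η) / ((r : ℝ) - 1) ≤ m := (le_max_right _ _).trans hm
  have hm0 : 0 < m := by linarith
  have h1η : 0 < 1 + η := by linarith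
  obtain ⟨s, M, hinj, hM, hlo, hhi⟩ := hX0 (((r : ℝ) - 1) * m / (1 + η)) (by
    rw [div_le_iff₀ hr1] at hm2
    rw [le_div_iff₀ h1η]
    linarith)
  obtain ⟨E, iE, iAE, G, T, hFF, hC, hG, hT, hrat, hpl⟩ := hA s M hM hinj
  have hhi' : (psiM M : ℝ) ≤ ((r : ℝ) - 1) * m := by
    refine hhi.trans (le_of_eq ?_)
    field_simp
  refine ⟨E, iE, iAE, G, T, hFF, hC, ?_, hrat, ?_, ?_, ?_⟩
  · have h3 : (((Nat.card F - 1) * G : ℕ) : ℝ) ≤ (psiM M : ℝ) := by exact_mod_cast hG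
    rw [hF, Nat.cast_mul, Nat.cast_sub (by omega), Nat.cast_one] at h3
    exact le_of_mul_le_mul_left (h3.trans hhi') hr1
  · rw [← Finset.card_pos, hT]
    have : (0 : ℝ) < psiM M := lt_of_lt_of_le (by positivity) hlo
    exact_mod_cast this
  · rw [hT]
    refine le_trans ?_ hlo
    rw [le_div_iff₀ h1η]
    have : 0 ≤ ((r : ℝ) - 1) * m := by positivity
    nlinarith [mul_nonneg this (sq_nonneg η)]
  · intro d hd
    refine hpl d ?_
    have h3 : (dgM M Finset.univ : ℝ) ≤ Real.logb 2 m + r := by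
      have h4 : (2 : ℝ) ^ dgM M Finset.univ ≤ (r : ℝ) * m := by
        have h5 : 2 ^ dgM M Finset.univ ≤ psiM M :=
          (Nat.pow_le_pow_left (by rw [hF]; exact hr) _).trans (pow_dgM_le M)
        have h6 : (2 : ℝ) ^ dgM M Finset.univ ≤ (psiM M : ℝ) := by exact_mod_cast h5
        refine (h6.trans hhi').trans ?_
        nlinarith
      have h5 : (dgM M Finset.univ : ℝ) ≤ Real.logb 2 ((r : ℝ) * m) := by
        rw [Real.le_logb_iff_rpow_le (by norm_num) (by positivity), Real.rpow_natCast]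
        exact h4
      rw [Real.logb_mul (by positivity) (by positivity)] at h5
      have h6 : Real.logb 2 r ≤ r := by
        rw [Real.logb_le_iff_le_rpow (by norm_num) (by positivity), Real.rpow_natCast]
        exact_mod_cast (Nat.lt_two_pow_self (n := r)).le
      linarith
    have hl0 : 0 ≤ Real.logb 2 m := Real.logb_nonneg (by norm_num) hm1
    have hA0 : (0 : ℝ) ≤ A := Nat.cast_nonneg _
    have h4 : ((A * (dgM M Finset.univ + 1) : ℕ) : ℝ) ≤ d := by
      refine le_trans ?_ hd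
      push_cast
      have h7 : (dgM M Finset.univ : ℝ) + 1 ≤ ((r : ℝ) + 1) * (Real.logb 2 m + 1) := by nlinarith
      calc (A : ℝ) * ((dgM M Finset.univ : ℝ) + 1) ≤
            A * (((r : ℝ) + 1) * (Real.logb 2 m + 1)) := mul_le_mul_of_nonneg_left h7 hA0
        _ = _ := by ring
    exact_mod_cast h4

/-- the dense family, odd characteristic -/
theorem famD {k : Type} [Field k] [Finite k] (h2 : (2 : k) ≠ 0) {r : ℕ} (hr : 2 ≤ r)
    (hk : Nat.card k = r ^ 2) : ∃ A : ℕ, ∀ η : ℝ, 0 < η → η < 1 → ∃ m0 : ℝ, ∀ m : ℝ, m0 ≤ m →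
      CurveD k A (1, 2, ((r : ℝ) - 1) * (1 - η)) m := by
  obtain ⟨A, hA⟩ := famD_aux hr hk
  refine ⟨A, fun η h0 h1 => ?_⟩
  obtain ⟨m0, hm0⟩ := hA η h0 h1
  refine ⟨m0, fun m hm => ?_⟩
  obtain ⟨E, iE, iAE, G, T, hFF, hC, hG, hrat, hne, hT, hpl⟩ := hm0 m hm
  obtain ⟨R, hR⟩ := hne
  refine ⟨E, iE, iAE, G, 2 * G, T, hFF, hC, ?_, seAll h2 E G hC ⟨R, hrat R hR⟩, ?_, hrat, ⟨R, hR⟩,
    ?_, hpl⟩
  · simpa using hG
  · push_cast
    linarith
  · simpa using hT

/-- the dense family, characteristic two -/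
theorem famE {k : Type} [Field k] [Finite k] [CharP k 2] {r : ℕ} (hr : 2 ≤ r)
    (hk : Nat.card k = r ^ 2) : ∃ A : ℕ, ∀ η : ℝ, 0 < η → η < 1 → ∃ m0 : ℝ, ∀ m : ℝ, m0 ≤ m →
      CurveE k A (1, 1, ((r : ℝ) - 1) * (1 - η)) m := by
  obtain ⟨A, hA⟩ := famD_aux hr hk
  refine ⟨A, fun η h0 h1 => ?_⟩
  obtain ⟨m0, hm0⟩ := hA η h0 h1
  refine ⟨m0, fun m hm => ?_⟩
  obtain ⟨E, iE, iAE, G, T, hFF, hC, hG, hrat, hne, hT, hpl⟩ := hm0 m hm
  have hE : CharP E 2 := charP_of_injective_algebraMap (algebraMap k E).injective 2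
  refine ⟨E, iE, iAE, hE, G, G, T, hFF, hC, ?_, ob_genus hC, ?_, hrat, ?_, fun d hd => ?_⟩
  · simpa using hG
  · simpa using hG
  · simpa using hT
  · obtain ⟨Q, hQ, hQc⟩ := hpl d hd
    have hpos : 0 < Q.card := by
      rcases Nat.eq_zero_or_pos Q.card with h | h
      · rw [h, mul_zero] at hQc
        have : 0 < Nat.card k ^ d := pow_pos Nat.card_pos _
        omega
      · exact h
    obtain ⟨v, hv⟩ := Finset.card_pos.1 hpos
    exact ⟨v, hQ v hv⟩

/-- **All odd squares `q = r ^ 2 ≥ 49`.** -/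
theorem LL_all_odd {k : Type} [Field k] {r : ℕ} (hr : 7 ≤ r) (hodd : Odd r)
    (hk : Nat.card k = r ^ 2) :
    ENNReal.ofReal (((r : ℝ) + 1) / (2 + 1 / Real.logb 2 r)) ≤ LL k := by
  have : Finite k := Nat.finite_of_card_ne_zero (by rw [hk]; positivity)
  have h2 : (2 : k) ≠ 0 := Sset.two_ne (Sset.char_zero_of_card hk) (Nat.odd_iff.1 hodd)
  obtain ⟨A, hA⟩ := famD h2 (by omega) hk
  have hr0 : (0 : ℝ) < r := by exact_mod_cast (by omega : 0 < r)
  have hr7 : (7 : ℝ) ≤ r := by exact_mod_cast hr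
  have hlg : 0 < Real.logb 2 r := Real.logb_pos (by norm_num) (by linarith)
  refine LL_good_odd hr hodd (good_odd h2 (by positivity) ?_ (by linarith) hA)
  rw [hk, mul_comm, Real.rpow_mul (by norm_num), Real.rpow_logb (by norm_num) (by norm_num) hr0]
  push_cast
  norm_num

/-- **All even squares `q = 4 ^ a ≥ 64`.** -/
theorem LL_all_even {k : Type} [Field k] {a : ℕ} (ha : 3 ≤ a) (hk : Nat.card k = (2 ^ a) ^ 2) :
    ENNReal.ofReal (((2 : ℝ) ^ a + 1) / (2 + 1 / (2 * (a : ℝ)))) ≤ LL k := by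
  have : Finite k := Nat.finite_of_card_ne_zero (by rw [hk]; positivity)
  have := Fintype.ofFinite k
  have hk2 : Nat.card k = 2 ^ (2 * a) := by
    rw [hk, ← pow_mul, mul_comm]
  have : Fact (Nat.Prime 2) := ⟨Nat.prime_two⟩
  have : CharP k 2 := charP_of_card_eq_prime_pow (p := 2) (f := 2 * a) (by
    rw [← Nat.card_eq_fintype_card, hk2])
  have h8 : 2 ^ 3 ≤ 2 ^ a := Nat.pow_le_pow_right (by norm_num) ha
  obtain ⟨A, hA⟩ := famE (k := k) (by omega : 2 ≤ 2 ^ a) hk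
  push_cast at hA
  refine LL_good_even ha (good_even (by omega) hk2 ?_ hA)
  have : (2 : ℝ) ^ 3 ≤ 2 ^ a := pow_le_pow_right₀ (by norm_num) ha
  norm_num at this
  linarith

end Pool.Agent.FF
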