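import Pool.Agent.FD.Cusp

/-! # the field fixed by the automorphisms fixing all lines: normality, crude degree bound (6) -/

set_option autoImplicit false

namespace Pool.Agent.FF

open Polynomial

section gen

variable {F W : Type*} [Field F] [AddCommGroup W] [Module F W] (f : W →ₗ[F] W)

/-- the kernel of `M(f)`, `M` irreducible, with `r ^ (2 d)` elements, is generated by two elements -/
theorem HoA.gen2 [Finite F] {M : F[X]} (hM : M.Monic) (hi : Irreducible M)
    (hV : Nat.card (LinearMap.ker (aeval f M)) = Nat.card F ^ (2 * M.natDegree)) :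
    ∃ x y : W, aeval f M x = 0 ∧ aeval f M y = 0 ∧
      LinearMap.ker (aeval f M) ≤ LnA.cyc f x ⊔ LnA.cyc f y := by
  have hr : 1 < Nat.card F := Finite.one_lt_card
  have hd : 0 < M.natDegree := hi.natDegree_pos
  have hVf : Finite (LinearMap.ker (aeval f M)) := by
    apply Nat.finite_of_card_ne_zero
    rw [hV]
    exact pow_ne_zero _ (by omega)
  have h1 : ∃ x ∈ LinearMap.ker (aeval f M), x ≠ 0 := by
    by_contra hcon
    push Not at hcon
    have h2 : LinearMap.ker (aeval f M) = ⊥ := by
      rw [eq_bot_iff]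
      intro x hx
      rw [Submodule.mem_bot]
      exact hcon x hx
    rw [h2] at hV
    have h3 : 1 < Nat.card F ^ (2 * M.natDegree) := Nat.one_lt_pow (by omega) hr
    rw [← hV] at h3
    simp at h3
  obtain ⟨x, hx, hx0⟩ := h1
  have hcx := LnA.card_cyc f hM hi hx0 (LinearMap.mem_ker.1 hx)
  have h4 : ∃ y ∈ LinearMap.ker (aeval f M), y ∉ LnA.cyc f x := by
    by_contra hcon
    push Not at hcon
    have h5 : Finite (LnA.cyc f x) := by
      apply Nat.finite_of_card_ne_zero
      rw [hcx]
      exact pow_ne_zero _ (by omega)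
    have h6 := Nat.card_le_card_of_injective
      (fun v : LinearMap.ker (aeval f M) => (⟨v.1, hcon v.1 v.2⟩ : LnA.cyc f x))
      (fun v w hvw => Subtype.ext (congrArg (fun t : LnA.cyc f x => t.1) hvw))
    rw [hV, hcx] at h6
    have h7 : Nat.card F ^ M.natDegree < Nat.card F ^ (2 * M.natDegree) :=
      Nat.pow_lt_pow_right hr (by omega)
    omega
  obtain ⟨y, hy, hyx⟩ := h4
  have hy0 : y ≠ 0 := by
    rintro rfl
    exact hyx (zero_mem _)
  have hcy := LnA.card_cyc f hM hi hy0 (LinearMap.mem_ker.1 hy)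
  refine ⟨x, y, LinearMap.mem_ker.1 hx, LinearMap.mem_ker.1 hy, ?_⟩
  have hlx := LnA.cyc_le_ker f (LinearMap.mem_ker.1 hx)
  have hly := LnA.cyc_le_ker f (LinearMap.mem_ker.1 hy)
  have hinf : LnA.cyc f x ⊓ LnA.cyc f y = ⊥ := by
    rw [eq_bot_iff]
    rintro z ⟨hzx, hzy⟩
    rw [Submodule.mem_bot]
    by_contra hz
    have hk : aeval f M z = 0 := LinearMap.mem_ker.1 (hlx hzx)
    have h8 := LnA.eq_cyc f hM hi (fun w hw => LnA.cyc_st f hw) hcx hzx hz hk
    have h9 := LnA.eq_cyc f hM hi (fun w hw => LnA.cyc_st f hw) hcy hzy hz hk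
    apply hyx
    rw [← h8, h9]
    exact LnA.self_mem f y
  have hfx : Module.Finite F (LinearMap.ker (aeval f M)) := inferInstance
  have hfx1 : FiniteDimensional F (LnA.cyc f x) := Submodule.finiteDimensional_of_le hlx
  have hfy1 : FiniteDimensional F (LnA.cyc f y) := Submodule.finiteDimensional_of_le hly
  have e1 : Module.finrank F (LnA.cyc f x) = M.natDegree := by
    have := Module.natCard_eq_pow_finrank (K := F) (V := LnA.cyc f x)
    rw [hcx] at this
    exact (Nat.pow_right_injective hr this).symm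
  have e2 : Module.finrank F (LnA.cyc f y) = M.natDegree := by
    have := Module.natCard_eq_pow_finrank (K := F) (V := LnA.cyc f y)
    rw [hcy] at this
    exact (Nat.pow_right_injective hr this).symm
  have e3 : Module.finrank F (LinearMap.ker (aeval f M)) = 2 * M.natDegree := by
    have := Module.natCard_eq_pow_finrank (K := F) (V := LinearMap.ker (aeval f M))
    rw [hV] at this
    exact (Nat.pow_right_injective hr this).symm
  have e4 := Submodule.finrank_sup_add_finrank_inf_eq (LnA.cyc f x) (LnA.cyc f y)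
  rw [hinf, finrank_bot, e1, e2] at e4
  exact (Submodule.eq_of_le_of_finrank_eq (sup_le hlx hly) (by rw [e3]; omega)).ge

/-- the kernel of a product of pairwise coprime polynomials -/
theorem HoA.ker_prod {s : ℕ} (M : Fin s → F[X]) (hc : Pairwise fun i j => IsCoprime (M i) (M j)) :
    LinearMap.ker (aeval f (∏ i, M i)) ≤ ⨆ i, LinearMap.ker (aeval f (M i)) := by
  classical
  have h : ∀ t : Finset (Fin s), LinearMap.ker (aeval f (∏ i ∈ t, M i)) ≤
      ⨆ i, LinearMap.ker (aeval f (M i)) := by
    intro t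
    induction t using Finset.induction_on with
    | empty =>
      rw [Finset.prod_empty, map_one]
      intro x hx
      have : x = 0 := hx
      rw [this]
      exact zero_mem _
    | insert a t ha ih =>
      rw [Finset.prod_insert ha, ← Polynomial.sup_ker_aeval_eq_ker_aeval_mul_of_coprime f
        (IsCoprime.prod_right fun i hi => hc (by rintro rfl; exact ha hi))]
      exact sup_le (le_iSup (fun i => LinearMap.ker (aeval f (M i))) a) ih
  exact h _

theorem HoA.coprime {M N : F[X]} (hM : M.Monic) (hN : N.Monic) (hi : Irreducible M)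
    (hj : Irreducible N) (hne : M ≠ N) : IsCoprime M N := by
  rw [hi.coprime_iff_not_dvd]
  intro hd
  exact hne (eq_of_monic_of_associated hM hN (hi.associated_of_dvd hj hd))

end gen

section

variable {F k H : Type} [Field F] [Finite F] [Field k] [Finite k] [Field H] [Algebra F k]
  [Algebra F H] [Algebra k H] [Algebra (RatFunc k) H] [IsScalarTower k (RatFunc k) H]

/-- the automorphisms fixing all lines -/
def stOne (k : Type) [Field k] [Algebra (RatFunc k) H] {s : ℕ} (M : Fin s → Polynomial F) :
    Subgroup (H ≃ₐ[RatFunc k] H) where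
  carrier := {σ | ∀ i (L : Submodule F H), IsLine F (gX k H) (M i) L → ∀ x, x ∈ L ↔ σ x ∈ L}
  mul_mem' := by
    intro a b ha hb i L hL x
    rw [hb i L hL x, ha i L hL (b x)]
    rfl
  one_mem' := fun _ _ _ _ => Iff.rfl
  inv_mem' := by
    intro a ha i L hL x
    rw [ha i L hL (a⁻¹ x)]
    have : a (a⁻¹ x) = x := by
      rw [← AlgEquiv.mul_apply, mul_inv_cancel]
      rfl
    rw [this]

/-- its fixed field -/
noncomputable abbrev HOne (H : Type) [Field H] [Algebra F H] (k : Type) [Field k]
    [Algebra (RatFunc k) H] {s : ℕ} (M : Fin s → Polynomial F) : IntermediateField (RatFunc k) H :=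
  IntermediateField.fixedField (stOne (H := H) k M)

variable {s : ℕ} {M : Fin s → Polynomial F}

theorem EL_le_HOne (h : DrS F k H (∏ i, M i)) {L : Fin s → Submodule F H}
    (hL : LT (gX k H) M L) : EL k L ≤ HOne H k M := by
  have := h.fin
  have h1 : stOne (H := H) k M ≤ stL k L := fun σ hσ i x => hσ i (L i) (hL.line i) x
  exact IntermediateField.fixedField_antitone h1

/-- an automorphism over `k(g)` as a homomorphism over `F` -/
noncomputable def HoA.alg {N : F[X]} (h : DrS F k H N) (σ : H ≃ₐ[RatFunc k] H) : H →ₐ[F] H where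
  toRingHom := (σ : H →+* H)
  commutes' c := by
    change σ (algebraMap F H c) = _
    rw [h.tower c, σ.commutes]

omit [Algebra k H] [IsScalarTower k (RatFunc k) H] in
theorem HoA.alg_apply {N : F[X]} (h : DrS F k H N) (σ : H ≃ₐ[RatFunc k] H) (x : H) :
    HoA.alg h σ x = σ x := rfl

omit [Algebra k H] [IsScalarTower k (RatFunc k) H] in
theorem HoA.sig_phN {N : F[X]} (h : DrS F k H N) (σ : H ≃ₐ[RatFunc k] H) (P : F[X]) (x : H) :
    σ (phN F (gX k H) P x) = phN F (gX k H) P (σ x) := by
  have h1 := map_phN (HoA.alg h σ) (gX k H) x P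
  rw [HoA.alg_apply, HoA.alg_apply, HoA.alg_apply, σ.commutes] at h1
  exact h1

omit [Finite k] [Algebra F k] [Algebra k H] [IsScalarTower k (RatFunc k) H] in
theorem HoA.sig_phT (σ : H ≃ₐ[RatFunc k] H) (x : H) :
    σ (phT F (gX k H) x) = phT F (gX k H) (σ x) := by
  rw [phT_apply, phT_apply, map_sub, map_add, map_mul, map_pow, map_pow, σ.commutes]

omit [Algebra k H] [IsScalarTower k (RatFunc k) H] in
/-- the preimage of a line is a line -/
theorem HoA.comap_line {N : F[X]} (h : DrS F k H N) (σ : H ≃ₐ[RatFunc k] H) {P : F[X]}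
    {L : Submodule F H} (hL : IsLine F (gX k H) P L) :
    IsLine F (gX k H) P (L.comap (HoA.alg h σ).toLinearMap) where
  le := by
    intro x hx
    have h1 : phN F (gX k H) P (σ x) = 0 := hL.le hx
    rw [← HoA.sig_phN h] at h1
    exact (map_eq_zero σ).1 h1
  st := by
    intro x hx
    have h1 : phT F (gX k H) (σ x) ∈ L := hL.st _ hx
    rw [← HoA.sig_phT] at h1
    exact h1
  card := by
    rw [← hL.card]
    exact Nat.card_congr (Equiv.subtypeEquiv σ.toEquiv fun x => Iff.rfl)

omit [Algebra k H] [IsScalarTower k (RatFunc k) H] in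
theorem HoA.normal {N : F[X]} (h : DrS F k H N) : (stOne (H := H) k M).Normal := by
  refine ⟨fun n hn g i L hL x => ?_⟩
  have h1 := hn i _ (HoA.comap_line h g hL) (g⁻¹ x)
  have h2 : g (g⁻¹ x) = x := by
    rw [← AlgEquiv.mul_apply, mul_inv_cancel]
    rfl
  rw [Submodule.mem_comap, Submodule.mem_comap] at h1
  change g (g⁻¹ x) ∈ L ↔ g (n (g⁻¹ x)) ∈ L at h1
  rw [h2] at h1
  exact h1

theorem hOne_galois (h : DrS F k H (∏ i, M i)) : IsGalois (RatFunc k) (HOne H k M) := by
  have := h.fin
  have := h.gal
  have := HoA.normal (M := M) h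
  exact IsGalois.of_fixedField_normal_subgroup _

theorem finrank_H (h : DrS F k H (∏ i, M i)) {L : Fin s → Submodule F H}
    (hL : LT (gX k H) M L) :
    Module.finrank (RatFunc k) H ≤ Nat.card F ^ (4 * dgM M Finset.univ) := by
  have := h.fin
  have := h.gal
  choose x y hx hy hxy using fun i => HoA.gen2 (phT F (gX k H)) (hL.monic i) (hL.irr i) (hL.full i)
  have hVf : ∀ i, Finite (VN F (gX k H) (M i)) := by
    intro i
    apply Nat.finite_of_card_ne_zero
    rw [hL.full i]
    exact pow_ne_zero _ Nat.card_pos.ne'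
  have hst : ∀ (σ : H ≃ₐ[RatFunc k] H) i v, v ∈ VN F (gX k H) (M i) →
      σ v ∈ VN F (gX k H) (M i) := by
    intro σ i v hv
    have h1 : phN F (gX k H) (M i) v = 0 := hv
    have h2 := HoA.sig_phN h σ (M i) v
    rw [h1, map_zero] at h2
    exact h2.symm
  let Φ : (H ≃ₐ[RatFunc k] H) → ∀ i, VN F (gX k H) (M i) × VN F (gX k H) (M i) :=
    fun σ i => (⟨σ (x i), hst σ i _ (hx i)⟩, ⟨σ (y i), hst σ i _ (hy i)⟩)
  have hinj : Function.Injective Φ := by
    intro σ τ hστ
    have h1 : ∀ i, σ (x i) = τ (x i) := fun i =>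
      congrArg Subtype.val (congrArg Prod.fst (congrFun hστ i))
    have h2 : ∀ i, σ (y i) = τ (y i) := fun i =>
      congrArg Subtype.val (congrArg Prod.snd (congrFun hστ i))
    -- the elements on which `σ` and `τ` agree
    let E : Submodule F H := LinearMap.eqLocus (HoA.alg h σ).toLinearMap (HoA.alg h τ).toLinearMap
    have hcyc : ∀ v : H, σ v = τ v → LnA.cyc (phT F (gX k H)) v ≤ E := by
      intro v hv
      refine LnA.cyc_le _ ?_ ?_
      · intro w hw
        have h3 : σ w = τ w := hw
        change σ (phT F (gX k H) w) = τ (phT F (gX k H) w)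
        rw [HoA.sig_phT, HoA.sig_phT, h3]
      · exact hv
    have h4 : VN F (gX k H) (∏ i, M i) ≤ E := by
      refine (HoA.ker_prod (phT F (gX k H)) M ?_).trans (iSup_le fun i => ?_)
      · intro i j hij
        exact HoA.coprime (hL.monic i) (hL.monic j) (hL.irr i) (hL.irr j)
          fun h' => hij (hL.inj h')
      · exact (hxy i).trans (sup_le (hcyc _ (h1 i)) (hcyc _ (h2 i)))
    -- generators of `H`
    have h5 : (σ : H →ₐ[RatFunc k] H) = (τ : H →ₐ[RatFunc k] H) := by
      have h6 : ∀ z ∈ IntermediateField.adjoin (RatFunc k)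
          (VN F (gX k H) (∏ i, M i) : Set H), σ z = τ z := by
        intro z hz
        induction hz using IntermediateField.adjoin_induction with
        | mem z hz => exact h4 hz
        | algebraMap c => rw [σ.commutes, τ.commutes]
        | add a b _ _ ha hb => rw [map_add, map_add, ha, hb]
        | inv a _ ha => rw [map_inv₀, map_inv₀, ha]
        | mul a b _ _ ha hb => rw [map_mul, map_mul, ha, hb]
      ext z
      exact h6 z (by rw [h.gen]; trivial)
    ext z
    exact congrArg (fun t : H →ₐ[RatFunc k] H => t z) h5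
  have h7 := Nat.card_le_card_of_injective Φ hinj
  rw [IsGalois.card_aut_eq_finrank] at h7
  refine h7.trans_eq ?_
  rw [Nat.card_pi, dgM, Finset.mul_sum, ← Finset.prod_pow_eq_pow_sum]
  refine Finset.prod_congr rfl fun i _ => ?_
  rw [Nat.card_prod, hL.full i, ← pow_add]
  congr 1
  ring

end

end Pool.Agent.FF
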