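import Pool.Agent.FD.DGen
import Pool.Agent.FD.Cheb
import Pool.Agent.FD.HOneA

/-! # the Galois closure of the fields of line tuples, crude genus bound (6); `stOne`, `HOne`,
`EL_le_HOne`, `hOne_galois`, `finrank_H` are in `HOneA` -/

set_option autoImplicit false
set_option linter.unusedSectionVars false
set_option linter.unusedVariables false

namespace Pool.Agent.FF

section

/-- `a ^ q - a` is the product of the `a - c`, `c ∈ k` -/
theorem HoB.prod_sub {k E : Type*} [Field k] [Fintype k] [Field E] [Algebra k E] (a : E) :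
    ∏ c : k, (a - algebraMap k E c) = a ^ Nat.card k - a := by
  classical
  have h1 : (Polynomial.X ^ Fintype.card k - Polynomial.X : Polynomial k) =
      ∏ c : k, (Polynomial.X - Polynomial.C c) := by
    have h2 := FiniteField.roots_X_pow_card_sub_X k
    have hq : 1 < Fintype.card k := Fintype.one_lt_card
    have h3 : (Polynomial.X ^ Fintype.card k - Polynomial.X : Polynomial k).Monic := by
      apply Polynomial.monic_X_pow_sub
      rw [Polynomial.degree_X]
      exact_mod_cast hq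
    have h4 : (Polynomial.X ^ Fintype.card k - Polynomial.X : Polynomial k).Splits := by
      rw [Polynomial.splits_iff_card_roots, h2, FiniteField.X_pow_card_sub_X_natDegree_eq k hq]
      rfl
    have h5 := h4.eq_prod_roots
    rw [h3.leadingCoeff, h2, map_one, one_mul] at h5
    rw [h5]
    rfl
  have h4 := congrArg (fun p : Polynomial k => Polynomial.aeval a p) h1
  simp only [map_sub, map_pow, Polynomial.aeval_X, map_prod, Polynomial.aeval_C] at h4
  rw [Nat.card_eq_fintype_card, h4]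

/-- a place is rational if `a ^ q - a` is small for all integral `a` -/
theorem HoB.rat_of_frob {k E : Type*} [Field k] [Finite k] [Field E] [Algebra k E] {P : DV E}
    (h : ∀ a, P.G 0 a → P.G 1 (a - a ^ Nat.card k)) : P.Rat k := by
  classical
  have := Fintype.ofFinite k
  intro a ha
  by_contra hcon
  push Not at hcon
  have h1 : ∀ c : k, a - algebraMap k E c ≠ 0 := by
    intro c hc
    apply hcon c
    rw [hc]
    exact DV.G_zero _
  have h2 : ∀ c : k, P.ord (a - algebraMap k E c) ≤ 0 := by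
    intro c
    by_contra hlt
    push Not at hlt
    exact hcon c (DV.G_of_le (by omega))
  have h3 := (h a ha).neg
  rw [neg_sub, ← HoB.prod_sub (k := k) a] at h3
  have h4 := h3.le (Finset.prod_ne_zero_iff.2 fun c _ => h1 c)
  rw [ord_prod' _ _ fun c _ => h1 c] at h4
  have h5 : ∑ c : k, P.ord (a - algebraMap k E c) ≤ 0 := Finset.sum_nonpos fun c _ => h2 c
  omega

variable {F k H : Type} [Field F] [Finite F] [Field k] [Finite k] [Field H] [Algebra F k]
  [Algebra F H] [Algebra k H] [Algebra (RatFunc k) H] [IsScalarTower k (RatFunc k) H]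

variable {s : ℕ} {M : Fin s → Polynomial F}

theorem HoB.fix_of_stOne {σ : H ≃ₐ[RatFunc k] H} (hσ : σ ∈ stOne (H := H) k M)
    (x : HOne H k M) : σ x = x := x.2 ⟨σ, hσ⟩

theorem HoB.stOne_of_fix (h : DrS F k H (∏ i, M i)) {σ : H ≃ₐ[RatFunc k] H}
    (hσ : ∀ x : HOne H k M, σ x = x) : σ ∈ stOne (H := H) k M := by
  have hfd := h.fin
  rw [← IntermediateField.fixingSubgroup_fixedField (stOne (H := H) k M)]
  intro x
  exact hσ x

/-- the rational place -/
theorem HoB.zero (h : DrS F k H (∏ i, M i)) :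
    ∃ R : DV (HOne H k M), Over R (Rat.pt (0 : k)) ∧ R.Rat k := by
  have hfd := h.fin
  have hgal := h.gal
  obtain ⟨Q, hQ⟩ := exists_above (L := H) (Rat.pt (0 : k))
  obtain ⟨σ, hσ, hfix⟩ := frob_zero h hQ
  have hEH : FiniteDimensional (HOne H k M) H :=
    FiniteDimensional.right (RatFunc k) (HOne H k M) H
  obtain ⟨P, hP⟩ := exists_below (K := HOne H k M) Q
  have hPK : Over P (Rat.pt (0 : k)) := by
    obtain ⟨v', hv'⟩ := exists_below (K := RatFunc k) P
    have h1 := (hP.trans' hv').unique hQ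
    rwa [h1] at hv'
  have hst : σ ∈ stOne (H := H) k M := by
    intro i L hL x
    exact hfix L (hL.le.trans (LnB.VN_mono (Finset.dvd_prod_of_mem M (Finset.mem_univ i)))) hL.st x
  refine ⟨P, hPK, HoB.rat_of_frob fun a ha => ?_⟩
  have h1 := hσ (a : H) ((hP.G_zero_iff a).2 ha)
  rw [HoB.fix_of_stOne hst a] at h1
  have h2 : Q.G 1 (algebraMap (HOne H k M) H (a - a ^ Nat.card k)) := by
    rw [map_sub, map_pow]
    exact h1
  obtain ⟨e', he'⟩ := hP.overE
  by_cases hb : a - a ^ Nat.card k = 0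
  · rw [hb]
    exact DV.G_zero _
  have hb' : algebraMap (HOne H k M) H (a - a ^ Nat.card k) ≠ 0 := by rwa [Ne, map_eq_zero]
  have h3 := h2.le hb'
  rw [he'.2] at h3
  have he0 : (0 : ℤ) < e' := by exact_mod_cast he'.1
  refine DV.G_of_le ?_
  by_contra hlt
  push Not at hlt
  have h4 : P.ord (a - a ^ Nat.card k) ≤ 0 := by omega
  nlinarith

/-- an embedding not fixing the field moves a line -/
theorem HoB.move (h : DrS F k H (∏ i, M i)) {L : Fin s → Submodule F H} (hL : LT (gX k H) M L)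
    {σ : H ≃ₐ[RatFunc k] H} (hσ : σ ∉ stOne (H := H) k M) :
    ∃ L' : Fin s → Submodule F H, LT (gX k H) M L' ∧ σ ∉ stL k L' := by
  classical
  have h1 : ∃ i, ∃ A : Submodule F H, IsLine F (gX k H) (M i) A ∧ ¬ ∀ x, x ∈ A ↔ σ x ∈ A := by
    by_contra hcon
    push Not at hcon
    exact hσ fun i A hA => hcon i A hA
  obtain ⟨i, A, hA, hx⟩ := h1
  refine ⟨Function.update L i A, ⟨hL.monic, hL.irr, hL.one, hL.inj, hL.full, fun j => ?_⟩,
    fun hmem => hx fun x => ?_⟩
  · by_cases hj : j = i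
    · subst hj
      rw [Function.update_self]
      exact hA
    · rw [Function.update_of_ne hj]
      exact hL.line j
  · have h2 := hmem i x
    rwa [Function.update_self] at h2

/-- an integral element of the field which is moved little -/
theorem HoB.elt (h : DrS F k H (∏ i, M i)) {L : Fin s → Submodule F H} (hL : LT (gX k H) M L)
    {Q : DV H} (hQ : Over Q (Rat.inf k)) {σ : H ≃ₐ[RatFunc k] H}
    (hσ : σ ∉ stOne (H := H) k M) :
    ∃ y : HOne H k M, IntO (Rat.inf k) y ∧ (y : H) - σ y ≠ 0 ∧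
      Q.ord ((y : H) - σ y) ≤ 4 * (- Q.ord (gX k H)) := by
  have hfd := h.fin
  have hgal := h.gal
  obtain ⟨L', hL', hσ'⟩ := HoB.move h hL hσ
  obtain ⟨y, hy, hy0, hy1⟩ := dgen_inf h hL' hQ hσ'
  have hle := EL_le_HOne h hL'
  refine ⟨⟨y, hle y.2⟩, ?_, hy0, hy1⟩
  rw [intO_iff (H := H) hQ]
  intro τ
  exact (intO_iff (H := H) hQ y).1 hy (τ.comp (IntermediateField.inclusion hle))

theorem HoB.exists_ext (h : DrS F k H (∏ i, M i))
    (τ : HOne H k M →ₐ[RatFunc k] H) :
    ∃ σ : H ≃ₐ[RatFunc k] H, ∀ x : HOne H k M, σ x = τ x := by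
  have hfd := h.fin
  have hgal := h.gal
  refine ⟨AlgEquiv.ofBijective (τ.liftNormal H) (Algebra.IsAlgebraic.algHom_bijective _), ?_⟩
  intro x
  exact τ.liftNormal_commutes H x

/-- the local bound at infinity -/
theorem HoB.inf_bound (h : DrS F k H (∏ i, M i)) {L : Fin s → Submodule F H}
    (hL : LT (gX k H) M L) {P : DV (HOne H k M)} {e : ℕ} (hP : OverE P (Rat.inf k) e)
    {a : HOne H k M} (ha : ∀ b : HOne H k M, IntO (Rat.inf k) b →
      (Rat.inf k).G 0 (Algebra.trace (RatFunc k) (HOne H k M) (a * b))) :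
    P.G (-(4 * ((Module.finrank (RatFunc k) (HOne H k M) : ℤ) - 1) * e)) a := by
  classical
  have hfd := h.fin
  have hgal := h.gal
  obtain ⟨Q, hQ⟩ := exists_aboveH (K := RatFunc k) (H := H) P
  have hQi : Over Q (Rat.inf k) := hQ.trans' hP.over
  obtain ⟨e', he'⟩ := hQ.overE
  have hPg : P.ord (gX k (HOne H k M)) = - (e : ℤ) := by
    rw [hP.2, Rat.inf_X]
    ring
  have hordg : Q.ord (gX k H) = - (e' * (e : ℤ)) := by
    show Q.ord (algebraMap (HOne H k M) H (gX k (HOne H k M))) = _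
    rw [he'.2, hPg]
    ring
  have hFT : Fintype (HOne H k M →ₐ[RatFunc k] H) := Fintype.ofFinite _
  choose sg hsg using fun τ : HOne H k M →ₐ[RatFunc k] H => HoB.exists_ext h τ
  obtain ⟨ι, hι⟩ : ∃ ι : HOne H k M →ₐ[RatFunc k] H,
      ι = IsScalarTower.toAlgHom (RatFunc k) (HOne H k M) H := ⟨_, rfl⟩
  have hιx : ∀ x : HOne H k M, ι x = x := fun x => by rw [hι]; rfl
  have hne : ∀ τ : HOne H k M →ₐ[RatFunc k] H, τ ≠ ι → sg τ ∉ stOne (H := H) k M := by
    intro τ hτ hmem
    refine hτ (AlgHom.ext fun x => ?_)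
    rw [hιx, ← hsg]
    exact HoB.fix_of_stOne hmem x
  have hex : ∀ τ : HOne H k M →ₐ[RatFunc k] H, ∃ y : HOne H k M, IntO (Rat.inf k) y ∧
      (τ ≠ ι → (y : H) - τ y ≠ 0 ∧ Q.ord ((y : H) - τ y) ≤ 4 * (e' * (e : ℤ))) := by
    intro τ
    by_cases hτ : τ = ι
    · exact ⟨0, fun w _ => DV.G_zero _, fun h' => absurd hτ h'⟩
    · obtain ⟨y, hy, hy0, hy1⟩ := HoB.elt h hL hQi (hne τ hτ)
      rw [hsg] at hy0 hy1
      rw [hordg, neg_neg] at hy1
      exact ⟨y, hy, fun _ => ⟨hy0, hy1⟩⟩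
  choose y hy hy2 using hex
  have h1 := lag (E := HOne H k M) hQi ha y hy (fun _ => 4 * (e' * (e : ℤ))) (fun τ hτ => by
    rw [← hι] at hτ
    exact hy2 τ hτ)
  rw [← hι, Finset.sum_const, Finset.card_erase_of_mem (Finset.mem_univ _), Finset.card_univ] at h1
  have hcard : Fintype.card (HOne H k M →ₐ[RatFunc k] H) ≤
      Module.finrank (RatFunc k) (HOne H k M) := by
    rw [← Nat.card_eq_fintype_card]
    exact card_algHom_le_finrank (RatFunc k) (HOne H k M) H
  have hpos : 0 < Fintype.card (HOne H k M →ₐ[RatFunc k] H) := Fintype.card_pos_iff.2 ⟨ι⟩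
  by_cases ha0 : a = 0
  · rw [ha0]
    exact DV.G_zero _
  have ha0' : algebraMap (HOne H k M) H a ≠ 0 := by rwa [Ne, map_eq_zero]
  have h2 := h1.le ha0'
  rw [he'.2, nsmul_eq_mul, Nat.cast_sub hpos] at h2
  refine DV.G_of_le ?_
  obtain ⟨n, hn⟩ : ∃ n : ℤ, n = (Module.finrank (RatFunc k) (HOne H k M) : ℤ) := ⟨_, rfl⟩
  obtain ⟨c, hc⟩ : ∃ c : ℤ, c = (Fintype.card (HOne H k M →ₐ[RatFunc k] H) : ℤ) := ⟨_, rfl⟩
  have hcn : c ≤ n := by
    rw [hc, hn]
    exact_mod_cast hcard
  rw [← hn]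
  rw [← hc] at h2
  have he0 : (0 : ℤ) < e' := by exact_mod_cast he'.1
  have hee : (0 : ℤ) ≤ e := by positivity
  have h3 : (e' : ℤ) * (-(4 * (n - 1) * e)) ≤ e' * P.ord a := by
    refine le_trans ?_ h2
    push_cast
    nlinarith [mul_nonneg (mul_nonneg he0.le hee) (sub_nonneg.2 hcn)]
  exact le_of_mul_le_mul_left h3 he0

/-- the places over `g = 0` of `H₁` are rational; the genus is at most `2 [H₁ : k(g)] ^ 2` -/
theorem hOne_cv (h : DrS F k H (∏ i, M i)) {L : Fin s → Submodule F H} (hL : LT (gX k H) M L) :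
    (∃ R : DV (HOne H k M), R.Rat k) ∧ ∃ G : ℕ, Cv k (HOne H k M) G ∧
      G ≤ 2 * Module.finrank (RatFunc k) (HOne H k M) ^ 2 := by
  classical
  have hfd := h.fin
  have hgal := h.gal
  obtain ⟨R, -, hR⟩ := HoB.zero (M := M) h
  obtain ⟨hff, G, C⟩ := exists_cv (k := k) (E := HOne H k M) hR
  refine ⟨⟨R, hR⟩, G, C, ?_⟩
  have hinf : (Rat.inf k).resCard = Nat.card k := Rat.card_res_inf
  obtain ⟨T, e, f, hTn, hT, hef, hsum⟩ := sum_ef (E := HOne H k M) (Rat.inf k) (by
    rw [hinf]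
    exact (Nat.card_pos (α := k)).ne')
  obtain ⟨n, hn⟩ : ∃ n : ℤ, n = (Module.finrank (RatFunc k) (HOne H k M) : ℤ) := ⟨_, rfl⟩
  set D : DV (HOne H k M) →₀ ℤ := ∑ w ∈ T, Finsupp.single w (4 * (n - 1) * (e w : ℤ)) with hD
  have hDw : ∀ w : DV (HOne H k M), D w = if w ∈ T then 4 * (n - 1) * (e w : ℤ) else 0 := by
    intro w
    rw [hD, Finsupp.finsetSum_apply]
    by_cases hw : w ∈ T
    · rw [if_pos hw, Finset.sum_eq_single w]
      · rw [Finsupp.single_eq_same]
      · intro u _ hu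
        exact Finsupp.single_eq_of_ne (Ne.symm hu)
      · intro h
        exact absurd hw h
    · rw [if_neg hw]
      refine Finset.sum_eq_zero fun u hu => ?_
      exact Finsupp.single_eq_of_ne (fun h => hw (h ▸ hu))
  have hdeg : RRD.degZ k D = 4 * (n - 1) * n := by
    have h1 : ∀ S : Finset (DV (HOne H k M)),
        RRD.degZ k (∑ w ∈ S, Finsupp.single w (4 * (n - 1) * (e w : ℤ))) =
        ∑ w ∈ S, 4 * (n - 1) * (e w : ℤ) * (RRD.deg k w : ℤ) := by
      intro S
      induction S using Finset.induction_on with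
      | empty => rw [Finset.sum_empty, Finset.sum_empty, RRD.degZ_zero]
      | insert w S hw ih => rw [Finset.sum_insert hw, Finset.sum_insert hw, RRD.degZ_add, ih,
          RRD.degZ_single]
    rw [hD, h1]
    have h5 : (4 * (n - 1) * n : ℤ) = ∑ w ∈ T, 4 * (n - 1) * ((e w : ℤ) * (f w : ℤ)) := by
      rw [← Finset.mul_sum, hn, ← hsum]
      push_cast
      ring
    rw [h5]
    refine Finset.sum_congr rfl fun w hw => ?_
    have h2 : RRD.deg k w = f w := by
      show Nat.log (Nat.card k) (Nat.card w.Res) = f w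
      have h3 : Nat.card w.Res = Nat.card k ^ f w := by
        have h4 : w.resCard = (Rat.inf k).resCard ^ f w := (hef w hw).2.2
        rw [hinf] at h4
        exact h4
      rw [h3, Nat.log_pow Finite.one_lt_card]
    rw [h2]
    ring
  have hmain := rhb (k := k) (E := HOne H k M) C hR D ?_
  · rw [hdeg, ← hn] at hmain
    have hn1 : 1 ≤ n := by
      rw [hn]
      exact_mod_cast Module.finrank_pos
    have h4 : (G : ℤ) ≤ 2 * n ^ 2 := by nlinarith
    rw [hn] at h4
    exact_mod_cast h4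
  · intro v a ha P hP
    rw [hDw]
    by_cases hv : v = Rat.inf k
    · rw [hv] at ha hP
      have hPT := (hT P).2 hP
      rw [if_pos hPT, hn]
      exact HoB.inf_bound h hL (hef P hPT).1 ha
    · have hPT : P ∉ T := fun h1 => hv (hP.unique ((hT P).1 h1))
      rw [if_neg hPT, neg_zero]
      obtain ⟨Q, hQ⟩ := exists_aboveH (K := RatFunc k) (H := H) P
      have hQv : Over Q v := hQ.trans' hP
      exact (hQ.G_zero_iff a).1 (unram_trace (E := HOne H k M) hQv
        (fun σ hσ => drS_unit h hQv hv σ hσ) ha)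

end

end Pool.Agent.FF
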