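import Pool.Agent.FD.InfB

/-! # D1: the steps of the filtration of the torsion at infinity -/

set_option autoImplicit false

namespace Pool.Agent.FF

section

variable {F : Type*} {H : Type*} [Field F] [Finite F] [Field H] [Algebra F H]

theorem inf_neg_pow (n : ℕ) (x : H) : (-x) ^ Nat.card F ^ n = -x ^ Nat.card F ^ n := by
  have h := add_pow_card F n x (-x)
  have h0 : (0 : H) ^ Nat.card F ^ n = 0 := zero_pow (pow_ne_zero _ (by
    have := inf_two_le (F := F); omega))
  rw [add_neg_cancel, h0] at h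
  exact (neg_eq_of_add_eq_zero_right h.symm).symm

theorem inf_sub_pow (n : ℕ) (x y : H) :
    (x - y) ^ Nat.card F ^ n = x ^ Nat.card F ^ n - y ^ Nat.card F ^ n := by
  rw [sub_eq_add_neg, add_pow_card F n, inf_neg_pow, ← sub_eq_add_neg]

/-- `u ^ r - u` is the product of the `u - a` -/
theorem inf_prod [Fintype F] (u : H) :
    u ^ Nat.card F - u = ∏ a : F, (u - algebraMap F H a) := by
  classical
  have h1 : (Polynomial.X ^ Fintype.card F - Polynomial.X : Polynomial F) =
      ∏ a : F, (Polynomial.X - Polynomial.C a) := by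
    have hroots := FiniteField.roots_X_pow_card_sub_X F
    have hdeg := FiniteField.X_pow_card_sub_X_natDegree_eq F (Fintype.one_lt_card (α := F))
    have hmon : (Polynomial.X ^ Fintype.card F - Polynomial.X : Polynomial F).Monic :=
      Polynomial.monic_X_pow_sub (by
        rw [Polynomial.degree_X]
        exact_mod_cast Fintype.one_lt_card (α := F))
    have h2 := Polynomial.prod_multiset_X_sub_C_of_monic_of_roots_card_eq hmon (by
      rw [hroots, hdeg]
      rfl)
    rw [← h2, hroots]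
    rfl
  have h2 := congrArg (Polynomial.aeval u) h1
  rw [map_sub, map_pow, Polynomial.aeval_X, map_prod] at h2
  rw [Nat.card_eq_fintype_card, h2]
  refine Finset.prod_congr rfl fun a _ => ?_
  rw [map_sub, Polynomial.aeval_X, Polynomial.aeval_C]

/-- a root of `u ^ r = u` modulo `Q` -/
theorem inf_root {Q : DV H} {u : H} (h : Q.G 1 (u ^ Nat.card F - u)) :
    ∃ a : F, Q.G 1 (u - algebraMap F H a) := by
  classical
  have := Fintype.ofFinite F
  by_contra hno
  push Not at hno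
  have h0 : ∀ a : F, u - algebraMap F H a ≠ 0 := fun a => DV.ne_zero_of_not_G (hno a)
  have h1 : ∀ a : F, Q.ord (u - algebraMap F H a) ≤ 0 := fun a => by
    have := (DV.not_G (h0 a)).1 (hno a)
    omega
  have h2 : ∀ s : Finset F, (∏ a ∈ s, (u - algebraMap F H a)) ≠ 0 ∧
      Q.ord (∏ a ∈ s, (u - algebraMap F H a)) ≤ 0 := by
    intro s
    induction s using Finset.induction_on with
    | empty => simp [Q.ord_one]
    | insert a s ha ih =>
      rw [Finset.prod_insert ha]
      refine ⟨mul_ne_zero (h0 a) ih.1, ?_⟩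
      rw [Q.ord_mul _ _ (h0 a) ih.1]
      have := h1 a
      omega
  have h3 := h2 Finset.univ
  rw [← inf_prod] at h3
  have h4 := h.le h3.1
  omega

/-- the top step of the filtration -/
theorem inf_top {g : H} {Q : DV H} (hg : Q.ord g < 0) {N : Polynomial F} (hN : N.Monic)
    (h1 : N.eval 1 ≠ 0) {x y : H} (hx : x ∈ VN F g N) (hy : y ∈ VN F g N) (hx0 : x ≠ 0)
    (hy0 : y ≠ 0) (hcx : (Nat.card F : ℤ) * cv F g Q x = ((Nat.card F : ℤ) + 1) * (- Q.ord g))
    (hcy : (Nat.card F : ℤ) * cv F g Q y = ((Nat.card F : ℤ) + 1) * (- Q.ord g)) :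
    ∃ a : F, y - a • x ∈ Usub F g Q N 1 := by
  set r := Nat.card F with hr
  have hr2 : (2 : ℤ) ≤ (r : ℤ) := by exact_mod_cast inf_two_le (F := F)
  have hg0 : g ≠ 0 := inf_g_ne hg
  have hxy : Q.ord y = Q.ord x := by
    have h2 : (r : ℤ) * cv F g Q x = (r : ℤ) * cv F g Q y := hcx.trans hcy.symm
    have h3 := mul_left_cancel₀ (by omega : (r : ℤ) ≠ 0) h2
    unfold cv at h3
    have h4 : ((r : ℤ) - 1) * Q.ord y = ((r : ℤ) - 1) * Q.ord x := by linarith
    exact mul_left_cancel₀ (by omega) h4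
  set o := Q.ord x with ho
  have hk : (r : ℤ) * (r - 1) * o = Q.ord g := by
    unfold cv at hcx
    nlinarith
  have ho0 : o < 0 := by
    by_contra h
    push Not at h
    have : 0 ≤ (r : ℤ) * (r - 1) * o := by
      apply mul_nonneg _ h
      nlinarith
    omega
  -- `g z ^ r - z ^ (r ^ 2)` has order at least `o`
  have hmain : ∀ z : H, z ∈ VN F g N → z ≠ 0 → Q.ord z = o →
      Q.G o (g * z ^ r - z ^ r ^ 2) := by
    intro z hz hz0 hzo
    have h2 : Q.G o (phT F g z) := by
      by_cases h3 : phT F g z = 0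
      · rw [h3]
        exact Q.G_zero o
      · have h4 := cv_le hg hN h1 (inf_phT_mem g N hz) h3
        rw [← hcx] at h4
        have h5 := le_of_mul_le_mul_left h4 (by omega : (0 : ℤ) < (Nat.card F : ℤ))
        unfold cv at h5
        have h6 : ((r : ℤ) - 1) * o ≤ ((r : ℤ) - 1) * Q.ord (phT F g z) := by linarith
        exact DV.G_of_le (le_of_mul_le_mul_left h6 (by omega))
    have h3 : g * z ^ r - z ^ r ^ 2 = phT F g z - z := by rw [phT_apply]; ring
    rw [h3]
    exact h2.sub (DV.G_of_le hzo.ge)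
  have hX := hmain x hx hx0 rfl
  have hY := hmain y hy hy0 hxy
  set u := y / x with hu
  have hyu : y = u * x := by rw [hu]; field_simp
  have hu0 : u ≠ 0 := div_ne_zero hy0 hx0
  have hou : Q.ord u = 0 := by rw [hu, Q.ord_div hy0 hx0, hxy]; ring
  have h2 : Q.G o ((u ^ r ^ 2 - u ^ r) * x ^ r ^ 2) := by
    have e1 : (u ^ r ^ 2 - u ^ r) * x ^ r ^ 2 =
        u ^ r * (g * x ^ r - x ^ r ^ 2) - (g * y ^ r - y ^ r ^ 2) := by
      rw [hyu]
      simp only [mul_pow]
      ring
    rw [e1]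
    have h3 : Q.G 0 (u ^ r) := DV.G_of_le (by rw [Q.ord_pow hu0, hou, mul_zero])
    have h4 := h3.mul hX
    rw [zero_add] at h4
    exact h4.sub hY
  have h3 : Q.G 1 (u ^ r ^ 2 - u ^ r) := by
    by_cases h4 : u ^ r ^ 2 - u ^ r = 0
    · rw [h4]
      exact Q.G_zero 1
    · have hx2 : x ^ r ^ 2 ≠ 0 := pow_ne_zero _ hx0
      have h5 := h2.le (mul_ne_zero h4 hx2)
      rw [Q.ord_mul _ _ h4 hx2, Q.ord_pow hx0] at h5
      push_cast at h5
      refine DV.G_of_le ?_
      nlinarith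
  have h4 : u ^ r ^ 2 - u ^ r = (u ^ r - u) ^ r := by
    have h5 := inf_sub_pow (F := F) 1 (u ^ r) u
    rw [pow_one] at h5
    rw [h5, ← pow_mul, ← sq]
  rw [h4] at h3
  have h5 : Q.G 1 (u ^ r - u) := by
    by_cases h6 : u ^ r - u = 0
    · rw [h6]
      exact Q.G_zero 1
    · have h7 := h3.le (pow_ne_zero _ h6)
      rw [Q.ord_pow h6] at h7
      refine DV.G_of_le ?_
      by_contra h8
      push Not at h8
      have : (r : ℤ) * Q.ord (u ^ r - u) ≤ 0 :=
        mul_nonpos_of_nonneg_of_nonpos (by omega) (by omega)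
      omega
  obtain ⟨a, ha⟩ := inf_root h5
  refine ⟨a, ?_⟩
  have hz : y - a • x = x * (u - algebraMap F H a) := by
    rw [hyu, Algebra.smul_def]
    ring
  have hzV : y - a • x ∈ VN F g N := sub_mem hy (Submodule.smul_mem _ a hx)
  refine mem_Usub_of_cv hg hN h1 hzV fun h0 => ?_
  have h6 : Q.G (o + 1) (y - a • x) := by
    rw [hz]
    exact (Q.G_ord x).mul ha
  have h7 := h6.le h0
  rw [pow_one, ← hcx]
  refine mul_lt_mul_of_pos_left ?_ (by omega)
  unfold cv
  have h8 : ((r : ℤ) - 1) * (o + 1) ≤ ((r : ℤ) - 1) * Q.ord (y - a • x) :=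
    mul_le_mul_of_nonneg_left h7 (by omega)
  nlinarith

theorem inf_pair {g : H} {Q : DV H} (hg : Q.ord g < 0) {N : Polynomial F} (hN : N.Monic)
    (h1 : N.eval 1 ≠ 0) (t : ℕ) {x y : H} (hx : x ∈ VN F g N) (hy : y ∈ VN F g N) (hx0 : x ≠ 0)
    (hy0 : y ≠ 0)
    (hcx : (Nat.card F : ℤ) ^ (t + 1) * cv F g Q x = ((Nat.card F : ℤ) + 1) * (- Q.ord g))
    (hcy : (Nat.card F : ℤ) ^ (t + 1) * cv F g Q y = ((Nat.card F : ℤ) + 1) * (- Q.ord g)) :
    ∃ a : F, y - a • x ∈ Usub F g Q N (t + 1) := by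
  have hr2 : (2 : ℤ) ≤ (Nat.card F : ℤ) := by exact_mod_cast inf_two_le (F := F)
  have h5 : 0 < ((Nat.card F : ℤ) + 1) * (- Q.ord g) := by
    apply mul_pos <;> omega
  induction t generalizing x y with
  | zero =>
    rw [zero_add, pow_one] at hcx hcy
    exact inf_top hg hN h1 hx hy hx0 hy0 hcx hcy
  | succ t ih =>
    have hpos : ∀ z : H, (Nat.card F : ℤ) ^ (t + 1 + 1) * cv F g Q z =
        ((Nat.card F : ℤ) + 1) * (- Q.ord g) → 0 < cv F g Q z := by
      intro z hz
      by_contra h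
      push Not at h
      have : (Nat.card F : ℤ) ^ (t + 1 + 1) * cv F g Q z ≤ 0 :=
        mul_nonpos_of_nonneg_of_nonpos (by positivity) h
      omega
    have hstep : ∀ z : H, z ≠ 0 → (Nat.card F : ℤ) ^ (t + 1 + 1) * cv F g Q z =
        ((Nat.card F : ℤ) + 1) * (- Q.ord g) → phT F g z ≠ 0 ∧
        (Nat.card F : ℤ) ^ (t + 1) * cv F g Q (phT F g z) =
          ((Nat.card F : ℤ) + 1) * (- Q.ord g) := by
      intro z hz0 hz
      have hc := hpos z hz
      have h6 : (Nat.card F : ℤ) * cv F g Q z < ((Nat.card F : ℤ) + 1) * (- Q.ord g) := by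
        rw [← hz]
        refine mul_lt_mul_of_pos_right ?_ hc
        calc (Nat.card F : ℤ) = (Nat.card F : ℤ) ^ 1 := (pow_one _).symm
          _ < _ := pow_lt_pow_right₀ (by omega) (by omega)
      have h7 := cv_step hg hz0 hc h6
      refine ⟨h7.1, ?_⟩
      rw [h7.2, ← mul_assoc, ← pow_succ]
      exact hz
    obtain ⟨hX0, hX⟩ := hstep x hx0 hcx
    obtain ⟨hY0, hY⟩ := hstep y hy0 hcy
    obtain ⟨a, ha⟩ := ih (inf_phT_mem g N hx) (inf_phT_mem g N hy) hX0 hY0 hX hY
    refine ⟨a, ?_⟩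
    have e1 : phT F g y - a • phT F g x = phT F g (y - a • x) := by
      rw [map_sub, map_smul]
    rw [e1] at ha
    set z := y - a • x with hz
    have hzV : z ∈ VN F g N := sub_mem hy (Submodule.smul_mem _ a hx)
    -- `z` is in `U_(t+1)`
    have hz1 : z ∈ Usub F g Q N (t + 1) := by
      refine sub_mem ⟨hy, inU_iff.2 (Or.inr hcy.le)⟩ (Submodule.smul_mem _ a
        ⟨hx, inU_iff.2 (Or.inr hcx.le)⟩)
    by_contra hno
    obtain ⟨hz0, hzc, hzl⟩ := cv_level hg hN h1 hz1 hno
    obtain ⟨hZ0, hZ⟩ := hstep z hz0 hzl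
    have h8 := (inU_iff.1 ha.2).resolve_left hZ0
    have hc : 0 < cv F g Q (phT F g z) := by
      by_contra h
      push Not at h
      have : (Nat.card F : ℤ) ^ (t + 1) * cv F g Q (phT F g z) ≤ 0 :=
        mul_nonpos_of_nonneg_of_nonpos (by positivity) h
      omega
    rw [← hZ] at h8
    have h9 := le_of_mul_le_mul_right h8 hc
    have := (pow_le_pow_iff_right₀ (by omega : (1 : ℤ) < (Nat.card F : ℤ))).1 h9
    omega

/-- the index of `U_(t+1)` in `U_t` is at most `r` -/
theorem card_Usub_le {g : H} {Q : DV H} (hg : Q.ord g < 0) {N : Polynomial F} (hN : N.Monic)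
    (h1 : N.eval 1 ≠ 0) (t : ℕ) :
    Nat.card (Usub F g Q N t) ≤ Nat.card F * Nat.card (Usub F g Q N (t + 1)) := by
  have hfin : Finite (VN F g N) := finite_VN g hN.ne_zero
  have hfs : ∀ t, Finite (Usub F g Q N t) := fun t =>
    Finite.of_injective (fun z : Usub F g Q N t => (⟨z.1, z.2.1⟩ : VN F g N)) fun a b hab => by
      have := congrArg Subtype.val hab
      exact Subtype.ext this
  have := hfs t
  have := hfs (t + 1)
  by_cases hall : ∀ x ∈ Usub F g Q N t, x ∈ Usub F g Q N (t + 1)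
  · have h2 : Nat.card (Usub F g Q N t) ≤ Nat.card (Usub F g Q N (t + 1)) :=
      Nat.card_le_card_of_injective (fun z : Usub F g Q N t =>
        (⟨z.1, hall z.1 z.2⟩ : Usub F g Q N (t + 1))) fun a b hab => by
          have := congrArg Subtype.val hab
          exact Subtype.ext this
    have h3 : 1 ≤ Nat.card F := by have := inf_two_le (F := F); omega
    calc _ ≤ _ := h2
      _ = 1 * Nat.card (Usub F g Q N (t + 1)) := (one_mul _).symm
      _ ≤ _ := Nat.mul_le_mul_right _ h3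
  · push Not at hall
    obtain ⟨x0, hx0, hx1⟩ := hall
    obtain ⟨h00, h0c, h0l⟩ := cv_level hg hN h1 hx0 hx1
    have hle : ∀ z, z ∈ Usub F g Q N (t + 1) → z ∈ Usub F g Q N t := by
      intro z hz
      refine ⟨hz.1, inU_iff.2 ?_⟩
      by_cases hz0 : z = 0
      · exact Or.inl hz0
      · right
        have h2 := (inU_iff.1 hz.2).resolve_left hz0
        have h3 := cv_nonneg hg hN h1 hz.1 hz0
        refine (mul_le_mul_of_nonneg_right ?_ h3).trans h2
        exact pow_le_pow_right₀ (by have := inf_two_le (F := F); omega) (by omega)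
    rw [← Nat.card_prod]
    refine Nat.card_le_card_of_surjective (fun q : F × Usub F g Q N (t + 1) =>
      (⟨q.1 • x0 + q.2.1, add_mem (Submodule.smul_mem _ _ hx0) (hle _ q.2.2)⟩ :
        Usub F g Q N t)) ?_
    rintro ⟨y, hy⟩
    by_cases hy1 : y ∈ Usub F g Q N (t + 1)
    · exact ⟨(0, ⟨y, hy1⟩), by simp⟩
    · obtain ⟨hy0, hyc, hyl⟩ := cv_level hg hN h1 hy hy1
      obtain ⟨a, ha⟩ := inf_pair hg hN h1 t hx0.1 hy.1 h00 hy0 h0l hyl
      exact ⟨(a, ⟨_, ha⟩), by simp⟩

end

end Pool.Agent.FF
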