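import Pool.Agent.FD.InfB
import Pool.Agent.FF.TmRes

/-! # D1: the number of elements of `V_0` -/

set_option autoImplicit false

namespace Pool.Agent.FF

section

variable {F : Type*} {H : Type*} [Field F] [Finite F] [Field H] [Algebra F H]

open Classical in
/-- the residue, `0` outside the valuation ring -/
noncomputable def rsd (Q : DV H) (a : H) : IsLocalRing.ResidueField Q.vs :=
  if h : a ∈ Q.vs then IsLocalRing.residue Q.vs ⟨a, h⟩ else 0

omit [Finite F] [Algebra F H] [Field F] in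
theorem rsd_of {Q : DV H} {a : H} (h : Q.G 0 a) :
    rsd Q a = IsLocalRing.residue Q.vs ⟨a, h⟩ := by
  unfold rsd
  rw [dif_pos (show a ∈ Q.vs from h)]

theorem rsd_add {Q : DV H} {a b : H} (ha : Q.G 0 a) (hb : Q.G 0 b) :
    rsd Q (a + b) = rsd Q a + rsd Q b := by
  rw [rsd_of ha, rsd_of hb, rsd_of (ha.add hb), ← map_add]
  rfl

theorem rsd_mul {Q : DV H} {a b : H} (ha : Q.G 0 a) (hb : Q.G 0 b) :
    rsd Q (a * b) = rsd Q a * rsd Q b := by
  have hab : Q.G 0 (a * b) := by simpa using ha.mul hb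
  rw [rsd_of ha, rsd_of hb, rsd_of hab, ← map_mul]
  rfl

theorem rsd_pow {Q : DV H} {a : H} (ha : Q.G 0 a) (n : ℕ) : rsd Q (a ^ n) = rsd Q a ^ n := by
  have hab : Q.G 0 (a ^ n) := by simpa using ha.pow n
  rw [rsd_of ha, rsd_of hab, ← map_pow]
  rfl

theorem rsd_one {Q : DV H} : rsd Q 1 = 1 := by
  rw [rsd_of DV.G_one]
  exact map_one (IsLocalRing.residue Q.vs)

theorem rsd_zero {Q : DV H} : rsd Q 0 = 0 := by
  rw [rsd_of (Q.G_zero 0)]
  exact map_zero (IsLocalRing.residue Q.vs)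

theorem rsd_neg {Q : DV H} {a : H} (ha : Q.G 0 a) : rsd Q (-a) = - rsd Q a := by
  rw [rsd_of ha, rsd_of ha.neg, ← map_neg]
  rfl

theorem rsd_sub {Q : DV H} {a b : H} (ha : Q.G 0 a) (hb : Q.G 0 b) :
    rsd Q (a - b) = rsd Q a - rsd Q b := by
  rw [sub_eq_add_neg, rsd_add ha hb.neg, rsd_neg hb, sub_eq_add_neg]

theorem rsd_ne {Q : DV H} {a : H} (h0 : a ≠ 0) (ha : Q.ord a = 0) : rsd Q a ≠ 0 := by
  have h1 : Q.G 0 a := DV.G_of_le ha.ge
  have h2 : Q.G 0 a⁻¹ := DV.G_of_le (by rw [Q.ord_inv h0, ha]; simp)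
  intro h
  have h3 := rsd_mul h1 h2
  rw [mul_inv_cancel₀ h0, rsd_one, h, zero_mul] at h3
  exact one_ne_zero h3

theorem rsd_eq {Q : DV H} {a : H} (ha : Q.G 1 a) : rsd Q a = 0 := by
  by_cases h0 : a = 0
  · rw [h0, rsd_zero]
  have h1 : Q.G 0 a := ha.mono (by omega)
  rw [rsd_of h1, IsLocalRing.residue_eq_zero_iff, IsLocalRing.mem_maximalIdeal, mem_nonunits_iff]
  intro hu
  obtain ⟨b, hb⟩ := hu.exists_right_inv
  have hb' : a * (b : H) = 1 := congrArg Subtype.val hb
  have hb0 : (b : H) ≠ 0 := by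
    intro h
    rw [h, mul_zero] at hb'
    exact zero_ne_one hb'
  have h2 : Q.ord a + Q.ord (b : H) = 0 := by rw [← Q.ord_mul _ _ h0 hb0, hb', Q.ord_one]
  have h3 : Q.G 0 (b : H) := b.2
  have h4 := h3.le hb0
  have h5 := ha.le h0
  omega

theorem rsd_sum {Q : DV H} {ι : Type*} (s : Finset ι) (f : ι → H) (h : ∀ i ∈ s, Q.G 0 (f i)) :
    Q.G 0 (∑ i ∈ s, f i) ∧ rsd Q (∑ i ∈ s, f i) = ∑ i ∈ s, rsd Q (f i) := by
  classical
  induction s using Finset.induction_on with
  | empty => simp [rsd_zero, Q.G_zero]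
  | insert i s hi ih =>
    obtain ⟨h1, h2⟩ := ih fun j hj => h j (Finset.mem_insert_of_mem hj)
    have h3 := h i (Finset.mem_insert_self i s)
    rw [Finset.sum_insert hi, Finset.sum_insert hi]
    exact ⟨h3.add h1, by rw [rsd_add h3 h1, h2]⟩

/-- the iterates of `y + γ y ^ r` -/
noncomputable def infP {k : Type*} [Field k] (r : ℕ) (γ : k) : ℕ → Polynomial k
  | 0 => Polynomial.X
  | n + 1 => infP r γ n + Polynomial.C γ * infP r γ n ^ r

theorem infP_deg {k : Type*} [Field k] {r : ℕ} (hr : 2 ≤ r) {γ : k} (hγ : γ ≠ 0) (n : ℕ) :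
    (infP r γ n).natDegree = r ^ n := by
  induction n with
  | zero => simp [infP]
  | succ n ih =>
    have h1 : (Polynomial.C γ * infP r γ n ^ r).natDegree = r ^ (n + 1) := by
      rw [Polynomial.natDegree_C_mul hγ, Polynomial.natDegree_pow, ih, pow_succ']
    rw [infP, Polynomial.natDegree_add_eq_right_of_natDegree_lt, h1]
    rw [h1, ih]
    exact pow_lt_pow_right₀ (by omega) (by omega)

theorem card_V0_le {g : H} {Q : DV H} (hg : Q.ord g < 0) {N : Polynomial F} (hN : N.Monic)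
    (h1 : N.eval 1 ≠ 0) : Nat.card (V0 F g Q N) ≤ Nat.card F ^ N.natDegree := by
  classical
  set r := Nat.card F with hr
  have hrn : 2 ≤ r := inf_two_le (F := F)
  have hr2 : (2 : ℤ) ≤ (r : ℤ) := by exact_mod_cast hrn
  have hg0 : g ≠ 0 := inf_g_ne hg
  have hfin : Finite (VN F g N) := finite_VN g hN.ne_zero
  have hfV : Finite (V0 F g Q N) :=
    Finite.of_injective (fun z : V0 F g Q N => (⟨z.1, z.2.1⟩ : VN F g N)) fun a b hab => by
      have := congrArg Subtype.val hab
      exact Subtype.ext this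
  by_cases htriv : ∀ x ∈ V0 F g Q N, x = 0
  · have : Subsingleton (V0 F g Q N) := ⟨fun a b => Subtype.ext (by
      rw [htriv a.1 a.2, htriv b.1 b.2])⟩
    have h2 : Nat.card (V0 F g Q N) ≤ 1 := Finite.card_le_one_iff_subsingleton.2 this
    exact h2.trans (Nat.one_le_pow _ _ (by omega))
  push Not at htriv
  obtain ⟨π, hπ, hπ0⟩ := htriv
  have hord : ∀ x ∈ V0 F g Q N, x ≠ 0 → ((r : ℤ) - 1) * Q.ord x = - Q.ord g := fun x hx hx0 =>
    le_antisymm (inf_bounds hg hN h1 hx.1 hx0).1 (hx.2.2.resolve_left hx0)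
  have hordπ := hord π hπ hπ0
  have hordx : ∀ x ∈ V0 F g Q N, x ≠ 0 → Q.ord x = Q.ord π := fun x hx hx0 => by
    have := hord x hx hx0
    rw [← hordπ] at this
    exact mul_left_cancel₀ (by omega) this
  have hπpos : 0 < Q.ord π := by
    by_contra h
    push Not at h
    have : ((r : ℤ) - 1) * Q.ord π ≤ 0 := mul_nonpos_of_nonneg_of_nonpos (by omega) h
    omega
  have hy : ∀ x ∈ V0 F g Q N, Q.G 0 (x / π) := by
    intro x hx
    by_cases hx0 : x = 0
    · rw [hx0, zero_div]
      exact Q.G_zero 0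
    · exact DV.G_of_le (by rw [Q.ord_div hx0 hπ0, hordx x hx hx0, sub_self])
  set γ := g * π ^ (r - 1) with hγ
  have hγ0 : γ ≠ 0 := mul_ne_zero hg0 (pow_ne_zero _ hπ0)
  have hγord : Q.ord γ = 0 := by
    rw [hγ, Q.ord_mul _ _ hg0 (pow_ne_zero _ hπ0), Q.ord_pow hπ0, Nat.cast_sub (by omega),
      Nat.cast_one, hordπ]
    ring
  have hγG : Q.G 0 γ := DV.G_of_le hγord.ge
  have hγr : rsd Q γ ≠ 0 := rsd_ne hγ0 hγord
  have hst : ∀ x ∈ V0 F g Q N, phT F g x ∈ V0 F g Q N ∧
      rsd Q (phT F g x / π) = rsd Q (x / π) + rsd Q γ * rsd Q (x / π) ^ r := by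
    intro x hx
    by_cases hx0 : x = 0
    · rw [hx0, map_zero, zero_div, rsd_zero]
      refine ⟨zero_mem _, ?_⟩
      rw [zero_pow (by omega)]
      ring
    have hV := inf_phT_mem g N hx.1
    have hox := hordx x hx hx0
    have e1 : phT F g x / π = x / π + γ * (x / π) ^ r - x ^ r ^ 2 / π := by
      rw [phT_apply, hγ, ← hr]
      have e2 : π ^ r = π ^ (r - 1) * π := by
        rw [← pow_succ]
        congr 1
        omega
      rw [div_pow, e2]
      field_simp
    have h3 : Q.G 0 (γ * (x / π) ^ r) := by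
      have h4 := (hy x hx).pow r
      have h5 := hγG.mul h4
      simpa using h5
    have h4 : Q.G 1 (x ^ r ^ 2 / π) := by
      refine DV.G_of_le ?_
      rw [Q.ord_div (pow_ne_zero _ hx0) hπ0, Q.ord_pow hx0, hox]
      push_cast
      nlinarith
    have h5 : Q.G 0 (x ^ r ^ 2 / π) := h4.mono (by omega)
    have h6 : Q.G 0 (phT F g x / π) := by
      rw [e1]
      exact ((hy x hx).add h3).sub h5
    refine ⟨?_, ?_⟩
    · refine cv_V0 hg hV fun h7 => ?_
      have h8 := h6.le (div_ne_zero h7 hπ0)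
      rw [Q.ord_div h7 hπ0] at h8
      unfold cv
      have h9 : ((r : ℤ) - 1) * Q.ord π ≤ ((r : ℤ) - 1) * Q.ord (phT F g x) :=
        mul_le_mul_of_nonneg_left (by omega) (by omega)
      linarith
    · rw [e1, rsd_sub ((hy x hx).add h3) h5, rsd_eq h4, sub_zero, rsd_add (hy x hx) h3,
        rsd_mul hγG (by simpa using (hy x hx).pow r), rsd_pow (hy x hx)]
  have hiter : ∀ i, ∀ x ∈ V0 F g Q N, ((phT F g) ^ i) x ∈ V0 F g Q N ∧
      rsd Q (((phT F g) ^ i) x / π) = (infP r (rsd Q γ) i).eval (rsd Q (x / π)) := by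
    intro i
    induction i with
    | zero => intro x hx; simpa [infP] using hx
    | succ i ih =>
      intro x hx
      obtain ⟨h3, h4⟩ := ih x hx
      obtain ⟨h5, h6⟩ := hst _ h3
      rw [inf_pow_succ]
      refine ⟨h5, ?_⟩
      rw [h6, h4, infP]
      simp
  set n : ℕ → IsLocalRing.ResidueField Q.vs := fun i => rsd Q (algebraMap F H (N.coeff i)) with hn
  have hnG : ∀ a : F, Q.G 0 (algebraMap F H a) := by
    intro a
    by_cases ha : a = 0
    · rw [ha, map_zero]
      exact Q.G_zero 0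
    · exact DV.G_of_le (RRD.ord_algebraMap Q ha).ge
  set PN : Polynomial (IsLocalRing.ResidueField Q.vs) :=
    ∑ i ∈ Finset.range (N.natDegree + 1), Polynomial.C (n i) * infP r (rsd Q γ) i with hPN
  have hroot : ∀ x ∈ V0 F g Q N, PN.eval (rsd Q (x / π)) = 0 := by
    intro x hx
    have h3 : phN F g N x = 0 := hx.1
    rw [inf_phN_sum] at h3
    have h4 : ∑ i ∈ Finset.range (N.natDegree + 1),
        algebraMap F H (N.coeff i) * (((phT F g) ^ i) x / π) = 0 := by
      have h5 : (∑ i ∈ Finset.range (N.natDegree + 1), N.coeff i • ((phT F g) ^ i) x) / π = 0 := by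
        rw [h3, zero_div]
      rw [← h5, Finset.sum_div]
      refine Finset.sum_congr rfl fun i _ => ?_
      rw [Algebra.smul_def, mul_div_assoc]
    have h5 := (rsd_sum (Q := Q) (Finset.range (N.natDegree + 1))
      (fun i => algebraMap F H (N.coeff i) * (((phT F g) ^ i) x / π)) fun i _ => by
        have := (hnG (N.coeff i)).mul (hy _ (hiter i x hx).1)
        simpa using this).2
    rw [h4, rsd_zero] at h5
    rw [hPN, Polynomial.eval_finsetSum, h5]
    refine Finset.sum_congr rfl fun i _ => ?_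
    rw [rsd_mul (hnG _) (hy _ (hiter i x hx).1), (hiter i x hx).2, Polynomial.eval_mul,
      Polynomial.eval_C]
  have hdeg : PN.natDegree = r ^ N.natDegree := by
    have hD : n N.natDegree = 1 := by
      have : N.coeff N.natDegree = 1 := hN
      rw [hn]
      simp only
      rw [this, map_one, rsd_one]
    rw [hPN, Finset.sum_range_succ, hD, Polynomial.C_1, one_mul,
      Polynomial.natDegree_add_eq_right_of_natDegree_lt, infP_deg hrn hγr]
    rw [infP_deg hrn hγr]
    rcases Nat.eq_zero_or_pos N.natDegree with h3 | h3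
    · rw [h3]
      simp
    · refine lt_of_le_of_lt (Polynomial.natDegree_sum_le_of_forall_le (n := r ^ (N.natDegree - 1))
        _ _ fun i hi => ?_) (pow_lt_pow_right₀ (by omega) (by omega))
      refine (Polynomial.natDegree_C_mul_le _ _).trans ?_
      rw [infP_deg hrn hγr]
      have := Finset.mem_range.1 hi
      exact pow_le_pow_right₀ (by omega) (by omega)
  have hPN0 : PN ≠ 0 := by
    intro h
    rw [h, Polynomial.natDegree_zero] at hdeg
    have : 0 < r ^ N.natDegree := by positivity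
    omega
  have hinj : Function.Injective (fun x : V0 F g Q N =>
      (⟨rsd Q (x.1 / π), by
        rw [Multiset.mem_toFinset, Polynomial.mem_roots hPN0]
        exact hroot x.1 x.2⟩ : {z // z ∈ PN.roots.toFinset})) := by
    intro x x' hxx
    have h3 : rsd Q (x.1 / π) = rsd Q (x'.1 / π) := congrArg Subtype.val hxx
    by_contra hne
    have h4 : x.1 - x'.1 ≠ 0 := fun h => hne (Subtype.ext (sub_eq_zero.1 h))
    have h5 : x.1 - x'.1 ∈ V0 F g Q N := sub_mem x.2 x'.2
    have h6 : Q.ord ((x.1 - x'.1) / π) = 0 := by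
      rw [Q.ord_div h4 hπ0, hordx _ h5 h4, sub_self]
    have h7 := rsd_ne (div_ne_zero h4 hπ0) h6
    rw [sub_div, rsd_sub (hy _ x.2) (hy _ x'.2), h3, sub_self] at h7
    exact h7 rfl
  have h8 := Nat.card_le_card_of_injective _ hinj
  rw [Nat.card_eq_fintype_card (α := {z // z ∈ PN.roots.toFinset}), Fintype.card_coe] at h8
  calc _ ≤ _ := h8
    _ ≤ _ := Multiset.toFinset_card_le _
    _ ≤ _ := Polynomial.card_roots' PN
    _ = _ := hdeg

end

end Pool.Agent.FF
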