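import Pool.Agent.FD.Split
import Pool.Agent.FD.InfC
import Pool.Agent.FD.InfV

/-! # D1: the torsion at infinity (69) -/

set_option autoImplicit false

namespace Pool.Agent.FF

section

variable {F : Type*} {H : Type*} [Field F] [Finite F] [Field H] [Algebra F H]

/-- `V_0` is stable -/
theorem V0_st {g : H} {Q : DV H} (hg : Q.ord g < 0) {N : Polynomial F} {x : H}
    (hx : x ∈ V0 F g Q N) : phT F g x ∈ V0 F g Q N := by
  have hr2 : (2 : ℤ) ≤ (Nat.card F : ℤ) := by exact_mod_cast inf_two_le (F := F)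
  have hg0 : g ≠ 0 := inf_g_ne hg
  by_cases h0 : x = 0
  · rw [h0, map_zero]
    exact zero_mem _
  have hV := inf_phT_mem g N hx.1
  have h2 := hx.2.2.resolve_left h0
  have ho0 : 0 < Q.ord x := by
    by_contra h
    push Not at h
    have : ((Nat.card F : ℤ) - 1) * Q.ord x ≤ 0 :=
      mul_nonpos_of_nonneg_of_nonpos (by omega) h
    omega
  have h3 : Q.G (Q.ord x) (phT F g x) := by
    rw [phT_apply]
    refine DV.G.sub (DV.G.add (Q.G_ord x) (DV.G_of_le ?_)) (DV.G_of_le ?_)
    · rw [Q.ord_mul _ _ hg0 (pow_ne_zero _ h0), Q.ord_pow h0]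
      nlinarith
    · rw [Q.ord_pow h0]
      push_cast
      nlinarith
  refine cv_V0 hg hV fun h4 => ?_
  have h5 := h3.le h4
  unfold cv
  have h6 : ((Nat.card F : ℤ) - 1) * Q.ord x ≤ ((Nat.card F : ℤ) - 1) * Q.ord (phT F g x) :=
    mul_le_mul_of_nonneg_left h5 (by omega)
  linarith

theorem inf_V0 {g : H} {Q : DV H} (hg : Q.ord g < 0) {N : Polynomial F} (hN : N.Monic)
    (h1 : N.eval 1 ≠ 0) {x : H} (hx : x ∈ V0 F g Q N) (h0 : x ≠ 0) :
    ((Nat.card F : ℤ) - 1) * Q.ord x = - Q.ord g :=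
  le_antisymm (inf_bounds hg hN h1 hx.1 h0).1 (hx.2.2.resolve_left h0)

theorem inf_Usub_top {g : H} {Q : DV H} (hg : Q.ord g < 0) {N : Polynomial F} (hN : N.Monic)
    (h1 : N.eval 1 ≠ 0) : Usub F g Q N N.natDegree = V0 F g Q N := by
  have hr2 : (2 : ℤ) ≤ (Nat.card F : ℤ) := by exact_mod_cast inf_two_le (F := F)
  have h5 : 0 < ((Nat.card F : ℤ) + 1) * (- Q.ord g) := by
    apply mul_pos <;> omega
  ext x
  constructor
  · intro hx
    refine cv_V0 hg hx.1 fun h0 => ?_
    by_contra hc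
    push Not at hc
    obtain ⟨s, hs, hs'⟩ := cv_val hg hN h1 hx.1 h0 hc
    have h2 := (inU_iff.1 hx.2).resolve_left h0
    rw [← hs'] at h2
    have h3 := le_of_mul_le_mul_right h2 hc
    have := (pow_le_pow_iff_right₀ (by omega : (1 : ℤ) < (Nat.card F : ℤ))).1 h3
    omega
  · intro hx
    refine ⟨hx.1, inU_iff.2 ?_⟩
    by_cases h0 : x = 0
    · exact Or.inl h0
    · right
      exact (mul_nonpos_of_nonneg_of_nonpos (by positivity) (V0_cv hx h0)).trans h5.le

theorem card_Usub {g : H} {Q : DV H} (hg : Q.ord g < 0) {N : Polynomial F} (hN : N.Monic)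
    (h1 : N.eval 1 ≠ 0) (hV : Nat.card (VN F g N) = Nat.card F ^ (2 * N.natDegree)) {t : ℕ}
    (ht : t ≤ N.natDegree) :
    Nat.card (Usub F g Q N t) = Nat.card F ^ (2 * N.natDegree - t) := by
  set D := N.natDegree with hD
  set r := Nat.card F with hr
  have hr0 : 0 < r := by have := inf_two_le (F := F); omega
  have hU0 : Usub F g Q N 0 = VN F g N := by
    ext x
    constructor
    · exact fun hx => hx.1
    · intro hx
      refine ⟨hx, inU_iff.2 ?_⟩
      by_cases h0 : x = 0
      · exact Or.inl h0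
      · right
        rw [zero_add, pow_one]
        exact cv_le hg hN h1 hx h0
  -- going down from 0 to t
  have hdown : ∀ t s, Nat.card (Usub F g Q N t) ≤ r ^ s * Nat.card (Usub F g Q N (t + s)) := by
    intro t s
    induction s with
    | zero => simp
    | succ s ih =>
      refine ih.trans ?_
      have := card_Usub_le (F := F) hg hN h1 (t + s)
      calc r ^ s * Nat.card (Usub F g Q N (t + s))
          ≤ r ^ s * (r * Nat.card (Usub F g Q N (t + s + 1))) := Nat.mul_le_mul_left _ this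
        _ = _ := by rw [pow_succ, ← mul_assoc, add_assoc]
  have hlow : r ^ (2 * D - t) ≤ Nat.card (Usub F g Q N t) := by
    have h2 := hdown 0 t
    rw [hU0, hV, zero_add] at h2
    have h3 : r ^ (2 * D) = r ^ t * r ^ (2 * D - t) := by
      rw [← pow_add]
      congr 1
      omega
    rw [h3] at h2
    exact Nat.le_of_mul_le_mul_left h2 (by positivity)
  refine le_antisymm ?_ hlow
  have h2 := hdown t (D - t)
  rw [Nat.add_sub_cancel' ht, inf_Usub_top hg hN h1] at h2
  have h3 := card_V0_le (F := F) hg hN h1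
  calc _ ≤ _ := h2
    _ ≤ r ^ (D - t) * r ^ D := Nat.mul_le_mul_left _ h3
    _ = _ := by
      rw [← pow_add]
      congr 1
      omega

/-- `|V_0| = r ^ D` -/
theorem card_V0 {g : H} {Q : DV H} (hg : Q.ord g < 0) {N : Polynomial F} (hN : N.Monic)
    (h1 : N.eval 1 ≠ 0) (hV : Nat.card (VN F g N) = Nat.card F ^ (2 * N.natDegree)) :
    Nat.card (V0 F g Q N) = Nat.card F ^ N.natDegree := by
  have h := card_Usub hg hN h1 hV le_rfl
  rw [inf_Usub_top hg hN h1] at h
  rw [h]
  congr 1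
  omega

/-- the values of `b` outside `V_0` -/
theorem inf_val {g : H} {Q : DV H} (hg : Q.ord g < 0) {N : Polynomial F} (hN : N.Monic)
    (h1 : N.eval 1 ≠ 0) {x : H} (hx : x ∈ VN F g N) (h0 : x ∉ V0 F g Q N) :
    ∃ t < N.natDegree, (Nat.card F : ℤ) ^ (t + 1) * (- Q.ord g - ((Nat.card F : ℤ) - 1) * Q.ord x)
      = ((Nat.card F : ℤ) + 1) * (- Q.ord g) := by
  have hx0 : x ≠ 0 := by
    rintro rfl
    exact h0 (zero_mem _)
  have hc : 0 < cv F g Q x := by
    by_contra h
    push Not at h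
    exact h0 (cv_V0 hg hx fun _ => h)
  exact cv_val hg hN h1 hx hx0 hc

/-- the filtration by `b` -/
theorem card_U {g : H} {Q : DV H} (hg : Q.ord g < 0) {N : Polynomial F} (hN : N.Monic)
    (h1 : N.eval 1 ≠ 0) (hV : Nat.card (VN F g N) = Nat.card F ^ (2 * N.natDegree)) {t : ℕ}
    (ht : t ≤ N.natDegree) :
    Nat.card {x : H // x ∈ VN F g N ∧ InU F g Q t x} = Nat.card F ^ (2 * N.natDegree - t) :=
  card_Usub hg hN h1 hV ht

end

end Pool.Agent.FF
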