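import Pool.Agent.FD.Split

/-! # D1: the torsion at infinity, basic computations -/

set_option autoImplicit false

namespace Pool.Agent.FF

section

variable {F : Type*} {H : Type*} [Field F] [Finite F] [Field H] [Algebra F H]

theorem inf_two_le : 2 ≤ Nat.card F := Finite.one_lt_card

theorem inf_g_ne {g : H} {Q : DV H} (hg : Q.ord g < 0) : g ≠ 0 := by
  rintro rfl
  rw [Q.ord_zero] at hg
  exact lt_irrefl _ hg

/-- multiplication by constants does not change orders -/
theorem infGsmul (Q : DV H) (a : F) {n : ℤ} {x : H} (h : Q.G n x) : Q.G n (a • x) := by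
  by_cases ha : a = 0
  · rw [ha, zero_smul]
    exact Q.G_zero n
  · have h1 : Q.G 0 (algebraMap F H a) :=
      Or.inr (RRD.ord_algebraMap Q ha).ge
    have h2 := h1.mul h
    rw [zero_add] at h2
    rwa [Algebra.smul_def]

theorem infGsum (Q : DV H) {ι : Type*} (s : Finset ι) (f : ι → H) {n : ℤ}
    (h : ∀ i ∈ s, Q.G n (f i)) : Q.G n (∑ i ∈ s, f i) := by
  classical
  induction s using Finset.induction_on with
  | empty => simpa using Q.G_zero n
  | insert i s hi ih =>
    rw [Finset.sum_insert hi]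
    exact (h i (Finset.mem_insert_self i s)).add
      (ih fun j hj => h j (Finset.mem_insert_of_mem hj))

theorem inf_phN_sum (g : H) (N : Polynomial F) (x : H) :
    phN F g N x = ∑ i ∈ Finset.range (N.natDegree + 1), N.coeff i • ((phT F g) ^ i) x := by
  rw [phN, Polynomial.aeval_eq_sum_range, LinearMap.sum_apply]
  rfl

theorem inf_pow_succ (g : H) (i : ℕ) (x : H) :
    ((phT F g) ^ (i + 1)) x = phT F g (((phT F g) ^ i) x) := by
  rw [pow_succ']
  rfl

theorem inf_pow_mem (g : H) (N : Polynomial F) {x : H} (hx : x ∈ VN F g N) (i : ℕ) :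
    ((phT F g) ^ i) x ∈ VN F g N := by
  have h := phN_mem g (Polynomial.X ^ i) N hx
  rwa [phN, map_pow, Polynomial.aeval_X] at h

theorem inf_phT_mem (g : H) (N : Polynomial F) {x : H} (hx : x ∈ VN F g N) :
    phT F g x ∈ VN F g N := by
  simpa using inf_pow_mem g N hx 1

/-- the middle range -/
theorem ord_phT_mid {g : H} {Q : DV H} (hg : Q.ord g < 0) {x : H} (h0 : x ≠ 0)
    (h1 : ((Nat.card F : ℤ) - 1) * Q.ord x < - Q.ord g)
    (h2 : (Nat.card F : ℤ) * (- Q.ord g - ((Nat.card F : ℤ) - 1) * Q.ord x) <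
      ((Nat.card F : ℤ) + 1) * (- Q.ord g)) :
    phT F g x ≠ 0 ∧ Q.ord (phT F g x) = Nat.card F * Q.ord x + Q.ord g := by
  set r := Nat.card F with hr
  have hr2 : (2 : ℤ) ≤ (r : ℤ) := by exact_mod_cast inf_two_le (F := F)
  set o := Q.ord x with ho
  set e := Q.ord g with he
  have hg0 : g ≠ 0 := inf_g_ne hg
  have hxr : x ^ r ≠ 0 := pow_ne_zero _ h0
  have ha : Q.ord (g * x ^ r) = e + r * o := by rw [Q.ord_mul _ _ hg0 hxr, Q.ord_pow h0]
  have h3 : Q.G (Q.ord (g * x ^ r) + 1) (x - x ^ r ^ 2) := by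
    rw [ha]
    refine DV.G.sub (DV.G_of_le ?_) (DV.G_of_le ?_)
    · nlinarith
    · rw [Q.ord_pow h0]
      push_cast
      nlinarith
  have h4 := DV.ord_add_of_lt (mul_ne_zero hg0 hxr) h3
  have e1 : phT F g x = g * x ^ r + (x - x ^ r ^ 2) := by rw [phT_apply]; ring
  rw [e1]
  exact ⟨h4.1, by rw [h4.2, ha]; ring⟩

/-- very negative orders -/
theorem ord_phT_neg {g : H} {Q : DV H} (hg : Q.ord g < 0) {x : H} (h0 : x ≠ 0)
    (h2 : ((Nat.card F : ℤ) + 1) * (- Q.ord g) <
      (Nat.card F : ℤ) * (- Q.ord g - ((Nat.card F : ℤ) - 1) * Q.ord x)) :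
    phT F g x ≠ 0 ∧ Q.ord (phT F g x) = (Nat.card F : ℤ) ^ 2 * Q.ord x := by
  set r := Nat.card F with hr
  have hr2 : (2 : ℤ) ≤ (r : ℤ) := by exact_mod_cast inf_two_le (F := F)
  set o := Q.ord x with ho
  set e := Q.ord g with he
  have hg0 : g ≠ 0 := inf_g_ne hg
  have hxr : x ^ r ≠ 0 := pow_ne_zero _ h0
  have hxr2 : x ^ r ^ 2 ≠ 0 := pow_ne_zero _ h0
  have ha : Q.ord (-x ^ r ^ 2) = (r : ℤ) ^ 2 * o := by
    rw [Q.ord_neg, Q.ord_pow h0]
    push_cast
    ring
  have hk : (r : ℤ) * (r - 1) * o < e := by nlinarith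
  have ho0 : o < 0 := by
    by_contra h
    push Not at h
    have : 0 ≤ (r : ℤ) * (r - 1) * o := by
      apply mul_nonneg _ h
      nlinarith
    omega
  have h3 : Q.G (Q.ord (-x ^ r ^ 2) + 1) (x + g * x ^ r) := by
    rw [ha]
    refine DV.G.add (DV.G_of_le ?_) (DV.G_of_le ?_)
    · nlinarith
    · rw [Q.ord_mul _ _ hg0 hxr, Q.ord_pow h0]
      nlinarith
  have h4 := DV.ord_add_of_lt (neg_ne_zero.2 hxr2) h3
  have e1 : phT F g x = -x ^ r ^ 2 + (x + g * x ^ r) := by rw [phT_apply]; ring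
  rw [e1]
  exact ⟨h4.1, by rw [h4.2, ha]⟩

/-- the last term dominates -/
theorem phN_ne_zero_of_dom (Q : DV H) (g : H) {N : Polynomial F} (hN : N.Monic) {x : H}
    (h0 : ∀ i ≤ N.natDegree, ((phT F g) ^ i) x ≠ 0)
    (h1 : ∀ i < N.natDegree, Q.ord (((phT F g) ^ (i + 1)) x) < Q.ord (((phT F g) ^ i) x)) :
    phN F g N x ≠ 0 := by
  set D := N.natDegree with hD
  have h2 : ∀ j, ∀ i, i + j = D → 0 < j →
      Q.ord (((phT F g) ^ D) x) + 1 ≤ Q.ord (((phT F g) ^ i) x) := by
    intro j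
    induction j with
    | zero => intro i _ h; exact absurd h (lt_irrefl _)
    | succ j ih =>
      intro i hij _
      rcases Nat.eq_zero_or_pos j with hj | hj
      · subst hj
        have h3 := h1 i (by omega)
        rw [zero_add] at hij
        rw [hij] at h3
        omega
      · have h3 := ih (i + 1) (by omega) hj
        have h4 := h1 i (by omega)
        omega
  rw [inf_phN_sum, Finset.sum_range_succ]
  have h3 : N.coeff D = 1 := hN
  rw [h3, one_smul, add_comm]
  refine (DV.ord_add_of_lt (v := Q) (h0 D le_rfl) (infGsum Q _ _ fun i hi => ?_)).1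
  have hi' := Finset.mem_range.1 hi
  exact infGsmul Q _ (DV.G_of_le (h2 (D - i) i (by omega) (by omega)))

/-- large orders: `φ_T x = x (1 + ..)` -/
theorem G_phT_sub {g : H} {Q : DV H} (hg : Q.ord g < 0) {x : H} (h0 : x ≠ 0)
    (h1 : - Q.ord g < ((Nat.card F : ℤ) - 1) * Q.ord x) :
    Q.G (Q.ord x + 1) (phT F g x - x) := by
  set r := Nat.card F with hr
  have hr2 : (2 : ℤ) ≤ (r : ℤ) := by exact_mod_cast inf_two_le (F := F)
  set o := Q.ord x with ho
  set e := Q.ord g with he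
  have hg0 : g ≠ 0 := inf_g_ne hg
  have hxr : x ^ r ≠ 0 := pow_ne_zero _ h0
  have ho0 : 0 < o := by
    by_contra h
    push Not at h
    have : ((r : ℤ) - 1) * o ≤ 0 := mul_nonpos_of_nonneg_of_nonpos (by omega) h
    omega
  have e1 : phT F g x - x = g * x ^ r - x ^ r ^ 2 := by rw [phT_apply]; ring
  rw [e1]
  refine DV.G.sub (DV.G_of_le ?_) (DV.G_of_le ?_)
  · rw [Q.ord_mul _ _ hg0 hxr, Q.ord_pow h0]
    nlinarith
  · rw [Q.ord_pow h0]
    push_cast
    nlinarith

theorem phN_ne_zero_of_large {g : H} {Q : DV H} (hg : Q.ord g < 0) {N : Polynomial F}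
    (hN1 : N.eval 1 ≠ 0) {x : H} (h0 : x ≠ 0)
    (h1 : - Q.ord g < ((Nat.card F : ℤ) - 1) * Q.ord x) : phN F g N x ≠ 0 := by
  have h2 : ∀ i, Q.G (Q.ord x + 1) (((phT F g) ^ i) x - x) := by
    intro i
    induction i with
    | zero => simpa using Q.G_zero (Q.ord x + 1)
    | succ i ih =>
      set y := ((phT F g) ^ i) x with hy
      have h3 := DV.ord_add_of_lt h0 ih
      rw [add_sub_cancel] at h3
      have h4 := G_phT_sub (F := F) hg h3.1 (by rw [h3.2]; exact h1)
      rw [h3.2] at h4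
      have h5 := h4.add ih
      rw [sub_add_sub_cancel] at h5
      rwa [inf_pow_succ]
  have h3 : Q.G (Q.ord x + 1) (phN F g N x - N.eval 1 • x) := by
    have e1 : phN F g N x - N.eval 1 • x =
        ∑ i ∈ Finset.range (N.natDegree + 1), N.coeff i • (((phT F g) ^ i) x - x) := by
      rw [inf_phN_sum, Polynomial.eval_eq_sum_range, Finset.sum_smul, ← Finset.sum_sub_distrib]
      refine Finset.sum_congr rfl fun i _ => ?_
      rw [one_pow, mul_one, smul_sub]
    rw [e1]
    exact infGsum Q _ _ fun i _ => infGsmul Q _ (h2 i)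
  have h4 : N.eval 1 • x ≠ 0 := smul_ne_zero hN1 h0
  have h5 : Q.ord (N.eval 1 • x) = Q.ord x := by
    have h6 : algebraMap F H (N.eval 1) ≠ 0 := by rwa [Ne, map_eq_zero]
    rw [Algebra.smul_def, Q.ord_mul _ _ h6 h0, RRD.ord_algebraMap Q hN1, zero_add]
  rw [← h5] at h3
  have h7 := (DV.ord_add_of_lt h4 h3).1
  rwa [add_sub_cancel] at h7

/-- the bounds for `b` -/
theorem inf_bounds {g : H} {Q : DV H} (hg : Q.ord g < 0) {N : Polynomial F} (hN : N.Monic)
    (h1 : N.eval 1 ≠ 0) {x : H} (hx : x ∈ VN F g N) (h0 : x ≠ 0) :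
    ((Nat.card F : ℤ) - 1) * Q.ord x ≤ - Q.ord g ∧
    (Nat.card F : ℤ) * (- Q.ord g - ((Nat.card F : ℤ) - 1) * Q.ord x) ≤
      ((Nat.card F : ℤ) + 1) * (- Q.ord g) := by
  have hx0 : phN F g N x = 0 := hx
  refine ⟨?_, ?_⟩
  · by_contra h
    push Not at h
    exact phN_ne_zero_of_large hg h1 h0 h hx0
  · by_contra h
    push Not at h
    have hr2 : (2 : ℤ) ≤ (Nat.card F : ℤ) := by exact_mod_cast inf_two_le (F := F)
    have key : ∀ i, ((phT F g) ^ i) x ≠ 0 ∧ Q.ord (((phT F g) ^ i) x) ≤ Q.ord x ∧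
        (Q.ord (((phT F g) ^ (i + 1)) x) < Q.ord (((phT F g) ^ i) x)) := by
      have hneg : ∀ y : H, y ≠ 0 → Q.ord y ≤ Q.ord x →
          phT F g y ≠ 0 ∧ Q.ord (phT F g y) < Q.ord y := by
        intro y hy hyx
        have h3 : ((Nat.card F : ℤ) + 1) * (- Q.ord g) <
            (Nat.card F : ℤ) * (- Q.ord g - ((Nat.card F : ℤ) - 1) * Q.ord y) := by
          refine h.trans_le ?_
          have : ((Nat.card F : ℤ) - 1) * Q.ord y ≤ ((Nat.card F : ℤ) - 1) * Q.ord x :=
            mul_le_mul_of_nonneg_left hyx (by omega)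
          exact mul_le_mul_of_nonneg_left (by linarith) (by omega)
        have h4 := ord_phT_neg hg hy h3
        refine ⟨h4.1, ?_⟩
        rw [h4.2]
        have hk : (Nat.card F : ℤ) * (Nat.card F - 1) * Q.ord y < Q.ord g := by nlinarith
        have ho0 : Q.ord y < 0 := by
          by_contra h5
          push Not at h5
          have : 0 ≤ (Nat.card F : ℤ) * (Nat.card F - 1) * Q.ord y := by
            apply mul_nonneg _ h5
            nlinarith
          omega
        nlinarith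
      intro i
      induction i with
      | zero =>
        have h5 := hneg x h0 le_rfl
        refine ⟨by simpa using h0, by simp, ?_⟩
        simpa using h5.2
      | succ i ih =>
        have h5 := hneg _ ih.1 ih.2.1
        have h6 : ((phT F g) ^ (i + 1)) x ≠ 0 := by rw [inf_pow_succ]; exact h5.1
        have h7 : Q.ord (((phT F g) ^ (i + 1)) x) ≤ Q.ord x := ih.2.2.le.trans ih.2.1
        have h8 := hneg _ h6 h7
        refine ⟨h6, h7, ?_⟩
        rw [inf_pow_succ _ (i + 1)]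
        exact h8.2
    exact phN_ne_zero_of_dom Q g hN (fun i _ => (key i).1) (fun i _ => (key i).2.2) hx0

end

end Pool.Agent.FF
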