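import Pool.Agent.FD.InfA

/-! # D1: the values of the torsion at infinity -/

set_option autoImplicit false

namespace Pool.Agent.FF

section

variable {F : Type*} {H : Type*} [Field F] [Finite F] [Field H] [Algebra F H]

/-- `(r - 1) e b(x)`, `e = - ord g` -/
noncomputable def cv (F : Type*) {H : Type*} [Field H] (g : H) (Q : DV H) (x : H) : ℤ :=
  - Q.ord g - ((Nat.card F : ℤ) - 1) * Q.ord x

theorem cv_step {g : H} {Q : DV H} (hg : Q.ord g < 0) {x : H} (h0 : x ≠ 0) (h1 : 0 < cv F g Q x)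
    (h2 : (Nat.card F : ℤ) * cv F g Q x < ((Nat.card F : ℤ) + 1) * (- Q.ord g)) :
    phT F g x ≠ 0 ∧ cv F g Q (phT F g x) = Nat.card F * cv F g Q x := by
  unfold cv at h1 h2
  have h3 := ord_phT_mid (F := F) hg h0 (by linarith) h2
  refine ⟨h3.1, ?_⟩
  unfold cv
  rw [h3.2]
  ring

theorem cv_nonneg {g : H} {Q : DV H} (hg : Q.ord g < 0) {N : Polynomial F} (hN : N.Monic)
    (h1 : N.eval 1 ≠ 0) {x : H} (hx : x ∈ VN F g N) (h0 : x ≠ 0) : 0 ≤ cv F g Q x := by
  have h := (inf_bounds hg hN h1 hx h0).1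
  unfold cv
  linarith

theorem cv_le {g : H} {Q : DV H} (hg : Q.ord g < 0) {N : Polynomial F} (hN : N.Monic)
    (h1 : N.eval 1 ≠ 0) {x : H} (hx : x ∈ VN F g N) (h0 : x ≠ 0) :
    (Nat.card F : ℤ) * cv F g Q x ≤ ((Nat.card F : ℤ) + 1) * (- Q.ord g) :=
  (inf_bounds hg hN h1 hx h0).2

theorem cv_iter {g : H} {Q : DV H} (hg : Q.ord g < 0) {N : Polynomial F} (hN : N.Monic)
    (h1 : N.eval 1 ≠ 0) {x : H} (hx : x ∈ VN F g N) (h0 : x ≠ 0) (hc : 0 < cv F g Q x) (m : ℕ)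
    (hm : ∀ s < m, (Nat.card F : ℤ) ^ (s + 1) * cv F g Q x ≠
      ((Nat.card F : ℤ) + 1) * (- Q.ord g)) :
    ((phT F g) ^ m) x ≠ 0 ∧
      cv F g Q (((phT F g) ^ m) x) = (Nat.card F : ℤ) ^ m * cv F g Q x := by
  have hr2 : (2 : ℤ) ≤ (Nat.card F : ℤ) := by exact_mod_cast inf_two_le (F := F)
  induction m with
  | zero => simpa using h0
  | succ m ih =>
    obtain ⟨h2, h3⟩ := ih fun s hs => hm s (by omega)
    have h4 := cv_le hg hN h1 (inf_pow_mem g N hx m) h2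
    have h5 : (Nat.card F : ℤ) * cv F g Q (((phT F g) ^ m) x) ≠
        ((Nat.card F : ℤ) + 1) * (- Q.ord g) := by
      rw [h3, ← mul_assoc, ← pow_succ']
      exact hm m (by omega)
    have h6 : 0 < cv F g Q (((phT F g) ^ m) x) := by
      rw [h3]
      positivity
    have h7 := cv_step hg h2 h6 (lt_of_le_of_ne h4 h5)
    rw [inf_pow_succ]
    refine ⟨h7.1, ?_⟩
    rw [h7.2, h3, pow_succ']
    ring

/-- the values of `b` -/
theorem cv_val {g : H} {Q : DV H} (hg : Q.ord g < 0) {N : Polynomial F} (hN : N.Monic)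
    (h1 : N.eval 1 ≠ 0) {x : H} (hx : x ∈ VN F g N) (h0 : x ≠ 0) (hc : 0 < cv F g Q x) :
    ∃ t < N.natDegree, (Nat.card F : ℤ) ^ (t + 1) * cv F g Q x =
      ((Nat.card F : ℤ) + 1) * (- Q.ord g) := by
  have hr2 : (2 : ℤ) ≤ (Nat.card F : ℤ) := by exact_mod_cast inf_two_le (F := F)
  by_contra h
  push Not at h
  have h2 : ∀ m ≤ N.natDegree, ((phT F g) ^ m) x ≠ 0 ∧
      cv F g Q (((phT F g) ^ m) x) = (Nat.card F : ℤ) ^ m * cv F g Q x := fun m hm =>
    cv_iter hg hN h1 hx h0 hc m fun s hs => h s (by omega)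
  refine phN_ne_zero_of_dom Q g hN (fun i hi => (h2 i hi).1) (fun i hi => ?_) hx
  have h3 := (h2 i (by omega)).2
  have h4 := (h2 (i + 1) (by omega)).2
  have h5 : (Nat.card F : ℤ) ^ i * cv F g Q x < (Nat.card F : ℤ) ^ (i + 1) * cv F g Q x := by
    refine mul_lt_mul_of_pos_right ?_ hc
    exact pow_lt_pow_right₀ (by omega) (by omega)
  rw [← h3, ← h4] at h5
  unfold cv at h5
  have h6 : ((Nat.card F : ℤ) - 1) * Q.ord (((phT F g) ^ (i + 1)) x) <
      ((Nat.card F : ℤ) - 1) * Q.ord (((phT F g) ^ i) x) := by linarith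
  exact lt_of_mul_lt_mul_left h6 (by omega)

theorem cv_V0 {g : H} {Q : DV H} (hg : Q.ord g < 0) {N : Polynomial F} {x : H}
    (hx : x ∈ VN F g N) (h : x ≠ 0 → cv F g Q x ≤ 0) : x ∈ V0 F g Q N := by
  have hr2 : (2 : ℤ) ≤ (Nat.card F : ℤ) := by exact_mod_cast inf_two_le (F := F)
  by_cases h0 : x = 0
  · rw [h0]
    exact zero_mem _
  · have h1 := h h0
    unfold cv at h1
    have h2 : 0 ≤ Q.ord x := by
      by_contra h3
      push Not at h3
      nlinarith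
    exact ⟨hx, DV.G_of_le h2, Or.inr (by linarith)⟩

theorem V0_cv {g : H} {Q : DV H} {N : Polynomial F} {x : H}
    (hx : x ∈ V0 F g Q N) (h0 : x ≠ 0) : cv F g Q x ≤ 0 := by
  have := hx.2.2.resolve_left h0
  unfold cv
  linarith

omit [Algebra F H] in
theorem inU_iff {g : H} {Q : DV H} {t : ℕ} {x : H} : InU F g Q t x ↔
    x = 0 ∨ (Nat.card F : ℤ) ^ (t + 1) * cv F g Q x ≤ ((Nat.card F : ℤ) + 1) * (- Q.ord g) :=
  Iff.rfl

omit [Algebra F H] in
theorem cv_add {g : H} {Q : DV H} {x y : H} (hx : x ≠ 0) (hy : y ≠ 0) (hxy : x + y ≠ 0) :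
    cv F g Q (x + y) ≤ cv F g Q x ∨ cv F g Q (x + y) ≤ cv F g Q y := by
  have hr2 : (2 : ℤ) ≤ (Nat.card F : ℤ) := by exact_mod_cast inf_two_le (F := F)
  have h := Q.ord_add x y hx hy hxy
  unfold cv
  rcases min_le_iff.1 h with h | h
  · left
    have := mul_le_mul_of_nonneg_left h (show (0 : ℤ) ≤ (Nat.card F : ℤ) - 1 by omega)
    linarith
  · right
    have := mul_le_mul_of_nonneg_left h (show (0 : ℤ) ≤ (Nat.card F : ℤ) - 1 by omega)
    linarith

theorem cv_smul {g : H} {Q : DV H} {x : H} (hx : x ≠ 0) {a : F} (ha : a ≠ 0) :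
    cv F g Q (a • x) = cv F g Q x := by
  have h6 : algebraMap F H a ≠ 0 := by rwa [Ne, map_eq_zero]
  unfold cv
  rw [Algebra.smul_def, Q.ord_mul _ _ h6 hx, RRD.ord_algebraMap Q ha, zero_add]

variable (F)

/-- `U_t` as a subspace -/
noncomputable def Usub (g : H) (Q : DV H) (N : Polynomial F) (t : ℕ) : Submodule F H where
  carrier := {x | x ∈ VN F g N ∧ InU F g Q t x}
  zero_mem' := ⟨zero_mem _, Or.inl rfl⟩
  add_mem' := by
    rintro x y ⟨hx, hx1⟩ ⟨hy, hy1⟩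
    refine ⟨add_mem hx hy, ?_⟩
    rw [inU_iff] at hx1 hy1 ⊢
    by_cases h0 : x = 0
    · simpa [h0] using hy1
    by_cases h1 : y = 0
    · simpa [h1] using hx1
    by_cases h2 : x + y = 0
    · exact Or.inl h2
    right
    have hp : (0 : ℤ) ≤ (Nat.card F : ℤ) ^ (t + 1) := by positivity
    rcases cv_add (F := F) (g := g) (Q := Q) h0 h1 h2 with h | h
    · exact (mul_le_mul_of_nonneg_left h hp).trans (hx1.resolve_left h0)
    · exact (mul_le_mul_of_nonneg_left h hp).trans (hy1.resolve_left h1)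
  smul_mem' := by
    rintro a x ⟨hx, hx1⟩
    refine ⟨Submodule.smul_mem _ a hx, ?_⟩
    by_cases ha : a = 0
    · left
      rw [ha, zero_smul]
    by_cases h0 : x = 0
    · left
      rw [h0, smul_zero]
    rw [inU_iff] at hx1 ⊢
    right
    rw [cv_smul h0 ha]
    exact hx1.resolve_left h0

variable {F}

theorem mem_Usub {g : H} {Q : DV H} {N : Polynomial F} {t : ℕ} {x : H} :
    x ∈ Usub F g Q N t ↔ x ∈ VN F g N ∧ InU F g Q t x := Iff.rfl

/-- the exact level of an element of `U_t` outside `U_(t+1)` -/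
theorem cv_level {g : H} {Q : DV H} (hg : Q.ord g < 0) {N : Polynomial F} (hN : N.Monic)
    (h1 : N.eval 1 ≠ 0) {t : ℕ} {x : H} (hx : x ∈ Usub F g Q N t) (hx' : x ∉ Usub F g Q N (t + 1)) :
    x ≠ 0 ∧ 0 < cv F g Q x ∧ (Nat.card F : ℤ) ^ (t + 1) * cv F g Q x =
      ((Nat.card F : ℤ) + 1) * (- Q.ord g) := by
  have hr2 : (2 : ℤ) ≤ (Nat.card F : ℤ) := by exact_mod_cast inf_two_le (F := F)
  have h0 : x ≠ 0 := by
    rintro rfl
    exact hx' (zero_mem _)
  have h2 := (inU_iff.1 hx.2).resolve_left h0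
  have h3 : ((Nat.card F : ℤ) + 1) * (- Q.ord g) <
      (Nat.card F : ℤ) ^ (t + 1 + 1) * cv F g Q x := by
    by_contra h
    push Not at h
    exact hx' ⟨hx.1, inU_iff.2 (Or.inr h)⟩
  have h4 : 0 < cv F g Q x := by
    have h5 : 0 < ((Nat.card F : ℤ) + 1) * (- Q.ord g) := by
      apply mul_pos <;> omega
    by_contra h
    push Not at h
    have : (Nat.card F : ℤ) ^ (t + 1 + 1) * cv F g Q x ≤ 0 :=
      mul_nonpos_of_nonneg_of_nonpos (by positivity) h
    omega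
  refine ⟨h0, h4, ?_⟩
  obtain ⟨s, -, hs⟩ := cv_val hg hN h1 hx.1 h0 h4
  rw [← hs] at h2 h3
  have h5 : t + 1 ≤ s + 1 := by
    have := le_of_mul_le_mul_right h2 h4
    exact (pow_le_pow_iff_right₀ (by omega)).1 this
  have h6 : s + 1 < t + 1 + 1 := by
    have := lt_of_mul_lt_mul_right h3 h4.le
    exact (pow_lt_pow_iff_right₀ (by omega)).1 this
  have h7 : s = t := by omega
  rw [← h7]
  exact hs

/-- an element of `V` whose level is at least `t` -/
theorem mem_Usub_of_cv {g : H} {Q : DV H} (hg : Q.ord g < 0) {N : Polynomial F} (hN : N.Monic)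
    (h1 : N.eval 1 ≠ 0) {t : ℕ} {x : H} (hx : x ∈ VN F g N)
    (h : x ≠ 0 → (Nat.card F : ℤ) ^ t * cv F g Q x < ((Nat.card F : ℤ) + 1) * (- Q.ord g)) :
    x ∈ Usub F g Q N t := by
  have hr2 : (2 : ℤ) ≤ (Nat.card F : ℤ) := by exact_mod_cast inf_two_le (F := F)
  refine ⟨hx, inU_iff.2 ?_⟩
  by_cases h0 : x = 0
  · exact Or.inl h0
  right
  have h2 := h h0
  have h5 : 0 < ((Nat.card F : ℤ) + 1) * (- Q.ord g) := by
    apply mul_pos <;> omega
  rcases le_or_gt (cv F g Q x) 0 with h3 | h3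
  · exact (mul_nonpos_of_nonneg_of_nonpos (by positivity) h3).trans h5.le
  · obtain ⟨s, -, hs⟩ := cv_val hg hN h1 hx h0 h3
    rw [← hs] at h2 ⊢
    have h6 : t < s + 1 := by
      have := lt_of_mul_lt_mul_right h2 h3.le
      exact (pow_lt_pow_iff_right₀ (by omega)).1 this
    exact mul_le_mul_of_nonneg_right (pow_le_pow_right₀ (by omega) (by omega)) h3.le

end

end Pool.Agent.FF
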