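import Pool.Agent.FD.Gal

/-! # X6: the Lagrange identity (61) -/

set_option autoImplicit false

namespace Pool.Agent.FF

section

variable {K E H : Type*} [Field K] [Field E] [Field H] [Algebra K E] [Algebra K H] [Algebra E H]
  [IsScalarTower K E H]

theorem Over.trans' {w : DV H} {u : DV E} {v : DV K} (h : Over w u) (h' : Over u v) :
    Over w v := by
  obtain ⟨e, he, h1⟩ := h
  obtain ⟨e', he', h2⟩ := h'
  refine ⟨e * e', mul_pos he he', fun a ha => ?_⟩
  rw [IsScalarTower.algebraMap_apply K E H, h1 _ (map_ne_zero' ha), h2 a ha, mul_assoc]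

theorem IntO.mul' {v : DV K} {a b : E} (ha : IntO v a) (hb : IntO v b) : IntO v (a * b) := by
  intro w hw
  simpa using (ha w hw).mul (hb w hw)

theorem IntO.prod' {v : DV K} {ι : Type*} (s : Finset ι) (f : ι → E) (h : ∀ i ∈ s, IntO v (f i)) :
    IntO v (∏ i ∈ s, f i) := by
  classical
  induction s using Finset.induction_on with
  | empty =>
    intro w _
    rw [Finset.prod_empty]
    exact DV.G_one
  | insert a s ha ih =>
    rw [Finset.prod_insert ha]
    exact (h a (Finset.mem_insert_self a s)).mul' (ih fun i hi => h i (Finset.mem_insert_of_mem hi))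

theorem G_prod' {Q : DV H} {ι : Type*} (s : Finset ι) (f : ι → H) (h : ∀ i ∈ s, Q.G 0 (f i)) :
    Q.G 0 (∏ i ∈ s, f i) := by
  classical
  induction s using Finset.induction_on with
  | empty =>
    rw [Finset.prod_empty]
    exact DV.G_one
  | insert a s ha ih =>
    rw [Finset.prod_insert ha]
    simpa using (h a (Finset.mem_insert_self a s)).mul
      (ih fun i hi => h i (Finset.mem_insert_of_mem hi))

theorem G_sum' {Q : DV H} {n : ℤ} {ι : Type*} (s : Finset ι) (f : ι → H)
    (h : ∀ i ∈ s, Q.G n (f i)) : Q.G n (∑ i ∈ s, f i) := by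
  classical
  induction s using Finset.induction_on with
  | empty =>
    rw [Finset.sum_empty]
    exact DV.G_zero _
  | insert a s ha ih =>
    rw [Finset.sum_insert ha]
    exact (h a (Finset.mem_insert_self a s)).add (ih fun i hi => h i (Finset.mem_insert_of_mem hi))

theorem ord_prod' {Q : DV H} {ι : Type*} (s : Finset ι) (f : ι → H) (h : ∀ i ∈ s, f i ≠ 0) :
    Q.ord (∏ i ∈ s, f i) = ∑ i ∈ s, Q.ord (f i) := by
  classical
  induction s using Finset.induction_on with
  | empty =>
    rw [Finset.prod_empty, Finset.sum_empty, Q.ord_one]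
  | insert a s ha ih =>
    rw [Finset.prod_insert ha, Finset.sum_insert ha, Q.ord_mul _ _ (h a (Finset.mem_insert_self a s))
      (Finset.prod_ne_zero_iff.2 fun i hi => h i (Finset.mem_insert_of_mem hi)),
      ih fun i hi => h i (Finset.mem_insert_of_mem hi)]

/-- the trace as a sum over the embeddings in a Galois extension -/
theorem trace_sum [FiniteDimensional K H] [IsGalois K H] [Fintype (E →ₐ[K] H)] (x : E) :
    algebraMap K H (Algebra.trace K E x) = ∑ τ : E →ₐ[K] H, τ x := by
  have hfe : FiniteDimensional K E := FiniteDimensional.of_injective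
    (IsScalarTower.toAlgHom K E H).toLinearMap (algebraMap E H).injective
  have hse : Algebra.IsSeparable K E := Algebra.IsSeparable.of_algHom K H
    (IsScalarTower.toAlgHom K E H)
  let Ω := AlgebraicClosure H
  apply (algebraMap H Ω).injective
  rw [← IsScalarTower.algebraMap_apply, trace_eq_sum_embeddings Ω, map_sum]
  symm
  let f : (E →ₐ[K] H) → (E →ₐ[K] Ω) := fun τ => (IsScalarTower.toAlgHom K H Ω).comp τ
  have hf : Function.Bijective f := by
    constructor
    · intro τ τ' h
      apply AlgHom.ext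
      intro a
      exact (algebraMap H Ω).injective (DFunLike.congr_fun h a)
    · intro σ
      have : Algebra.IsAlgebraic E H := Algebra.IsAlgebraic.tower_top (K := K) E
      obtain ⟨σ', hσ'⟩ := IsAlgClosed.surjective_domRestrict_of_isAlgebraic (K := K) (L := E)
        (M := Ω) (E := H) σ
      refine ⟨(σ'.restrictNormal H).comp (IsScalarTower.toAlgHom K E H), ?_⟩
      apply AlgHom.ext
      intro a
      have h1 := AlgHom.restrictNormal_commutes σ' H (algebraMap E H a)
      have h2 : σ' (algebraMap E H a) = σ a := by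
        rw [← hσ']
        rfl
      exact h1.trans h2
  exact Function.Bijective.sum_comp hf fun σ : E →ₐ[K] Ω => σ x

open Classical in
/-- bound for the elements whose traces are integral -/
theorem lag [FiniteDimensional K H] [IsGalois K H] [Fintype (E →ₐ[K] H)] {Q : DV H} {v : DV K}
    (hQ : Over Q v) {a : E} (ha : ∀ b : E, IntO v b → v.G 0 (Algebra.trace K E (a * b)))
    (y : (E →ₐ[K] H) → E) (hy : ∀ τ, IntO v (y τ)) (m : (E →ₐ[K] H) → ℤ)
    (hm : ∀ τ : E →ₐ[K] H, τ ≠ IsScalarTower.toAlgHom K E H →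
      algebraMap E H (y τ) - τ (y τ) ≠ 0 ∧ Q.ord (algebraMap E H (y τ) - τ (y τ)) ≤ m τ) :
    Q.G (- ∑ τ ∈ Finset.univ.erase (IsScalarTower.toAlgHom K E H), m τ) (algebraMap E H a) := by
  set ι := IsScalarTower.toAlgHom K E H with hι
  set T : Finset (E →ₐ[K] H) := Finset.univ.erase ι with hT
  have hιa : ∀ b : E, ι b = algebraMap E H b := fun b => rfl
  -- the identity
  have hexp : ∀ ρ : E →ₐ[K] H, ∏ τ ∈ T, (ρ (y τ) - τ (y τ)) =
      ∑ B ∈ T.powerset, ρ (∏ τ ∈ B, y τ) * ∏ τ ∈ T \ B, (-(τ (y τ))) := by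
    intro ρ
    have h1 : ∀ τ ∈ T, ρ (y τ) - τ (y τ) = ρ (y τ) + -(τ (y τ)) := fun τ _ => sub_eq_add_neg _ _
    rw [Finset.prod_congr rfl h1, Finset.prod_add]
    refine Finset.sum_congr rfl fun B _ => ?_
    rw [map_prod]
  have hid : ι a * ∏ τ ∈ T, (ι (y τ) - τ (y τ)) =
      ∑ B ∈ T.powerset, (∏ τ ∈ T \ B, (-(τ (y τ)))) *
        algebraMap K H (Algebra.trace K E (a * ∏ τ ∈ B, y τ)) := by
    have h1 : ∀ B ∈ T.powerset, (∏ τ ∈ T \ B, (-(τ (y τ)))) *
        algebraMap K H (Algebra.trace K E (a * ∏ τ ∈ B, y τ)) =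
        ∑ ρ : E →ₐ[K] H, ρ a * (ρ (∏ τ ∈ B, y τ) * ∏ τ ∈ T \ B, (-(τ (y τ)))) := by
      intro B _
      rw [trace_sum, Finset.mul_sum]
      refine Finset.sum_congr rfl fun ρ _ => ?_
      rw [map_mul]
      ring
    rw [Finset.sum_congr rfl h1, Finset.sum_comm]
    have h2 : ∀ ρ : E →ₐ[K] H, ∑ B ∈ T.powerset,
        ρ a * (ρ (∏ τ ∈ B, y τ) * ∏ τ ∈ T \ B, (-(τ (y τ)))) =
        ρ a * ∏ τ ∈ T, (ρ (y τ) - τ (y τ)) := by
      intro ρ
      rw [hexp, Finset.mul_sum]
    rw [Finset.sum_congr rfl fun ρ _ => h2 ρ]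
    symm
    refine Finset.sum_eq_single ι ?_ fun h => absurd (Finset.mem_univ _) h
    intro ρ _ hρ
    have h3 : ρ ∈ T := Finset.mem_erase.2 ⟨hρ, Finset.mem_univ _⟩
    rw [Finset.prod_eq_zero h3 (sub_self _), mul_zero]
  have hint : ∀ τ τ' : E →ₐ[K] H, Q.G 0 (τ' (y τ)) := fun τ τ' =>
    (intO_iff hQ (y τ)).1 (hy τ) τ'
  have hG : Q.G 0 (ι a * ∏ τ ∈ T, (ι (y τ) - τ (y τ))) := by
    rw [hid]
    refine G_sum' _ _ fun B _ => ?_
    have h1 : Q.G 0 (∏ τ ∈ T \ B, (-(τ (y τ)))) := G_prod' _ _ fun τ _ => (hint τ τ).neg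
    have h2 : Q.G 0 (algebraMap K H (Algebra.trace K E (a * ∏ τ ∈ B, y τ))) :=
      (hQ.G_zero_iff _).2 (ha _ (IntO.prod' B y fun τ _ => hy τ))
    simpa using h1.mul h2
  by_cases ha0 : algebraMap E H a = 0
  · exact Or.inl ha0
  have hne : ∀ τ ∈ T, ι (y τ) - τ (y τ) ≠ 0 := fun τ hτ => (hm τ (Finset.ne_of_mem_erase hτ)).1
  have hp0 : ∏ τ ∈ T, (ι (y τ) - τ (y τ)) ≠ 0 := Finset.prod_ne_zero_iff.2 hne
  have ha0' : ι a ≠ 0 := ha0
  have h1 := hG.le (mul_ne_zero ha0' hp0)
  rw [Q.ord_mul _ _ ha0' hp0, ord_prod' T _ hne] at h1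
  have h2 : ∑ τ ∈ T, Q.ord (ι (y τ) - τ (y τ)) ≤ ∑ τ ∈ T, m τ :=
    Finset.sum_le_sum fun τ hτ => (hm τ (Finset.ne_of_mem_erase hτ)).2
  refine DV.G_of_le ?_
  rw [hιa] at h1
  linarith

/-- the dual of the integral elements is integral, from units `s x - x` -/
theorem dual_unram [FiniteDimensional K H] [IsGalois K H] {Q : DV H} {v : DV K} (hQ : Over Q v)
    (hu : ∀ s : H ≃ₐ[K] H, s ≠ 1 → ∃ x : H, IntO v x ∧ s x - x ≠ 0 ∧ Q.ord (s x - x) = 0)
    {a : H} (ha : ∀ b : H, IntO v b → v.G 0 (Algebra.trace K H (a * b))) : Q.G 0 a := by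
  classical
  have hfin : Fintype (H →ₐ[K] H) := Fintype.ofFinite _
  have hex : ∀ τ : H →ₐ[K] H, ∃ x : H, IntO v x ∧ (τ ≠ IsScalarTower.toAlgHom K H H →
      algebraMap H H x - τ x ≠ 0 ∧ Q.ord (algebraMap H H x - τ x) ≤ 0) := by
    intro τ
    by_cases hτ : τ = IsScalarTower.toAlgHom K H H
    · exact ⟨0, fun w _ => DV.G_zero _, fun h => absurd hτ h⟩
    · let s : H ≃ₐ[K] H := AlgEquiv.ofBijective τ
        (Algebra.IsAlgebraic.algHom_bijective τ)
      have hs : s ≠ 1 := fun h => hτ (by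
        apply AlgHom.ext
        intro a
        exact DFunLike.congr_fun h a)
      obtain ⟨x, hx, hx0, hx1⟩ := hu s hs
      have hsx : s x = τ x := rfl
      refine ⟨x, hx, fun _ => ⟨?_, ?_⟩⟩
      · show x - τ x ≠ 0
        rw [← neg_sub, neg_ne_zero, ← hsx]
        exact hx0
      · show Q.ord (x - τ x) ≤ 0
        rw [← neg_sub, Q.ord_neg, ← hsx, hx1]
  choose y hy hy2 using hex
  have h1 := lag (E := H) hQ ha y hy (fun _ => 0) hy2
  simpa using h1

/-- no ramification, from units `s x - x` -/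
theorem unram [FiniteDimensional K H] [IsGalois K H] {Q : DV H} {v : DV K} (hQ : Over Q v)
    (hu : ∀ s : H ≃ₐ[K] H, s ≠ 1 → ∃ x : H, IntO v x ∧ s x - x ≠ 0 ∧ Q.ord (s x - x) = 0) :
    OverE Q v 1 := by
  classical
  obtain ⟨e, he⟩ := hQ.overE
  have he1 : e = 1 := by
    by_contra hne
    have he2 : 2 ≤ e := by
      have := he.1
      omega
    -- all places over `v` have the same index
    have hall : ∀ w : DV H, Over w v → OverE w v e := by
      intro w hw
      obtain ⟨s, hs⟩ := exists_act_eq hQ hw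
      rw [hs]
      exact he.act s
    have hfinset : {w : DV H | Over w v}.Finite := over_finite' v
    obtain ⟨t0, ht0, ht1⟩ := Q.exists_one
    obtain ⟨t, ht⟩ := DV.weak_approx hfinset.toFinset (fun w => if w = Q then t0 else 0) 2
    have htQ := ht Q (by rw [Set.Finite.mem_toFinset]; exact hQ)
    rw [if_pos rfl] at htQ
    have htQ1 : t ≠ 0 ∧ Q.ord t = 1 := by
      have h1 := DV.ord_add_of_lt (v := Q) (a := t0) (b := t - t0) ht0 (by
        rw [ht1]
        exact htQ)
      rw [add_sub_cancel] at h1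
      exact ⟨h1.1, h1.2.trans ht1⟩
    have htw : ∀ w : DV H, Over w v → w.G 1 t := by
      intro w hw
      by_cases h : w = Q
      · rw [h]
        exact DV.G_of_le htQ1.2.ge
      · have h1 := ht w (by rw [Set.Finite.mem_toFinset]; exact hw)
        rw [if_neg h, sub_zero] at h1
        exact h1.mono (by norm_num)
    obtain ⟨π, hπ0, hπ1⟩ := v.exists_one
    have hπH : algebraMap K H π ≠ 0 := map_ne_zero' hπ0
    have hG : Q.G 0 (t / algebraMap K H π) := by
      refine dual_unram hQ hu fun b hb => ?_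
      -- the trace of `t b` has positive order
      have h1 : Algebra.trace K H (t / algebraMap K H π * b) =
          π⁻¹ * Algebra.trace K H (t * b) := by
        have h2 : t / algebraMap K H π * b = π⁻¹ • (t * b) := by
          rw [Algebra.smul_def, map_inv₀]
          field_simp
        rw [h2, map_smul, smul_eq_mul]
      have h3 : v.G 1 (Algebra.trace K H (t * b)) := by
        have hft : Fintype (H →ₐ[K] H) := Fintype.ofFinite _
        rw [← hQ.G_one_iff, trace_sum]
        refine G_sum' _ _ fun τ _ => ?_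
        let s : H ≃ₐ[K] H := AlgEquiv.ofBijective τ
          (Algebra.IsAlgebraic.algHom_bijective τ)
        have hw : Over (Q.act s.symm) v := hQ.act s.symm
        have h4 := (htw _ hw).mul (hb _ hw)
        rw [add_zero] at h4
        rcases h4 with h5 | h5
        · exact Or.inl (by rw [h5, map_zero])
        · exact Or.inr h5
      rw [h1]
      have h5 : v.G (-1) π⁻¹ := DV.G_of_le (by rw [v.ord_inv hπ0, hπ1])
      simpa using h5.mul h3
    have h6 := hG.le (div_ne_zero htQ1.1 hπH)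
    rw [Q.ord_div htQ1.1 hπH, htQ1.2, he.2, hπ1] at h6
    omega
  rw [← he1]
  exact he

/-- the same for traces from a subfield -/
theorem unram_trace [FiniteDimensional K H] [IsGalois K H] {Q : DV H} {v : DV K} (hQ : Over Q v)
    (hu : ∀ s : H ≃ₐ[K] H, s ≠ 1 → ∃ x : H, IntO v x ∧ s x - x ≠ 0 ∧ Q.ord (s x - x) = 0)
    {a : E} (ha : ∀ b : E, IntO v b → v.G 0 (Algebra.trace K E (a * b))) :
    Q.G 0 (algebraMap E H a) := by
  have hfe : FiniteDimensional K E := FiniteDimensional.of_injective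
    (IsScalarTower.toAlgHom K E H).toLinearMap (algebraMap E H).injective
  have hfh : FiniteDimensional E H := FiniteDimensional.right K E H
  refine dual_unram hQ hu fun b hb => ?_
  have h1 : Algebra.trace K H (algebraMap E H a * b) =
      Algebra.trace K E (a * Algebra.trace E H b) := by
    rw [← Algebra.trace_trace (S := E)]
    congr 1
    rw [← Algebra.smul_def, map_smul, smul_eq_mul]
  rw [h1]
  refine ha _ fun w hw => ?_
  refine IntO.trace fun w' hw' => ?_
  exact hb w' (hw'.trans' hw)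

end

end Pool.Agent.FF
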