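import Pool.Agent.FD.Base

/-! # the number of lines -/

set_option autoImplicit false
set_option linter.unusedSectionVars false
set_option linter.style.haveILetI false

namespace Pool.Agent.FF

open Polynomial

/-- the number of subspaces with `q` elements of a space with `q ^ 2` elements -/
theorem card_sub_one {κ V : Type*} [Field κ] [AddCommGroup V] [Module κ V] {q : ℕ} (hq : 1 < q)
    (hκ : Nat.card κ = q) (hV : Nat.card V = q ^ 2) :
    Nat.card {W : Submodule κ V // Nat.card W = q} = q + 1 := by
  have h1 : Finite κ := Nat.finite_of_card_ne_zero (by omega)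
  have h2 : Finite V := Nat.finite_of_card_ne_zero (by rw [hV]; positivity)
  have h3 : ∀ W : Submodule κ V, Nat.card W = q ↔ Module.finrank κ W = 1 := by
    intro W
    rw [Module.natCard_eq_pow_finrank (K := κ) (V := W), hκ]
    constructor
    · intro h
      have h4 : q ^ Module.finrank κ W = q ^ 1 := by rw [h, pow_one]
      exact Nat.pow_right_injective hq h4
    · intro h
      rw [h, pow_one]
  rw [Nat.card_congr (Equiv.subtypeEquivRight h3),
    Nat.card_congr (Projectivization.equivSubmodule κ V).symm, Projectivization.card'', hκ, hV]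
  obtain ⟨m, rfl⟩ : ∃ m, q = m + 1 := ⟨q - 1, by omega⟩
  have h5 : (m + 1) ^ 2 - 1 = (m + 1 + 1) * (m + 1 - 1) := by
    have : (m + 1) ^ 2 = (m + 1 + 1) * m + 1 := by ring
    rw [this]
    simp
  rw [h5]
  exact Nat.mul_div_cancel _ (by omega)

section

variable {F : Type*} {H : Type*} [Field F] [Finite F] [Field H] [Algebra F H]

theorem VN_st (g : H) (M : Polynomial F) : ∀ x ∈ VN F g M, phT F g x ∈ VN F g M := by
  intro x hx
  have h1 : aeval (phT F g) M x = 0 := hx
  have h2 := congrArg (aeval (phT F g)) (mul_comm M X)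
  rw [map_mul, map_mul, aeval_X] at h2
  have h3 := LinearMap.congr_fun h2 x
  rw [Module.End.mul_apply, Module.End.mul_apply, h1, map_zero] at h3
  exact h3

/-- `φ_T` on the `M`-torsion -/
noncomputable def phV (g : H) (M : Polynomial F) : Module.End F (VN F g M) :=
  (phT F g).restrict (VN_st g M)

theorem phV_pow (g : H) (M : Polynomial F) (n : ℕ) (v : VN F g M) :
    (((phV g M ^ n) v : VN F g M) : H) = (phT F g ^ n) v := by
  induction n with
  | zero => rfl
  | succ n ih =>
    rw [pow_succ', pow_succ', Module.End.mul_apply, Module.End.mul_apply, ← ih]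
    rfl

theorem aeval_phV (g : H) (M p : Polynomial F) (v : VN F g M) :
    ((aeval (phV g M) p v : VN F g M) : H) = aeval (phT F g) p v := by
  induction p using Polynomial.induction_on' with
  | add p q hp hq =>
    rw [map_add, map_add, LinearMap.add_apply, LinearMap.add_apply, Submodule.coe_add, hp, hq]
  | monomial n a =>
    rw [aeval_monomial, aeval_monomial, Module.End.mul_apply, Module.End.mul_apply,
      Module.algebraMap_end_apply, Module.algebraMap_end_apply, Submodule.coe_smul, phV_pow]

/-- the action of `F[T] / M` on the `M`-torsion -/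
noncomputable def actV (g : H) (M : Polynomial F) :
    (Polynomial F ⧸ Ideal.span {M}) →+* Module.End F (VN F g M) :=
  Ideal.Quotient.lift (Ideal.span {M}) ((aeval (phV g M) : F[X] →ₐ[F] _) : F[X] →+* _) (by
    intro a ha
    obtain ⟨b, rfl⟩ := Ideal.mem_span_singleton'.1 ha
    show aeval (phV g M) (b * M) = 0
    rw [map_mul]
    have h1 : aeval (phV g M) M = 0 := by
      ext v
      rw [aeval_phV]
      have h2 : aeval (phT F g) M (v : H) = 0 := v.2
      rw [h2]
      rfl
    rw [h1, mul_zero])

theorem actV_mk (g : H) (M p : Polynomial F) (v : VN F g M) :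
    ((actV g M (Ideal.Quotient.mk _ p) v : VN F g M) : H) = aeval (phT F g) p v := by
  rw [← aeval_phV]
  rfl

theorem aeval_st {g : H} {L : Submodule F H} (hL : ∀ x ∈ L, phT F g x ∈ L) (p : Polynomial F)
    {x : H} (hx : x ∈ L) : aeval (phT F g) p x ∈ L := by
  have hn : ∀ n : ℕ, (phT F g ^ n) x ∈ L := by
    intro n
    induction n with
    | zero => exact hx
    | succ n ih =>
      rw [pow_succ', Module.End.mul_apply]
      exact hL _ ih
  induction p using Polynomial.induction_on' with
  | add p q hp hq =>
    rw [map_add, LinearMap.add_apply]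
    exact add_mem hp hq
  | monomial n a =>
    rw [aeval_monomial, Module.End.mul_apply, Module.algebraMap_end_apply]
    exact Submodule.smul_mem _ _ (hn n)

theorem card_quot {M : Polynomial F} (hM : M.Monic) :
    Nat.card (Polynomial F ⧸ Ideal.span {M}) = Nat.card F ^ M.natDegree := by
  show Nat.card (AdjoinRoot M) = _
  have h := hM.finite_adjoinRoot
  rw [Module.natCard_eq_pow_finrank (K := F) (V := AdjoinRoot M),
    (AdjoinRoot.powerBasis' hM).finrank, AdjoinRoot.powerBasis'_dim]

/-- there are `r ^ d + 1` lines -/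
theorem card_line_aux {g : H} {M : Polynomial F} (hM : M.Monic) (hi : Irreducible M)
    (hV : Nat.card (VN F g M) = Nat.card F ^ (2 * M.natDegree)) :
    Nat.card {L : Submodule F H // IsLine F g M L} = Nat.card F ^ M.natDegree + 1 := by
  haveI : (Ideal.span {M} : Ideal F[X]).IsMaximal :=
    PrincipalIdealRing.isMaximal_of_irreducible hi
  letI : Field (Polynomial F ⧸ Ideal.span {M}) := Ideal.Quotient.field _
  letI : Module (Polynomial F ⧸ Ideal.span {M}) (VN F g M) := Module.compHom _ (actV g M)
  have hsm : ∀ (p : Polynomial F) (v : VN F g M),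
      (((Ideal.Quotient.mk (Ideal.span {M}) p) • v : VN F g M) : H) = aeval (phT F g) p v :=
    fun p v => actV_mk g M p v
  have hd : 0 < M.natDegree := hi.natDegree_pos
  have hF : 1 < Nat.card F := Finite.one_lt_card
  have key := card_sub_one (κ := Polynomial F ⧸ Ideal.span {M}) (V := VN F g M)
    (q := Nat.card F ^ M.natDegree) (Nat.one_lt_pow hd.ne' hF) (card_quot hM)
    (by rw [hV, ← pow_mul, mul_comm])
  rw [← key]
  refine Nat.card_congr ?_
  let toW : ∀ L : Submodule F H, IsLine F g M L →
      Submodule (Polynomial F ⧸ Ideal.span {M}) (VN F g M) := fun L h =>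
    { carrier := {v | (v : H) ∈ L}
      add_mem' := fun {a b} ha hb => add_mem (S := Submodule F H) ha hb
      zero_mem' := zero_mem L
      smul_mem' := by
        intro c v hv
        obtain ⟨p, rfl⟩ := Ideal.Quotient.mk_surjective c
        show (((Ideal.Quotient.mk (Ideal.span {M}) p) • v : VN F g M) : H) ∈ L
        rw [hsm]
        exact aeval_st h.st p hv }
  let toL : Submodule (Polynomial F ⧸ Ideal.span {M}) (VN F g M) → Submodule F H := fun W =>
    { carrier := {x | ∃ h : x ∈ VN F g M, (⟨x, h⟩ : VN F g M) ∈ W}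
      add_mem' := by
        rintro a b ⟨ha, ha'⟩ ⟨hb, hb'⟩
        exact ⟨add_mem ha hb, add_mem ha' hb'⟩
      zero_mem' := ⟨zero_mem _, zero_mem W⟩
      smul_mem' := by
        rintro c a ⟨ha, ha'⟩
        refine ⟨Submodule.smul_mem _ c ha, ?_⟩
        have h1 := W.smul_mem (Ideal.Quotient.mk (Ideal.span {M}) (C c)) ha'
        have h2 : (Ideal.Quotient.mk (Ideal.span {M}) (C c)) • (⟨a, ha⟩ : VN F g M) =
            ⟨c • a, Submodule.smul_mem _ c ha⟩ := by
          apply Subtype.ext
          rw [hsm, aeval_C, Module.algebraMap_end_apply]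
        rwa [h2] at h1 }
  have hst : ∀ W : Submodule (Polynomial F ⧸ Ideal.span {M}) (VN F g M), ∀ x ∈ toL W,
      phT F g x ∈ toL W := by
    rintro W x ⟨hx, hx'⟩
    refine ⟨VN_st g M x hx, ?_⟩
    have h1 := W.smul_mem (Ideal.Quotient.mk (Ideal.span {M}) X) hx'
    have h2 : (Ideal.Quotient.mk (Ideal.span {M}) X) • (⟨x, hx⟩ : VN F g M) =
        ⟨phT F g x, VN_st g M x hx⟩ := by
      apply Subtype.ext
      rw [hsm, aeval_X]
    rwa [h2] at h1
  have hcL : ∀ W : Submodule (Polynomial F ⧸ Ideal.span {M}) (VN F g M),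
      Nat.card (toL W) = Nat.card W := by
    intro W
    refine Nat.card_congr
      { toFun := fun x => ⟨⟨x.1, x.2.choose⟩, x.2.choose_spec⟩
        invFun := fun v => ⟨v.1.1, v.1.2, v.2⟩
        left_inv := fun _ => rfl
        right_inv := fun _ => rfl }
  have hcW : ∀ (L : Submodule F H) (h : IsLine F g M L), Nat.card (toW L h) = Nat.card L := by
    intro L h
    refine Nat.card_congr
      { toFun := fun v => ⟨v.1.1, v.2⟩
        invFun := fun x => ⟨⟨x.1, h.le x.2⟩, x.2⟩
        left_inv := fun _ => rfl
        right_inv := fun _ => rfl }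
  exact
    { toFun := fun L => ⟨toW L.1 L.2, by rw [hcW L.1 L.2, L.2.card]⟩
      invFun := fun W => ⟨toL W.1, fun x hx => hx.choose, hst W.1, by rw [hcL, W.2]⟩
      left_inv := by
        intro L
        apply Subtype.ext
        ext x
        exact ⟨fun h => h.choose_spec, fun h => ⟨L.2.le h, h⟩⟩
      right_inv := by
        intro W
        apply Subtype.ext
        ext x
        exact ⟨fun h => h.choose_spec, fun h => ⟨x.2, h⟩⟩ }

/-- the same, under the name of the page -/
theorem LnC.card_line {g : H} {M : Polynomial F} (hM : M.Monic) (hi : Irreducible M)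
    (hV : Nat.card (VN F g M) = Nat.card F ^ (2 * M.natDegree)) :
    Nat.card {L : Submodule F H // IsLine F g M L} = Nat.card F ^ M.natDegree + 1 :=
  card_line_aux hM hi hV

end

end Pool.Agent.FF
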