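import Pool.Agent.FD.Inf

/-! # D2: definitions (42) -/

set_option autoImplicit false

namespace Pool.Agent.FF

section

variable {F : Type*} {H : Type*} [Field F] [Finite F] [Field H] [Algebra F H]

/-- the data of a line tuple: `M i` distinct monic irreducible, `M i (1) ≠ 0`, full torsion -/
structure LT (g : H) {s : ℕ} (M : Fin s → Polynomial F) (L : Fin s → Submodule F H) : Prop where
  monic : ∀ i, (M i).Monic
  irr : ∀ i, Irreducible (M i)
  one : ∀ i, (M i).eval 1 ≠ 0
  inj : Function.Injective M
  full : ∀ i, Nat.card (VN F g (M i)) = Nat.card F ^ (2 * (M i).natDegree)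
  line : ∀ i, IsLine F g (M i) (L i)

open Classical in
/-- the type of `L` at `Q`: the indices with `L i ≠ V_0` -/
noncomputable def typ (F : Type*) {H : Type*} [Field F] [Finite F] [Field H] [Algebra F H] (g : H)
    (Q : DV H) {s : ℕ} (M : Fin s → Polynomial F) (L : Fin s → Submodule F H) : Finset (Fin s) :=
  Finset.univ.filter fun i => L i ≠ V0 F g Q (M i)

/-- the total degree of the `M i`, `i ∈ J` -/
noncomputable def dgM {s : ℕ} (M : Fin s → Polynomial F) (J : Finset (Fin s)) : ℕ :=
  ∑ i ∈ J, (M i).natDegree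

/-- `ψ(N)` -/
noncomputable def psiM {s : ℕ} (M : Fin s → Polynomial F) : ℕ :=
  ∏ i, (Nat.card F ^ (M i).natDegree + 1)

end

end Pool.Agent.FF
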