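import Pool.Agent.FD.FamD

/-! # Lower bounds for `L(q)`, `q` any square, `q ≥ 49` -/

set_option autoImplicit false

namespace Pool.Agent.FF

/-- a field with `r ^ 2` elements, `r` even: `r` is a power of two -/
theorem pow_two_of_even {k : Type} [Field k] {r : ℕ} (hr : 8 ≤ r) (he : Even r)
    (hk : Nat.card k = r ^ 2) : ∃ a : ℕ, 3 ≤ a ∧ r = 2 ^ a := by
  have : Finite k := Nat.finite_of_card_ne_zero (by rw [hk]; positivity)
  have := Fintype.ofFinite k
  obtain ⟨p, hp⟩ := CharP.exists k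
  obtain ⟨n, hpp, hc⟩ := FiniteField.card k p
  rw [← Nat.card_eq_fintype_card, hk] at hc
  have h1 : r ∣ p ^ (n : ℕ) := by
    rw [← hc]
    exact dvd_pow_self r (by norm_num)
  obtain ⟨a, -, rfl⟩ := (Nat.dvd_prime_pow hpp).1 h1
  have ha0 : a ≠ 0 := by
    rintro rfl
    norm_num at hr
  have h2 : p = 2 := by
    have h3 : 2 ∣ p ^ a := he.two_dvd
    exact ((Nat.prime_dvd_prime_iff_eq Nat.prime_two hpp).1 (Nat.prime_two.dvd_of_dvd_pow h3)).symm
  subst h2
  refine ⟨a, ?_, rfl⟩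
  by_contra h4
  have h5 : 2 ^ a ≤ 2 ^ 2 := Nat.pow_le_pow_right (by norm_num) (by omega)
  omega

/-- **All even squares `q = r ^ 2 ≥ 64`.** -/
theorem LL_even {k : Type} [Field k] {r : ℕ} (hr : 8 ≤ r) (he : Even r)
    (hk : Nat.card k = r ^ 2) :
    ENNReal.ofReal (((r : ℝ) + 1) / (2 + 1 / (2 * Real.logb 2 r))) ≤ LL k := by
  obtain ⟨a, ha, rfl⟩ := pow_two_of_even hr he hk
  have h1 : Real.logb 2 ((2 ^ a : ℕ) : ℝ) = a := by
    push_cast
    rw [Real.logb_pow, Real.logb_self_eq_one (by norm_num), mul_one]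
  rw [h1]
  push_cast
  exact LL_all_even ha hk

end Pool.Agent.FF
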