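import Pool.Agent.FD.DenseD
import Pool.Agent.FO.AllP2

/-!
# The numbers for all squares

`Good k s kap lam`: the lower bounds for `LL k` from all bounds for binary codes.
-/

set_option autoImplicit false

namespace Pool.Agent.FF

/-- the lower bounds for `LL k` from all bounds for binary codes -/
def Good (k : Type) [Field k] (s kap lam : ℝ) : Prop :=
  ∀ (B κ : ℕ) (u c : ℝ), BlkF B κ u → κ < B → 0 ≤ u → u ≤ B →
    c ≤ s * (2 - 2 * u / B) / (2 + (kap + κ / B * s) / lam) → ENNReal.ofReal c ≤ LL k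

/-- a log-dense family, odd characteristic -/
theorem good_odd {k : Type} [Field k] [Finite k] (h2 : (2 : k) ≠ 0) {lam : ℝ} (hlam0 : 0 < lam)
    (hlam : (2 : ℝ) ^ lam ≤ Nat.card k) {s : ℝ} (hs : 0 < s) {A : ℕ}
    (H : ∀ η : ℝ, 0 < η → η < 1 → ∃ m0 : ℝ, ∀ m : ℝ, m0 ≤ m → CurveD k A (1, 2, s * (1 - η)) m) :
    Good k s 2 lam :=
  fun _ _ _ _ hb hκ hu hu2 hc => LL_denseD h2 hlam0 hlam hs H hb hκ hu hu2 hc

/-- a log-dense family, characteristic two -/
theorem good_even {k : Type} [Field k] [Finite k] {e : ℕ} (he : 1 ≤ e) (hk : Nat.card k = 2 ^ e)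
    {s : ℝ} (hs : 0 < s) {A : ℕ}
    (H : ∀ η : ℝ, 0 < η → η < 1 → ∃ m0 : ℝ, ∀ m : ℝ, m0 ≤ m → CurveE k A (1, 1, s * (1 - η)) m) :
    Good k s 1 e :=
  fun _ _ _ _ hb hκ hu hu2 hc => LL_denseE he hk hs H hb.toBlk hκ hu hu2 hc

namespace AllP

/-- the large odd `r = 2 m + 1` -/
theorem largeD {k : Type} [Field k] {m : ℕ} (hm : 8 ≤ m)
    (H : Good k (2 * (m : ℝ)) 2 (2 * Real.logb 2 (2 * m + 1))) :
    ENNReal.ofReal ((2 * m + 2) / (2 + 1 / Real.logb 2 (2 * m + 1))) ≤ LL k := by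
  set L : ℝ := Real.logb 2 m with hL
  have hmr : (8 : ℝ) ≤ m := by exact_mod_cast hm
  have hm0 : (0 : ℝ) < m := by linarith
  have hl2 : 0 < Real.log 2 := Real.log_pos (by norm_num)
  have hL0 : 0 ≤ L := Real.logb_nonneg (by norm_num) (by linarith)
  set X : ℝ := (m : ℝ) * (2 * L + 1 / Real.log 2) with hX
  have hX0 : 0 ≤ X := by positivity
  set κ : ℕ := ⌈X⌉₊ with hκ
  have hκ1 : X ≤ κ := Nat.le_ceil _
  have hκ2 : (κ : ℝ) < X + 1 := Nat.ceil_lt_add_one hX0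
  set lg : ℝ := Real.logb 2 (2 * m + 1) with hlg
  have hlg1 : L + 1 ≤ lg := by
    have h1 : L + 1 = Real.logb 2 (2 * m) := by
      rw [Real.logb_mul (by norm_num) (by positivity), Real.logb_self_eq_one (by norm_num)]
      ring
    rw [h1]
    exact Real.logb_le_logb_of_le (by norm_num) (by positivity) (by linarith)
  have hlg0 : 0 < lg := by linarith
  set lam : ℝ := 2 * lg with hlam
  have hlam0 : 0 < lam := by positivity
  -- `t`
  obtain ⟨t, ht1, ht2, u, hu⟩ : ∃ t : ℕ, 2 * m ^ 2 - 3 ≤ t ∧ t ≤ 2 * m ^ 2 - 2 ∧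
      ∃ u : ℕ, m ^ 3 = 2 * u + t := by
    have hb : 2 * m ^ 2 ≤ m ^ 3 := by
      have : m ^ 3 = m * m ^ 2 := by ring
      rw [this]
      exact Nat.mul_le_mul_right _ (by omega)
    have h64 : 8 ^ 2 ≤ m ^ 2 := Nat.pow_le_pow_left hm 2
    rcases Nat.even_or_odd m with he | ho
    · have h3 : Even (m ^ 3) := (Nat.even_pow' (by norm_num)).2 he
      obtain ⟨v, hv⟩ := h3
      exact ⟨2 * m ^ 2 - 2, by omega, by omega, v - m ^ 2 + 1, by omega⟩
    · have h3 : Odd (m ^ 3) := ho.pow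
      obtain ⟨v, hv⟩ := h3
      exact ⟨2 * m ^ 2 - 3, by omega, by omega, v - m ^ 2 + 2, by omega⟩
  have hmm : (m : ℝ) ^ 3 = 2 * u + t := by exact_mod_cast hu
  have ht1' : 2 * (m : ℝ) ^ 2 - 3 ≤ t := by
    have h1 : 2 * m ^ 2 ≤ t + 3 := by omega
    have h2 : ((2 * m ^ 2 : ℕ) : ℝ) ≤ ((t + 3 : ℕ) : ℝ) := by exact_mod_cast h1
    push_cast at h2
    linarith
  -- the volume
  have hvol := vol hm hκ1
  have hL1 := logb_le hmr
  have h14 := inv_log_two
  have hκ3 : (κ : ℝ) ≤ m * (2 * L + 1.4427) + 1 := by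
    have : X ≤ m * (2 * L + 1.4427) := mul_le_mul_of_nonneg_left (by linarith) hm0.le
    linarith
  have hin := ineq hmr hL1 hκ3 (lam := lam) (by rw [hlam]; linarith)
  have hκB : κ < m ^ 3 := by
    have h1 : (κ : ℝ) < (m : ℝ) ^ 3 := by
      have h5 : m * (2 * L + 1.4427) + 1 < (m : ℝ) ^ 3 := by
        have h6 : 2 * L + 1.4427 ≤ 4.5573 + 0.36068 * m := by linarith
        have h7 : (m : ℝ) * (2 * L + 1.4427) ≤ m * (4.5573 + 0.36068 * m) :=
          mul_le_mul_of_nonneg_left h6 hm0.le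
        nlinarith [mul_nonneg hm0.le (mul_nonneg hm0.le (by linarith : (0 : ℝ) ≤ m - 8))]
      linarith
    exact_mod_cast h1
  have hsq : (m ^ 3 - 2 * u) ^ 2 < 4 * m * (m ^ 3 - m) := by
    have h1 : m ^ 3 - 2 * u = t := by omega
    rw [h1]
    obtain ⟨n, hn⟩ : ∃ n : ℕ, m ^ 2 = n + 1 := ⟨m ^ 2 - 1, by
      have : 1 ≤ m ^ 2 := Nat.one_le_pow _ _ (by omega)
      omega⟩
    have h3 : m ^ 3 - m = m * n := by
      have : m ^ 3 = m * n + m := by
        calc m ^ 3 = m * m ^ 2 := by ring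
          _ = m * n + m := by rw [hn]; ring
      omega
    rw [h3]
    have h4 : t ≤ 2 * n := by omega
    have h5 : 4 * m * (m * n) = 4 * (n + 1) * n := by
      rw [← hn]
      ring
    rw [h5]
    have hn0 : 0 < n := by
      have : 8 ^ 2 ≤ m ^ 2 := Nat.pow_le_pow_left hm 2
      omega
    calc t ^ 2 ≤ (2 * n) ^ 2 := Nat.pow_le_pow_left h4 2
      _ < 4 * (n + 1) * n := by nlinarith
  have hb : BlkF (m ^ 3) κ (u : ℝ) := blkF_lp (a := m) (by omega)
    (by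
      have : m ^ 3 = m * m * m := by ring
      rw [this]
      nlinarith) hvol (by omega) hsq
  refine H _ _ _ _ hb hκB (Nat.cast_nonneg _)
    (by
      push_cast
      rw [hmm]
      have : (0 : ℝ) ≤ t := Nat.cast_nonneg _
      have : (0 : ℝ) ≤ u := Nat.cast_nonneg _
      linarith) ?_
  -- the inequality
  push_cast
  have e1 : (2 : ℝ) - 2 * u / (m : ℝ) ^ 3 = 1 + t / (m : ℝ) ^ 3 := by
    have : (m : ℝ) ^ 3 ≠ 0 := by positivity
    field_simp
    linarith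
  rw [e1]
  have e2 : (2 * (m : ℝ) + 2) / (2 + 1 / lg) = (m + 1) * lam / (lam + 1) := by
    rw [hlam]
    field_simp
  have e3 : 2 * (m : ℝ) * (1 + t / (m : ℝ) ^ 3) /
      (2 + (2 + κ / (m : ℝ) ^ 3 * (2 * (m : ℝ))) / lam) =
      (m + t / (m : ℝ) ^ 2) * lam / (lam + 1 + κ / (m : ℝ) ^ 2) := by
    field_simp
    ring
  rw [e2, e3, div_le_div_iff₀ (by positivity) (by positivity)]
  have h6 : (m + 1 : ℝ) * (lam + 1 + κ / (m : ℝ) ^ 2) ≤ (m + t / (m : ℝ) ^ 2) * (lam + 1) := by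
    have h7 : (m + 1 : ℝ) * κ ≤ (t - (m : ℝ) ^ 2) * (lam + 1) := by
      refine hin.trans ?_
      rw [mul_comm]
      exact mul_le_mul_of_nonneg_right (by linarith) (by positivity)
    have hm2 : (0 : ℝ) < (m : ℝ) ^ 2 := by positivity
    have h8 : (m + 1 : ℝ) * (κ / (m : ℝ) ^ 2) ≤ (t / (m : ℝ) ^ 2 - 1) * (lam + 1) := by
      have e4 : (t / (m : ℝ) ^ 2 - 1) * (lam + 1) = (t - (m : ℝ) ^ 2) * (lam + 1) / (m : ℝ) ^ 2 := by
        field_simp
      rw [e4, ← mul_div_assoc]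
      gcongr
    nlinarith
  nlinarith [mul_le_mul_of_nonneg_left h6 hlam0.le]

/-- a single `r`, `κ' = kap`, the logarithm `lg` of `r` at least `x / 4` -/
theorem smallD {k : Type} [Field k] {r kap lg : ℝ} (hr : 1 < r) (hkap : 0 ≤ kap) (hlg : 0 < lg)
    (H : Good k (r - 1) kap (2 * lg)) {B κ : ℕ} {u : ℝ}
    (hb : BlkF B κ u) (hκ : κ < B) (hu : 0 ≤ u) (hu2 : u ≤ B)
    (hin : (r + 1) * (2 * (2 * lg) + kap + κ / B * (r - 1)) ≤
      (r - 1) * (2 - 2 * u / B) * (2 * (2 * lg) + kap)) :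
    ENNReal.ofReal ((r + 1) / (2 + kap / (2 * lg))) ≤ LL k := by
  have hB : (0 : ℝ) < B := by exact_mod_cast (by omega : 0 < B)
  have hr1 : (0 : ℝ) < r - 1 := by linarith
  refine H _ _ _ _ hb hκ hu hu2 ?_
  have h5 : (0 : ℝ) < 2 * (2 * lg) + kap + κ / B * (r - 1) := by positivity
  have e2 : (r + 1) / (2 + kap / (2 * lg)) = (r + 1) * (2 * lg) / (2 * (2 * lg) + kap) := by
    have : (0 : ℝ) < 2 + kap / (2 * lg) := by positivity
    have : (0 : ℝ) < 2 * (2 * lg) + kap := by positivity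
    field_simp
  have e3 : (r - 1) * (2 - 2 * u / B) / (2 + (kap + κ / B * (r - 1)) / (2 * lg)) =
      (r - 1) * (2 - 2 * u / B) * (2 * lg) / (2 * (2 * lg) + kap + κ / B * (r - 1)) := by
    have h3 : (0 : ℝ) < 2 + (kap + κ / B * (r - 1)) / (2 * lg) := by positivity
    rw [div_eq_div_iff h3.ne' h5.ne']
    field_simp
    ring
  rw [e2, e3, div_le_div_iff₀ (by positivity) h5]
  have h6 : 0 < 2 * lg := by positivity
  nlinarith [mul_le_mul_of_nonneg_left hin h6.le]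

end AllP

end Pool.Agent.FF
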