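import Pool.Agent.FD.FamD

/-!
# Numbers for the small squares
-/

set_option autoImplicit false

namespace Pool.Agent.FF

theorem goodO {k : Type} [Field k] {r : ℕ} (hr : 2 ≤ r) (hodd : Odd r)
    (hk : Nat.card k = r ^ 2) : Good k ((r : ℝ) - 1) 2 (2 * Real.logb 2 r) := by
  have : Finite k := Nat.finite_of_card_ne_zero (by rw [hk]; positivity)
  have h2 : (2 : k) ≠ 0 := Sset.two_ne (Sset.char_zero_of_card hk) (Nat.odd_iff.1 hodd)
  obtain ⟨A, hA⟩ := famD h2 hr hk
  have hr0 : (0 : ℝ) < r := by exact_mod_cast (by omega : 0 < r)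
  have hr2 : (2 : ℝ) ≤ r := by exact_mod_cast hr
  have hlg : 0 < Real.logb 2 r := Real.logb_pos (by norm_num) (by linarith)
  refine good_odd h2 (by positivity) ?_ (by linarith) hA
  rw [hk, mul_comm, Real.rpow_mul (by norm_num), Real.rpow_logb (by norm_num) (by norm_num) hr0]
  push_cast
  norm_num

theorem goodE {k : Type} [Field k] {a : ℕ} (ha : 1 ≤ a) (hk : Nat.card k = (2 ^ a) ^ 2) :
    Good k (((2 ^ a : ℕ) : ℝ) - 1) 1 ((2 * a : ℕ) : ℝ) := by
  have : Finite k := Nat.finite_of_card_ne_zero (by rw [hk]; positivity)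
  have := Fintype.ofFinite k
  have hk2 : Nat.card k = 2 ^ (2 * a) := by
    rw [hk, ← pow_mul, mul_comm]
  have : Fact (Nat.Prime 2) := ⟨Nat.prime_two⟩
  have : CharP k 2 := charP_of_card_eq_prime_pow (p := 2) (f := 2 * a) (by
    rw [← Nat.card_eq_fintype_card, hk2])
  have h2 : 2 ^ 1 ≤ 2 ^ a := Nat.pow_le_pow_right (by norm_num) ha
  obtain ⟨A, hA⟩ := famE (k := k) (by omega : 2 ≤ 2 ^ a) hk
  refine good_even (by omega) hk2 ?_ hA
  have : ((2 ^ 1 : ℕ) : ℝ) ≤ ((2 ^ a : ℕ) : ℝ) := by exact_mod_cast h2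
  push_cast at this ⊢
  linarith

theorem Good.num {k : Type} [Field k] {s kap lam : ℝ} (H : Good k s kap lam) {lam' : ℝ}
    (h1 : 0 < lam') (h2 : lam' ≤ lam) (hs : 0 ≤ s) (hkap : 0 ≤ kap) {B κ : ℕ} {u c : ℝ}
    (hb : BlkF B κ u) (hκ : κ < B) (hu : 0 ≤ u) (hu2 : u ≤ B)
    (hc : c ≤ s * (2 - 2 * u / B) / (2 + (kap + κ / B * s) / lam')) :
    ENNReal.ofReal c ≤ LL k := by
  refine H B κ u c hb hκ hu hu2 (hc.trans ?_)
  have hB : (0 : ℝ) < B := by exact_mod_cast (by omega : 0 < B)
  have h3 : 0 ≤ kap + κ / B * s := by positivity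
  have h4 : (kap + κ / B * s) / lam ≤ (kap + κ / B * s) / lam' := by gcongr
  have h5 : 0 ≤ (kap + κ / B * s) / lam := div_nonneg h3 (by linarith)
  have h6 : 0 ≤ s * (2 - 2 * u / B) := by
    refine mul_nonneg hs ?_
    have : u / B ≤ 1 := (div_le_one hB).2 hu2
    have e : 2 * u / B = 2 * (u / B) := by ring
    rw [e]
    linarith
  exact div_le_div_of_nonneg_left h6 (by linarith) (by linarith)

theorem logb_ge {r x n : ℕ} (hn : 0 < n) (h : 2 ^ x ≤ r ^ n) (hr : 0 < r) {y : ℝ}
    (hy : y = 2 * ((x : ℝ) / n)) : y ≤ 2 * Real.logb 2 r := by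
  have := AllP.le_logb_of_pow hn h hr
  linarith

theorem T4.b9 : BlkF 378 368 (2 * (1 : ℕ) * (((378 : ℕ) : ℝ) - (1 : ℕ)) / (378 : ℕ)) :=
  blkF_eb (by norm_num) (by norm_num) (by decide +kernel)

theorem T4.L9 {k : Type} [Field k] (hk : Nat.card k = 9) : ENNReal.ofReal (613 / 500) ≤ LL k := by
  have H := goodO (k := k) (r := 3) (by norm_num) (by decide) (by rw [hk]; norm_num)
  refine H.num (lam' := 168 / 53) (by norm_num)
    (logb_ge (x := 84) (n := 53) (by norm_num) (by decide +kernel) (by norm_num) (by norm_num))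
    (by norm_num) (by norm_num) T4.b9 (by norm_num) (by norm_num) (by norm_num) ?_
  norm_num

theorem T4.b25 : BlkF 189 180 (2 * (1 : ℕ) * (((189 : ℕ) : ℝ) - (1 : ℕ)) / (189 : ℕ)) :=
  blkF_eb (by norm_num) (by norm_num) (by decide +kernel)

theorem T4.L25 {k : Type} [Field k] (hk : Nat.card k = 25) : ENNReal.ofReal (1217 / 500) ≤ LL k := by
  have H := goodO (k := k) (r := 5) (by norm_num) (by decide) (by rw [hk]; norm_num)
  refine H.num (lam' := 65 / 14) (by norm_num)
    (logb_ge (x := 65) (n := 28) (by norm_num) (by decide +kernel) (by norm_num) (by norm_num))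
    (by norm_num) (by norm_num) T4.b25 (by norm_num) (by norm_num) (by norm_num) ?_
  norm_num

theorem T4.b49 : BlkF 95 87 (2 * (1 : ℕ) * (((95 : ℕ) : ℝ) - (1 : ℕ)) / (95 : ℕ)) :=
  blkF_eb (by norm_num) (by norm_num) (by decide +kernel)

theorem T4.L49 {k : Type} [Field k] (hk : Nat.card k = 49) : ENNReal.ofReal (3523 / 1000) ≤ LL k := by
  have H := goodO (k := k) (r := 7) (by norm_num) (by decide) (by rw [hk]; norm_num)
  refine H.num (lam' := 320 / 57) (by norm_num)
    (logb_ge (x := 160) (n := 57) (by norm_num) (by decide +kernel) (by norm_num) (by norm_num))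
    (by norm_num) (by norm_num) T4.b49 (by norm_num) (by norm_num) (by norm_num) ?_
  norm_num

theorem T4.b81 : BlkF 114 94 (2 * (3 : ℕ) * (((114 : ℕ) : ℝ) - (3 : ℕ)) / (114 : ℕ)) :=
  blkF_eb (by norm_num) (by norm_num) (by decide +kernel)

theorem T4.L81 {k : Type} [Field k] (hk : Nat.card k = 81) : ENNReal.ofReal (4523 / 1000) ≤ LL k := by
  have H := goodO (k := k) (r := 9) (by norm_num) (by decide) (by rw [hk]; norm_num)
  refine H.num (lam' := 336 / 53) (by norm_num)
    (logb_ge (x := 168) (n := 53) (by norm_num) (by decide +kernel) (by norm_num) (by norm_num))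
    (by norm_num) (by norm_num) T4.b81 (by norm_num) (by norm_num) (by norm_num) ?_
  norm_num

theorem T4.b121 : BlkF 252 196 (2 * (9 : ℕ) * (((252 : ℕ) : ℝ) - (9 : ℕ)) / (252 : ℕ)) :=
  blkF_eb (by norm_num) (by norm_num) (by decide +kernel)

theorem T4.L121 {k : Type} [Field k] (hk : Nat.card k = 121) : ENNReal.ofReal (1091 / 200) ≤ LL k := by
  have H := goodO (k := k) (r := 11) (by norm_num) (by decide) (by rw [hk]; norm_num)
  refine H.num (lam' := 83 / 12) (by norm_num)
    (logb_ge (x := 83) (n := 24) (by norm_num) (by decide +kernel) (by norm_num) (by norm_num))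
    (by norm_num) (by norm_num) T4.b121 (by norm_num) (by norm_num) (by norm_num) ?_
  norm_num

theorem T4.b169 : BlkF 241 168 (2 * (13 : ℕ) * (((241 : ℕ) : ℝ) - (13 : ℕ)) / (241 : ℕ)) :=
  blkF_eb (by norm_num) (by norm_num) (by decide +kernel)

theorem T4.L169 {k : Type} [Field k] (hk : Nat.card k = 169) : ENNReal.ofReal (6337 / 1000) ≤ LL k := by
  have H := goodO (k := k) (r := 13) (by norm_num) (by decide) (by rw [hk]; norm_num)
  refine H.num (lam' := 37 / 5) (by norm_num)
    (logb_ge (x := 37) (n := 10) (by norm_num) (by decide +kernel) (by norm_num) (by norm_num))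
    (by norm_num) (by norm_num) T4.b169 (by norm_num) (by norm_num) (by norm_num) ?_
  norm_num

theorem T4.b289 : BlkF 488 125 ((145 : ℕ) : ℝ) :=
  blkF_lp (a := 21) (by norm_num) (by norm_num) (by decide +kernel) (by norm_num) (by norm_num)

theorem T4.L289 {k : Type} [Field k] (hk : Nat.card k = 289) : ENNReal.ofReal (819 / 100) ≤ LL k := by
  have H := goodO (k := k) (r := 17) (by norm_num) (by decide) (by rw [hk]; norm_num)
  refine H.num (lam' := 188 / 23) (by norm_num)
    (logb_ge (x := 94) (n := 23) (by norm_num) (by decide +kernel) (by norm_num) (by norm_num))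
    (by norm_num) (by norm_num) T4.b289 (by norm_num) (by norm_num) (by norm_num) ?_
  norm_num

theorem T4.b361 : BlkF 499 107 ((159 : ℕ) : ℝ) :=
  blkF_lp (a := 17) (by norm_num) (by norm_num) (by decide +kernel) (by norm_num) (by norm_num)

theorem T4.L361 {k : Type} [Field k] (hk : Nat.card k = 361) : ENNReal.ofReal (4559 / 500) ≤ LL k := by
  have H := goodO (k := k) (r := 19) (by norm_num) (by decide) (by rw [hk]; norm_num)
  refine H.num (lam' := 484 / 57) (by norm_num)
    (logb_ge (x := 242) (n := 57) (by norm_num) (by decide +kernel) (by norm_num) (by norm_num))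
    (by norm_num) (by norm_num) T4.b361 (by norm_num) (by norm_num) (by norm_num) ?_
  norm_num

theorem T4.b529 : BlkF 366 50 ((133 : ℕ) : ℝ) :=
  blkF_lp (a := 7) (by norm_num) (by norm_num) (by decide +kernel) (by norm_num) (by norm_num)

theorem T4.L529 {k : Type} [Field k] (hk : Nat.card k = 529) : ENNReal.ofReal (1097 / 100) ≤ LL k := by
  have H := goodO (k := k) (r := 23) (by norm_num) (by decide) (by rw [hk]; norm_num)
  refine H.num (lam' := 199 / 22) (by norm_num)
    (logb_ge (x := 199) (n := 44) (by norm_num) (by decide +kernel) (by norm_num) (by norm_num))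
    (by norm_num) (by norm_num) T4.b529 (by norm_num) (by norm_num) (by norm_num) ?_
  norm_num

theorem T4.b625 : BlkF 310 37 ((116 : ℕ) : ℝ) :=
  blkF_lp (a := 5) (by norm_num) (by norm_num) (by decide +kernel) (by norm_num) (by norm_num)

theorem T4.L625 {k : Type} [Field k] (hk : Nat.card k = 625) : ENNReal.ofReal (119 / 10) ≤ LL k := by
  have H := goodO (k := k) (r := 25) (by norm_num) (by decide) (by rw [hk]; norm_num)
  refine H.num (lam' := 65 / 7) (by norm_num)
    (logb_ge (x := 65) (n := 14) (by norm_num) (by decide +kernel) (by norm_num) (by norm_num))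
    (by norm_num) (by norm_num) T4.b625 (by norm_num) (by norm_num) (by norm_num) ?_
  norm_num

theorem T4.b729 : BlkF 358 38 ((137 : ℕ) : ℝ) :=
  blkF_lp (a := 5) (by norm_num) (by norm_num) (by decide +kernel) (by norm_num) (by norm_num)

theorem T4.L729 {k : Type} [Field k] (hk : Nat.card k = 729) : ENNReal.ofReal (1283 / 100) ≤ LL k := by
  have H := goodO (k := k) (r := 27) (by norm_num) (by decide) (by rw [hk]; norm_num)
  refine H.num (lam' := 504 / 53) (by norm_num)
    (logb_ge (x := 252) (n := 53) (by norm_num) (by decide +kernel) (by norm_num) (by norm_num))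
    (by norm_num) (by norm_num) T4.b729 (by norm_num) (by norm_num) (by norm_num) ?_
  norm_num

theorem T4.b4 : BlkF 1508 1496 (2 * (1 : ℕ) * (((1508 : ℕ) : ℝ) - (1 : ℕ)) / (1508 : ℕ)) :=
  blkF_eb (by norm_num) (by norm_num) (by decide +kernel)

theorem T4.L4 {k : Type} [Field k] (hk : Nat.card k = 4) : ENNReal.ofReal (2 / 3) ≤ LL k := by
  have H := goodE (k := k) (a := 1) (by norm_num) (by rw [hk]; norm_num)
  refine H.num (lam' := 2) (by norm_num) (by norm_num) (by norm_num) (by norm_num) T4.b4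
    (by norm_num) (by norm_num) (by norm_num) ?_
  norm_num

theorem T4.b16 : BlkF 95 87 (2 * (1 : ℕ) * (((95 : ℕ) : ℝ) - (1 : ℕ)) / (95 : ℕ)) :=
  blkF_eb (by norm_num) (by norm_num) (by decide +kernel)

theorem T4.L16 {k : Type} [Field k] (hk : Nat.card k = 16) : ENNReal.ofReal (2) ≤ LL k := by
  have H := goodE (k := k) (a := 2) (by norm_num) (by rw [hk]; norm_num)
  refine H.num (lam' := 4) (by norm_num) (by norm_num) (by norm_num) (by norm_num) T4.b16
    (by norm_num) (by norm_num) (by norm_num) ?_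
  norm_num

theorem T4.b64 : BlkF 48 41 (2 * (1 : ℕ) * (((48 : ℕ) : ℝ) - (1 : ℕ)) / (48 : ℕ)) :=
  blkF_eb (by norm_num) (by norm_num) (by decide +kernel)

theorem T4.L64 {k : Type} [Field k] (hk : Nat.card k = 64) : ENNReal.ofReal (849 / 200) ≤ LL k := by
  have H := goodE (k := k) (a := 3) (by norm_num) (by rw [hk]; norm_num)
  refine H.num (lam' := 6) (by norm_num) (by norm_num) (by norm_num) (by norm_num) T4.b64
    (by norm_num) (by norm_num) (by norm_num) ?_
  norm_num

theorem T4.b1024 : BlkF 357 25 ((146 : ℕ) : ℝ) :=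
  blkF_lp (a := 3) (by norm_num) (by norm_num) (by decide +kernel) (by norm_num) (by norm_num)

theorem T4.L1024 {k : Type} [Field k] (hk : Nat.card k = 1024) : ENNReal.ofReal (1581 / 100) ≤ LL k := by
  have H := goodE (k := k) (a := 5) (by norm_num) (by rw [hk]; norm_num)
  refine H.num (lam' := 10) (by norm_num) (by norm_num) (by norm_num) (by norm_num) T4.b1024
    (by norm_num) (by norm_num) (by norm_num) ?_
  norm_num

end Pool.Agent.FF
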