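import Mathlib

/-!
# Monic irreducible polynomials over a finite field

`r ^ n = ∑ deg M` over the monic irreducible `M` whose degree divides `n`; so there are at least
`r ^ n / (2 n)` monic irreducible polynomials of degree `n ≥ 3`, and the product of the
`1 + r ^ (- deg M)` diverges.
-/

set_option autoImplicit false

namespace Pool.Agent.FF

open Polynomial UniqueFactorizationMonoid

section

variable (F : Type*) [Field F] [Finite F]

open Classical in
/-- The monic irreducible polynomials whose degree divides `n`. -/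
noncomputable def irrDvd (n : ℕ) : Finset F[X] :=
  (normalizedFactors (X ^ (Nat.card F) ^ n - X : F[X])).toFinset

variable {F}

theorem pp_ne {n : ℕ} (hn : n ≠ 0) : (X ^ (Nat.card F) ^ n - X : F[X]) ≠ 0 :=
  FiniteField.X_pow_card_pow_sub_X_ne_zero F hn Finite.one_lt_card

theorem mem_irrDvd {n : ℕ} (hn : n ≠ 0) {f : F[X]} :
    f ∈ irrDvd F n ↔ f.Monic ∧ Irreducible f ∧ f.natDegree ∣ n := by
  classical
  rw [irrDvd, Multiset.mem_toFinset, mem_normalizedFactors_iff' (pp_ne hn)]
  constructor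
  · rintro ⟨h1, h2, h3⟩
    refine ⟨?_, h1, h1.natDegree_dvd_of_dvd_X_pow_card_pow_sub_X h3⟩
    rw [← h2]
    exact Polynomial.monic_normalize h1.ne_zero
  · rintro ⟨h1, h2, h3⟩
    exact ⟨h2, h1.normalize_eq_self, h2.natDegree_dvd_iff_dvd_X_pow_card_pow_sub_X.1 h3⟩

theorem pp_monic {n : ℕ} (hn : n ≠ 0) : (X ^ (Nat.card F) ^ n - X : F[X]).Monic := by
  have h1 : 1 < (Nat.card F) ^ n := Nat.one_lt_pow hn Finite.one_lt_card
  exact monic_X_pow_sub (by rw [degree_X]; exact_mod_cast h1)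

theorem sum_irrDvd {n : ℕ} (hn : n ≠ 0) :
    ∑ f ∈ irrDvd F n, f.natDegree = (Nat.card F) ^ n := by
  classical
  obtain ⟨p, hp⟩ := CharP.exists F
  have hp1 : Nat.Prime p := CharP.char_is_prime F p
  have hcard : p ∣ (Nat.card F) ^ n := by
    have : Fact p.Prime := ⟨hp1⟩
    have := Fintype.ofFinite F
    obtain ⟨m, _, hm⟩ := FiniteField.card F p
    rw [Nat.card_eq_fintype_card, hm]
    exact dvd_pow (dvd_pow_self p m.ne_zero) hn
  have hsep : (X ^ (Nat.card F) ^ n - X : F[X]).Separable := galois_poly_separable p _ hcard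
  have hnd := (squarefree_iff_nodup_normalizedFactors (pp_ne (F := F) hn)).1 hsep.squarefree
  have h1 : ∑ f ∈ irrDvd F n, f.natDegree =
      ((normalizedFactors (X ^ (Nat.card F) ^ n - X : F[X])).map natDegree).sum := by
    rw [irrDvd, Finset.sum, Multiset.toFinset_val, hnd.dedup]
  have h2 : (normalizedFactors (X ^ (Nat.card F) ^ n - X : F[X])).prod =
      X ^ (Nat.card F) ^ n - X := by
    have h3 := prod_normalizedFactors_eq (pp_ne (F := F) hn)
    rw [h3, (pp_monic hn).normalize_eq_self]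
  rw [h1, ← natDegree_multiset_prod_of_monic, h2]
  · exact FiniteField.X_pow_card_pow_sub_X_natDegree_eq F hn Finite.one_lt_card
  · intro f hf
    exact ((mem_irrDvd hn).1 (by rw [irrDvd, Multiset.mem_toFinset]; exact hf)).1

variable (F) in
open Classical in
/-- The monic irreducible polynomials of degree `n`. -/
noncomputable def irr (n : ℕ) : Finset F[X] := (irrDvd F n).filter fun f => f.natDegree = n

theorem mem_irr {n : ℕ} (hn : n ≠ 0) {f : F[X]} :
    f ∈ irr F n ↔ f.Monic ∧ Irreducible f ∧ f.natDegree = n := by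
  classical
  rw [irr, Finset.mem_filter, mem_irrDvd hn]
  constructor
  · rintro ⟨⟨h1, h2, _⟩, h4⟩
    exact ⟨h1, h2, h4⟩
  · rintro ⟨h1, h2, h3⟩
    exact ⟨⟨h1, h2, h3.dvd⟩, h3⟩

/-- The lower bound for the number of monic irreducible polynomials of degree `n`. -/
theorem card_irr {n : ℕ} (hn : n ≠ 0) :
    (Nat.card F) ^ n ≤ n * (irr F n).card + ∑ d ∈ Finset.Icc 1 (n / 2), (Nat.card F) ^ d := by
  classical
  rw [← sum_irrDvd hn, ← Finset.sum_filter_add_sum_filter_not _ fun f : F[X] => f.natDegree = n]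
  apply add_le_add
  · have h1 : ∑ f ∈ (irrDvd F n).filter (fun f : F[X] => f.natDegree = n), f.natDegree =
        ∑ f ∈ irr F n, n := by
      rw [irr]
      exact Finset.sum_congr (by congr) fun f hf => (Finset.mem_filter.1 hf).2
    rw [h1, Finset.sum_const, smul_eq_mul, mul_comm]
  · rw [← Finset.sum_fiberwise_of_maps_to (t := Finset.Icc 1 (n / 2)) (g := natDegree)]
    · apply Finset.sum_le_sum
      intro d hd
      rw [Finset.mem_Icc] at hd
      rw [← sum_irrDvd (F := F) (n := d) (by omega)]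
      apply Finset.sum_le_sum_of_subset
      intro f hf
      simp only [Finset.mem_filter] at hf
      rw [mem_irrDvd (by omega)]
      have h1 := (mem_irrDvd hn).1 hf.1.1
      exact ⟨h1.1, h1.2.1, hf.2.dvd⟩
    · intro f hf
      rw [Finset.mem_filter] at hf
      obtain ⟨_, h2, h3⟩ := (mem_irrDvd hn).1 hf.1
      rw [Finset.mem_Icc]
      refine ⟨h2.natDegree_pos, ?_⟩
      obtain ⟨c, hc⟩ := h3
      have h4 : c ≠ 0 := by rintro rfl; exact hn (by rw [hc, mul_zero])
      have h5 : c ≠ 1 := by rintro rfl; exact hf.2 (by rw [hc, mul_one])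
      have h6 : 2 ≤ c := by omega
      rw [Nat.le_div_iff_mul_le (by norm_num)]
      calc f.natDegree * 2 ≤ f.natDegree * c := Nat.mul_le_mul_left _ h6
        _ = n := hc.symm

theorem geom_le {q : ℕ} (hq : 2 ≤ q) (h : ℕ) :
    ∑ d ∈ Finset.Icc 1 h, q ^ d + 2 ≤ 2 * q ^ h := by
  induction h with
  | zero => simp
  | succ h ih =>
    rw [Finset.sum_Icc_succ_top (by omega), pow_succ]
    have h1 : 0 < q ^ h := pow_pos (by omega) h
    nlinarith

/-- There are monic irreducible polynomials of every degree. -/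
theorem exists_irr {n : ℕ} (hn : n ≠ 0) :
    ∃ f : F[X], f.Monic ∧ Irreducible f ∧ f.natDegree = n := by
  have hq : 2 ≤ Nat.card F := Finite.one_lt_card
  have h1 := card_irr (F := F) hn
  have h2 := geom_le hq (n / 2)
  have h3 : 0 < (irr F n).card := by
    rcases Nat.eq_zero_or_pos (irr F n).card with h | h
    · exfalso
      rw [h, mul_zero, zero_add] at h1
      have h4 : 2 * (Nat.card F) ^ (n / 2) ≤ (Nat.card F) ^ n := by
        have h5 : n / 2 + 1 ≤ n := by omega
        calc 2 * (Nat.card F) ^ (n / 2) ≤ Nat.card F * (Nat.card F) ^ (n / 2) :=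
              Nat.mul_le_mul_right _ hq
          _ = (Nat.card F) ^ (n / 2 + 1) := by rw [pow_succ, mul_comm]
          _ ≤ (Nat.card F) ^ n := Nat.pow_le_pow_right (by omega) h5
      omega
    · exact h
  obtain ⟨f, hf⟩ := Finset.card_pos.1 h3
  exact ⟨f, (mem_irr hn).1 hf⟩

theorem card_irr_ge {n : ℕ} (hn : 3 ≤ n) : (Nat.card F) ^ n ≤ 2 * n * (irr F n).card := by
  have hq : 2 ≤ Nat.card F := Finite.one_lt_card
  have h1 := card_irr (F := F) (n := n) (by omega)
  have h2 := geom_le hq (n / 2)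
  have h4 : 4 * (Nat.card F) ^ (n / 2) ≤ (Nat.card F) ^ n := by
    have h5 : n / 2 + 2 ≤ n := by omega
    calc 4 * (Nat.card F) ^ (n / 2) ≤ (Nat.card F) ^ 2 * (Nat.card F) ^ (n / 2) :=
          Nat.mul_le_mul_right _ (by nlinarith)
      _ = (Nat.card F) ^ (n / 2 + 2) := by rw [pow_add, mul_comm]
      _ ≤ (Nat.card F) ^ n := Nat.pow_le_pow_right (by omega) h5
  have h6 : 2 * n * (irr F n).card = 2 * (n * (irr F n).card) := by ring
  omega

omit [Finite F] in
theorem one_add_sum_le {ι : Type*} (S : Finset ι) (f : ι → ℝ) (hf : ∀ i ∈ S, 0 ≤ f i) :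
    1 + ∑ i ∈ S, f i ≤ ∏ i ∈ S, (1 + f i) := by
  classical
  induction S using Finset.induction_on with
  | empty => simp
  | insert a S ha ih =>
    rw [Finset.sum_insert ha, Finset.prod_insert ha]
    have h1 := ih fun i hi => hf i (Finset.mem_insert_of_mem hi)
    have h2 := hf a (Finset.mem_insert_self a S)
    have h3 : 0 ≤ ∑ i ∈ S, f i := Finset.sum_nonneg fun i hi => hf i (Finset.mem_insert_of_mem hi)
    nlinarith

/-- The divergence of the sum of the `r ^ (- deg M)`. -/
theorem exists_sum (D0 : ℕ) (B : ℝ) : ∃ S : Finset F[X],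
    (∀ f ∈ S, f.Monic ∧ Irreducible f ∧ D0 < f.natDegree) ∧
    B ≤ ∑ f ∈ S, 1 / (Nat.card F : ℝ) ^ f.natDegree := by
  classical
  have hq : (0 : ℝ) < Nat.card F := by
    have : 0 < Nat.card F := Nat.card_pos
    exact_mod_cast this
  set E := D0 + 3 with hE
  have h1 := Real.tendsto_sum_range_one_div_nat_succ_atTop
  obtain ⟨m, hm⟩ := (h1.eventually_ge_atTop
    (2 * B + ∑ i ∈ Finset.range E, 1 / ((i : ℝ) + 1))).exists
  have h2 : ∑ i ∈ Finset.range m, 1 / ((i : ℝ) + 1) ≤
      ∑ i ∈ Finset.range E, 1 / ((i : ℝ) + 1) + ∑ i ∈ Finset.Ico E (E + m), 1 / ((i : ℝ) + 1) := by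
    rw [Finset.sum_range_add_sum_Ico _ (by omega)]
    apply Finset.sum_le_sum_of_subset_of_nonneg
    · exact Finset.range_mono (by omega)
    · intro i _ _; positivity
  have h3 : 2 * B ≤ ∑ i ∈ Finset.Ico E (E + m), 1 / ((i : ℝ) + 1) := by linarith
  refine ⟨(Finset.Ico E (E + m)).biUnion fun i => irr F (i + 1), ?_, ?_⟩
  · intro f hf
    rw [Finset.mem_biUnion] at hf
    obtain ⟨i, hi, hf⟩ := hf
    rw [Finset.mem_Ico] at hi
    rw [mem_irr (by omega)] at hf
    exact ⟨hf.1, hf.2.1, by omega⟩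
  · rw [Finset.sum_biUnion]
    · have h4 : ∀ i ∈ Finset.Ico E (E + m), 1 / 2 * (1 / ((i : ℝ) + 1)) ≤
          ∑ f ∈ irr F (i + 1), 1 / (Nat.card F : ℝ) ^ f.natDegree := by
        intro i hi
        rw [Finset.mem_Ico] at hi
        have h5 : ∑ f ∈ irr F (i + 1), 1 / (Nat.card F : ℝ) ^ f.natDegree =
            ∑ f ∈ irr F (i + 1), 1 / (Nat.card F : ℝ) ^ (i + 1) :=
          Finset.sum_congr rfl fun f hf => by rw [((mem_irr (by omega)).1 hf).2.2]
        rw [h5, Finset.sum_const, nsmul_eq_mul]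
        have h6 := card_irr_ge (F := F) (n := i + 1) (by omega)
        have h7 : (Nat.card F : ℝ) ^ (i + 1) ≤ 2 * ((i : ℝ) + 1) * (irr F (i + 1)).card := by
          exact_mod_cast h6
        rw [mul_one_div, mul_one_div, div_div, div_le_div_iff₀ (by positivity) (by positivity)]
        linarith
      have h5 := Finset.sum_le_sum h4
      rw [← Finset.mul_sum] at h5
      linarith
    · intro i hi k hk hik
      rw [Function.onFun, Finset.disjoint_left]
      intro f hf hf'
      simp only [Finset.coe_Ico, Set.mem_Ico] at hi hk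
      have h6 := ((mem_irr (by omega)).1 hf).2.2
      have h7 := ((mem_irr (by omega)).1 hf').2.2
      omega

/-- The divergence of the product of the `1 + r ^ (- deg M)`. -/
theorem exists_prod (D0 : ℕ) (B : ℝ) : ∃ S : Finset F[X],
    (∀ f ∈ S, f.Monic ∧ Irreducible f ∧ D0 < f.natDegree) ∧
    B ≤ ∏ f ∈ S, (1 + 1 / (Nat.card F : ℝ) ^ f.natDegree) := by
  obtain ⟨S, h1, h2⟩ := exists_sum (F := F) D0 B
  refine ⟨S, h1, ?_⟩
  have h3 : 1 + ∑ f ∈ S, 1 / (Nat.card F : ℝ) ^ f.natDegree ≤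
      ∏ f ∈ S, (1 + 1 / (Nat.card F : ℝ) ^ f.natDegree) :=
    one_add_sum_le S (fun f => 1 / (Nat.card F : ℝ) ^ f.natDegree) fun f _ => by positivity
  linarith

/-- The same for a finite sequence. -/
theorem exists_seq (D0 : ℕ) (B : ℝ) : ∃ (T : ℕ) (M : Fin T → F[X]), Function.Injective M ∧
    (∀ i, (M i).Monic ∧ Irreducible (M i) ∧ D0 < (M i).natDegree) ∧
    B ≤ ∏ i, (1 + 1 / (Nat.card F : ℝ) ^ (M i).natDegree) := by
  obtain ⟨S, h1, h2⟩ := exists_prod (F := F) D0 B
  refine ⟨S.card, fun i => (S.equivFin.symm i).1, ?_, fun i => h1 _ (S.equivFin.symm i).2, ?_⟩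
  · exact Subtype.val_injective.comp S.equivFin.symm.injective
  · rw [Equiv.prod_comp S.equivFin.symm fun f : S => (1 + 1 / (Nat.card F : ℝ) ^ f.1.natDegree),
      Finset.prod_coe_sort S fun f => (1 + 1 / (Nat.card F : ℝ) ^ f.natDegree)]
    exact h2

end

end Pool.Agent.FF
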