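import Pool.Agent.FF.WApp
import Pool.Agent.FF.RatCv
import Pool.Agent.FD.Diff

/-! # The trace of a differential

`E / K` finite, `om₀` a functional on the repartitions of `K`, zero on the constants and on `A(W₀)`.
Then `om = om₀ ∘ Tr` is such a functional for `E`. -/

set_option autoImplicit false
set_option linter.unusedSectionVars false

namespace Pool.Agent.FF.RHB

open Finset

section single

variable {K : Type*} [Field K]

theorem sgl_self (P : DV K) (a : K) : (sgl P a : DV K → K) P = a := by
  classical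
  show (Pi.single P a : DV K → K) P = a
  rw [Pi.single_eq_same]

theorem sgl_ne {P v : DV K} (h : v ≠ P) (a : K) : (sgl P a : DV K → K) v = 0 := by
  classical
  show (Pi.single P a : DV K → K) v = 0
  rw [Pi.single_eq_of_ne h]

end single

section main

variable {K E : Type} [Field K] [Field E] [Algebra K E]

/-- scaled integrality of the trace -/
theorem tr_G {v : DV K} (htr : ∀ x : E, (∀ w : DV E, Over w v → w.G 0 x) →
      v.G 0 (Algebra.trace K E x)) {t : K} (ht : t ≠ 0) {x : E}
    (hx : ∀ w : DV E, Over w v → w.G (w.ord (algebraMap K E t)) x) :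
    v.G (v.ord t) (Algebra.trace K E x) := by
  have htE : algebraMap K E t ≠ 0 := map_ne_zero' ht
  have h1 : v.G 0 (Algebra.trace K E ((algebraMap K E t)⁻¹ * x)) := by
    apply htr
    intro w hw
    have h2 := (DV.G_ord (v := w) (algebraMap K E t)⁻¹).mul (hx w hw)
    rw [w.ord_inv htE] at h2
    simpa using h2
  have h3 : Algebra.trace K E ((algebraMap K E t)⁻¹ * x) = t⁻¹ * Algebra.trace K E x := by
    rw [← map_inv₀, ← Algebra.smul_def, map_smul, smul_eq_mul]
  rw [h3] at h1
  have h4 := (DV.G_ord (v := v) t).mul h1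
  rw [add_zero] at h4
  rwa [← mul_assoc, mul_inv_cancel₀ ht, one_mul] at h4

variable [FiniteDimensional K E]

/-- an element of order `- W v` at `v` -/
noncomputable def T (W : DV K → ℤ) (v : DV K) : K := (v.exists_ord (- W v)).choose

theorem T_ne (W : DV K → ℤ) (v : DV K) : T W v ≠ 0 := (v.exists_ord (- W v)).choose_spec.1

theorem T_ord (W : DV K → ℤ) (v : DV K) : v.ord (T W v) = - W v :=
  (v.exists_ord (- W v)).choose_spec.2

theorem TE_ne (W : DV K → ℤ) (v : DV K) : algebraMap K E (T W v) ≠ 0 := map_ne_zero' (T_ne W v)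

/-- simultaneous approximation at the places over `v`, with the precision given by `W v` -/
theorem exists_ch (W : DV K → ℤ) (r : DV E → E) (v : DV K) :
    ∃ x : E, ∀ w : DV E, Over w v → w.G 0 (x - r w) ∧ w.G (w.ord (algebraMap K E (T W v))) (x - r w) := by
  classical
  have hf : {w : DV E | Over w v}.Finite := over_finite' v
  obtain ⟨x, hx⟩ := DV.weak_approx hf.toFinset r
    (∑ w ∈ hf.toFinset, (w.ord (algebraMap K E (T W v))).natAbs)
  refine ⟨x, fun w hw => ?_⟩
  have hw' : w ∈ hf.toFinset := hf.mem_toFinset.2 hw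
  have h1 := hx w hw'
  have h2 := Finset.single_le_sum (f := fun w : DV E => (w.ord (algebraMap K E (T W v))).natAbs)
    (fun _ _ => Nat.zero_le _) hw'
  have h3 : ((w.ord (algebraMap K E (T W v))).natAbs : ℤ) ≤
      ((∑ w ∈ hf.toFinset, (w.ord (algebraMap K E (T W v))).natAbs : ℕ) : ℤ) := by exact_mod_cast h2
  exact ⟨h1.mono (by positivity), h1.mono (by omega)⟩

/-- the simultaneous approximation -/
noncomputable def ch (W : DV K → ℤ) (r : DV E → E) (v : DV K) : E := (exists_ch W r v).choose

theorem ch_zero (W : DV K → ℤ) (r : DV E → E) {v : DV K} {w : DV E} (h : Over w v) :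
    w.G 0 (ch W r v - r w) := ((exists_ch W r v).choose_spec w h).1

theorem ch_T (W : DV K → ℤ) (r : DV E → E) {v : DV K} {w : DV E} (h : Over w v) :
    w.G (w.ord (algebraMap K E (T W v))) (ch W r v - r w) := ((exists_ch W r v).choose_spec w h).2

/-- the trace of a family, up to `A(W)` -/
noncomputable def tra (W : DV K → ℤ) (r : DV E → E) (v : DV K) : K :=
  Algebra.trace K E (ch W r v)

/-- the hypothesis on traces -/
def HTr (K E : Type) [Field K] [Field E] [Algebra K E] : Prop :=
  ∀ (v : DV K) (x : E), (∀ w : DV E, Over w v → w.G 0 x) → v.G 0 (Algebra.trace K E x)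

theorem tra_mem (htr : HTr K E) (W : DV K → ℤ) {r : DV E → E} (hr : r ∈ Adl E) :
    tra W r ∈ Adl K := by
  classical
  have hr' : {w : DV E | ¬ w.G 0 (r w)}.Finite := hr
  show Set.Finite _
  have hfin : ({v : DV K | ∃ w ∈ {w : DV E | ¬ w.G 0 (r w)}, Over w v}).Finite := by
    have : {v : DV K | ∃ w ∈ {w : DV E | ¬ w.G 0 (r w)}, Over w v} =
        ⋃ w ∈ {w : DV E | ¬ w.G 0 (r w)}, {v : DV K | Over w v} := by
      ext v; simp
    rw [this]
    refine hr'.biUnion fun w _ => ?_
    refine Set.Subsingleton.finite ?_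
    intro v hv v' hv'
    exact Over.unique hv hv'
  refine hfin.subset fun v hv => ?_
  by_contra hc
  apply hv
  apply htr
  intro w hw
  have h1 : w.G 0 (r w) := by
    by_contra h2
    exact hc ⟨w, h2, hw⟩
  have h2 := (ch_zero W r hw).add h1
  rwa [sub_add_cancel] at h2

variable {p : ℕ}

/-- two families which differ by `A(W)` and a constant -/
theorem eq_of_sub (om : Adl K →+ ZMod p) (W : DV K → ℤ)
    (hb : ∀ r : Adl K, (r : DV K → K) ∈ Bdd W → om r = 0) {r s : Adl K}
    (h : ∀ v : DV K, v.G (- W v) ((r : DV K → K) v - (s : DV K → K) v)) : om r = om s := by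
  have h1 := hb (r - s) (fun v => h v)
  rwa [map_sub, sub_eq_zero] at h1

/-- the differential of `E` -/
noncomputable def omE (htr : HTr K E) (om : Adl K →+ ZMod p) (W : DV K → ℤ)
    (hb : ∀ r : Adl K, (r : DV K → K) ∈ Bdd W → om r = 0) : Adl E →+ ZMod p :=
  AddMonoidHom.mk' (fun r => om ⟨tra W (r : DV E → E), tra_mem htr W r.2⟩) (by
    intro r s
    rw [← map_add]
    refine eq_of_sub om W hb fun v => ?_
    show v.G (- W v) (Algebra.trace K E (ch W ((r + s : Adl E) : DV E → E) v) -
      (Algebra.trace K E (ch W (r : DV E → E) v) + Algebra.trace K E (ch W (s : DV E → E) v)))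
    rw [← map_add, ← map_sub, ← T_ord W v]
    refine tr_G (htr v) (T_ne W v) fun w hw => ?_
    have h1 := ch_T W ((r + s : Adl E) : DV E → E) hw
    have h2 := ch_T W (r : DV E → E) hw
    have h3 := ch_T W (s : DV E → E) hw
    have h4 := (h1.sub h2).sub h3
    have e : ch W ((r + s : Adl E) : DV E → E) v - (ch W (r : DV E → E) v + ch W (s : DV E → E) v) =
        ch W ((r + s : Adl E) : DV E → E) v - ((r + s : Adl E) : DV E → E) w -
        (ch W (r : DV E → E) v - (r : DV E → E) w) - (ch W (s : DV E → E) v - (s : DV E → E) w) := by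
      have : ((r + s : Adl E) : DV E → E) w = (r : DV E → E) w + (s : DV E → E) w := rfl
      rw [this]
      ring
    rw [e]
    exact h4)

theorem omE_apply (htr : HTr K E) (om : Adl K →+ ZMod p) (W : DV K → ℤ)
    (hb : ∀ r : Adl K, (r : DV K → K) ∈ Bdd W → om r = 0) (r : Adl E) :
    omE htr om W hb r = om ⟨tra W (r : DV E → E), tra_mem htr W r.2⟩ := rfl

/-- it can be computed with any approximation -/
theorem omE_eq (htr : HTr K E) (om : Adl K →+ ZMod p) (W : DV K → ℤ)
    (hb : ∀ r : Adl K, (r : DV K → K) ∈ Bdd W → om r = 0) (r : Adl E) (s : Adl K) (x : DV K → E)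
    (hx : ∀ (v : DV K) (w : DV E), Over w v →
      w.G (w.ord (algebraMap K E (T W v))) (x v - (r : DV E → E) w))
    (hs : ∀ v : DV K, v.G (- W v) ((s : DV K → K) v - Algebra.trace K E (x v))) :
    omE htr om W hb r = om s := by
  rw [omE_apply]
  refine eq_of_sub om W hb fun v => ?_
  have h1 : v.G (- W v) (Algebra.trace K E (ch W (r : DV E → E) v - x v)) := by
    rw [← T_ord W v]
    refine tr_G (htr v) (T_ne W v) fun w hw => ?_
    have h2 := (ch_T W (r : DV E → E) hw).sub (hx v w hw)
    have e : ch W (r : DV E → E) v - x v = ch W (r : DV E → E) v - (r : DV E → E) w -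
      (x v - (r : DV E → E) w) := by ring
    rw [e]
    exact h2
  have h2 := h1.sub (hs v)
  show v.G (- W v) (Algebra.trace K E (ch W (r : DV E → E) v) - (s : DV K → K) v)
  rw [map_sub] at h2
  have e : Algebra.trace K E (ch W (r : DV E → E) v) - (s : DV K → K) v =
    Algebra.trace K E (ch W (r : DV E → E) v) - Algebra.trace K E (x v) -
      ((s : DV K → K) v - Algebra.trace K E (x v)) := by ring
  rw [e]
  exact h2

/-- it is zero on the constants -/
theorem omE_prin (hpr : Prin K ≤ Adl K) (htr : HTr K E) (om : Adl K →+ ZMod p) (W : DV K → ℤ)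
    (hb : ∀ r : Adl K, (r : DV K → K) ∈ Bdd W → om r = 0)
    (hp : ∀ r : Adl K, (r : DV K → K) ∈ Prin K → om r = 0) (r : Adl E)
    (hr : (r : DV E → E) ∈ Prin E) : omE htr om W hb r = 0 := by
  obtain ⟨a, ha⟩ := hr
  have h1 : (fun _ => Algebra.trace K E a : DV K → K) ∈ Prin K := ⟨_, fun _ => rfl⟩
  rw [omE_eq htr om W hb r ⟨_, hpr h1⟩ (fun _ => a) (fun v w _ => ?_) (fun v => ?_)]
  · exact hp _ h1
  · rw [ha, sub_self]
    exact DV.G_zero _
  · show v.G (- W v) (Algebra.trace K E a - Algebra.trace K E a)
    rw [sub_self]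
    exact DV.G_zero _

/-- it is zero on `A(W')`, `W'` the inverse image of `W` -/
theorem omE_bdd (htr : HTr K E) (om : Adl K →+ ZMod p) (W : DV K → ℤ)
    (hb : ∀ r : Adl K, (r : DV K → K) ∈ Bdd W → om r = 0) (r : Adl E)
    (hr : ∀ (v : DV K) (w : DV E), Over w v →
      w.G (w.ord (algebraMap K E (T W v))) ((r : DV E → E) w)) :
    omE htr om W hb r = 0 := by
  rw [omE_eq htr om W hb r 0 (fun _ => 0) (fun v w hw => ?_) (fun v => ?_), map_zero]
  · rw [zero_sub]
    exact (hr v w hw).neg
  · show v.G (- W v) (0 - Algebra.trace K E 0)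
    rw [map_zero, sub_zero]
    exact DV.G_zero _

/-- **Sharpness.** -/
theorem omE_sharp (htr : HTr K E) (om : Adl K →+ ZMod p) (W : DV K → ℤ)
    (hb : ∀ r : Adl K, (r : DV K → K) ∈ Bdd W → om r = 0)
    (hs : ∀ v : DV K, ∃ z : K, v.G (- W v - 1) z ∧ om (sgl v z) ≠ 0)
    {v : DV K} {P : DV E} (hP : Over P v) (d : ℤ)
    (hd : ∀ a : E, (∀ b : E, (∀ w : DV E, Over w v → w.G 0 b) →
      v.G 0 (Algebra.trace K E (a * b))) → P.G (- d) a) :
    ∃ a : E, P.G (P.ord (algebraMap K E (T W v)) - d - 1) a ∧ omE htr om W hb (sgl P a) ≠ 0 := by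
  classical
  -- `y` of order `- d - 1` at `P`, integral at the other places over `v`
  obtain ⟨y₀, hy₀, hy₀P⟩ := P.exists_ord (- d - 1)
  have hf : {w : DV E | Over w v}.Finite := over_finite' v
  obtain ⟨y, hy⟩ := DV.weak_approx hf.toFinset (Function.update (0 : DV E → E) P y₀) (d.natAbs + 1)
  have hyP : y ≠ 0 ∧ P.ord y = - d - 1 := by
    have h1 := hy P (hf.mem_toFinset.2 hP)
    rw [Function.update_self] at h1
    have h2 := DV.ord_add_of_lt (v := P) (a := y₀) (b := y - y₀) hy₀ (h1.mono (by
      rw [hy₀P]; omega))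
    rwa [add_sub_cancel, hy₀P] at h2
  have hyw : ∀ w : DV E, Over w v → w ≠ P → w.G 0 y := by
    intro w hw hne
    have h1 := hy w (hf.mem_toFinset.2 hw)
    rw [Function.update_of_ne hne] at h1
    simpa using h1.mono (by positivity : (0 : ℤ) ≤ _)
  -- the trace of `y b` is not integral
  obtain ⟨b, hb1, hb2⟩ : ∃ b : E, (∀ w : DV E, Over w v → w.G 0 b) ∧
      ¬ v.G 0 (Algebra.trace K E (y * b)) := by
    by_contra hno
    push Not at hno
    have h1 := (hd y hno).le hyP.1
    omega
  set s := Algebra.trace K E (y * b) with hs'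
  have hs0 : s ≠ 0 := DV.ne_zero_of_not_G hb2
  have hsv := (DV.not_G hs0).1 hb2
  obtain ⟨z, hz, hz'⟩ := hs v
  set t := T W v with ht
  have ht0 : t ≠ 0 := T_ne W v
  have htv : v.ord t = - W v := T_ord W v
  -- `u = z / (t s)` is integral
  have hu : v.G 0 (z / (t * s)) := by
    have h1 := hz.mul (DV.G_ord (v := v) (t * s)⁻¹)
    rw [v.ord_inv (mul_ne_zero ht0 hs0), v.ord_mul _ _ ht0 hs0, htv] at h1
    rw [div_eq_mul_inv]
    exact h1.mono (by omega)
  set u := z / (t * s) with hu'
  have hz2 : t * u * s = z := by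
    rw [hu']
    field_simp
  refine ⟨algebraMap K E t * (y * (algebraMap K E u * b)), ?_, ?_⟩
  · have h1 := (DV.G_ord (v := P) (algebraMap K E t)).mul ((DV.G_ord (v := P) y).mul
      (((hP.G_zero_iff u).2 hu).mul (hb1 P hP)))
    rw [hyP.2] at h1
    exact h1.mono (by omega)
  · have key : omE htr om W hb (sgl P (algebraMap K E t * (y * (algebraMap K E u * b)))) =
        om (sgl v z) := by
      refine omE_eq htr om W hb _ _ (fun v' => if v' = v then
        ch W (sgl P (algebraMap K E t * (y * (algebraMap K E u * b))) : DV E → E) v else 0) ?_ ?_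
      · intro v' w hw
        by_cases hv : v' = v
        · subst hv
          rw [if_pos rfl]
          exact ch_T W _ hw
        · rw [if_neg hv, zero_sub]
          have hwP : w ≠ P := by
            rintro rfl
            exact hv (Over.unique hw hP)
          rw [sgl_ne hwP, neg_zero]
          exact DV.G_zero _
      · intro v'
        by_cases hv : v' = v
        · subst hv
          rw [if_pos rfl, sgl_self]
          have h1 : z = Algebra.trace K E (algebraMap K E t * (y * (algebraMap K E u * b))) := by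
            have e : algebraMap K E t * (y * (algebraMap K E u * b)) = (t * u) • (y * b) := by
              rw [Algebra.smul_def, map_mul]
              ring
            rw [e, map_smul, smul_eq_mul, ← hs', hz2]
          rw [h1, ← map_sub, ← T_ord W v']
          refine tr_G (htr v') (T_ne W v') fun w hw => ?_
          by_cases hwP : w = P
          · subst hwP
            have h2 := (ch_T W (sgl w (algebraMap K E t * (y * (algebraMap K E u * b))) : DV E → E)
              hw).neg
            rwa [neg_sub, sgl_self] at h2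
          · have h2 := ch_T W (sgl P (algebraMap K E t * (y * (algebraMap K E u * b))) : DV E → E) hw
            rw [sgl_ne hwP, sub_zero] at h2
            have h3 := (DV.G_ord (v := w) (algebraMap K E t)).mul ((hyw w hw hwP).mul
              (((hw.G_zero_iff u).2 hu).mul (hb1 w hw)))
            exact (h3.mono (by rw [← ht]; omega)).sub h2
        · rw [if_neg hv, sgl_ne hv, map_zero, sub_zero]
          exact DV.G_zero _
    rw [key]
    exact hz'

end main

end Pool.Agent.FF.RHB
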