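import Pool.Agent.FD.Cusp
import Pool.Agent.FD.Lag

/-! # D4: the places over `g = 0`, no ramification outside infinity (35) -/

set_option autoImplicit false

namespace Pool.Agent.FF

section

variable {F k H : Type} [Field F] [Finite F] [Field k] [Finite k] [Field H] [Algebra F k]
  [Algebra F H] [Algebra k H] [Algebra (RatFunc k) H] [IsScalarTower k (RatFunc k) H]

omit [Algebra k H] [IsScalarTower k (RatFunc k) H] in
/-- `g` is integral at the places which are not over infinity -/
theorem G_gX_of_ne {w : DV H} {v : DV (RatFunc k)} (hw : Over w v) (hv : v ≠ Rat.inf k) :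
    w.G 0 (gX k H) :=
  (hw.G_zero_iff _).2 (DV.G_of_le (Rat.ne_inf.1 hv))

/-- the torsion of a divisor -/
theorem VN_le_of_dvd (g : H) {M N : Polynomial F} (hd : M ∣ N) : VN F g M ≤ VN F g N := by
  obtain ⟨c, rfl⟩ := hd
  intro x hx
  rw [VN, LinearMap.mem_ker] at hx ⊢
  rw [mul_comm, phN_mul, hx, map_zero]

/-- units `σ x - x` at the finite places -/
theorem drS_unit {N : Polynomial F} (h : DrS F k H N) {Q : DV H} {v : DV (RatFunc k)}
    (hQ : Over Q v) (hv : v ≠ Rat.inf k) (σ : H ≃ₐ[RatFunc k] H) (hσ : σ ≠ 1) :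
    ∃ x : H, IntO v x ∧ σ x - x ≠ 0 ∧ Q.ord (σ x - x) = 0 := by
  have hex : ∃ x ∈ VN F (gX k H) N, σ x ≠ x := by
    by_contra hno
    push Not at hno
    apply hσ
    have h1 : ∀ x ∈ IntermediateField.adjoin (RatFunc k) (VN F (gX k H) N : Set H), σ x = x := by
      intro x hx
      induction hx using IntermediateField.adjoin_induction with
      | mem x hx => exact hno x hx
      | algebraMap x => exact σ.commutes x
      | add x y _ _ hx hy => rw [map_add, hx, hy]
      | inv x _ hx => rw [map_inv₀, hx]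
      | mul x y _ _ hx hy => rw [map_mul, hx, hy]
    exact AlgEquiv.ext fun x => h1 x (by rw [h.gen]; trivial)
  obtain ⟨x, hx, hne⟩ := hex
  have h0 : σ x - x ≠ 0 := sub_ne_zero.2 hne
  refine ⟨x, fun w hw => ?_, h0, ?_⟩
  · by_cases hx0 : x = 0
    · exact Or.inl hx0
    · exact DV.G_of_le (VN_unit (G_gX_of_ne hw hv) h.one hx hx0).ge
  · exact VN_unit (G_gX_of_ne hQ hv) h.one (sub_mem ((mem_VN_map h.tower σ N x).2 hx) hx) h0

/-- `H` is unramified outside infinity -/
theorem drS_unram {N : Polynomial F} (h : DrS F k H N) {Q : DV H} {v : DV (RatFunc k)}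
    (hQ : Over Q v) (hv : v ≠ Rat.inf k) : OverE Q v 1 := by
  have := h.fin
  have := h.gal
  exact unram hQ fun σ hσ => drS_unit h hQ hv σ hσ

/-- the Frobenius elements over `g = 0` fix all stable subspaces of the torsion -/
theorem frob_zero {N : Polynomial F} (h : DrS F k H N) {Q : DV H} (hQ : Over Q (Rat.pt (0 : k))) :
    ∃ σ : H ≃ₐ[RatFunc k] H, (∀ a, Q.G 0 a → Q.G 1 (σ a - a ^ Nat.card k)) ∧
      ∀ L : Submodule F H, L ≤ VN F (gX k H) N → (∀ x ∈ L, phT F (gX k H) x ∈ L) →
        ∀ x, x ∈ L ↔ σ x ∈ L := by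
  have := h.fin
  have := h.gal
  have hk : 0 < Nat.card k := Nat.card_pos
  have hres : (Rat.pt (0 : k)).resCard = Nat.card k := (rational_iff k _).2 (Rat.pt_rat (0 : k))
  obtain ⟨σ, hσ⟩ := exists_frob hQ (by rw [hres]; exact hk.ne')
  rw [hres] at hσ
  refine ⟨σ, hσ, ?_⟩
  have hg1 : Q.G 1 (gX k H) := by
    refine (hQ.G_one_iff _).2 (DV.G_of_le ?_)
    have := Rat.pt_ord (0 : k)
    rw [map_zero, sub_zero] at this
    exact this.ge
  have hg0 : Q.G 0 (gX k H) := hg1.mono (by norm_num)
  -- `σ x = x - φ_T x`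
  have hfr : ∀ x ∈ VN F (gX k H) N, σ x = x - phT F (gX k H) x := by
    intro x hx
    have hst : phT F (gX k H) x ∈ VN F (gX k H) N := by
      have h1 := phN_mem (gX k H) Polynomial.X N hx
      rwa [phN, Polynomial.aeval_X] at h1
    have hm : σ x - (x - phT F (gX k H) x) ∈ VN F (gX k H) N :=
      sub_mem ((mem_VN_map h.tower σ N x).2 hx) (sub_mem hx hst)
    by_contra hne
    have hne' : σ x - (x - phT F (gX k H) x) ≠ 0 := sub_ne_zero.2 hne
    have h2 := VN_unit hg0 h.one hm hne'
    have hx0 : Q.G 0 x := by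
      by_cases h3 : x = 0
      · exact Or.inl h3
      · exact DV.G_of_le (VN_unit hg0 h.one hx h3).ge
    have h3 : Q.G 1 (σ x - (x - phT F (gX k H) x)) := by
      have e : σ x - (x - phT F (gX k H) x) =
          (σ x - x ^ Nat.card k) + gX k H * x ^ Nat.card F := by
        rw [phT_apply, h.card]
        ring
      rw [e]
      exact (hσ x hx0).add (GalAux.G_one_mul_l hg1 (GalAux.G_zero_pow hx0 _))
    have h4 := h3.le hne'
    rw [h2] at h4
    omega
  intro L hL hLst x
  have hfin : Finite (VN F (gX k H) N) := finite_VN _ h.monic.ne_zero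
  have hfL : Finite L := Finite.of_injective (fun y : L => (⟨y.1, hL y.2⟩ : VN F (gX k H) N))
    fun y y' hy => Subtype.ext (congrArg (fun z : VN F (gX k H) N => (z : H)) hy)
  have hmap : ∀ y ∈ L, σ y ∈ L := fun y hy => by
    rw [hfr y (hL hy)]
    exact sub_mem hy (hLst y hy)
  refine ⟨hmap x, fun hx => ?_⟩
  let f : L → L := fun y => ⟨σ y.1, hmap _ y.2⟩
  have hinj : Function.Injective f := fun y y' hy =>
    Subtype.ext (σ.injective (congrArg Subtype.val hy))
  obtain ⟨y, hy⟩ := (Finite.injective_iff_surjective.1 hinj) ⟨σ x, hx⟩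
  have h5 : σ y.1 = σ x := congrArg Subtype.val hy
  rw [← σ.injective h5]
  exact y.2

/-- residues fixed by the `|k|`-th power map are constants -/
theorem exists_const_of_pow {K : Type*} [Field K] [Algebra k K] {w : DV K} {a : K}
    (h : w.G 1 (a ^ Nat.card k - a)) : ∃ c : k, w.G 1 (a - algebraMap k K c) := by
  have := Fintype.ofFinite k
  have h1 : a ^ Nat.card k - a =
      ((Finset.univ : Finset k).val.map fun c => a - algebraMap k K c).prod := by
    have h2 : (Polynomial.X ^ Nat.card k - Polynomial.X : Polynomial k) =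
        ((Finset.univ : Finset k).val.map fun c => Polynomial.X - Polynomial.C c).prod := by
      have h4 : (Polynomial.X ^ Fintype.card k - Polynomial.X : Polynomial k).Monic := by
        refine Polynomial.monic_X_pow_sub ?_
        rw [Polynomial.degree_X]
        exact_mod_cast Fintype.one_lt_card (α := k)
      have h5 := Polynomial.prod_multiset_X_sub_C_of_monic_of_roots_card_eq h4 (by
        rw [FiniteField.roots_X_pow_card_sub_X,
          FiniteField.X_pow_card_sub_X_natDegree_eq k Fintype.one_lt_card]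
        rfl)
      rw [FiniteField.roots_X_pow_card_sub_X] at h5
      rw [Nat.card_eq_fintype_card]
      exact h5.symm
    have h3 := congrArg (Polynomial.aeval a) h2
    rw [map_sub, map_pow, Polynomial.aeval_X, map_multiset_prod, Multiset.map_map] at h3
    rw [h3]
    congr 1
    refine Multiset.map_congr rfl fun c _ => ?_
    simp
  rw [h1] at h
  obtain ⟨r, hr, h2⟩ := GalAux.exists_of_prod _ h
  obtain ⟨c, -, rfl⟩ := Multiset.mem_map.1 hr
  exact ⟨c, h2⟩

variable {s : ℕ} {M : Fin s → Polynomial F}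

/-- all places of the field of a line tuple over `g = 0` are rational and unramified -/
theorem zero_rat (h : DrS F k H (∏ i, M i)) {L : Fin s → Submodule F H} (hL : LT (gX k H) M L)
    {P : DV (EL k L)} (hP : Over P (Rat.pt (0 : k))) : OverE P (Rat.pt (0 : k)) 1 ∧ P.Rat k := by
  have := h.fin
  have := h.gal
  obtain ⟨Q, hQ⟩ := exists_aboveH (K := RatFunc k) (H := H) P
  have hQ0 : Over Q (Rat.pt (0 : k)) := hQ.trans' hP
  constructor
  · have h1 := drS_unram h hQ0 (Rat.pt_ne_inf 0)
    obtain ⟨e, he⟩ := hP.overE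
    obtain ⟨e', he'⟩ := hQ.overE
    have h2 : (e' : ℤ) * e = 1 := by
      obtain ⟨t, ht0, ht1⟩ := (Rat.pt (0 : k)).exists_one
      have h3 := h1.2 t
      rw [IsScalarTower.algebraMap_apply (RatFunc k) (EL k L) H, he'.2, he.2, ht1] at h3
      push_cast at h3
      linarith
    have h3 : e' * e = 1 := by exact_mod_cast h2
    have h4 : e = 1 := Nat.eq_one_of_mul_eq_one_left h3
    rw [h4] at he
    exact he
  · obtain ⟨σ, hσ, hfix⟩ := frob_zero h hQ0
    intro a ha
    have haQ : Q.G 0 (a : H) := (hQ.G_zero_iff a).2 ha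
    have hmem : σ ∈ stL k L := by
      show ∀ i x, x ∈ L i ↔ σ x ∈ L i
      intro i
      exact hfix (L i) ((hL.line i).le.trans (VN_le_of_dvd _
        (Finset.dvd_prod_of_mem _ (Finset.mem_univ i)))) (hL.line i).st
    have h1 : σ (a : H) = a := (IntermediateField.mem_fixedField_iff _ _).1 a.2 σ hmem
    have h2 := hσ _ haQ
    rw [h1] at h2
    obtain ⟨c, hc⟩ := exists_const_of_pow (GalAux.G_one_sub_symm h2)
    refine ⟨c, (hQ.G_one_iff _).1 ?_⟩
    rw [map_sub]
    exact hc

end

end Pool.Agent.FF
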